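import Pool.Agent.STR.P_LC

/-!
# Project STR: the lower bound `Ω(log P)` (known), in the model of `Model.lean`
-/

set_option autoImplicit false

namespace STR

namespace LOW_

/-- the instance with `K` jobs released at `0` of sizes `2 ^ (σ j)` -/
noncomputable def inst (K : ℕ) (σ : Equiv.Perm (Fin K)) : Inst where
  jobs := Finset.range K
  r := fun _ => 0
  p := fun j => if h : j < K then (2 : ℝ) ^ ((σ ⟨j, h⟩ : Fin K) : ℕ) else 1
  r_nonneg := fun _ _ => le_rfl
  p_pos := fun j hj => by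
    rw [dif_pos (Finset.mem_range.1 hj)]
    positivity

theorem inst_p (K : ℕ) (σ : Equiv.Perm (Fin K)) (j : Fin K) :
    (inst K σ).p (j : ℕ) = (2 : ℝ) ^ ((σ j : Fin K) : ℕ) := by
  show (if h : (j : ℕ) < K then (2 : ℝ) ^ ((σ ⟨j, h⟩ : Fin K) : ℕ) else 1) = _
  rw [dif_pos j.isLt]

open Classical in
/-- number of the completed jobs at time `x` -/
noncomputable def Nn {K : ℕ} (A : Inst → ℕ → ℝ → ℝ) (σ : Equiv.Perm (Fin K)) (x : ℝ) : ℕ :=
  (Finset.univ.filter fun j : Fin K => (inst K σ).p (j : ℕ) ≤ A (inst K σ) j x).card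

/-- later completions at the first difference -/
def gt {K : ℕ} (A : Inst → ℕ → ℝ → ℝ) (σ' σ : Equiv.Perm (Fin K)) : Prop :=
  ∃ t, (∀ x < t, Nn A σ' x = Nn A σ x) ∧ Nn A σ' t < Nn A σ t

theorem gt_trans {K : ℕ} (A : Inst → ℕ → ℝ → ℝ) (a b c : Equiv.Perm (Fin K)) (h1 : gt A a b)
    (h2 : gt A b c) : gt A a c := by
  obtain ⟨t, ht, ht'⟩ := h1
  obtain ⟨u, hu, hu'⟩ := h2
  rcases lt_trichotomy t u with h | h | h
  · exact ⟨t, fun x hx => (ht x hx).trans (hu x (hx.trans h)), by rw [← hu t h]; exact ht'⟩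
  · subst h
    exact ⟨t, fun x hx => (ht x hx).trans (hu x hx), ht'.trans hu'⟩
  · exact ⟨u, fun x hx => (ht x (hx.trans h)).trans (hu x hx), by rw [ht u h]; exact hu'⟩

theorem exists_max {K : ℕ} (A : Inst → ℕ → ℝ → ℝ) : ∃ σ : Equiv.Perm (Fin K), ∀ σ', ¬ gt A σ' σ := by
  have h1 : IsTrans (Equiv.Perm (Fin K)) (gt A) := ⟨gt_trans A⟩
  have h2 : Std.Irrefl (gt A : Equiv.Perm (Fin K) → _ → Prop) := ⟨by
    rintro a ⟨t, -, h⟩
    exact lt_irrefl _ h⟩
  have hwf : WellFounded (gt A : Equiv.Perm (Fin K) → _ → Prop) :=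
    Finite.wellFounded_of_trans_of_irrefl _
  obtain ⟨σ, -, hσ⟩ := hwf.has_min Set.univ ⟨1, trivial⟩
  exact ⟨σ, fun σ' h => hσ σ' trivial h⟩

/-- at the least completion time the work is exactly the size -/
theorem exact_work {I : Inst} {s : ℝ} (hs : 0 < s) {W : ℕ → ℝ → ℝ} (hW : Feasible I s W) {j : ℕ}
    (hj : j ∈ I.jobs) {t : ℝ} (ht : IsLeast {x | I.p j ≤ W j x} t) : W j t = I.p j := by
  refine le_antisymm ?_ ht.1
  by_contra hc
  rw [not_le] at hc
  have hd : 0 < (W j t - I.p j) / (2 * s) := div_pos (by linarith) (by linarith)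
  have h1 := LC_.lip hW hj (show t - (W j t - I.p j) / (2 * s) ≤ t by linarith)
  have h2 : s * (t - (t - (W j t - I.p j) / (2 * s))) = (W j t - I.p j) / 2 := by
    field_simp
    ring
  rw [h2] at h1
  have h3 := ht.2 (show t - (W j t - I.p j) / (2 * s) ∈ {x | I.p j ≤ W j x} by
    show I.p j ≤ _
    linarith)
  linarith

/-- the work at the completion time of a smaller job -/
theorem key {K : ℕ} {s : ℝ} (hs : 0 < s) {A : Inst → ℕ → ℝ → ℝ} (hA : NonClair s A)
    (σ : Equiv.Perm (Fin K)) (hσ : ∀ σ', ¬ gt A σ' σ) (a b : Fin K) (hab : σ a < σ b) (t : ℝ)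
    (ht : IsLeast {x | (inst K σ).p a ≤ A (inst K σ) a x} t) :
    (2 : ℝ) ^ ((σ a : Fin K) : ℕ) ≤ A (inst K σ) b t := by
  classical
  by_contra hc
  rw [not_le] at hc
  set σ' := σ * Equiv.swap a b with hσ'
  have hne : a ≠ b := by rintro rfl; exact lt_irrefl _ hab
  have hpow : (2 : ℝ) ^ ((σ a : Fin K) : ℕ) < (2 : ℝ) ^ ((σ b : Fin K) : ℕ) :=
    pow_lt_pow_right₀ (by norm_num) hab
  have pa : (inst K σ).p a = (2 : ℝ) ^ ((σ a : Fin K) : ℕ) := inst_p K σ a
  have pb : (inst K σ).p b = (2 : ℝ) ^ ((σ b : Fin K) : ℕ) := inst_p K σ b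
  have pa' : (inst K σ').p a = (2 : ℝ) ^ ((σ b : Fin K) : ℕ) := by
    rw [inst_p, hσ', Equiv.Perm.mul_apply, Equiv.swap_apply_left]
  have pb' : (inst K σ').p b = (2 : ℝ) ^ ((σ a : Fin K) : ℕ) := by
    rw [inst_p, hσ', Equiv.Perm.mul_apply, Equiv.swap_apply_right]
  have po : ∀ j : Fin K, j ≠ a → j ≠ b → (inst K σ').p j = (inst K σ).p j := by
    intro j h1 h2
    rw [inst_p, inst_p, hσ', Equiv.Perm.mul_apply, Equiv.swap_apply_of_ne_of_ne h1 h2]
  have hmem : ∀ j : Fin K, (j : ℕ) ∈ (inst K σ).jobs := fun j => Finset.mem_range.2 j.isLt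
  have hmem' : ∀ j : Fin K, (j : ℕ) ∈ (inst K σ').jobs := fun j => Finset.mem_range.2 j.isLt
  have hjob : (inst K σ).jobs = Finset.range K := rfl
  have hpap : 0 < (inst K σ).p a := (inst K σ).p_pos a (hmem a)
  have ht0 : 0 < t := by
    by_contra h0
    rw [not_lt] at h0
    have h1 := (hA.feas (inst K σ)).before a (hmem a) t h0
    have h2 : (inst K σ).p a ≤ A (inst K σ) a t := ht.1
    rw [h1] at h2
    linarith
  have h1 : ∀ j, (j ∈ (inst K σ).jobs ∧ (inst K σ).r j < t + 1) ↔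
      (j ∈ (inst K σ').jobs ∧ (inst K σ').r j < t + 1) := fun j => Iff.rfl
  have h2 : ∀ j ∈ (inst K σ).jobs, (inst K σ).r j < t + 1 → (inst K σ).r j = (inst K σ').r j :=
    fun j _ _ => rfl
  have hr0 : ∀ j, (inst K σ).r j < t + 1 := fun j => by
    show (0 : ℝ) < t + 1
    linarith
  -- no difference before `t`
  have h3 : ∀ j ∈ (inst K σ).jobs, (inst K σ).r j < t + 1 → ∀ x < t,
      ((inst K σ).p j ≤ A (inst K σ) j x ↔ (inst K σ').p j ≤ A (inst K σ') j x) := by
    intro j hj hr x hx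
    have hτ : (x + t) / 2 < t + 1 := by linarith
    by_contra hcon
    have h4 := LC_.key2 hs hA h1 h2 hτ (fun h => hcon (h j hj hr x (by linarith)))
    obtain ⟨y, -, hy, i, hi, he, hcase⟩ := h4
    have hi' := (Finset.mem_filter.1 hi).1
    rw [hjob, Finset.mem_range] at hi'
    obtain ⟨i, rfl⟩ : ∃ i' : Fin K, (i' : ℕ) = i := ⟨⟨i, hi'⟩, rfl⟩
    by_cases hia : i = a
    · subst hia
      rcases hcase with ⟨hc1, hc2⟩ | ⟨hc1, hc2⟩
      · have h5 := ht.2 (show y ∈ {x | (inst K σ).p i ≤ A (inst K σ) i x} from hc1.ge)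
        linarith
      · rw [pa', pa] at hc2
        linarith
    · by_cases hib : i = b
      · subst hib
        have h6 := (hA.feas (inst K σ)).mono i (hmem i) (show y ≤ t by linarith)
        rcases hcase with ⟨hc1, hc2⟩ | ⟨hc1, hc2⟩
        · rw [pb', pb] at hc2
          linarith
        · rw [pb'] at hc1
          linarith
      · rw [po i hia hib] at hcase
        rcases hcase with ⟨-, h⟩ | ⟨-, h⟩ <;> exact lt_irrefl _ h
  have heq := LC_.same hA h1 h2 (by linarith : t ≤ t + 1) h3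
  apply hσ σ'
  refine ⟨t, ?_, ?_⟩
  · intro x hx
    unfold Nn
    congr 1
    apply Finset.filter_congr
    intro j _
    exact (h3 j (hmem j) (hr0 j) x hx).symm
  · unfold Nn
    apply Finset.card_lt_card
    rw [Finset.ssubset_iff_of_subset]
    · refine ⟨a, ?_, ?_⟩
      · rw [Finset.mem_filter]
        exact ⟨Finset.mem_univ _, ht.1⟩
      · rw [Finset.mem_filter]
        rintro ⟨-, h⟩
        rw [pa', ← heq a (hmem a) (hr0 a) t le_rfl,
          exact_work hs (hA.feas (inst K σ)) (hmem a) ht, pa] at h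
        linarith
    · intro j hj
      rw [Finset.mem_filter] at hj ⊢
      refine ⟨Finset.mem_univ _, ?_⟩
      by_cases hja : j = a
      · subst hja
        exact ht.1
      · by_cases hjb : j = b
        · subst hjb
          have h := hj.2
          rw [pb', ← heq j (hmem j) (hr0 j) t le_rfl] at h
          linarith
        · have h := hj.2
          rw [po j hja hjb, ← heq j (hmem j) (hr0 j) t le_rfl] at h
          exact h

/-- one job of size `2 ^ i` served in `[2 ^ i - 1, 2 ^ (i+1) - 1]` -/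
noncomputable def gg (i : ℕ) (t : ℝ) : ℝ := max 0 (min (t - (2 ^ i - 1)) (2 ^ i))

theorem gg_sum (K : ℕ) (t : ℝ) :
    ∑ i ∈ Finset.range K, gg i t = max 0 (min t (2 ^ K - 1)) := by
  induction K with
  | zero =>
    simp only [Finset.range_zero, Finset.sum_empty, pow_zero, sub_self]
    exact (max_eq_left (min_le_right _ _)).symm
  | succ K ih =>
    rw [Finset.sum_range_succ, ih]
    unfold gg
    have h1 : (1 : ℝ) ≤ 2 ^ K := one_le_pow₀ (by norm_num)
    have h2 : (2 : ℝ) ^ (K + 1) = 2 * 2 ^ K := by rw [pow_succ]; ring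
    rw [h2]
    generalize (2 : ℝ) ^ K = y at h1 ⊢
    rcases le_total t (y - 1) with h | h
    · rw [min_eq_left h, min_eq_left (by linarith : t - (y - 1) ≤ y),
        max_eq_left (by linarith : t - (y - 1) ≤ 0), min_eq_left (by linarith : t ≤ 2 * y - 1),
        add_zero]
    · rw [min_eq_right h, max_eq_right (by linarith : 0 ≤ y - 1)]
      rcases le_total (t - (y - 1)) y with h' | h'
      · rw [min_eq_left h', max_eq_right (by linarith : 0 ≤ t - (y - 1)),
          min_eq_left (by linarith : t ≤ 2 * y - 1), max_eq_right (by linarith : 0 ≤ t)]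
        ring
      · rw [min_eq_right h', max_eq_right (by linarith : 0 ≤ y),
          min_eq_right (by linarith : 2 * y - 1 ≤ t), max_eq_right (by linarith : 0 ≤ 2 * y - 1)]
        ring

theorem gg_mono (i : ℕ) : Monotone (gg i) := by
  intro x y h
  unfold gg
  exact max_le_max le_rfl (min_le_min (by linarith) le_rfl)

theorem clamp_lip (c x y : ℝ) (h : x ≤ y) :
    max 0 (min y c) - max 0 (min x c) ≤ y - x := by
  rcases le_total x c with h1 | h1 <;> rcases le_total y c with h2 | h2 <;>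
    simp only [min_eq_left, min_eq_right, h1, h2] <;>
    rcases le_total 0 x with h3 | h3 <;> rcases le_total 0 y with h4 | h4 <;>
    rcases le_total 0 c with h5 | h5 <;>
    simp only [max_eq_left, max_eq_right, h3, h4, h5] <;> linarith

end LOW_

/-- Lower bound. -/
theorem p_LOW (s : ℝ) (hs : 0 < s) (A : Inst → ℕ → ℝ → ℝ) (hA : NonClair s A) (P ρ : ℝ)
    (hP : 1 ≤ P) (hC : Competitive P ρ A) : 1 / (4 * s) * (1 + Real.log P) ≤ ρ := by
  classical
  set K := Nat.log 2 ⌊P⌋₊ + 1 with hK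
  have hfl : ⌊P⌋₊ ≠ 0 := by
    have : 1 ≤ ⌊P⌋₊ := Nat.le_floor (by simpa using hP)
    omega
  have hK1 : (2 : ℝ) ^ (K - 1) ≤ P := by
    have h1 : 2 ^ Nat.log 2 ⌊P⌋₊ ≤ ⌊P⌋₊ := Nat.pow_log_le_self 2 hfl
    have h2 : ((2 ^ Nat.log 2 ⌊P⌋₊ : ℕ) : ℝ) ≤ P :=
      le_trans (Nat.cast_le.2 h1) (Nat.floor_le (by linarith))
    rw [hK, Nat.add_sub_cancel]
    push_cast at h2
    exact h2
  have hK2 : P ≤ (2 : ℝ) ^ K := by
    have h1 : ⌊P⌋₊ < 2 ^ K := Nat.lt_pow_succ_log_self (by norm_num) _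
    have h2 : ⌊P⌋₊ + 1 ≤ 2 ^ K := h1
    have h3 : ((⌊P⌋₊ + 1 : ℕ) : ℝ) ≤ ((2 ^ K : ℕ) : ℝ) := Nat.cast_le.2 h2
    push_cast at h3
    linarith [Nat.lt_floor_add_one P]
  have hlog : Real.log P ≤ K := by
    have h1 : Real.log P ≤ Real.log ((2 : ℝ) ^ K) := Real.log_le_log (by linarith) hK2
    rw [Real.log_pow] at h1
    have h2 : Real.log 2 ≤ 1 := by linarith [Real.log_two_lt_d9]
    have h3 : (0 : ℝ) ≤ K := Nat.cast_nonneg K
    nlinarith
  have hKpos : 0 < K := Nat.succ_pos _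
  obtain ⟨σ, hσ⟩ := LOW_.exists_max (K := K) A
  have hmem : ∀ j : Fin K, (j : ℕ) ∈ (LOW_.inst K σ).jobs := fun j => Finset.mem_range.2 j.isLt
  obtain ⟨c, hc, hopt⟩ := hC (LOW_.inst K σ) (by
    intro i hi j hj
    have hi' : i < K := Finset.mem_range.1 hi
    have hj' : j < K := Finset.mem_range.1 hj
    have e1 := LOW_.inst_p K σ ⟨i, hi'⟩
    have e2 := LOW_.inst_p K σ ⟨j, hj'⟩
    rw [show (LOW_.inst K σ).p i = _ from e1, show (LOW_.inst K σ).p j = _ from e2]
    have h1 : (2 : ℝ) ^ ((σ ⟨j, hj'⟩ : Fin K) : ℕ) ≤ 2 ^ (K - 1) :=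
      pow_le_pow_right₀ (by norm_num) (by have := (σ ⟨j, hj'⟩).isLt; omega)
    have h2 : (1 : ℝ) ≤ 2 ^ ((σ ⟨i, hi'⟩ : Fin K) : ℕ) := one_le_pow₀ (by norm_num)
    calc (2 : ℝ) ^ ((σ ⟨j, hj'⟩ : Fin K) : ℕ) ≤ P := h1.trans hK1
      _ = P * 1 := (mul_one P).symm
      _ ≤ P * 2 ^ ((σ ⟨i, hi'⟩ : Fin K) : ℕ) := mul_le_mul_of_nonneg_left h2 (by linarith))
  -- lower bound for the algorithm
  have hjob : ∀ a : Fin K, ((K : ℝ) - ((σ a : Fin K) : ℕ)) / s ≤
      (c a - (LOW_.inst K σ).r a) / (LOW_.inst K σ).p a := by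
    intro a
    have hF := hA.feas (LOW_.inst K σ)
    have hca := hc a (hmem a)
    have hp : (LOW_.inst K σ).p a = (2 : ℝ) ^ ((σ a : Fin K) : ℕ) := LOW_.inst_p K σ a
    have hppos : (0 : ℝ) < 2 ^ ((σ a : Fin K) : ℕ) := by positivity
    have hca0 : 0 ≤ c a := by
      by_contra h0
      rw [not_le] at h0
      have h1 := hF.before a (hmem a) (c a) h0.le
      have h2 : (LOW_.inst K σ).p a ≤ A (LOW_.inst K σ) a (c a) := hca.1
      rw [h1, hp] at h2
      linarith
    have hsp := hF.speed 0 (c a) hca0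
    have hz : ∀ j ∈ (LOW_.inst K σ).jobs, A (LOW_.inst K σ) j 0 = 0 :=
      fun j hj => hF.before j hj 0 le_rfl
    have hsum : ∑ j ∈ (LOW_.inst K σ).jobs, (A (LOW_.inst K σ) j (c a) - A (LOW_.inst K σ) j 0) =
        ∑ j : Fin K, A (LOW_.inst K σ) j (c a) := by
      rw [Finset.sum_congr rfl (fun j hj => by rw [hz j hj, sub_zero])]
      exact Finset.sum_range (fun j => A (LOW_.inst K σ) j (c a))
    rw [hsum, sub_zero] at hsp
    have hnn : ∀ j : Fin K, 0 ≤ A (LOW_.inst K σ) j (c a) := by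
      intro j
      rw [← hz j (hmem j)]
      exact hF.mono j (hmem j) hca0
    have hge : ∀ j ∈ (Finset.univ.filter fun j : Fin K => σ a ≤ σ j),
        (2 : ℝ) ^ ((σ a : Fin K) : ℕ) ≤ A (LOW_.inst K σ) j (c a) := by
      intro j hj
      rcases lt_or_eq_of_le (Finset.mem_filter.1 hj).2 with h | h
      · exact LOW_.key hs hA σ hσ a j h (c a) hca
      · have h' : a = j := σ.injective h
        subst h'
        rw [← hp]
        exact hca.1
    have hcard : (Finset.univ.filter fun j : Fin K => σ a ≤ σ j).card =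
        K - ((σ a : Fin K) : ℕ) := by
      have h1 : (Finset.univ.filter fun j : Fin K => σ a ≤ σ j) =
          (Finset.Ici (σ a)).map σ.symm.toEmbedding := by
        ext j
        simp only [Finset.mem_filter, Finset.mem_univ, true_and, Finset.mem_map,
          Finset.mem_Ici, Equiv.coe_toEmbedding]
        constructor
        · intro h
          exact ⟨σ j, h, σ.symm_apply_apply j⟩
        · rintro ⟨i, hi, rfl⟩
          rw [Equiv.apply_symm_apply]
          exact hi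
      rw [h1, Finset.card_map, Fin.card_Ici]
    have htot : ((K : ℝ) - ((σ a : Fin K) : ℕ)) * 2 ^ ((σ a : Fin K) : ℕ) ≤ s * c a := by
      calc ((K : ℝ) - ((σ a : Fin K) : ℕ)) * 2 ^ ((σ a : Fin K) : ℕ)
          = ∑ j ∈ (Finset.univ.filter fun j : Fin K => σ a ≤ σ j),
              (2 : ℝ) ^ ((σ a : Fin K) : ℕ) := by
            rw [Finset.sum_const, hcard, nsmul_eq_mul, Nat.cast_sub (σ a).isLt.le]
        _ ≤ ∑ j ∈ (Finset.univ.filter fun j : Fin K => σ a ≤ σ j),
              A (LOW_.inst K σ) j (c a) := Finset.sum_le_sum hge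
        _ ≤ ∑ j : Fin K, A (LOW_.inst K σ) j (c a) :=
            Finset.sum_le_sum_of_subset_of_nonneg (Finset.filter_subset _ _)
              (fun j _ _ => hnn j)
        _ ≤ s * c a := hsp
    rw [hp]
    show ((K : ℝ) - ((σ a : Fin K) : ℕ)) / s ≤ (c a - 0) / 2 ^ ((σ a : Fin K) : ℕ)
    rw [sub_zero, div_le_div_iff₀ hs hppos]
    linarith
  have hsumlow : ((K : ℝ) * (K + 1) / 2) / s ≤
      ∑ j ∈ (LOW_.inst K σ).jobs, (c j - (LOW_.inst K σ).r j) / (LOW_.inst K σ).p j := by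
    have h1 : ∑ j ∈ (LOW_.inst K σ).jobs, (c j - (LOW_.inst K σ).r j) / (LOW_.inst K σ).p j =
        ∑ a : Fin K, (c a - (LOW_.inst K σ).r a) / (LOW_.inst K σ).p a :=
      Finset.sum_range (fun j => (c j - (LOW_.inst K σ).r j) / (LOW_.inst K σ).p j)
    rw [h1]
    have h2 : ∑ a : Fin K, ((K : ℝ) - ((σ a : Fin K) : ℕ)) / s = ((K : ℝ) * (K + 1) / 2) / s := by
      rw [← Finset.sum_div]
      congr 1
      rw [Equiv.sum_comp σ (fun i : Fin K => (K : ℝ) - ((i : Fin K) : ℕ)),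
        ← Finset.sum_range (fun i => (K : ℝ) - (i : ℕ))]
      have h3 : ∀ n : ℕ, ∑ i ∈ Finset.range n, ((K : ℝ) - (i : ℕ)) =
          n * K - n * (n - 1) / 2 := by
        intro n
        induction n with
        | zero => simp
        | succ n ih =>
          rw [Finset.sum_range_succ, ih]
          push_cast
          ring
      rw [h3 K]
      ring
    rw [← h2]
    exact Finset.sum_le_sum (fun a _ => hjob a)
  -- the offline schedule
  have hup := hopt (fun j t => if h : j < K then LOW_.gg ((σ ⟨j, h⟩ : Fin K) : ℕ) t else 0)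
    (fun j => if h : j < K then 2 * 2 ^ ((σ ⟨j, h⟩ : Fin K) : ℕ) - 1 else 0) (by
      refine ⟨?_, ?_, ?_⟩
      · intro j hj
        have hj' : j < K := Finset.mem_range.1 hj
        intro x y hxy
        simp only [dif_pos hj']
        exact LOW_.gg_mono _ hxy
      · intro j hj t ht
        have hj' : j < K := Finset.mem_range.1 hj
        have ht' : t ≤ 0 := ht
        simp only [dif_pos hj']
        unfold LOW_.gg
        have h1 : (1 : ℝ) ≤ 2 ^ ((σ ⟨j, hj'⟩ : Fin K) : ℕ) := one_le_pow₀ (by norm_num)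
        exact max_eq_left ((min_le_left _ _).trans (by linarith))
      · intro t t' htt
        have h0 : ∀ u : ℝ, ∑ j ∈ (LOW_.inst K σ).jobs,
            (if h : j < K then LOW_.gg ((σ ⟨j, h⟩ : Fin K) : ℕ) u else 0) =
            max 0 (min u (2 ^ K - 1)) := by
          intro u
          rw [show (LOW_.inst K σ).jobs = Finset.range K from rfl,
            Finset.sum_range (fun j => if h : j < K then
              LOW_.gg ((σ ⟨j, h⟩ : Fin K) : ℕ) u else 0)]
          have h1 : ∀ a : Fin K, (if h : (a : ℕ) < K then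
              LOW_.gg ((σ ⟨a, h⟩ : Fin K) : ℕ) u else 0) = LOW_.gg ((σ a : Fin K) : ℕ) u := by
            intro a
            rw [dif_pos a.isLt]
          rw [Finset.sum_congr rfl (fun a _ => h1 a),
            Equiv.sum_comp σ (fun i : Fin K => LOW_.gg ((i : Fin K) : ℕ) u),
            ← Finset.sum_range (fun i => LOW_.gg i u), LOW_.gg_sum]
        rw [Finset.sum_sub_distrib, h0, h0, one_mul]
        exact LOW_.clamp_lip _ _ _ htt) (by
      intro j hj
      have hj' : j < K := Finset.mem_range.1 hj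
      simp only [dif_pos hj']
      rw [show (LOW_.inst K σ).p j = _ from LOW_.inst_p K σ ⟨j, hj'⟩]
      unfold LOW_.gg
      have h1 : (2 * (2 : ℝ) ^ ((σ ⟨j, hj'⟩ : Fin K) : ℕ) - 1 -
        (2 ^ ((σ ⟨j, hj'⟩ : Fin K) : ℕ) - 1)) = 2 ^ ((σ ⟨j, hj'⟩ : Fin K) : ℕ) := by ring
      rw [h1, min_self]
      exact le_max_right _ _)
  have hd0 : 0 ≤ ∑ j ∈ (LOW_.inst K σ).jobs,
      ((if h : j < K then 2 * (2 : ℝ) ^ ((σ ⟨j, h⟩ : Fin K) : ℕ) - 1 else 0) -
        (LOW_.inst K σ).r j) / (LOW_.inst K σ).p j := by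
    apply Finset.sum_nonneg
    intro j hj
    have hj' : j < K := Finset.mem_range.1 hj
    rw [dif_pos hj']
    have h1 : (1 : ℝ) ≤ 2 ^ ((σ ⟨j, hj'⟩ : Fin K) : ℕ) := one_le_pow₀ (by norm_num)
    refine div_nonneg ?_ ((LOW_.inst K σ).p_pos j hj).le
    show 0 ≤ 2 * (2 : ℝ) ^ ((σ ⟨j, hj'⟩ : Fin K) : ℕ) - 1 - 0
    linarith
  have hd2 : ∑ j ∈ (LOW_.inst K σ).jobs,
      ((if h : j < K then 2 * (2 : ℝ) ^ ((σ ⟨j, h⟩ : Fin K) : ℕ) - 1 else 0) -
        (LOW_.inst K σ).r j) / (LOW_.inst K σ).p j ≤ 2 * K := by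
    calc _ ≤ ∑ j ∈ (LOW_.inst K σ).jobs, (2 : ℝ) := by
          apply Finset.sum_le_sum
          intro j hj
          have hj' : j < K := Finset.mem_range.1 hj
          rw [dif_pos hj', show (LOW_.inst K σ).p j = _ from LOW_.inst_p K σ ⟨j, hj'⟩]
          have h1 : (0 : ℝ) < 2 ^ ((σ ⟨j, hj'⟩ : Fin K) : ℕ) := by positivity
          rw [div_le_iff₀ h1]
          show 2 * (2 : ℝ) ^ ((σ ⟨j, hj'⟩ : Fin K) : ℕ) - 1 - 0 ≤ _
          linarith
      _ = 2 * K := by
          rw [Finset.sum_const, show (LOW_.inst K σ).jobs = Finset.range K from rfl,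
            Finset.card_range, nsmul_eq_mul]
          ring
  have hKR : (0 : ℝ) < K := Nat.cast_pos.2 hKpos
  have hmain : ((K : ℝ) * (K + 1) / 2) / s ≤ ρ * ∑ j ∈ (LOW_.inst K σ).jobs,
      ((if h : j < K then 2 * (2 : ℝ) ^ ((σ ⟨j, h⟩ : Fin K) : ℕ) - 1 else 0) -
        (LOW_.inst K σ).r j) / (LOW_.inst K σ).p j := hsumlow.trans hup
  have hρ : 0 ≤ ρ := by
    by_contra hneg
    rw [not_le] at hneg
    have h1 : 0 < ((K : ℝ) * (K + 1) / 2) / s := by positivity
    have h2 := mul_nonpos_of_nonpos_of_nonneg hneg.le hd0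
    linarith
  have hfin : ((K : ℝ) * (K + 1) / 2) / s ≤ ρ * (2 * K) :=
    hmain.trans (mul_le_mul_of_nonneg_left hd2 hρ)
  rw [div_le_iff₀ hs] at hfin
  have h5 : (K : ℝ) + 1 ≤ 4 * s * ρ := by
    by_contra hcon
    rw [not_le] at hcon
    nlinarith
  have h6 : 1 + Real.log P ≤ 4 * s * ρ := by linarith
  rw [div_mul_eq_mul_div, one_mul, div_le_iff₀ (by positivity)]
  linarith

end STR
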