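import Pool.Agent.STR.Defs

/-!
# Project STR: basic facts on the run
-/

set_option autoImplicit false

namespace STR

theorem lam_pos {N : ℕ} (hN : 1 ≤ N) (k : ℕ) : 1 ≤ lam N k := by
  unfold lam; exact Nat.mul_pos (by positivity) hN

theorem ell_pos {N : ℕ} (hN : 1 ≤ N) (k : ℕ) : 1 ≤ ell N k := by
  unfold ell; exact Nat.mul_pos hN (lam_pos hN k)

theorem lam_le (N : ℕ) {k l : ℕ} (h : k ≤ l) : lam N k ≤ lam N l := by
  unfold lam; exact Nat.mul_le_mul_right _ (Nat.pow_le_pow_right (by norm_num) h)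

theorem ell_le (N : ℕ) {k l : ℕ} (h : k ≤ l) : ell N k ≤ ell N l := by
  unfold ell; exact Nat.mul_le_mul_left _ (lam_le N h)

theorem lam_add (N k l : ℕ) : lam N (k + l) = 2 ^ l * lam N k := by
  unfold lam; rw [pow_add]; ring

theorem N_le_lam (N k : ℕ) : N ≤ lam N k := by
  unfold lam; exact Nat.le_mul_of_pos_left _ (by positivity)

theorem NN_le_ell (N k : ℕ) : N * N ≤ ell N k := by
  unfold ell; exact Nat.mul_le_mul_left _ (N_le_lam N k)

/-! ### Levels -/

theorem ell_succ (N k : ℕ) : ell N (k + 1) = 2 * ell N k := by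
  unfold ell lam; rw [pow_succ]; ring

theorem lev_ne {N : ℕ} (hN : 1 ≤ N) (I : DI) (j : ℕ) : {k | I.q j ≤ ell N k}.Nonempty := by
  refine ⟨I.q j, ?_⟩
  show I.q j ≤ ell N (I.q j)
  have h1 : I.q j < 2 ^ I.q j := Nat.lt_two_pow_self
  unfold ell lam
  calc I.q j ≤ 2 ^ I.q j := h1.le
    _ = 1 * (2 ^ I.q j * 1) := by ring
    _ ≤ N * (2 ^ I.q j * N) := by gcongr

theorem q_le_ell {N : ℕ} (hN : 1 ≤ N) (I : DI) (j : ℕ) : I.q j ≤ ell N (lev N I j) :=
  Nat.sInf_mem (lev_ne hN I j)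

theorem lev_le {N : ℕ} {I : DI} {j k : ℕ} (h : I.q j ≤ ell N k) : lev N I j ≤ k := Nat.sInf_le h

theorem ell_lt_q {N : ℕ} {I : DI} {j k : ℕ} (h : k < lev N I j) : ell N k < I.q j := by
  by_contra h'
  have := lev_le (not_lt.1 h')
  omega

theorem ell_lev_le {N : ℕ} {I : DI} {j : ℕ} (hOk : Ok N I) (hj : j ∈ I.J) :
    ell N (lev N I j) ≤ 2 * I.q j := by
  have h1 := hOk j hj
  rcases Nat.eq_zero_or_pos (lev N I j) with h | h
  · rw [h]
    unfold ell lam
    rw [pow_zero, one_mul]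
    omega
  · obtain ⟨m, hm⟩ : ∃ m, lev N I j = m + 1 := ⟨lev N I j - 1, by omega⟩
    rw [hm, ell_succ]
    have := ell_lt_q (N := N) (I := I) (j := j) (k := m) (by omega)
    omega

theorem mem_jobs {N : ℕ} {I : DI} {m a b j : ℕ} : j ∈ jobs N I m a b ↔
    j ∈ I.J ∧ (a ≤ I.R j ∧ I.R j < b) ∧ lev N I j = m := by
  unfold jobs; rw [Finset.mem_filter]

theorem cnt_mono {N : ℕ} {I : DI} {m a b a' b' : ℕ} (h1 : a' ≤ a) (h2 : b ≤ b') :
    cnt N I m a b ≤ cnt N I m a' b' := by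
  unfold cnt
  apply Finset.card_le_card
  intro j hj
  rw [mem_jobs] at hj ⊢
  exact ⟨hj.1, ⟨by omega, by omega⟩, hj.2.2⟩

theorem cnt_add {N : ℕ} {I : DI} {m a b c : ℕ} (h1 : a ≤ b) (h2 : b ≤ c) :
    cnt N I m a c = cnt N I m a b + cnt N I m b c := by
  unfold cnt
  rw [← Finset.card_union_of_disjoint]
  · congr 1
    ext j
    rw [Finset.mem_union, mem_jobs, mem_jobs, mem_jobs]
    constructor
    · rintro ⟨h3, h4, h5⟩
      rcases lt_or_ge (I.R j) b with h6 | h6
      · left; exact ⟨h3, ⟨h4.1, h6⟩, h5⟩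
      · right; exact ⟨h3, ⟨h6, h4.2⟩, h5⟩
    · rintro (⟨h3, h4, h5⟩ | ⟨h3, h4, h5⟩)
      · exact ⟨h3, ⟨h4.1, by omega⟩, h5⟩
      · exact ⟨h3, ⟨by omega, h4.2⟩, h5⟩
  · rw [Finset.disjoint_left]
    intro j hj hj'
    rw [mem_jobs] at hj hj'
    omega

section run

variable (N : ℕ) (I : DI)

theorem eu_zero (j : ℕ) : eu N I 0 j = 0 := rfl

open Classical in
theorem eu_succ (t j : ℕ) : eu N I (t + 1) j =
    eu N I t j + (if mj N I t = some j then N - 1 else 0) +
      (if bj N I t = some j then 1 else 0) := rfl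

open Classical in
theorem be_succ (k t : ℕ) : be N I k (t + 1) =
    if (Ak N I k t).Nonempty then be N I k t else t + 1 := rfl

theorem be_zero (k : ℕ) : be N I k 0 = 0 := rfl

theorem mem_al {t j : ℕ} : j ∈ al N I t ↔ j ∈ I.J ∧ I.R j ≤ t ∧ eu N I t j < I.q j := by
  unfold al alv eu; rw [Finset.mem_filter]

theorem mem_Ak {k t j : ℕ} : j ∈ Ak N I k t ↔
    j ∈ I.J ∧ I.R j ≤ t ∧ eu N I t j < I.q j ∧ eu N I t j < ell N k := by
  unfold Ak lowJ
  rw [Finset.mem_filter, mem_al]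
  unfold eu
  tauto

theorem eu_mono_succ (t j : ℕ) : eu N I t j ≤ eu N I (t + 1) j := by
  rw [eu_succ]; omega

theorem eu_mono {t t' : ℕ} (h : t ≤ t') (j : ℕ) : eu N I t j ≤ eu N I t' j := by
  induction h with
  | refl => exact le_rfl
  | step _ ih => exact ih.trans (eu_mono_succ N I _ j)

theorem Ak_level {k l t : ℕ} (h : k ≤ l) : Ak N I k t ⊆ Ak N I l t := by
  intro j hj
  rw [mem_Ak] at hj ⊢
  exact ⟨hj.1, hj.2.1, hj.2.2.1, lt_of_lt_of_le hj.2.2.2 (ell_le N h)⟩

theorem Ak_back {k t t' j : ℕ} (hj : j ∈ Ak N I k t) (h1 : I.R j ≤ t') (h2 : t' ≤ t) :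
    j ∈ Ak N I k t' := by
  rw [mem_Ak] at hj ⊢
  have := eu_mono N I h2 j
  exact ⟨hj.1, h1, by omega, by omega⟩

/-- the main job is a member of the chain of the least open level -/
theorem mj_spec {t j : ℕ} (h : mj N I t = some j) : ∃ k, uu N I k t ≠ ⊤ ∧
    (∀ k' < k, uu N I k' t = ⊤) ∧ j ∈ Ak N I k t ∧ uu N I k t ≤ (I.R j : ℕ∞) := by
  classical
  unfold mj mainJ at h
  split_ifs at h with h1 h2
  have h3 := Finset.min'_mem _ h2
  simp only [Option.some.injEq] at h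
  rw [h, Finset.mem_filter] at h3
  refine ⟨Nat.find h1, Nat.find_spec h1, ?_, h3.1, h3.2⟩
  intro k' hk'
  exact not_not.1 (Nat.find_min h1 hk')

/-- if some level is open and the chain of the least open level is nonempty, a main job exists -/
theorem mj_exists {t k : ℕ} (h : uu N I k t ≠ ⊤) (h0 : ∀ k' < k, uu N I k' t = ⊤)
    (h1 : ∃ j ∈ Ak N I k t, uu N I k t ≤ (I.R j : ℕ∞)) :
    ∃ j, mj N I t = some j ∧ j ∈ Ak N I k t ∧ uu N I k t ≤ (I.R j : ℕ∞) := by
  classical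
  have h2 : ∃ k, (sim N I t).u k ≠ ⊤ := ⟨k, h⟩
  have hk : Nat.find h2 = k := by
    rw [Nat.find_eq_iff]
    refine ⟨h, fun n hn => ?_⟩
    have := h0 n hn
    unfold uu at this
    simp [this]
  have h3 : ((lowJ N (al N I t) (sim N I t).e (Nat.find h2)).filter
      fun j => (sim N I t).u (Nat.find h2) ≤ (I.R j : ℕ∞)).Nonempty := by
    obtain ⟨j, hj, hj'⟩ := h1
    refine ⟨j, ?_⟩
    rw [hk, Finset.mem_filter]
    exact ⟨hj, hj'⟩
  have h4 : mj N I t = some (Finset.min' _ h3) := by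
    unfold mj mainJ
    rw [dif_pos h2, dif_pos h3]
  have h5 := Finset.min'_mem _ h3
  generalize Finset.min' _ h3 = m at h4 h5
  rw [Finset.mem_filter, hk] at h5
  exact ⟨m, h4, h5.1, h5.2⟩

theorem bj_spec {t j : ℕ} (h : bj N I t = some j) :
    j ∈ al N I t ∧ ∀ i ∈ al N I t, eu N I t j ≤ eu N I t i := by
  classical
  unfold bj bgJ at h
  split_ifs at h with h1
  simp only [Option.some.injEq] at h
  have h2 := Classical.choose_spec ((al N I t).exists_min_image (sim N I t).e h1)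
  rw [h] at h2
  exact h2

theorem bj_exists {t : ℕ} (h : (al N I t).Nonempty) : ∃ j, bj N I t = some j := by
  classical
  unfold bj bgJ
  rw [dif_pos h]
  exact ⟨_, rfl⟩

/-- if level `k` is busy the background job is of level `k` -/
theorem bj_low {t k : ℕ} (h : (Ak N I k t).Nonempty) : ∃ j, bj N I t = some j ∧ j ∈ Ak N I k t := by
  obtain ⟨i, hi⟩ := h
  have hi' := (mem_Ak N I).1 hi
  have h1 : i ∈ al N I t := (mem_al N I).2 ⟨hi'.1, hi'.2.1, hi'.2.2.1⟩
  obtain ⟨j, hj⟩ := bj_exists N I ⟨i, h1⟩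
  have h2 := bj_spec N I hj
  have h3 := h2.2 i h1
  have h4 := (mem_al N I).1 h2.1
  exact ⟨j, hj, (mem_Ak N I).2 ⟨h4.1, h4.2.1, h4.2.2, by omega⟩⟩

theorem mj_al {t j : ℕ} (h : mj N I t = some j) : j ∈ al N I t := by
  obtain ⟨k, -, -, hj, -⟩ := mj_spec N I h
  rw [mem_Ak] at hj
  exact (mem_al N I).2 ⟨hj.1, hj.2.1, hj.2.2.1⟩

theorem eu_of_not_al {t j : ℕ} (h : j ∉ al N I t) : eu N I (t + 1) j = eu N I t j := by
  rw [eu_succ]
  have h1 : mj N I t ≠ some j := fun h' => h (mj_al N I h')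
  have h2 : bj N I t ≠ some j := fun h' => h (bj_spec N I h').1
  rw [if_neg h1, if_neg h2, add_zero, add_zero]

theorem eu_before {t j : ℕ} (h : t ≤ I.R j) : eu N I t j = 0 := by
  induction t with
  | zero => rfl
  | succ t ih =>
    rw [eu_of_not_al, ih (by omega)]
    rw [mem_al]
    omega

theorem eu_not_mem {t j : ℕ} (h : j ∉ I.J) : eu N I t j = 0 := by
  induction t with
  | zero => rfl
  | succ t ih =>
    rw [eu_of_not_al, ih]
    rw [mem_al]
    tauto

theorem eu_step_le (hN : 1 ≤ N) (t j : ℕ) : eu N I (t + 1) j ≤ eu N I t j + N := by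
  rw [eu_succ]
  split_ifs <;> omega

/-- capacity of a slot -/
theorem cap (hN : 1 ≤ N) (S : Finset ℕ) (t : ℕ) :
    ∑ j ∈ S, eu N I (t + 1) j ≤ ∑ j ∈ S, eu N I t j + N := by
  classical
  have h : ∀ j ∈ S, eu N I (t + 1) j = eu N I t j + ((if mj N I t = some j then N - 1 else 0) +
      (if bj N I t = some j then 1 else 0)) := by
    intro j _
    rw [eu_succ]; ring
  rw [Finset.sum_congr rfl h, Finset.sum_add_distrib, Finset.sum_add_distrib]
  have key : ∀ (o : Option ℕ) (c : ℕ), ∑ j ∈ S, (if o = some j then c else 0) ≤ c := by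
    intro o c
    rcases o with _ | a
    · simp
    · simp only [Option.some.injEq]
      rw [Finset.sum_ite_eq]
      split_ifs <;> omega
  have h1 := key (mj N I t) (N - 1)
  have h2 := key (bj N I t) 1
  omega

theorem cap_range (hN : 1 ≤ N) (S : Finset ℕ) {a b : ℕ} (h : a ≤ b) :
    ∑ j ∈ S, eu N I b j ≤ ∑ j ∈ S, eu N I a j + N * (b - a) := by
  induction h with
  | refl => simp
  | step h ih =>
    rename_i m
    have h1 := cap N I hN S m
    have h2 : m + 1 - a = (m - a) + 1 := by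
      have : a ≤ m := h
      omega
    show ∑ j ∈ S, eu N I (m + 1) j ≤ ∑ j ∈ S, eu N I a j + N * (m + 1 - a)
    rw [h2, mul_add, mul_one]
    omega

theorem self_mem {i : ℕ} (hN : 1 ≤ N) (hOk : Ok N I) (hi : i ∈ I.J) (k : ℕ) :
    i ∈ Ak N I k (I.R i) := by
  rw [mem_Ak, eu_before N I le_rfl]
  have h1 := hOk i hi
  have h2 := ell_pos hN k
  have h3 : 1 ≤ N * N := Nat.mul_pos hN hN
  exact ⟨hi, le_rfl, by omega, by omega⟩

/-! ### Update of the chain starts -/

/-- the intermediate value at time `t + 1` -/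
noncomputable def md (k t : ℕ) : ℕ∞ :=
  mid N I.R (al N I (t + 1)) (sim N I (t + 1)).e (sim N I t).u (sim N I (t + 1)).b (t + 1) k

open Classical in
theorem md_zero (t : ℕ) : md N I 0 t =
    if Con N I 0 t then (if Clo N I 0 t then ⊤ else uu N I 0 t) else ⊤ := rfl

open Classical in
theorem md_succ (k t : ℕ) : md N I (k + 1) t =
    if Con N I (k + 1) t then (if Clo N I (k + 1) t then md N I k t else uu N I (k + 1) t)
      else ⊤ := rfl

open Classical in
theorem uu_succ (k t : ℕ) : uu N I k (t + 1) =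
    if md N I k t = ⊤ ∧ ∃ j ∈ al N I (t + 1), I.R j = t + 1 then ((t + 1 : ℕ) : ℕ∞)
      else md N I k t := rfl

open Classical in
theorem uu_zero (k : ℕ) : uu N I k 0 = if ∃ j ∈ al N I 0, I.R j = 0 then 0 else ⊤ := by
  have h : mid N I.R (al N I 0) (fun _ => 0) (fun _ => (⊤ : ℕ∞)) (fun _ => 0) 0 k = ⊤ := by
    have hc : ∀ k, ¬ contn N I.R (al N I 0) (fun _ => 0) 0 k ⊤ := by
      rintro k ⟨j, -, -, h⟩
      omega
    cases k with
    | zero => unfold mid; rw [if_neg (hc 0)]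
    | succ k => unfold mid; rw [if_neg (hc _)]
  show updU N I.R (al N I 0) (fun _ => 0) (fun _ => ⊤) (fun _ => 0) 0 k = _
  unfold updU
  rw [h]
  simp

theorem con_ne_top {k t : ℕ} (h : Con N I k t) : uu N I k t ≠ ⊤ := by
  obtain ⟨j, -, h1, -⟩ := h
  exact ne_top_of_le_ne_top (by simp) h1

theorem md_cases (k t : ℕ) : md N I k t = ⊤ ∨
    ∃ i ≤ k, md N I k t = uu N I i t ∧ Con N I i t ∧ ¬ Clo N I i t := by
  classical
  induction k with
  | zero =>
    rw [md_zero]
    by_cases h1 : Con N I 0 t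
    · by_cases h2 : Clo N I 0 t
      · left; rw [if_pos h1, if_pos h2]
      · right; refine ⟨0, le_rfl, ?_, h1, h2⟩; rw [if_pos h1, if_neg h2]
    · left; rw [if_neg h1]
  | succ k ih =>
    rw [md_succ]
    by_cases h1 : Con N I (k + 1) t
    · by_cases h2 : Clo N I (k + 1) t
      · rw [if_pos h1, if_pos h2]
        rcases ih with ih | ⟨i, hi, h⟩
        · left; exact ih
        · right; exact ⟨i, hi.trans (Nat.le_succ k), h⟩
      · right; refine ⟨k + 1, le_rfl, ?_, h1, h2⟩; rw [if_pos h1, if_neg h2]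
    · left; rw [if_neg h1]

/-- where a chain start comes from -/
theorem uu_cases {k t a : ℕ} (h : uu N I k (t + 1) = (a : ℕ∞)) :
    (a = t + 1 ∧ ∃ j ∈ I.J, I.R j = t + 1) ∨
    ∃ i ≤ k, uu N I i t = (a : ℕ∞) ∧ Con N I i t ∧ ¬ Clo N I i t := by
  classical
  rw [uu_succ] at h
  split_ifs at h with h1
  · left
    have h2 : t + 1 = a := by exact_mod_cast h
    obtain ⟨j, hj, hj'⟩ := h1.2
    exact ⟨h2.symm, j, ((mem_al N I).1 hj).1, hj'⟩
  · right
    rcases md_cases N I k t with h2 | ⟨i, hi, h2, h3⟩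
    · rw [h2] at h; exact absurd h (by simp)
    · exact ⟨i, hi, h2 ▸ h, h3⟩

theorem uu_le {k t a : ℕ} (h : uu N I k t = (a : ℕ∞)) : a ≤ t := by
  classical
  induction t generalizing k with
  | zero =>
    rw [uu_zero] at h
    split_ifs at h
    · have : (0 : ℕ) = a := by exact_mod_cast h
      omega
    · exact absurd h (by simp)
  | succ t ih =>
    rcases uu_cases N I h with ⟨h1, -⟩ | ⟨i, -, h1, -⟩
    · omega
    · have := ih h1; omega

/-- without an event the chain is kept -/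
theorem uu_keep {k t : ℕ} (h1 : Con N I k t) (h2 : ¬ Clo N I k t) :
    uu N I k (t + 1) = uu N I k t := by
  classical
  have h3 : md N I k t = uu N I k t := by
    cases k with
    | zero => rw [md_zero, if_pos h1, if_neg h2]
    | succ k => rw [md_succ, if_pos h1, if_neg h2]
  rw [uu_succ, h3, if_neg]
  intro h
  exact con_ne_top N I h1 h.1

/-- after an end the chain is empty or new -/
theorem uu_end {k t : ℕ} (h1 : ¬ Con N I k t) :
    uu N I k (t + 1) = ⊤ ∨ uu N I k (t + 1) = ((t + 1 : ℕ) : ℕ∞) := by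
  classical
  have h3 : md N I k t = ⊤ := by
    cases k with
    | zero => rw [md_zero, if_neg h1]
    | succ k => rw [md_succ, if_neg h1]
  rw [uu_succ, h3]
  split_ifs
  · right; rfl
  · left; rfl

/-- a release opens all levels -/
theorem uu_rel {k i : ℕ} (hN : 1 ≤ N) (hOk : Ok N I) (hi : i ∈ I.J) :
    uu N I k (I.R i) ≠ ⊤ := by
  classical
  have h1 := self_mem N I hN hOk hi k
  have h2 : i ∈ al N I (I.R i) := by
    rw [mem_Ak] at h1
    exact (mem_al N I).2 ⟨h1.1, h1.2.1, h1.2.2.1⟩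
  rcases Nat.eq_zero_or_pos (I.R i) with h0 | h0
  · rw [h0] at h2 ⊢
    rw [uu_zero, if_pos ⟨i, h2, h0⟩]
    simp
  · obtain ⟨t, ht⟩ : ∃ t, I.R i = t + 1 := ⟨I.R i - 1, by omega⟩
    rw [ht] at h2 ⊢
    rw [uu_succ]
    by_cases h3 : md N I k t = ⊤
    · rw [if_pos ⟨h3, i, h2, ht⟩]
      exact ENat.natCast_ne_top _
    · rw [if_neg (fun h => h3 h.1)]
      exact h3

end run

end STR
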