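import Mathlib

/-!
# Project STR (MP_32d942_lc): a `(1+ε)`-speed `O(log P)`-competitive non-clairvoyant algorithm
for average stretch. Discrete model, algorithm, and the quantities of the analysis.
Paper proof: `Pool/Agent/STR/Blueprint.md`.
-/

set_option autoImplicit false

namespace STR

/-! ## The algorithm -/

/-- the patience constant -/
def Rc (N : ℕ) : ℕ := 1000 * N

/-- length of level `k` in slots -/
def lam (N k : ℕ) : ℕ := 2 ^ k * N

/-- length of level `k` in units of work -/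
def ell (N k : ℕ) : ℕ := N * lam N k

/-- discrete instance: job `j ∈ J` is released at (the beginning of) slot `R j` and has `q j` units -/
structure DI where
  J : Finset ℕ
  R : ℕ → ℕ
  q : ℕ → ℕ

/-- state at the beginning of a slot: units served, chain starts (`⊤` : no chain), starts of the
busy intervals -/
structure St where
  e : ℕ → ℕ
  u : ℕ → ℕ∞
  b : ℕ → ℕ

/-- the jobs of `al` which have received less than `ell N k` units -/
def lowJ (N : ℕ) (al : Finset ℕ) (e : ℕ → ℕ) (k : ℕ) : Finset ℕ := al.filter fun j => e j < ell N k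

/-- the chain of level `k` with start `a` still contains a job of level `k` at time `t` -/
def contn (N : ℕ) (Rf : ℕ → ℕ) (al : Finset ℕ) (e : ℕ → ℕ) (t k : ℕ) (a : ℕ∞) : Prop :=
  ∃ j ∈ lowJ N al e k, a ≤ (Rf j : ℕ∞) ∧ Rf j < t

/-- the closing condition at time `t` for a chain of level `k` with start `a`, when the busy
interval of level `k` started at `bk` -/
def clos (N bk t k : ℕ) (a : ℕ∞) : Prop :=
  lam N k ≤ t - a.toNat ∧ a.toNat ≤ bk + Rc N * (t - a.toNat)

open Classical in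
/-- the chain starts at time `t` before new chains are opened -/
noncomputable def mid (N : ℕ) (Rf : ℕ → ℕ) (al : Finset ℕ) (e : ℕ → ℕ) (uo : ℕ → ℕ∞) (b : ℕ → ℕ)
    (t : ℕ) : ℕ → ℕ∞
  | 0 => if contn N Rf al e t 0 (uo 0) then (if clos N (b 0) t 0 (uo 0) then ⊤ else uo 0) else ⊤
  | k + 1 => if contn N Rf al e t (k + 1) (uo (k + 1)) then
      (if clos N (b (k + 1)) t (k + 1) (uo (k + 1)) then mid N Rf al e uo b t k else uo (k + 1))
      else ⊤

open Classical in
/-- the chain starts at time `t` -/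
noncomputable def updU (N : ℕ) (Rf : ℕ → ℕ) (al : Finset ℕ) (e : ℕ → ℕ) (uo : ℕ → ℕ∞) (b : ℕ → ℕ)
    (t k : ℕ) : ℕ∞ :=
  if mid N Rf al e uo b t k = ⊤ ∧ ∃ j ∈ al, Rf j = t then (t : ℕ∞) else mid N Rf al e uo b t k

open Classical in
/-- the job served with `N - 1` units -/
noncomputable def mainJ (N : ℕ) (Rf : ℕ → ℕ) (al : Finset ℕ) (S : St) : Option ℕ :=
  if h : ∃ k, S.u k ≠ ⊤ then
    (if h' : ((lowJ N al S.e (Nat.find h)).filter
        fun j => S.u (Nat.find h) ≤ (Rf j : ℕ∞)).Nonempty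
      then some (Finset.min' _ h') else none)
  else none

open Classical in
/-- the job served with one unit: least served alive job -/
noncomputable def bgJ (al : Finset ℕ) (e : ℕ → ℕ) : Option ℕ :=
  if h : al.Nonempty then some (Classical.choose (al.exists_min_image e h)) else none

open Classical in
/-- units served after the slot -/
noncomputable def serve (N : ℕ) (Rf : ℕ → ℕ) (al : Finset ℕ) (S : St) : ℕ → ℕ := fun j =>
  S.e j + (if mainJ N Rf al S = some j then N - 1 else 0) + (if bgJ al S.e = some j then 1 else 0)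

open Classical in
/-- starts of the busy intervals at time `t + 1` -/
noncomputable def updB (N : ℕ) (al : Finset ℕ) (S : St) (t : ℕ) : ℕ → ℕ := fun k =>
  if (lowJ N al S.e k).Nonempty then S.b k else t + 1

/-- the alive jobs at time `t` -/
def alv (I : DI) (t : ℕ) (e : ℕ → ℕ) : Finset ℕ := I.J.filter fun j => I.R j ≤ t ∧ e j < I.q j

/-- the run of the algorithm -/
noncomputable def sim (N : ℕ) (I : DI) : ℕ → St
  | 0 =>
    { e := fun _ => 0
      u := updU N I.R (alv I 0 fun _ => 0) (fun _ => 0) (fun _ => ⊤) (fun _ => 0) 0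
      b := fun _ => 0 }
  | t + 1 =>
    { e := serve N I.R (alv I t (sim N I t).e) (sim N I t)
      u := updU N I.R (alv I (t + 1) (serve N I.R (alv I t (sim N I t).e) (sim N I t)))
        (serve N I.R (alv I t (sim N I t).e) (sim N I t)) (sim N I t).u
        (updB N (alv I t (sim N I t).e) (sim N I t) t) (t + 1)
      b := updB N (alv I t (sim N I t).e) (sim N I t) t }

/-- units received by `j` before slot `t` -/
noncomputable def eu (N : ℕ) (I : DI) (t j : ℕ) : ℕ := (sim N I t).e j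

/-- start of the chain of level `k` at time `t` -/
noncomputable def uu (N : ℕ) (I : DI) (k t : ℕ) : ℕ∞ := (sim N I t).u k

/-- start of the busy interval of level `k` at time `t` -/
noncomputable def be (N : ℕ) (I : DI) (k t : ℕ) : ℕ := (sim N I t).b k

/-- alive jobs at time `t` -/
noncomputable def al (N : ℕ) (I : DI) (t : ℕ) : Finset ℕ := alv I t (sim N I t).e

/-- alive jobs at time `t` with less than `ell N k` units -/
noncomputable def Ak (N : ℕ) (I : DI) (k t : ℕ) : Finset ℕ := lowJ N (al N I t) (sim N I t).e k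

/-- main job of slot `t` -/
noncomputable def mj (N : ℕ) (I : DI) (t : ℕ) : Option ℕ := mainJ N I.R (al N I t) (sim N I t)

/-- background job of slot `t` -/
noncomputable def bj (N : ℕ) (I : DI) (t : ℕ) : Option ℕ := bgJ (al N I t) (sim N I t).e

/-- the chain of level `k` with last slot `t` continues at time `t + 1` -/
def Con (N : ℕ) (I : DI) (k t : ℕ) : Prop :=
  ∃ j ∈ Ak N I k (t + 1), uu N I k t ≤ (I.R j : ℕ∞) ∧ I.R j < t + 1

/-- the closing condition at time `t + 1` -/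
def Clo (N : ℕ) (I : DI) (k t : ℕ) : Prop :=
  lam N k ≤ t + 1 - (uu N I k t).toNat ∧
    (uu N I k t).toNat ≤ be N I k (t + 1) + Rc N * (t + 1 - (uu N I k t).toNat)

/-- the chain of level `k` with last slot `t` ends at time `t + 1` -/
def EndE (N : ℕ) (I : DI) (k t : ℕ) : Prop := uu N I k t ≠ ⊤ ∧ ¬ Con N I k t

/-- the chain of level `k` with last slot `t` is closed at time `t + 1` -/
def ClE (N : ℕ) (I : DI) (k t : ℕ) : Prop := uu N I k t ≠ ⊤ ∧ Con N I k t ∧ Clo N I k t

/-- end of the busy interval of level `k` containing `x` -/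
noncomputable def gam (N : ℕ) (I : DI) (k x : ℕ) : ℕ := sInf {t | x ≤ t ∧ Ak N I k t = ∅}

/-- completion slot -/
noncomputable def cmp (N : ℕ) (I : DI) (j : ℕ) : ℕ := sInf {t | I.q j ≤ eu N I t j}

/-! ## Quantities of the analysis -/

/-- all jobs have at least `N ^ 2` units -/
def Ok (N : ℕ) (I : DI) : Prop := ∀ j ∈ I.J, N * N ≤ I.q j

/-- level of a job: `ell (lev - 1) < q ≤ ell lev` -/
noncomputable def lev (N : ℕ) (I : DI) (j : ℕ) : ℕ := sInf {k | I.q j ≤ ell N k}

open Classical in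
/-- jobs of level `m` released in `[a, b)` -/
noncomputable def jobs (N : ℕ) (I : DI) (m a b : ℕ) : Finset ℕ :=
  I.J.filter fun j => (a ≤ I.R j ∧ I.R j < b) ∧ lev N I j = m

/-- number of jobs of level `m` released in `[a, b)` -/
noncomputable def cnt (N : ℕ) (I : DI) (m a b : ℕ) : ℕ := (jobs N I m a b).card

/-- work of level `k` released in `[a, b)`, with rounding errors -/
def Wp (N : ℕ) (I : DI) (k a b : ℕ) : ℕ :=
  ∑ j ∈ I.J.filter (fun j => a ≤ I.R j ∧ I.R j < b), (min (I.q j) (ell N k) + N)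

open Classical in
/-- volume of the jobs of levels `≤ k` released in `[a, b)` -/
noncomputable def Vv (N : ℕ) (I : DI) (k a b : ℕ) : ℕ :=
  ∑ j ∈ I.J.filter (fun j => (a ≤ I.R j ∧ I.R j < b) ∧ lev N I j ≤ k), I.q j

/-- level `m` is `K`-dense on `[a, b)` -/
def dens (N : ℕ) (I : DI) (K m a b : ℕ) : Prop := K * (b - a) ≤ cnt N I m a b * lam N m

/-- `D j` are the completion times of a slower offline schedule -/
structure Opt (N : ℕ) (I : DI) (D : ℕ → ℝ) : Prop where
  rel : ∀ j ∈ I.J, (I.R j : ℝ) ≤ D j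
  work : ∀ (a : ℕ) (T : ℝ), (a : ℝ) ≤ T → ∀ S ⊆ I.J, (∀ j ∈ S, a ≤ I.R j ∧ D j ≤ T) →
    ∑ j ∈ S, (I.q j : ℝ) ≤ ((N : ℝ) - 4) * (T - a)

/-- offline cost of a job -/
noncomputable def Oj (N : ℕ) (I : DI) (D : ℕ → ℝ) (j : ℕ) : ℝ := (N : ℝ) * (D j - I.R j) / I.q j

/-- offline cost -/
noncomputable def OO (N : ℕ) (I : DI) (D : ℕ → ℝ) : ℝ := ∑ j ∈ I.J, Oj N I D j

/-- all levels of jobs are in `[k0, k0 + L)` -/
def Lv (N : ℕ) (I : DI) (k0 L : ℕ) : Prop := ∀ j ∈ I.J, k0 ≤ lev N I j ∧ lev N I j < k0 + L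

/-! ## Constants (all depend on `N` only) -/

/-- constant of the prefix lemma -/
def Fc (N : ℕ) : ℕ := N * N * (Rc N + 1)

/-- constant of the lemma on last closings -/
def FG (N : ℕ) : ℕ := 400 * (N * N) * Fc N

/-- mass constant -/
def M0 (N : ℕ) : ℕ := 16 * FG N * N

/-- certificate constant -/
def Mc (N : ℕ) : ℕ := 3 * M0 N

/-- density constant -/
def Kd : ℕ := 16

/-- density constant for chains -/
def Ks (N : ℕ) : ℕ := 128 * (Rc N + 1)

/-- level gap -/
def kap (N : ℕ) : ℕ := 64 * Mc N * Ks N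

/-- `S`-certificate of level `j` in `[a, b)` -/
def SC (N : ℕ) (I : DI) (j a b : ℕ) : Prop :=
  ∃ a' b', a ≤ a' ∧ a' ≤ b' ∧ b' ≤ b ∧
    Mc N * ((N - 4) * (b' - a')) + (b - a) ≤ Mc N * Vv N I (j + kap N) a' b'

open Classical in
/-- near certificate of level `j` and range `g` for `[a, b)` -/
def NC (N : ℕ) (I : DI) (g j a b : ℕ) : Prop :=
  b - a ≤ Mc N * lam N j * (I.J.filter fun i => (a ≤ I.R i ∧ I.R i < b) ∧
    (j + kap N < lev N I i ∧ lev N I i ≤ j + kap N + g) ∧ dens N I Kd (lev N I i) a b).card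

/-- certificate -/
def Cert (N : ℕ) (I : DI) (g j a b : ℕ) : Prop := SC N I j a b ∨ NC N I g j a b

/-- a family of triples (level, start, end): intervals of the same level are disjoint -/
def Fam (F : Finset (ℕ × ℕ × ℕ)) : Prop :=
  ∀ x ∈ F, ∀ y ∈ F, x.1 = y.1 →
    (∃ t, (x.2.1 ≤ t ∧ t < x.2.2) ∧ (y.2.1 ≤ t ∧ t < y.2.2)) → x = y

open Classical in
/-- pairs of jobs lying in a common interval which is dense for both levels -/
noncomputable def PP (N : ℕ) (I : DI) : Finset (ℕ × ℕ) :=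
  (I.J ×ˢ I.J).filter fun p => ∃ a b, (a ≤ I.R p.1 ∧ I.R p.1 < b) ∧ (a ≤ I.R p.2 ∧ I.R p.2 < b) ∧
    dens N I Kd (lev N I p.1) a b ∧ dens N I Kd (lev N I p.2) a b

/-- relative size of a triple (level, start, end) -/
noncomputable def sz (N : ℕ) (x : ℕ × ℕ × ℕ) : ℝ := ((x.2.2 - x.2.1 : ℕ) : ℝ) / (lam N x.1 : ℝ)

/-- start of the busy interval of a chain `x = (k, a, e)` -/
noncomputable def bs (N : ℕ) (I : DI) (x : ℕ × ℕ × ℕ) : ℕ := be N I x.1 x.2.1

/-- end of the busy interval of a chain -/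
noncomputable def gs (N : ℕ) (I : DI) (x : ℕ × ℕ × ℕ) : ℕ := gam N I x.1 x.2.1

/-- relative size of the busy interval of a chain -/
noncomputable def mu (N : ℕ) (I : DI) (x : ℕ × ℕ × ℕ) : ℝ :=
  ((gs N I x - bs N I x : ℕ) : ℝ) / (lam N x.1 : ℝ)

/-- `x = (k, a, e)` is a chain `[a, e)` of level `k` which ends at `e` -/
def EC (N : ℕ) (I : DI) (x : ℕ × ℕ × ℕ) : Prop :=
  ∃ v, x.2.2 = v + 1 ∧ EndE N I x.1 v ∧ uu N I x.1 v = (x.2.1 : ℕ∞)

/-- `x = (k, a, e)` is the last chain of level `k` closed in its busy interval -/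
def CC (N : ℕ) (I : DI) (x : ℕ × ℕ × ℕ) : Prop :=
  ∃ s, x.2.2 = s + 1 ∧ ClE N I x.1 s ∧ uu N I x.1 s = (x.2.1 : ℕ∞) ∧ s + 1 < gs N I x ∧
    ∀ s', s < s' → s' + 1 < gs N I x → ¬ ClE N I x.1 s'

/-- nodes: last closed chains with a long history -/
def Nd (N : ℕ) (I : DI) (x : ℕ × ℕ × ℕ) : Prop :=
  CC N I x ∧ bs N I x + Rc N * (x.2.2 - 1 - x.2.1) < x.2.1

open Classical in
/-- jobs of the chain whose level is `Ks`-dense on the chain -/
noncomputable def XX (N : ℕ) (I : DI) (x : ℕ × ℕ × ℕ) : Finset ℕ :=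
  I.J.filter fun i => (x.2.1 ≤ I.R i ∧ I.R i < x.2.2) ∧ dens N I (Ks N) (lev N I i) x.2.1 x.2.2

open Classical in
/-- jobs of the history `[b, e)` whose level is dense on `[b, b + 2 (e - b))` -/
noncomputable def YY (N : ℕ) (I : DI) (x : ℕ × ℕ × ℕ) : Finset ℕ :=
  I.J.filter fun i => (bs N I x ≤ I.R i ∧ I.R i < x.2.2) ∧
    dens N I Kd (lev N I i) (bs N I x) (bs N I x + 2 * (x.2.2 - bs N I x))

/-- nodes with masses in the chain and in the history -/
def XY (N : ℕ) (I : DI) (x : ℕ × ℕ × ℕ) : Prop :=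
  Nd N I x ∧ x.2.2 - x.2.1 ≤ Mc N * lam N x.1 * (XX N I x).card ∧
    gs N I x - bs N I x ≤ Mc N * lam N x.1 * (YY N I x).card

/-- end of the `j`-th piece of the history of `a`: the pieces are `[be j a, pe j a)` -/
noncomputable def pe (N : ℕ) (I : DI) : ℕ → ℕ → ℕ
  | 0, a => a
  | j + 1, a => be N I j a

/-- merging level of two jobs -/
noncomputable def mg (N : ℕ) (I : DI) (i i' : ℕ) : ℕ :=
  sInf {j | be N I j (I.R i) = be N I j (I.R i')}

/-- the scale of a chain: `4 ^ s ≤ e - a < 4 ^ (s+1)` -/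
def scl (x : ℕ × ℕ × ℕ) : ℕ := Nat.log 4 (x.2.2 - x.2.1)

/-- the cell of a chain -/
def cell (x : ℕ × ℕ × ℕ) : ℕ × ℕ := (scl x, x.2.1 / 4 ^ (scl x + 2))

open Classical in
/-- type `b` pairs of a node `x` with the lowest node `x1` of its cell -/
noncomputable def TB (N : ℕ) (I : DI) (x x1 : ℕ × ℕ × ℕ) : Finset (ℕ × ℕ) :=
  (XX N I x1 ×ˢ YY N I x).filter fun p =>
    I.R p.1 - be N I x.1 (I.R p.1) < 2 * (I.R p.1 - be N I (mg N I p.1 p.2) (I.R p.1))

/-- the weight of a gap -/
noncomputable def om (g : ℕ) : ℝ := (1 / 2 : ℝ) ^ (g - g / 4)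

/-- constant of the certificate sums -/
noncomputable def Cs (N : ℕ) : ℝ := 22 * ((Mc N : ℝ) * N * 2 ^ kap N) ^ 2

/-- final constant of the chain sums -/
noncomputable def C1 (N : ℕ) : ℝ := 100 * Cs N * kap N

/-- constant of the discrete theorem -/
noncomputable def CD (N : ℕ) : ℝ := 200 * ((Rc N : ℝ) + 1) * C1 N

end STR
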