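import Mathlib

/-!
# Non-clairvoyant scheduling on one machine: the model (MP_32d942_lc)
-/

set_option autoImplicit false

namespace STR

/-- An instance: a finite set of jobs with release times `r j ≥ 0` and sizes `p j > 0`. -/
structure Inst where
  jobs : Finset ℕ
  r : ℕ → ℝ
  p : ℕ → ℝ
  r_nonneg : ∀ j ∈ jobs, 0 ≤ r j
  p_pos : ∀ j ∈ jobs, 0 < p j

/-- `W j t` is the work done on job `j` up to time `t` by a schedule on a machine of speed `s`: it is
nondecreasing in `t`, no work is done before the release time, and the total work done in a time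
interval is at most `s` times its length. -/
structure Feasible (I : Inst) (s : ℝ) (W : ℕ → ℝ → ℝ) : Prop where
  mono : ∀ j ∈ I.jobs, Monotone (W j)
  before : ∀ j ∈ I.jobs, ∀ t ≤ I.r j, W j t = 0
  speed : ∀ t t', t ≤ t' → ∑ j ∈ I.jobs, (W j t' - W j t) ≤ s * (t' - t)

/-- An observer who sees the release times and the completion times, but not the sizes, has the same
information before time `t` in the instance `I` with schedule `W` and in the instance `I'` with
schedule `W'`: the same jobs have been released before `t`, at the same times, and at every time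
`τ < t` the same of these jobs are completed. -/
def SameInfo (I I' : Inst) (W W' : ℕ → ℝ → ℝ) (t : ℝ) : Prop :=
  (∀ j, (j ∈ I.jobs ∧ I.r j < t) ↔ (j ∈ I'.jobs ∧ I'.r j < t)) ∧
  (∀ j ∈ I.jobs, I.r j < t → I.r j = I'.r j) ∧
  ∀ j ∈ I.jobs, I.r j < t → ∀ τ < t, (I.p j ≤ W j τ ↔ I'.p j ≤ W' j τ)

/-- `A` is a deterministic non-clairvoyant online algorithm for a machine of speed `s`: it maps every
instance to a feasible schedule, and the work done up to time `t` is determined by the releases and
completions before time `t`. -/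
structure NonClair (s : ℝ) (A : Inst → ℕ → ℝ → ℝ) : Prop where
  feas : ∀ I, Feasible I s (A I)
  caus : ∀ I I' t, SameInfo I I' (A I) (A I') t → ∀ j ∈ I.jobs, I.r j < t → ∀ τ ≤ t,
    A I j τ = A I' j τ

/-- `A` is `ρ`-competitive for total stretch on the instances of size ratio at most `P`: it completes
all jobs (at the times `c j`), and its total stretch is at most `ρ` times the total stretch of every
feasible schedule `V` of speed `1` (with completion times `d j`). -/
def Competitive (P ρ : ℝ) (A : Inst → ℕ → ℝ → ℝ) : Prop :=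
  ∀ I : Inst, (∀ i ∈ I.jobs, ∀ j ∈ I.jobs, I.p j ≤ P * I.p i) →
    ∃ c : ℕ → ℝ, (∀ j ∈ I.jobs, IsLeast {t | I.p j ≤ A I j t} (c j)) ∧
      ∀ (V : ℕ → ℝ → ℝ) (d : ℕ → ℝ), Feasible I 1 V → (∀ j ∈ I.jobs, I.p j ≤ V j (d j)) →
        ∑ j ∈ I.jobs, (c j - I.r j) / I.p j ≤ ρ * ∑ j ∈ I.jobs, (d j - I.r j) / I.p j

end STR
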