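import Pool.Agent.STR.Basic
import Pool.Agent.STR.Model

/-!
# Project STR (MP_32d942_lc): the real model
-/

set_option autoImplicit false

namespace STR

open Filter

/-- linear interpolation of a sequence (constant for negative arguments) -/
noncomputable def lin (f : ℕ → ℝ) (x : ℝ) : ℝ :=
  f ⌊max x 0⌋₊ + (max x 0 - ⌊max x 0⌋₊) * (f (⌊max x 0⌋₊ + 1) - f ⌊max x 0⌋₊)

/-- length of a slot: `N` units `w` at speed `s` -/
noncomputable def del (N : ℕ) (s w : ℝ) : ℝ := N * w / s

/-- discretisation of an instance -/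
noncomputable def di (N : ℕ) (s w : ℝ) (I : Inst) : DI where
  J := I.jobs
  R := fun j => ⌈I.r j / del N s w⌉₊
  q := fun j => ⌈I.p j / w⌉₊

/-- the algorithm with unit `w` -/
noncomputable def alg (N : ℕ) (s w : ℝ) (I : Inst) (j : ℕ) (t : ℝ) : ℝ :=
  w * lin (fun n => (eu N (di N s w I) n j : ℝ)) (t / del N s w)

/-- total stretch with completion times `c` -/
noncomputable def str (I : Inst) (c : ℕ → ℝ) : ℝ := ∑ j ∈ I.jobs, (c j - I.r j) / I.p j

/-- limit of the algorithms along an ultrafilter -/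
noncomputable def ulim (f : ℕ → ℝ) : ℝ := limUnder ((hyperfilter ℕ : Ultrafilter ℕ) : Filter ℕ) f

end STR
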