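import Pool.Agent.STR.Basic

/-!
# Project STR (MP_32d942_lc): targets on the run of the algorithm (Blueprint sections 1, 2, 3)

Every target has its complete proof in the docstring. The list after the word uses names the targets that may be taken as
hypotheses (all lemmas of `Basic.lean` may be used freely). Notation: `e = eu`, `u = uu`, `A = Ak`.
-/

set_option autoImplicit false

namespace STR

/-- STR-MON. PROOF. (A) `uu k t ≤ md k t` always, given the claim at time `t` for all levels: by `md_cases`, `md k t` is `⊤`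
or `uu i t` with `i ≤ k`, and `uu k t ≤ uu i t` by the claim at `t` (monotone chain). (B) `md (k+1) t ≤ md k t`: if `Con k t` then
`Con (k+1) t` (`Ak_level`, `uu (k+1) t ≤ uu k t`). So if `¬ Con (k+1) t`, then `¬ Con k t` and both are `⊤` (`md_zero`, `md_succ`). If
`Con (k+1)` and `Clo (k+1)`: equal. Otherwise `md (k+1) t = uu (k+1) t ≤ uu k t ≤ md k t`. (C) Induction on `t`; `t = 0`: `uu_zero` does
not depend on `k`. Step by `uu_succ`: if `md k t ≠ ⊤` then `md (k+1) t ≠ ⊤`, use (B). If `md k t = ⊤` and a job is released at `t+1`: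
`uu k (t+1) = t+1` and `uu (k+1) (t+1)` is `t+1` or a value `md (k+1) t = uu i t ≤ t` (`uu_le`). If `md k t = ⊤` and no job is
released: `uu k (t+1) = ⊤`. -/
def T_MON : Prop := ∀ (N : ℕ) (I : DI) (k t : ℕ), uu N I (k + 1) t ≤ uu N I k t

/-- STR-BEM. PROOF. Induction on `t` with `be_succ`, `Ak_level`. (3): `be k t ≤ t' < t`: at the last step, if `A k t` is nonempty then
`be k (t+1) = be k t` and `t' = t` or `t' < t`; otherwise `be k (t+1) = t+1`, nothing to show. (4): induction: if `A k t` is nonempty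
use the claim at `t`, otherwise `be k (t+1) = t+1` and `A k t = ∅`. (5): if `R j < be k t` then by (4) `A k (be k t - 1) = ∅`, but
`R j ≤ be k t - 1 ≤ t`, so `j ∈ A k (be k t - 1)` by `Ak_back`. (6): induction on `y` with `be_succ`. -/
def T_BEM : Prop := ∀ (N : ℕ) (I : DI) (k t : ℕ),
  be N I k t ≤ t ∧
  be N I (k + 1) t ≤ be N I k t ∧
  (∀ t', be N I k t ≤ t' → t' < t → (Ak N I k t').Nonempty) ∧
  (be N I k t = 0 ∨ Ak N I k (be N I k t - 1) = ∅) ∧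
  (∀ j ∈ Ak N I k t, be N I k t ≤ I.R j) ∧
  (∀ y, t ≤ y → (∀ t', t ≤ t' → t' < y → (Ak N I k t').Nonempty) → be N I k y = be N I k t)

/-- STR-NE. PROOF. Induction on `t`, all `k`. `t = 0`: `uu_zero`: `a = 0` and some `j ∈ al 0` has `R j = 0`; `j ∈ A k 0` by
`mem_al`, `mem_Ak`, `eu_zero`, `ell_pos`. Step: `uu_cases`: either `a = t+1` and some `j ∈ J` has `R j = t+1`: `j ∈ A k (t+1)` by `self_mem`; or
`i ≤ k`, `Con i t`, `uu i t = a`: the `j` of `Con` is in `A i (t+1) ⊆ A k (t+1)`, `a ≤ R j`; the job with release `a` comes from the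
induction hypothesis for `i`. -/
def T_NE : Prop := ∀ (N : ℕ) (I : DI), 1 ≤ N → Ok N I → ∀ (k t a : ℕ), uu N I k t = (a : ℕ∞) →
  (∃ j ∈ Ak N I k t, a ≤ I.R j) ∧ ∃ i ∈ I.J, I.R i = a

/-- STR-TH (uses T_BEM). PROOF. `t = 0`: `a = 0` (`uu_le`), left. `t + 1`: `uu_cases`: `a = t+1`: left (`lam_pos`). Otherwise `i ≤ k` with
`¬ Clo i t`: `lam i > t+1-a` gives left (`lam_le`), or `be i (t+1) + Rc (t+1-a) < a`, and `be k (t+1) ≤ be i (t+1)` (T_BEM, second part,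
iterated). -/
def T_TH : Prop := ∀ (N : ℕ) (I : DI), 1 ≤ N → ∀ (k t a : ℕ), uu N I k t = (a : ℕ∞) →
  t - a < lam N k ∨ be N I k t + Rc N * (t - a) < a

/-- STR-P1 (uses T_MON, T_NE). PROOF. First the slot `t' = t`: let `k0` be the least level with `uu k0 t ≠ ⊤` (`k0 ≤ k`), `uu k0 t = a0`,
`a ≤ a0` (T_MON, iterated). By T_NE and `mj_exists` the main job `j` is in `A k0 t ⊆ A k t` and `a ≤ a0 ≤ R j`. Then induction on `t`
(all `k`): if `a = t` done; otherwise `uu_cases` for `t = s+1`: (`a ≤ s`, so the first case is impossible) `i ≤ k` with `uu i s = a`;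
the induction hypothesis gives the slots `[a, s]`, `Ak_level`. -/
def T_P1 : Prop := ∀ (N : ℕ) (I : DI), 1 ≤ N → Ok N I → ∀ (k t a : ℕ), uu N I k t = (a : ℕ∞) →
  ∀ t', a ≤ t' → t' ≤ t → ∃ j, mj N I t' = some j ∧ j ∈ Ak N I k t' ∧ a ≤ I.R j

/-- STR-CHB (uses T_BEM, T_P1). PROOF. Suppose `a < be k t`. By T_BEM (4) `A k (be k t - 1) = ∅` and `a ≤ be k t - 1 ≤ t`; by T_P1 the set
`A k (be k t - 1)` is nonempty. -/
def T_CHB : Prop := ∀ (N : ℕ) (I : DI), 1 ≤ N → Ok N I → ∀ (k t a : ℕ), uu N I k t = (a : ℕ∞) →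
  be N I k t ≤ a

/-- STR-FIN. PROOF. Let `m` be a bound of the `R j`, `T0 = m + ∑ q j + 1`. Suppose `al t ≠ ∅`, `t ≥ T0`. The alive job is alive at all
`t' ∈ [m, t]` (`eu_mono`), so by `bj_exists`, `bj_spec` in each of these slots the background serves a job with `e < q`:
`∑ j ∈ J, min (e t' j) (q j)` increases by at least `1` (monotone in every `j`, strictly in the served one; `eu_succ`). So it is
`≥ t - m > ∑ q j` at the end, a contradiction. Second part: `A k t ⊆ al t`. Third part: a job `j ∈ J` is not in `al t` for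
`t ≥ max T0 (R j)`, so `q j ≤ e t j`. -/
def T_FIN : Prop := ∀ (N : ℕ) (I : DI), 1 ≤ N → ∃ T0 : ℕ, (∀ t, T0 ≤ t → al N I t = ∅) ∧
  (∀ k t, T0 ≤ t → Ak N I k t = ∅) ∧ ∀ j ∈ I.J, ∀ t, T0 ≤ t → I.R j ≤ t → I.q j ≤ eu N I t j

/-- STR-WKM. PROOF. For `j` with `a ≤ R j < b` let `m = min (q j) (ell k)` and
`c t = #{t' ∈ S | t' < t, mj t' = some j, j ∈ A k t'}`. Claim: `(N-1) c t ≤ e t j` and `(N-1) c t ≤ m + N`. Induction on `t`: if the slot
`t` does not count, `eu_mono`. If it counts: `e (t+1) j ≥ e t j + (N-1)` and `e t j < m` (`mem_Ak`), so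
`(N-1) c (t+1) ≤ e t j + (N-1) ≤ m - 1 + N - 1`. Then `(N-1) #S ≤ ∑_{j, a ≤ R j < b} (N-1) c_j(∞)`: every slot of `S` counts for some
such `j` (`j ∈ I.J` since `j ∈ A k t`); `Finset.card_le_card_biUnion`-like (`S ⊆ biUnion`, `Finset.card_biUnion_le`). -/
def T_WKM : Prop := ∀ (N : ℕ) (I : DI), 1 ≤ N → ∀ (S : Finset ℕ) (k a b : ℕ),
  (∀ t ∈ S, ∃ j, mj N I t = some j ∧ j ∈ Ak N I k t ∧ a ≤ I.R j ∧ I.R j < b) →
  (N - 1) * S.card ≤ Wp N I k a b

/-- STR-WKB. PROOF. The same with one unit per slot: `c t = #{t' ∈ S | t' < t, bj t' = some j, j ∈ A k t'}`,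
`c t ≤ e t j` and `c t ≤ m + 1` (`e t j < m` when the slot counts), and `m + 1 ≤ m + N`. -/
def T_WKB : Prop := ∀ (N : ℕ) (I : DI), 1 ≤ N → ∀ (S : Finset ℕ) (k a b : ℕ),
  (∀ t ∈ S, ∃ j, bj N I t = some j ∧ j ∈ Ak N I k t ∧ a ≤ I.R j ∧ I.R j < b) →
  S.card ≤ Wp N I k a b

/-- STR-CAP. PROOF. Let `S` be the set of these jobs. For `j ∈ S`: `ell k < q j` (otherwise `lev j ≤ k`, `Nat.sInf_le`), and `j ∉ A k g`,
`R j ≤ g`, so `ell k ≤ e g j` (`mem_Ak`). `e b j = 0` (`eu_before`). `cap_range` for `S`: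
`#S * ell k ≤ ∑ e g j ≤ 0 + N (g - b)`. -/
def T_CAP : Prop := ∀ (N : ℕ) (I : DI), 1 ≤ N → ∀ (k b g : ℕ), b ≤ g → Ak N I k g = ∅ →
  (I.J.filter fun j => (b ≤ I.R j ∧ I.R j < g) ∧ k < lev N I j).card * ell N k ≤ N * (g - b)

/-- STR-MT (uses T_MON). PROOF. (1) Induction on `t'` (all `a'`): `t' = t` clear. `t' + 1`: by `uu_cases` either `a' = t' + 1 ≥ a` (`uu_le`), or
`uu i t' = a'` with `i ≤ k`, so `uu k t' ≤ a'` (T_MON), `uu k t' = a''`, `a ≤ a'' ≤ a'`. (2) `uu_end`: `uu k (t+1)` is `⊤` or `t+1`. Induction on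
`t'`: if `uu k t' = a'` then `t + 1 ≤ a'`: for `t' = t+1` clear; step: `a' = t'+1`, or `uu i t' = a'`, `i ≤ k`, `uu k t' = a'' ≤ a'` and
`t + 1 ≤ a''`. (3) the same: `x < a'`; for `t' = x` there is nothing to show; for `uu k x = ⊤` a value `uu i x ≠ ⊤`, `i ≤ k`, is
impossible (T_MON). -/
def T_MT : Prop := ∀ (N : ℕ) (I : DI) (k t t' a' : ℕ), t ≤ t' → uu N I k t' = (a' : ℕ∞) →
  (∀ a : ℕ, uu N I k t = (a : ℕ∞) → a ≤ a') ∧
  (EndE N I k t → t < t' → t + 1 ≤ a') ∧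
  (uu N I k t = ⊤ → t < a')

/-- STR-EV (uses T_P1, T_FIN). The first event after the release. PROOF. `uu k (R i) ≠ ⊤` (`uu_rel`), so `uu k (R i) = a`, `a ≤ R i` (`uu_le`).
If for no `t ≥ R i` with `uu k = a` on `[R i, t]` there is an event (`EndE` or `ClE`), then by induction with `uu_keep`
`uu k t = a` for all `t ≥ R i`: (no event and `uu k t = a ≠ ⊤` means `Con k t` and `¬ Clo k t`), so by T_P1 `A k t ≠ ∅` for all `t`,
against T_FIN. If `EndE k t` then `¬ Con k t`, so `i ∉ A k (t+1)` since `a ≤ R i < t+1`. -/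
def T_EV : Prop := ∀ (N : ℕ) (I : DI), 1 ≤ N → Ok N I → ∀ i ∈ I.J, ∀ k : ℕ, ∃ t a : ℕ, I.R i ≤ t ∧ a ≤ I.R i ∧
  (∀ t', I.R i ≤ t' → t' ≤ t → uu N I k t' = (a : ℕ∞)) ∧
  (ClE N I k t ∨ (EndE N I k t ∧ i ∉ Ak N I k (t + 1)))

/-- STR-OLD (uses T_EV). PROOF. T_EV for `j` and `k`: event at `t1`. If `t ≤ t1` then `uu k t = a ≠ ⊤`. So `t1 < t`, and `EndE` is
impossible since `j ∈ A k (t1+1)` by `Ak_back`. -/
def T_OLD : Prop := ∀ (N : ℕ) (I : DI), 1 ≤ N → Ok N I → ∀ (k t j : ℕ), j ∈ Ak N I k t → uu N I k t = ⊤ →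
  ∃ t1 a : ℕ, t1 < t ∧ I.R j ≤ t1 ∧ a ≤ I.R j ∧ uu N I k t1 = (a : ℕ∞) ∧ ClE N I k t1

/-- STR-GAM (uses T_BEM, T_FIN). Busy intervals. PROOF. `{t | x ≤ t, A k t = ∅}` is nonempty (T_FIN), so `gam k x` is its least element
(`Nat.sInf_mem`, `Nat.sInf_le`), `x < gam k x` since `A k x ≠ ∅`. For `t ∈ [be k x, gam k x)`: nonempty: `t < x` by T_BEM (3), `t = x`,
`t > x` by minimality. `be k t = be k x`: T_BEM (6) from `be k x` (where `be k (be k x) = be k x`: by T_BEM (4) `be k x = 0` or `A k` is empty at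
`be k x - 1`, `be_succ`, `be_zero`). `gam k t = gam k x`: both are the least element of the same set. -/
def T_GAM : Prop := ∀ (N : ℕ) (I : DI), 1 ≤ N → ∀ (k x : ℕ), (Ak N I k x).Nonempty →
  x < gam N I k x ∧ Ak N I k (gam N I k x) = ∅ ∧
  ∀ t, be N I k x ≤ t → t < gam N I k x →
    (Ak N I k t).Nonempty ∧ be N I k t = be N I k x ∧ gam N I k t = gam N I k x

/-- STR-F1 (uses T_BEM, T_P1, T_OLD, T_WKM, T_WKB). The prefix lemma. PROOF. Let `len = ts - b`, suppose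
`Fc Wp(a',b') < Fc (N-2)(b'-a') + len` for all `b ≤ a' ≤ b' ≤ ts`. `be k t = b` for `t ∈ [b, ts)` (T_BEM (6)).
(1) If `ClE k t1`, `t1 + 1 < ts`, `uu k t1 = a`, `b ≤ a`: by T_P1 (slots `[a, t1]`, released jobs: `R j ≤ t'`) and T_WKM
`(N-1) x ≤ Wp k a (t1+1)`, `x = t1+1-a`, so `Fc x < len`; the closing condition: `a ≤ b + Rc x`, so
`t1 + 1 - b ≤ (Rc+1) x` and `N² (t1+1-b) < len` (multiply by `Fc = N² (Rc+1)`).
(2) Slots `t ∈ [b, ts)` with `uu k t = ⊤`: `bj_low` gives a background job `j ∈ A k t`; T_OLD: `t1 < t`, `R j ≤ t1`, `ClE k t1` with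
chain start `a ≤ R j`; `b ≤ R j` (T_BEM (5)), and `b ≤ a`: T_CHB-like (`A k` is nonempty on `[a, t1]` by T_P1, and if `b > a` then
`A k (b-1) = ∅`, `b - 1 ∈ [a, t1]`; `b ≠ 0`). So (1) applies: `N² (R j + 1 - b) < len`. With
`c' = b + (len - 1) / N²` : `R j < c'`, `c' ≤ ts`. T_WKB: `#top ≤ Wp k b c'`, and `N² (c' - b) ≤ len`.
(3) The other slots: T_P1 with `t' = t`: main job in `A k t`, `b ≤ R j` (T_BEM (5)), `R j ≤ t < ts`. T_WKM: `(N-1) #open ≤ Wp k b ts`.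
(4) `#top + #open = len`. In reals, with `F = Fc`: `F #top < F (N-2) len / N² + len`, `F (N-1) #open < F (N-2) len + len`. So
`F (N-1) len < F (N-1)(N-2) len / N² + (N-1) len + F (N-2) len + len`, i.e. `F < F (N-1)(N-2)/N² + N`, i.e.
`F (3N-2) < N³` , false since `F ≥ 1000 N³`. -/
def T_F1 : Prop := ∀ (N : ℕ) (I : DI), 8 ≤ N → Ok N I → ∀ (k b ts : ℕ), b < ts → be N I k b = b →
  (∀ t, b ≤ t → t < ts → (Ak N I k t).Nonempty) →
  ∃ a' b', b ≤ a' ∧ a' ≤ b' ∧ b' ≤ ts ∧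
    Fc N * ((N - 2) * (b' - a')) + (ts - b) ≤ Fc N * Wp N I k a' b'

open Classical in
/-- STR-GL (uses T_F1, T_OLD, T_WKB, T_BEM, T_GAM). Last closings. PROOF. `g = gam k b`, `tB = s + 1`, `T = g - tB`, `B = g - b`.
Case `2 T < B`: T_F1 with `ts = tB` gives `Fc (Wp - (N-2)|I|) ≥ tB - b ≥ B / 2`, and `FG ≥ 2 Fc`. Case `2 T ≥ B` and
`100 N #top > T` (`top` = slots of `[tB, g)` with `uu k = ⊤`): in each of them the background job `j ∈ A k t` (`bj_low`) is old: T_OLD gives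
`t1 < t` with `ClE k t1`, `R j ≤ t1`; by maximality of `s` `t1 ≤ s`, so `R j < tB`; `b ≤ R j` (T_BEM (5)). T_WKB: `#top ≤ Wp k b tB`, so
`200 N Wp k b tB > B`. If `400 N (N-2)(tB-b) ≤ B`: `400 N (Wp k b tB - (N-2)(tB-b)) ≥ B`, `FG ≥ 400 N`, `I = [b, tB)`. Otherwise
T_F1 with `ts = tB`: `400 N (N-2) Fc (Wp - (N-2)|I|) ≥ B`, `FG ≥ 400 N (N-2) Fc`. -/
def T_GL : Prop := ∀ (N : ℕ) (I : DI), 8 ≤ N → Ok N I → ∀ (k b s : ℕ), (Ak N I k b).Nonempty → be N I k b = b →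
  b ≤ s → s + 1 < gam N I k b → ClE N I k s → (∀ s', s < s' → s' + 1 < gam N I k b → ¬ ClE N I k s') →
  (∃ a' b', b ≤ a' ∧ a' ≤ b' ∧ b' ≤ s + 1 ∧
    FG N * ((N - 2) * (b' - a')) + (gam N I k b - b) ≤ FG N * Wp N I k a' b') ∨
  (gam N I k b - b ≤ 2 * (gam N I k b - (s + 1)) ∧
    100 * N * ((Finset.Ico (s + 1) (gam N I k b)).filter fun t => uu N I k t = ⊤).card ≤ gam N I k b - (s + 1))

open Classical in
/-- STR-GAW (uses T_TH, T_P1, T_MT, T_WKM, T_BEM, T_GAM). PROOF. Let `g = gam k b`, `tB = s + 1`, `T = g - tB`, `B = g - b ≤ 2T`, `uu k s = a`.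
`s - a ≥ lam k - 1 ≥ 7` and `Rc (s-a) < a - b ≤ B`, so `B ≥ Rc * 7`, `lam k ≤ B / Rc + 1`. Let `[x, y)`, `y - x = T / 8`. Call
`t ∈ [x, y)` late if `uu k t = a''` with `a'' < x`. By T_TH and `be k t = b` (T_GAM): `t - a'' < lam k` or `Rc (t - a'') < a'' - b ≤ B`; in
both cases `Rc (t - x) ≤ B` (`t - x ≤ t - a'' - 1`). So the number of late slots is at most `B / Rc + 1 ≤ 2 B / Rc ≤ 4 T / Rc`. The slots which are
neither late nor `⊤` have `uu k t = a'' ≥ x` and a main job `j ∈ A k t`, `x ≤ a'' ≤ R j ≤ t < y` (T_P1 with `t' = t`). By T_WKM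
`Wp k x y ≥ (N-1)((y - x) - T/(100N) - 4T/(1000N)) ≥ (N-1)(y-x) - 0.014 T`. So
`Wp - (N-2)(y-x) ≥ (y - x) - 0.014 T ≥ T/8 - 1 - 0.014 T ≥ T / 16` (`T ≥ B/2 ≥ 3500 N ≥ 28000`). Multiply by `32`: `≥ 2 T ≥ B`. -/
def T_GAW : Prop := ∀ (N : ℕ) (I : DI), 8 ≤ N → Ok N I → ∀ (k b s a : ℕ), (Ak N I k b).Nonempty → be N I k b = b →
  b ≤ s → s + 1 < gam N I k b → ClE N I k s → uu N I k s = (a : ℕ∞) → b + Rc N * (s - a) < a →
  gam N I k b - b ≤ 2 * (gam N I k b - (s + 1)) →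
  100 * N * ((Finset.Ico (s + 1) (gam N I k b)).filter fun t => uu N I k t = ⊤).card ≤ gam N I k b - (s + 1) →
  ∀ x y, s + 1 ≤ x → y ≤ gam N I k b → y = x + (gam N I k b - (s + 1)) / 8 →
    32 * ((N - 2) * (y - x)) + (gam N I k b - b) ≤ 32 * Wp N I k x y

end STR
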