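import Pool.Agent.STR.TargetsOpt
import Pool.Agent.STR.TargetsSim

/-!
# STR-BU: the sum over the busy intervals of one level
-/

set_option autoImplicit false

namespace STR

namespace BU_

open Classical in
/-- the jobs of the busy interval `[b, g)` whose level is dense on it -/
noncomputable def Yb (N : ℕ) (I : DI) (b g : ℕ) : Finset ℕ :=
  I.J.filter fun i => (b ≤ I.R i ∧ I.R i < g) ∧ dens N I Kd (lev N I i) b g

open Classical in
theorem mem_Yb {N : ℕ} {I : DI} {b g i : ℕ} : i ∈ Yb N I b g ↔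
    i ∈ I.J ∧ (b ≤ I.R i ∧ I.R i < g) ∧ dens N I Kd (lev N I i) b g := by
  unfold Yb
  rw [Finset.mem_filter]

theorem Fc_pos {N : ℕ} (hN : 8 ≤ N) : 1 ≤ Fc N := by
  unfold Fc Rc
  have : 1 ≤ N * N := Nat.mul_pos (by omega) (by omega)
  exact Nat.mul_pos this (by omega)

theorem Mc_ge {N : ℕ} (hN : 8 ≤ N) : 16 * Fc N * N ≤ Mc N := by
  unfold Mc M0 FG
  have h1 : 1 ≤ N * N := Nat.mul_pos (by omega) (by omega)
  calc 16 * Fc N * N = 16 * (1 * 1 * Fc N) * N * 1 := by ring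
    _ ≤ 16 * (400 * (N * N) * Fc N) * N * 3 := by
      gcongr
      · omega
      · omega
    _ = 3 * (16 * (400 * (N * N) * Fc N) * N) := by ring

theorem kap_ge (N : ℕ) : Mc N * (Kd * 1) ≤ 2 ^ kap N := by
  have h1 : Mc N * (Kd * 1) ≤ kap N := by
    unfold kap Ks Kd
    have h2 : 1 ≤ 128 * (Rc N + 1) := by omega
    calc Mc N * (16 * 1) = 16 * Mc N * 1 := by ring
      _ ≤ 64 * Mc N * (128 * (Rc N + 1)) := by gcongr; omega
  exact h1.trans (Nat.lt_two_pow_self).le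

end BU_

open BU_ in
theorem p_BU (hF1 : T_F1) (hMASS : T_MASS) (hCSS : T_CSS) (hPR : T_PR) (hGAM : T_GAM)
    (hON : T_ON) : T_BU := by
  classical
  intro N I D hN hOk hOpt k0 L hLv k W hW
  have hOO : 0 ≤ OO N I D := le_trans (Nat.cast_nonneg _) (hON N I D hN hOk hOpt).2
  rcases Nat.eq_zero_or_pos L with hL | hL
  · have hJ : I.J = ∅ := by
      rw [Finset.eq_empty_iff_forall_notMem]
      intro j hj
      have := hLv j hj
      omega
    have hWe : W = ∅ := by
      rw [Finset.eq_empty_iff_forall_notMem]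
      intro b hb
      obtain ⟨j, hj⟩ := (hW b hb).1
      have h1 := (mem_Ak N I).1 hj
      have h2 : j ∈ I.J := h1.1
      rw [hJ] at h2
      simp at h2
    rw [hWe, hL]
    simp
  have hg : ∀ b ∈ W, b < gam N I k b ∧ ∀ t, b ≤ t → t < gam N I k b →
      (Ak N I k t).Nonempty ∧ be N I k t = b := by
    intro b hb
    obtain ⟨h1, h2⟩ := hW b hb
    obtain ⟨h3, -, h4⟩ := hGAM N I (by omega) k b h1
    rw [h2] at h4
    exact ⟨h3, fun t ht ht' => ⟨(h4 t ht ht').1, (h4 t ht ht').2.1⟩⟩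
  -- the alternative
  have halt : ∀ b ∈ W, SC N I k b (gam N I k b) ∨
      gam N I k b - b ≤ Mc N * lam N k * (Yb N I b (gam N I k b)).card := by
    intro b hb
    obtain ⟨h1, h2⟩ := hg b hb
    obtain ⟨a', b', h3, h4, h5, h6⟩ := hF1 N I hN hOk k b (gam N I k b) h1 (hW b hb).2
      fun t ht ht' => (h2 t ht ht').1
    rcases hMASS N I hN hOk (Fc N) Kd 1 (kap N) 0 (Mc N) k a' b' b (gam N I k b) b (gam N I k b)
      (gam N I k b - b) h4 (by omega) le_rfl (Mc_ge hN) (kap_ge N) h6 h3 h5 le_rfl h3 h5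
      (by rw [pow_zero, one_mul, one_mul]) with h7 | h7 | h7
    · exact Or.inl ⟨a', b', h3, h4, h5, h7⟩
    · exfalso
      have h8 : (I.J.filter fun i => (a' ≤ I.R i ∧ I.R i < b') ∧
          (k + kap N < lev N I i ∧ lev N I i ≤ k + kap N + 0) ∧
          dens N I Kd (lev N I i) b (gam N I k b)) = ∅ := by
        rw [Finset.filter_eq_empty_iff]
        rintro i - ⟨-, ⟨h9, h10⟩, -⟩
        omega
      rw [h8, Finset.card_empty, mul_zero] at h7
      omega
    · refine Or.inr (h7.trans (Nat.mul_le_mul_left _ (Finset.card_le_card ?_)))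
      intro i hi
      rw [Finset.mem_filter] at hi
      rw [mem_Yb]
      exact ⟨hi.1, ⟨by omega, by omega⟩, hi.2.2.2⟩
  have hlam : (0 : ℝ) < (lam N k : ℝ) := by
    exact_mod_cast lam_pos (by omega : 1 ≤ N) k
  -- the part with certificates
  have hS1 : ∑ b ∈ W.filter (fun b => SC N I k b (gam N I k b)),
      (((gam N I k b - b : ℕ) : ℝ) / (lam N k : ℝ)) ^ 2 ≤
      6 * ((Mc N : ℝ) * N * 2 ^ kap N) ^ 2 * OO N I D := by
    have h1 := hCSS N I D hN hOk hOpt
      ((W.filter (fun b => SC N I k b (gam N I k b))).image fun b => (k, b, gam N I k b))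
      (by
        intro x hx y hy _ hxy
        rw [Finset.mem_image] at hx hy
        obtain ⟨b, hb, rfl⟩ := hx
        obtain ⟨b2, hb2, rfl⟩ := hy
        obtain ⟨t, ⟨h3, h4⟩, h5, h6⟩ := hxy
        have h7 := ((hg b (Finset.mem_filter.1 hb).1).2 t h3 h4).2
        have h8 := ((hg b2 (Finset.mem_filter.1 hb2).1).2 t h5 h6).2
        rw [← h7, ← h8])
      (by
        intro x hx
        rw [Finset.mem_image] at hx
        obtain ⟨b, hb, rfl⟩ := hx
        exact (Finset.mem_filter.1 hb).2)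
    rw [Finset.sum_image (by
      intro b _ b2 _ h
      exact congrArg (fun x : ℕ × ℕ × ℕ => x.2.1) h)] at h1
    exact h1
  -- the other part
  have hS2 : ∑ b ∈ W.filter (fun b => ¬ SC N I k b (gam N I k b)),
      (((gam N I k b - b : ℕ) : ℝ) / (lam N k : ℝ)) ^ 2 ≤ 16 * (Mc N : ℝ) ^ 2 * L * OO N I D := by
    have h1 : ∀ b ∈ W.filter (fun b => ¬ SC N I k b (gam N I k b)),
        (((gam N I k b - b : ℕ) : ℝ) / (lam N k : ℝ)) ^ 2 ≤ (Mc N : ℝ) ^ 2 *
          ((Yb N I b (gam N I k b) ×ˢ Yb N I b (gam N I k b)).card : ℝ) := by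
      intro b hb
      rw [Finset.mem_filter] at hb
      have h2 := (halt b hb.1).resolve_left hb.2
      have h3 : ((gam N I k b - b : ℕ) : ℝ) / (lam N k : ℝ) ≤
          (Mc N : ℝ) * ((Yb N I b (gam N I k b)).card : ℝ) := by
        rw [div_le_iff₀ hlam]
        calc ((gam N I k b - b : ℕ) : ℝ)
            ≤ ((Mc N * lam N k * (Yb N I b (gam N I k b)).card : ℕ) : ℝ) := by exact_mod_cast h2
          _ = _ := by push_cast; ring
      have h4 : 0 ≤ ((gam N I k b - b : ℕ) : ℝ) / (lam N k : ℝ) := by positivity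
      calc (((gam N I k b - b : ℕ) : ℝ) / (lam N k : ℝ)) ^ 2
          ≤ ((Mc N : ℝ) * ((Yb N I b (gam N I k b)).card : ℝ)) ^ 2 := by gcongr
        _ = _ := by rw [Finset.card_product]; push_cast; ring
    have h5 : ∑ b ∈ W.filter (fun b => ¬ SC N I k b (gam N I k b)),
        (Yb N I b (gam N I k b) ×ˢ Yb N I b (gam N I k b)).card ≤ (PP N I).card := by
      rw [← Finset.card_biUnion]
      · refine Finset.card_le_card ?_
        intro p hp
        rw [Finset.mem_biUnion] at hp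
        obtain ⟨b, hb, hp⟩ := hp
        rw [Finset.mem_product, mem_Yb, mem_Yb] at hp
        unfold PP
        rw [Finset.mem_filter, Finset.mem_product]
        exact ⟨⟨hp.1.1, hp.2.1⟩, b, gam N I k b, hp.1.2.1, hp.2.2.1, hp.1.2.2, hp.2.2.2⟩
      · intro b hb b2 hb2 hne
        change Disjoint _ _
        rw [Finset.disjoint_left]
        intro p hp hp2
        rw [Finset.mem_product, mem_Yb, mem_Yb] at hp hp2
        have hbW := (Finset.mem_filter.1 hb).1
        have hbW2 := (Finset.mem_filter.1 hb2).1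
        have h7 := ((hg b hbW).2 _ hp.1.2.1.1 hp.1.2.1.2).2
        have h8 := ((hg b2 hbW2).2 _ hp2.1.2.1.1 hp2.1.2.1.2).2
        exact hne (by rw [← h7, ← h8])
    have h6 := hPR N I D hN hOk hOpt k0 L hLv
    calc ∑ b ∈ W.filter (fun b => ¬ SC N I k b (gam N I k b)),
        (((gam N I k b - b : ℕ) : ℝ) / (lam N k : ℝ)) ^ 2
        ≤ ∑ b ∈ W.filter (fun b => ¬ SC N I k b (gam N I k b)), (Mc N : ℝ) ^ 2 *
          ((Yb N I b (gam N I k b) ×ˢ Yb N I b (gam N I k b)).card : ℝ) := Finset.sum_le_sum h1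
      _ = (Mc N : ℝ) ^ 2 * ((∑ b ∈ W.filter (fun b => ¬ SC N I k b (gam N I k b)),
          (Yb N I b (gam N I k b) ×ˢ Yb N I b (gam N I k b)).card : ℕ) : ℝ) := by
        rw [← Finset.mul_sum]
        push_cast
        rfl
      _ ≤ (Mc N : ℝ) ^ 2 * ((PP N I).card : ℝ) := by
        gcongr
      _ ≤ (Mc N : ℝ) ^ 2 * (16 * L * OO N I D) := by gcongr
      _ = _ := by ring
  rw [← Finset.sum_filter_add_sum_filter_not W (fun b => SC N I k b (gam N I k b))]
  have hX : (Mc N : ℝ) ≤ (Mc N : ℝ) * N * 2 ^ kap N := by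
    have h1 : (1 : ℝ) ≤ (N : ℝ) := by exact_mod_cast (by omega : 1 ≤ N)
    have h2 : (1 : ℝ) ≤ (2 : ℝ) ^ kap N := one_le_pow₀ (by norm_num)
    have h3 : (0 : ℝ) ≤ (Mc N : ℝ) := Nat.cast_nonneg _
    calc (Mc N : ℝ) = (Mc N : ℝ) * 1 * 1 := by ring
      _ ≤ (Mc N : ℝ) * N * 2 ^ kap N := by gcongr
  have hL1 : (1 : ℝ) ≤ (L : ℝ) := by exact_mod_cast hL
  have hX2 : (Mc N : ℝ) ^ 2 ≤ ((Mc N : ℝ) * N * 2 ^ kap N) ^ 2 := by
    have h3 : (0 : ℝ) ≤ (Mc N : ℝ) := Nat.cast_nonneg _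
    gcongr
  unfold Cs
  set X := ((Mc N : ℝ) * N * 2 ^ kap N) ^ 2 with hXd
  have hX0 : 0 ≤ X := by positivity
  have e1 : 6 * X * OO N I D ≤ 6 * X * L * OO N I D := by
    have : 6 * X * 1 * OO N I D ≤ 6 * X * L * OO N I D := by gcongr
    linarith
  have e2 : 16 * (Mc N : ℝ) ^ 2 * L * OO N I D ≤ 16 * X * L * OO N I D := by gcongr
  calc _ ≤ 6 * X * OO N I D + 16 * (Mc N : ℝ) ^ 2 * L * OO N I D := add_le_add hS1 hS2
    _ ≤ 6 * X * L * OO N I D + 16 * X * L * OO N I D := add_le_add e1 e2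
    _ = 22 * X * L * OO N I D := by ring

end STR
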