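import Pool.Agent.STR.TargetsAna
import Pool.Agent.STR.TargetsSim

/-!
# STR, targets CAP and UPC
-/

set_option autoImplicit false

namespace STR

namespace CAP_

theorem be_le_of_le (hBEM : T_BEM) {N : ℕ} {I : DI} {x y j k : ℕ} (hjk : j ≤ k) (hxy : x ≤ y)
    (h : be N I j x = be N I j y) : be N I k x = be N I k y := by
  have h1 := (hBEM N I j x).1
  have h2 := (hBEM N I j y).2.2.1
  have h3 := (hBEM N I k x).2.2.2.2.2
  refine (h3 y hxy ?_).symm
  intro t' ht1 ht2
  have h4 := h2 t' (by omega) ht2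
  exact h4.mono (Ak_level N I hjk)

end CAP_

theorem p_CAP : T_CAP := by
  intro N I hN k b g hbg hA
  set S := I.J.filter fun j => (b ≤ I.R j ∧ I.R j < g) ∧ k < lev N I j with hS
  have hm : ∀ j ∈ S, j ∈ I.J ∧ (b ≤ I.R j ∧ I.R j < g) ∧ k < lev N I j := by
    intro j hj
    rw [hS, Finset.mem_filter] at hj
    exact hj
  have h1 := cap_range N I hN S hbg
  have h2 : ∑ j ∈ S, eu N I b j = 0 := by
    apply Finset.sum_eq_zero
    intro j hj
    exact eu_before N I (hm j hj).2.1.1
  have h3 : S.card * ell N k ≤ ∑ j ∈ S, eu N I g j := by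
    rw [← smul_eq_mul]
    apply Finset.card_nsmul_le_sum
    intro j hj
    obtain ⟨hj1, hj2, hj3⟩ := hm j hj
    have h4 : ell N k < I.q j := ell_lt_q hj3
    by_contra h5
    have h6 : j ∈ Ak N I k g := by
      rw [mem_Ak]
      exact ⟨hj1, by omega, by omega, by omega⟩
    rw [hA] at h6
    simp at h6
  omega

theorem p_UPC (hBEM : T_BEM) : T_UPC := by
  intro N I i i' j k hjk h
  rcases le_total (I.R i) (I.R i') with h1 | h1
  · exact CAP_.be_le_of_le hBEM hjk h1 h
  · exact (CAP_.be_le_of_le hBEM hjk h1 h.symm).symm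

end STR
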