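import Pool.Agent.STR.TargetsAna
import Pool.Agent.STR.TargetsSim

/-!
# Project STR: closed chains (STR-CCB)
-/

set_option autoImplicit false

namespace STR

/-- unfolded data of a last closed chain -/
theorem CCB_data (hCHN : T_CHN) (hGAM : T_GAM) (N : ℕ) (I : DI) (hN : 8 ≤ N) (hOk : Ok N I)
    (k a e : ℕ) (h : CC N I (k, a, e)) :
    ∃ s, e = s + 1 ∧ a ≤ s ∧ ClE N I k s ∧ uu N I k s = (a : ℕ∞) ∧ s + 1 < gam N I k a ∧
      (∀ s', s < s' → s' + 1 < gam N I k a → ¬ ClE N I k s') ∧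
      be N I k a ≤ a ∧ be N I k s = be N I k a ∧ (N - 1) * (s + 1 - a) ≤ Wp N I k a (s + 1) ∧
      lam N k ≤ s + 1 - a ∧ a ≤ be N I k a + Rc N * (s + 1 - a) ∧ (Ak N I k a).Nonempty := by
  obtain ⟨s, he, hC, hu, hs, hm⟩ := h
  simp only [gs] at hs hm
  simp only at he hC hu
  have has : a ≤ s := uu_le N I hu
  obtain ⟨h1, h2, h3, -, h5, -⟩ := hCHN N I (by omega) hOk k s a hu
  obtain ⟨-, -, hG⟩ := hGAM N I (by omega) k a h1
  obtain ⟨-, hb, -⟩ := hG (s + 1) (by omega) hs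
  have hC0 := hC
  obtain ⟨-, -, hl, hc⟩ := hC
  rw [hu] at hl hc
  simp only [ENat.toNat_natCast] at hl hc
  rw [hb] at hc
  exact ⟨s, he, has, hC0, hu, hs, hm, h3, h2, h5, hl, hc, h1⟩

theorem p_CCB (hCHN : T_CHN) (hTH : T_TH) (hGAM : T_GAM) : T_CCB := by
  intro N I hN hOk x hx
  obtain ⟨k, a, e⟩ := x
  have hx0 := hx
  obtain ⟨s, rfl, has, hC, hu, hs, hm, hba, hbs, hW, hl, hc, hne⟩ :=
    CCB_data hCHN hGAM N I hN hOk k a e hx
  have hlam : N ≤ lam N k := N_le_lam N k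
  refine ⟨⟨by simp only; omega, hba, hs, hW⟩, ⟨hl, hc⟩, ?_, ?_, ?_⟩
  · rcases hTH N I (by omega) k s a hu with h | h
    · left
      simp only
      omega
    · right
      refine ⟨hx0, ?_⟩
      simp only [bs]
      rw [hbs] at h
      have e1 : s + 1 - 1 - a = s - a := by omega
      rw [e1]
      exact h
  · rintro ⟨-, hN2⟩
    simp only [bs] at hN2 ⊢
    have e1 : s + 1 - 1 - a = s - a := by omega
    rw [e1] at hN2
    have h1 : s + 1 - a ≤ 2 * (s - a) := by omega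
    have h2 : Rc N * (s + 1 - a) ≤ 2 * (Rc N * (s - a)) := by
      calc Rc N * (s + 1 - a) ≤ Rc N * (2 * (s - a)) := Nat.mul_le_mul_left _ h1
        _ = 2 * (Rc N * (s - a)) := by ring
    have h3 : (Rc N + 1) * (s + 1 - a) = Rc N * (s + 1 - a) + (s + 1 - a) := by ring
    constructor
    · omega
    · rw [h3]
      omega
  · rintro ⟨k', a', e'⟩ hy hk ⟨t, ⟨ht1, ht2⟩, ht3, ht4⟩
    simp only at hk
    subst hk
    obtain ⟨s', rfl, has', hC', hu', hs', hm', hba', hbs', hW', hl', hc', hne'⟩ :=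
      CCB_data hCHN hGAM N I hN hOk k a' e' hy
    simp only [bs, gs] at ht1 ht2 ht3 ht4
    obtain ⟨-, -, hG⟩ := hGAM N I (by omega) k a hne
    obtain ⟨-, -, hG'⟩ := hGAM N I (by omega) k a' hne'
    obtain ⟨-, b1, g1⟩ := hG t ht1 ht2
    obtain ⟨-, b2, g2⟩ := hG' t ht3 ht4
    have hgg : gam N I k a = gam N I k a' := by rw [← g1, ← g2]
    have hss : s = s' := by
      rcases lt_trichotomy s s' with h | h | h
      · exact absurd hC' (hm s' h (by rw [hgg]; exact hs'))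
      · exact h
      · exact absurd hC (hm' s h (by rw [← hgg]; exact hs))
    subst hss
    have haa : a = a' := by
      have : (a : ℕ∞) = (a' : ℕ∞) := by rw [← hu, ← hu']
      exact_mod_cast this
    subst haa
    rfl

end STR
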