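import Pool.Agent.STR.TargetsAna
import Pool.Agent.STR.TargetsSim

/-!
# Project STR: geometry of a cell (T_CEL) and the pairs of a cell (T_XP)
-/

set_option autoImplicit false

namespace STR

namespace CEL_

/-- numerical facts on two starts in the same cell -/
theorem cell_num {a a1 n n1 : ℕ} (hn : 0 < n) (hn1 : 0 < n1)
    (h : (Nat.log 4 n, a / 4 ^ (Nat.log 4 n + 2)) = (Nat.log 4 n1, a1 / 4 ^ (Nat.log 4 n1 + 2))) :
    n < 4 * n1 ∧ n1 < 4 * n ∧ a < a1 + 16 * n ∧ a < a1 + 16 * n1 ∧ a1 < a + 16 * n ∧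
      a1 < a + 16 * n1 := by
  obtain ⟨h1, h2⟩ := Prod.mk.inj h
  rw [← h1] at h2
  have e1 : 4 ^ Nat.log 4 n ≤ n := Nat.pow_log_le_self 4 hn.ne'
  have e2 : n < 4 ^ (Nat.log 4 n).succ := Nat.lt_pow_succ_log_self (by norm_num) n
  have f1 : 4 ^ Nat.log 4 n ≤ n1 := h1 ▸ Nat.pow_log_le_self 4 hn1.ne'
  have f2 : n1 < 4 ^ (Nat.log 4 n).succ := h1 ▸ Nat.lt_pow_succ_log_self (by norm_num) n1
  rw [Nat.pow_succ] at e2 f2
  generalize hp : 4 ^ Nat.log 4 n = p at e1 e2 f1 f2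
  have hpp : 4 ^ (Nat.log 4 n + 2) = 16 * p := by rw [pow_add, hp]; ring
  rw [hpp] at h2
  have hp0 : 0 < 16 * p := by
    have h0 : 0 < 4 ^ Nat.log 4 n := by positivity
    omega
  have g1 := Nat.div_add_mod a (16 * p)
  have g2 := Nat.div_add_mod a1 (16 * p)
  have g3 := Nat.mod_lt a hp0
  have g4 := Nat.mod_lt a1 hp0
  rw [h2] at g1
  refine ⟨by omega, by omega, by omega, by omega, by omega, by omega⟩

theorem node {N : ℕ} {I : DI} (hCHN : T_CHN) (hCCB : T_CCB) (hN : 8 ≤ N) (hOk : Ok N I)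
    {k a e : ℕ} (hx : Nd N I (k, a, e)) :
    (Ak N I k a).Nonempty ∧ be N I k a ≤ a ∧ a < e ∧ e < gam N I k a ∧ 8 ≤ e - a ∧
      7000 * (e - a) ≤ a - be N I k a := by
  obtain ⟨hc, hr⟩ := hx
  obtain ⟨⟨c1, c2, c3, -⟩, ⟨c4, -⟩, -⟩ := hCCB N I hN hOk _ hc
  obtain ⟨s, s1, s2, s3, s4, s5⟩ := hc
  have h := hCHN N I (by omega) hOk k s a s3
  have hl := N_le_lam N k
  simp only [bs, gs] at *
  have h8 : 8 ≤ e - a := by omega
  refine ⟨h.1, c2, c1, c3, h8, ?_⟩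
  have hRc : 8000 ≤ Rc N := by unfold Rc; omega
  have h9 : 8000 * (e - 1 - a) ≤ Rc N * (e - 1 - a) := Nat.mul_le_mul_right _ hRc
  omega

end CEL_

open CEL_

theorem p_CEL (hCCB : T_CCB) (hCHN : T_CHN) (hGAM : T_GAM) (hBEM : T_BEM) : T_CEL := by
  intro N I hN hOk x x1 hx hx1 hcell hle
  obtain ⟨k, a, e⟩ := x
  obtain ⟨k1, a1, e1⟩ := x1
  obtain ⟨q1, q2, q3, q4, q5, q6⟩ := node hCHN hCCB hN hOk hx
  obtain ⟨r1, r2, r3, r4, r5, r6⟩ := node hCHN hCCB hN hOk hx1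
  have hnum := cell_num (a := a) (a1 := a1) (n := e - a) (n1 := e1 - a1) (by omega) (by omega) hcell
  obtain ⟨u1, u2, u3, u4, u5, u6⟩ := hnum
  have hC := hCCB N I hN hOk _ hx.1
  have hC4 := hC.2.2.2.1 hx
  have hN1 : 1 ≤ N := by omega
  have gx := hGAM N I hN1 k a q1
  have gx1 := hGAM N I hN1 k1 a1 r1
  simp only [bs, gs] at *
  -- the common slot
  have hsub : ∀ t, (Ak N I k1 t).Nonempty → (Ak N I k t).Nonempty := fun t ht =>
    ht.mono (Ak_level N I hle)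
  obtain ⟨c, c1, c2, c3, c4⟩ : ∃ c, be N I k a ≤ c ∧ c < gam N I k a ∧ be N I k1 a1 ≤ c ∧
      c < gam N I k1 a1 := by
    rcases le_total a1 a with h | h
    · exact ⟨a1, by omega, by omega, r2, by omega⟩
    · exact ⟨a, q2, by omega, by omega, by omega⟩
  have hbc : be N I k c = be N I k a := (gx.2.2 c c1 c2).2.1
  have key : ∀ t, be N I k1 a1 ≤ t → t < gam N I k1 a1 → be N I k t = be N I k a := by
    intro t t1 t2
    rcases le_total c t with h | h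
    · rw [← hbc]
      exact (hBEM N I k c).2.2.2.2.2 t h fun t' h1 h2 =>
        hsub t' (gx1.2.2 t' (by omega) (by omega)).1
    · rw [← hbc]
      exact ((hBEM N I k t).2.2.2.2.2 c h fun t' h1 h2 =>
        hsub t' (gx1.2.2 t' (by omega) (by omega)).1).symm
  have hba1 : be N I k a1 = be N I k a := key a1 r2 (by omega)
  have hba1' : be N I k a1 ≤ a1 := (hBEM N I k a1).1
  refine ⟨?_, ?_, ?_, ?_, ?_, ?_, ?_⟩
  · intro r hr1 hr2
    refine ⟨key r (by omega) (by omega), ?_⟩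
    omega
  · omega
  · omega
  · intro hk
    subst hk
    refine (hC.2.2.2.2 (k1, a1, e1) hx1.1 rfl ⟨be N I k1 a, ⟨le_rfl, ?_⟩, ⟨?_, ?_⟩⟩).symm
    · omega
    · show be N I k1 a1 ≤ _
      rw [hba1]
    · show _ < gam N I k1 a1
      omega
  · omega
  · exact hC4.1
  · exact hC4.2

theorem p_XP (hCEL : T_CEL) : T_XP := by
  classical
  intro N I hN hOk x x1 hx hx1 hcell hle p hp
  obtain ⟨-, hB, hC, -, hE, -, hG⟩ := hCEL N I hN hOk x x1 hx hx1 hcell hle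
  obtain ⟨i, i'⟩ := p
  rw [Finset.mem_product] at hp
  obtain ⟨hp1, hp2⟩ := hp
  unfold XX at hp1
  unfold YY at hp2
  rw [Finset.mem_filter] at hp1 hp2
  obtain ⟨m1, ⟨m2, m3⟩, m4⟩ := hp1
  obtain ⟨n1, ⟨n2, n3⟩, n4⟩ := hp2
  simp only at m1 m2 m3 m4 n1 n2 n3 n4
  unfold PP
  rw [Finset.mem_filter, Finset.mem_product]
  refine ⟨⟨m1, n1⟩, bs N I x, bs N I x + 2 * (x.2.2 - bs N I x), ?_, ?_, ?_, n4⟩
  · show _ ≤ I.R i ∧ I.R i < _
    omega
  · show _ ≤ I.R i' ∧ I.R i' < _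
    omega
  · unfold dens at m4 ⊢
    show Kd * _ ≤ cnt N I (lev N I i) _ _ * lam N (lev N I i)
    have h1 := cnt_mono (N := N) (I := I) (m := lev N I i) hB hC
    refine le_trans ?_ (m4.trans (Nat.mul_le_mul_right _ h1))
    rw [Nat.add_sub_cancel_left]
    unfold Kd Ks
    have h2 : 16 * (2 * (x.2.2 - bs N I x)) = 32 * (x.2.2 - bs N I x) := by ring
    rw [h2]
    calc 32 * (x.2.2 - bs N I x) ≤ 32 * ((Rc N + 1) * (x.2.2 - x.2.1)) :=
          Nat.mul_le_mul_left _ hG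
      _ ≤ 32 * ((Rc N + 1) * (4 * (x1.2.2 - x1.2.1))) :=
          Nat.mul_le_mul_left _ (Nat.mul_le_mul_left _ hE)
      _ = 128 * (Rc N + 1) * (x1.2.2 - x1.2.1) := by ring

end STR
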