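import Pool.Agent.STR.TargetsOpt

/-!
# Project STR: the covering lemma (T_COV)
-/

set_option autoImplicit false

namespace STR

namespace COV_

/-- a pair with the largest right end -/
theorem exists_max {a b x : ℕ} {P : ℕ → ℕ → Prop}
    (h : ∃ l r, a ≤ l ∧ l ≤ x ∧ x < r ∧ r ≤ b ∧ P l r) :
    ∃ l r, (a ≤ l ∧ l ≤ x ∧ x < r ∧ r ≤ b ∧ P l r) ∧
      ∀ l' r', a ≤ l' → l' ≤ x → x < r' → r' ≤ b → P l' r' → r' ≤ r := by
  classical
  have h1 : ∃ r, r ≤ b ∧ ∃ l, a ≤ l ∧ l ≤ x ∧ x < r ∧ r ≤ b ∧ P l r := by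
    obtain ⟨l, r, h1⟩ := h
    exact ⟨r, h1.2.2.2.1, l, h1⟩
  obtain ⟨r0, hr0, hP0⟩ := h1
  let Q : ℕ → Prop := fun r => ∃ l, a ≤ l ∧ l ≤ x ∧ x < r ∧ r ≤ b ∧ P l r
  have h2 : Q (Nat.findGreatest Q b) := Nat.findGreatest_spec (P := Q) hr0 hP0
  obtain ⟨l, hl⟩ := h2
  refine ⟨l, Nat.findGreatest Q b, hl, ?_⟩
  intro l' r' h3 h4 h5 h6 h7
  exact Nat.le_findGreatest (P := Q) h6 ⟨l', h3, h4, h5, h6, h7⟩

end COV_

theorem p_COV : T_COV := by
  intro N I K m a b hcov
  have f_add : ∀ x y z : ℕ, x ≤ y → y ≤ z →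
      cnt N I m x z * lam N m = cnt N I m x y * lam N m + cnt N I m y z * lam N m := by
    intro x y z h1 h2
    rw [cnt_add h1 h2, add_mul]
  have f_mono : ∀ x y : ℕ, x ≤ y → cnt N I m y b * lam N m ≤ cnt N I m x b * lam N m :=
    fun x y h => Nat.mul_le_mul_right _ (cnt_mono h le_rfl)
  have claim : ∀ n x : ℕ, b - x = n → a ≤ x → x < b → ∃ l r, a ≤ l ∧ l ≤ x ∧ x < r ∧ r ≤ b ∧
      dens N I K m l r ∧
      K * (b - x) ≤ cnt N I m l b * lam N m + cnt N I m x b * lam N m := by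
    intro n
    induction n using Nat.strong_induction_on with
    | _ n ih =>
      intro x hn hax hxb
      obtain ⟨l, r, ⟨h1, h2, h3, h4, h5⟩, hmax⟩ := COV_.exists_max (hcov x hax hxb)
      refine ⟨l, r, h1, h2, h3, h4, h5, ?_⟩
      unfold dens at h5
      rcases Nat.lt_or_ge r b with hrb | hrb
      · obtain ⟨l2, r2, g1, g2, g3, g4, g5, g6⟩ :=
          ih (b - r) (by omega) r rfl (by omega) hrb
        have hl2 : x < l2 := by
          by_contra hcon
          have := hmax l2 r2 g1 (by omega) (by omega) g4 g5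
          omega
        have e1 : K * (b - x) = K * (r - x) + K * (b - r) := by
          rw [← mul_add]
          congr 1
          omega
        have e2 : K * (r - x) ≤ K * (r - l) := Nat.mul_le_mul_left _ (by omega)
        have e3 := f_add l r b (by omega) h4
        have e4 := f_mono x l2 hl2.le
        omega
      · have hr : r = b := le_antisymm h4 hrb
        subst hr
        have e2 : K * (r - x) ≤ K * (r - l) := Nat.mul_le_mul_left _ (by omega)
        omega
  rcases Nat.lt_or_ge a b with hab | hab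
  · obtain ⟨l, r, h1, h2, -, -, -, h6⟩ := claim (b - a) a rfl le_rfl hab
    have hl : l = a := le_antisymm h2 h1
    subst hl
    omega
  · have h0 : b - a = 0 := by omega
    rw [h0, mul_zero]
    exact Nat.zero_le _

end STR
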