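import Pool.Agent.STR.TargetsOpt

/-!
# Project STR: certificates (both kinds) and pairs of jobs (`T_CS`, `T_PR`)
-/

set_option autoImplicit false

namespace STR

namespace CS_

theorem OO_nonneg (hON : T_ON) {N : ℕ} {I : DI} {D : ℕ → ℝ} (hN : 8 ≤ N) (hOk : Ok N I)
    (hOpt : Opt N I D) : 0 ≤ OO N I D :=
  le_trans (Nat.cast_nonneg _) (hON N I D hN hOk hOpt).2

theorem fam_sub {F G : Finset (ℕ × ℕ × ℕ)} (h : Fam F) (hG : G ⊆ F) : Fam G :=
  fun x hx y hy => h x (hG hx) y (hG hy)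

end CS_

theorem p_CS (hCSS : T_CSS) (hCSN : T_CSN) (hON : T_ON) : T_CS := by
  classical
  intro N I D hN hOk hOpt F g hF hC
  have hO := CS_.OO_nonneg hON hN hOk hOpt
  have h1 := hCSS N I D hN hOk hOpt (F.filter fun x => SC N I x.1 x.2.1 x.2.2)
    (CS_.fam_sub hF (Finset.filter_subset _ _)) (fun x hx => (Finset.mem_filter.1 hx).2)
  have h2 := hCSN N I D hN hOk hOpt (F.filter fun x => ¬ SC N I x.1 x.2.1 x.2.2) g
    (CS_.fam_sub hF (Finset.filter_subset _ _)) (fun x hx => by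
      rw [Finset.mem_filter] at hx
      rcases hC x hx.1 with h | h
      · exact absurd h hx.2
      · exact h)
  have h3 := Finset.sum_filter_add_sum_filter_not F (fun x => SC N I x.1 x.2.1 x.2.2)
    (fun x => sz N x ^ 2)
  rw [← h3]
  have hg : (0 : ℝ) ≤ (g : ℝ) := Nat.cast_nonneg _
  have hM : (0 : ℝ) ≤ (Mc N : ℝ) := Nat.cast_nonneg _
  have hX : (Mc N : ℝ) ≤ (Mc N : ℝ) * N * 2 ^ kap N := by
    have h4 : (1 : ℝ) ≤ (N : ℝ) := by
      have : 1 ≤ N := by omega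
      exact_mod_cast this
    have h5 : (1 : ℝ) ≤ (2 : ℝ) ^ kap N := one_le_pow₀ (by norm_num)
    calc (Mc N : ℝ) = (Mc N : ℝ) * 1 * 1 := by ring
      _ ≤ (Mc N : ℝ) * N * 2 ^ kap N := by gcongr
  have hC' : Cs N = 22 * ((Mc N : ℝ) * N * 2 ^ kap N) ^ 2 := rfl
  rw [hC']
  generalize (Mc N : ℝ) * N * 2 ^ kap N = X at *
  have hX2 : (Mc N : ℝ) ^ 2 ≤ X ^ 2 := by gcongr
  have hg2 : (g : ℝ) ^ 2 ≤ ((g : ℝ) + 1) ^ 2 := by gcongr; linarith
  have hg3 : (1 : ℝ) ≤ ((g : ℝ) + 1) ^ 2 := by nlinarith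
  have h6 : 6 * X ^ 2 ≤ 6 * X ^ 2 * ((g : ℝ) + 1) ^ 2 := by
    have : 0 ≤ 6 * X ^ 2 := by positivity
    nlinarith
  have h7 : 16 * (Mc N : ℝ) ^ 2 * (g : ℝ) ^ 2 ≤ 16 * X ^ 2 * ((g : ℝ) + 1) ^ 2 := by
    gcongr
  calc _ ≤ 6 * X ^ 2 * OO N I D + 16 * (Mc N : ℝ) ^ 2 * (g : ℝ) ^ 2 * OO N I D := add_le_add h1 h2
    _ ≤ 6 * X ^ 2 * ((g : ℝ) + 1) ^ 2 * OO N I D
        + 16 * X ^ 2 * ((g : ℝ) + 1) ^ 2 * OO N I D := by
        gcongr
    _ = 22 * X ^ 2 * ((g : ℝ) + 1) ^ 2 * OO N I D := by ring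

theorem p_PR (hPRM : T_PRM) (hON : T_ON) : T_PR := by
  classical
  intro N I D hN hOk hOpt k0 L hL
  have hO := CS_.OO_nonneg hON hN hOk hOpt
  set lv : Finset ℕ := Finset.Ico k0 (k0 + L) with hlv
  have hcard : ((PP N I).card : ℝ) = ∑ m ∈ lv, ∑ m' ∈ lv,
      (((PP N I).filter fun p => lev N I p.1 = m ∧ lev N I p.2 = m').card : ℝ) := by
    have h1 : ∀ p ∈ PP N I, (lev N I p.1, lev N I p.2) ∈ lv ×ˢ lv := by
      intro p hp
      unfold PP at hp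
      rw [Finset.mem_filter, Finset.mem_product] at hp
      rw [Finset.mem_product, hlv, Finset.mem_Ico, Finset.mem_Ico]
      exact ⟨hL _ hp.1.1, hL _ hp.1.2⟩
    rw [Finset.card_eq_sum_card_fiberwise h1, Finset.sum_product]
    push_cast
    refine Finset.sum_congr rfl fun m _ => Finset.sum_congr rfl fun m' _ => ?_
    congr 2
    ext p
    simp only [Finset.mem_filter, Prod.mk.injEq]
  have hsum : ∑ m ∈ lv, ∑ i ∈ I.J.filter (fun i => lev N I i = m), Oj N I D i = OO N I D := by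
    unfold OO
    refine Finset.sum_fiberwise_of_maps_to (fun i hi => ?_) _
    rw [hlv, Finset.mem_Ico]
    exact hL i hi
  have hc : (lv.card : ℝ) = L := by
    rw [hlv, Nat.card_Ico]
    congr 1
    omega
  rw [hcard]
  calc _ ≤ ∑ m ∈ lv, ∑ m' ∈ lv, 8 * ((∑ i ∈ I.J.filter (fun i => lev N I i = m), Oj N I D i) +
        ∑ i ∈ I.J.filter (fun i => lev N I i = m'), Oj N I D i) :=
        Finset.sum_le_sum fun m _ => Finset.sum_le_sum fun m' _ => hPRM N I D hN hOk hOpt m m'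
    _ = 16 * L * OO N I D := by
        simp only [← Finset.mul_sum, Finset.sum_add_distrib, Finset.sum_const, nsmul_eq_mul,
          hsum, hc]
        ring

end STR
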