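import Pool.Agent.STR.TargetsOpt
import Pool.Agent.STR.Basic

/-!
# Project STR: the sum over near certificates (T_CSN)
-/

set_option autoImplicit false

namespace STR

namespace CSN_

open Classical in
theorem sum_jobs {N : ℕ} {I : DI} (S : Finset ℕ) (a b : ℕ) (w : ℕ → ℝ) :
    ∑ m ∈ S, ∑ i ∈ jobs N I m a b, w i =
      ∑ i ∈ I.J.filter (fun i => a ≤ I.R i ∧ I.R i < b), if lev N I i ∈ S then w i else 0 := by
  have h1 : ∀ m ∈ S, ∑ i ∈ jobs N I m a b, w i =
      ∑ i ∈ I.J.filter (fun i => a ≤ I.R i ∧ I.R i < b), if lev N I i = m then w i else 0 := by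
    intro m _
    unfold jobs
    rw [← Finset.sum_filter, Finset.filter_filter]
  rw [Finset.sum_congr rfl h1, Finset.sum_comm]
  apply Finset.sum_congr rfl
  intro i _
  rw [Finset.sum_ite_eq]

open Classical in
theorem bound {N : ℕ} {I : DI} {D : ℕ → ℝ} (hN : 8 ≤ N)
    (hL : ∀ (m a b : ℕ), dens N I Kd m a b →
      (cnt N I m a b : ℝ) ^ 2 ≤ 16 * ∑ i ∈ jobs N I m a b, Oj N I D i)
    (hO : ∀ j ∈ I.J, 0 ≤ Oj N I D j) (g j a b : ℕ) (hx : NC N I g j a b) :
    sz N (j, a, b) ^ 2 ≤ 16 * (Mc N : ℝ) ^ 2 * (g : ℝ) *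
      ∑ i ∈ I.J.filter (fun i => a ≤ I.R i ∧ I.R i < b),
        if (i ∈ I.J ∧ j + kap N < lev N I i ∧ lev N I i ≤ j + kap N + g) then Oj N I D i
        else 0 := by
  set S : Finset ℕ := (Finset.Ioc (j + kap N) (j + kap N + g)).filter
    (fun m => dens N I Kd m a b) with hS
  set A : Finset ℕ := I.J.filter fun i => (a ≤ I.R i ∧ I.R i < b) ∧
    (j + kap N < lev N I i ∧ lev N I i ≤ j + kap N + g) ∧ dens N I Kd (lev N I i) a b with hA
  have hcS : (S.card : ℝ) ≤ g := by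
    have h1 : S.card ≤ (Finset.Ioc (j + kap N) (j + kap N + g)).card :=
      Finset.card_le_card (Finset.filter_subset _ _)
    rw [Nat.card_Ioc] at h1
    have h2 : S.card ≤ g := by omega
    exact_mod_cast h2
  -- the cardinality of `A`
  have hcA : (A.card : ℝ) = ∑ m ∈ S, (cnt N I m a b : ℝ) := by
    have h1 := sum_jobs (N := N) (I := I) S a b (fun _ => (1 : ℝ))
    have h2 : ∀ m ∈ S, ∑ i ∈ jobs N I m a b, (1 : ℝ) = (cnt N I m a b : ℝ) := by
      intro m _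
      unfold cnt
      simp
    rw [Finset.sum_congr rfl h2] at h1
    rw [h1, ← Finset.sum_filter, Finset.filter_filter, Finset.sum_const, nsmul_eq_mul, mul_one]
    congr 2
    ext i
    simp only [hA, hS, Finset.mem_filter, Finset.mem_Ioc]
  have hlam : (0 : ℝ) < lam N j := by
    have := lam_pos (N := N) (by omega) j
    exact_mod_cast this
  have hsz : sz N (j, a, b) ≤ Mc N * (A.card : ℝ) := by
    unfold sz
    rw [div_le_iff₀ hlam]
    have h1 : b - a ≤ Mc N * lam N j * A.card := by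
      have := hx
      unfold NC at this
      convert this using 2
    have h2 : ((b - a : ℕ) : ℝ) ≤ (Mc N : ℝ) * lam N j * A.card := by exact_mod_cast h1
    show ((b - a : ℕ) : ℝ) ≤ Mc N * (A.card : ℝ) * (lam N j : ℝ)
    linarith
  have hsz0 : 0 ≤ sz N (j, a, b) := by
    unfold sz
    positivity
  have hM0 : (0 : ℝ) ≤ (Mc N : ℝ) ^ 2 := by positivity
  have hsum0 : 0 ≤ ∑ m ∈ S, (cnt N I m a b : ℝ) ^ 2 := Finset.sum_nonneg fun _ _ => by positivity
  calc sz N (j, a, b) ^ 2 ≤ (Mc N * (A.card : ℝ)) ^ 2 := by gcongr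
    _ = (Mc N : ℝ) ^ 2 * (∑ m ∈ S, (cnt N I m a b : ℝ)) ^ 2 := by rw [hcA]; ring
    _ ≤ (Mc N : ℝ) ^ 2 * ((S.card : ℝ) * ∑ m ∈ S, (cnt N I m a b : ℝ) ^ 2) := by
        apply mul_le_mul_of_nonneg_left _ hM0
        exact sq_sum_le_card_mul_sum_sq
    _ ≤ (Mc N : ℝ) ^ 2 * ((g : ℝ) * ∑ m ∈ S, (cnt N I m a b : ℝ) ^ 2) := by gcongr
    _ ≤ (Mc N : ℝ) ^ 2 * ((g : ℝ) * ∑ m ∈ S, (16 * ∑ i ∈ jobs N I m a b, Oj N I D i)) := by
        gcongr with m hm
        apply hL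
        rw [hS, Finset.mem_filter] at hm
        exact hm.2
    _ = 16 * (Mc N : ℝ) ^ 2 * (g : ℝ) * ∑ m ∈ S, ∑ i ∈ jobs N I m a b, Oj N I D i := by
        rw [← Finset.mul_sum]; ring
    _ = 16 * (Mc N : ℝ) ^ 2 * (g : ℝ) * ∑ i ∈ I.J.filter (fun i => a ≤ I.R i ∧ I.R i < b),
          (if lev N I i ∈ S then Oj N I D i else 0) := by rw [sum_jobs]
    _ ≤ _ := by
        apply mul_le_mul_of_nonneg_left _ (by positivity)
        apply Finset.sum_le_sum
        intro i hi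
        rw [Finset.mem_filter] at hi
        by_cases h : lev N I i ∈ S
        · rw [if_pos h]
          rw [hS, Finset.mem_filter, Finset.mem_Ioc] at h
          rw [if_pos ⟨hi.1, h.1.1, h.1.2⟩]
        · rw [if_neg h]
          split_ifs
          · exact hO i hi.1
          · exact le_rfl

end CSN_

theorem p_CSN (hLB2 : T_LB2) (hSWP : T_SWP) (hON : T_ON) : T_CSN := by
  classical
  intro N I D hN hOk hOpt F g hF hNC
  have hO1 := (hON N I D hN hOk hOpt).1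
  have hO : ∀ j ∈ I.J, 0 ≤ Oj N I D j := fun j hj => zero_le_one.trans (hO1 j hj)
  have hL : ∀ (m a b : ℕ), dens N I Kd m a b →
      (cnt N I m a b : ℝ) ^ 2 ≤ 16 * ∑ i ∈ jobs N I m a b, Oj N I D i := by
    intro m a b h
    exact hLB2 N I D hN hOk hOpt Kd m a b (by unfold Kd; norm_num) h
  let f : ℕ → ℕ → ℝ := fun i j =>
    if (i ∈ I.J ∧ j + kap N < lev N I i ∧ lev N I i ≤ j + kap N + g) then Oj N I D i else 0
  have hf0 : ∀ i j, 0 ≤ f i j := by
    intro i j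
    show 0 ≤ (if (i ∈ I.J ∧ j + kap N < lev N I i ∧ lev N I i ≤ j + kap N + g)
      then Oj N I D i else 0)
    split_ifs with h
    · exact hO i h.1
    · exact le_rfl
  have hS := hSWP I F f hF hf0
  have hrow : ∀ i ∈ I.J, ∑ j ∈ F.image Prod.fst, f i j ≤ (g : ℝ) * Oj N I D i := by
    intro i hi
    show ∑ j ∈ F.image Prod.fst,
      (if (i ∈ I.J ∧ j + kap N < lev N I i ∧ lev N I i ≤ j + kap N + g) then Oj N I D i else 0) ≤ _
    rw [← Finset.sum_filter, Finset.sum_const, nsmul_eq_mul]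
    apply mul_le_mul_of_nonneg_right _ (hO i hi)
    have h1 : ((F.image Prod.fst).filter
        fun j => i ∈ I.J ∧ j + kap N < lev N I i ∧ lev N I i ≤ j + kap N + g) ⊆
        Finset.Ico (lev N I i - kap N - g) (lev N I i - kap N) := by
      intro j hj
      rw [Finset.mem_filter] at hj
      rw [Finset.mem_Ico]
      omega
    have h2 := Finset.card_le_card h1
    rw [Nat.card_Ico] at h2
    have h3 : ((F.image Prod.fst).filter
        fun j => i ∈ I.J ∧ j + kap N < lev N I i ∧ lev N I i ≤ j + kap N + g).card ≤ g := by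
      omega
    exact_mod_cast h3
  have hC : (0 : ℝ) ≤ 16 * (Mc N : ℝ) ^ 2 * (g : ℝ) := by positivity
  calc ∑ x ∈ F, sz N x ^ 2
      ≤ ∑ x ∈ F, 16 * (Mc N : ℝ) ^ 2 * (g : ℝ) *
          ∑ i ∈ I.J.filter (fun i => x.2.1 ≤ I.R i ∧ I.R i < x.2.2), f i x.1 := by
        apply Finset.sum_le_sum
        intro x hx
        exact CSN_.bound hN hL hO g x.1 x.2.1 x.2.2 (hNC x hx)
    _ = 16 * (Mc N : ℝ) ^ 2 * (g : ℝ) * ∑ x ∈ F,
          ∑ i ∈ I.J.filter (fun i => x.2.1 ≤ I.R i ∧ I.R i < x.2.2), f i x.1 := by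
        rw [Finset.mul_sum]
    _ ≤ 16 * (Mc N : ℝ) ^ 2 * (g : ℝ) * ∑ i ∈ I.J, ∑ j ∈ F.image Prod.fst, f i j :=
        mul_le_mul_of_nonneg_left hS hC
    _ ≤ 16 * (Mc N : ℝ) ^ 2 * (g : ℝ) * ∑ i ∈ I.J, (g : ℝ) * Oj N I D i :=
        mul_le_mul_of_nonneg_left (Finset.sum_le_sum hrow) hC
    _ = 16 * (Mc N : ℝ) ^ 2 * (g : ℝ) ^ 2 * OO N I D := by
        rw [← Finset.mul_sum]
        unfold OO
        ring

end STR
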