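import Pool.Agent.STR.TargetsOpt

/-!
# Project STR: T_CSS (sum of the `S`-certificates)
-/

set_option autoImplicit false

namespace STR

namespace CSS_

/-- geometric sum over distinct shifted exponents -/
theorem geo (S : Finset ℕ) (c κ : ℕ) :
    ∑ j ∈ S, (if c ≤ j + κ then (1 / 4 : ℝ) ^ (j + κ - c) else 0) ≤ 4 / 3 := by
  classical
  rw [← Finset.sum_filter]
  have hinj : Set.InjOn (fun j : ℕ => j + κ - c)
      (S.filter fun j => c ≤ j + κ : Finset ℕ) := by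
    intro x hx y hy hxy
    simp only [Finset.coe_filter, Set.mem_ofPred_eq] at hx hy
    simp only at hxy
    omega
  have h2 : ∑ j ∈ S.filter (fun j => c ≤ j + κ), (1 / 4 : ℝ) ^ (j + κ - c) =
      ∑ n ∈ (S.filter fun j => c ≤ j + κ).image (fun j => j + κ - c), (1 / 4 : ℝ) ^ n := by
    rw [Finset.sum_image hinj]
  rw [h2]
  have h3 : ∑' n : ℕ, (1 / 4 : ℝ) ^ n = 4 / 3 := by
    rw [tsum_geometric_of_lt_one (by norm_num) (by norm_num)]
    norm_num
  rw [← h3]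
  exact (summable_geometric_of_lt_one (by norm_num) (by norm_num)).sum_le_tsum _
    fun n _ => pow_nonneg (by norm_num) n

open Classical in
/-- the summand -/
noncomputable def ff (N : ℕ) (I : DI) (D : ℕ → ℝ) (κ i j : ℕ) : ℝ :=
  if i ∈ I.J ∧ lev N I i ≤ j + κ then Oj N I D i * ((I.q i : ℝ) / (ell N (j + κ) : ℝ)) ^ 2 else 0

theorem ff_nonneg {N : ℕ} {I : DI} {D : ℕ → ℝ} (hO : ∀ i ∈ I.J, 1 ≤ Oj N I D i) (κ i j : ℕ) :
    0 ≤ ff N I D κ i j := by
  unfold ff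
  split_ifs with h
  · have := hO i h.1
    positivity
  · exact le_rfl

/-- for a fixed job the sum over the levels is small -/
theorem ff_sum {N : ℕ} (hN : 1 ≤ N) {I : DI} {D : ℕ → ℝ} (hO : ∀ i ∈ I.J, 1 ≤ Oj N I D i)
    (κ : ℕ) (S : Finset ℕ) {i : ℕ} (hi : i ∈ I.J) :
    ∑ j ∈ S, ff N I D κ i j ≤ 4 / 3 * Oj N I D i := by
  have hO1 := hO i hi
  have h1 : ∀ j ∈ S, ff N I D κ i j ≤
      Oj N I D i * (if lev N I i ≤ j + κ then (1 / 4 : ℝ) ^ (j + κ - lev N I i) else 0) := by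
    intro j _
    unfold ff
    by_cases h : lev N I i ≤ j + κ
    · rw [if_pos ⟨hi, h⟩, if_pos h]
      refine mul_le_mul_of_nonneg_left ?_ (by linarith)
      obtain ⟨d, hd⟩ := Nat.exists_eq_add_of_le h
      have h2 : ell N (j + κ) = 2 ^ d * ell N (lev N I i) := by
        rw [hd]; unfold ell; rw [lam_add]; ring
      have h3 : (I.q i : ℝ) ≤ (ell N (lev N I i) : ℝ) := by exact_mod_cast q_le_ell hN I i
      have h4 : (0 : ℝ) < (ell N (lev N I i) : ℝ) := by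
        have := ell_pos hN (lev N I i)
        exact_mod_cast this
      have h5 : (I.q i : ℝ) / (ell N (j + κ) : ℝ) ≤ (1 / 2 : ℝ) ^ d := by
        rw [h2]
        push_cast
        rw [div_le_iff₀ (by positivity)]
        calc (I.q i : ℝ) ≤ (ell N (lev N I i) : ℝ) := h3
          _ = (1 / 2 : ℝ) ^ d * (2 ^ d * (ell N (lev N I i) : ℝ)) := by
            rw [← mul_assoc, ← mul_pow]; norm_num
      have h6 : j + κ - lev N I i = d := by omega
      rw [h6]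
      calc ((I.q i : ℝ) / (ell N (j + κ) : ℝ)) ^ 2 ≤ ((1 / 2 : ℝ) ^ d) ^ 2 :=
            pow_le_pow_left₀ (by positivity) h5 2
        _ = (1 / 4 : ℝ) ^ d := by rw [← pow_mul, mul_comm, pow_mul]; norm_num
    · rw [if_neg (fun h' => h h'.2), if_neg h, mul_zero]
  calc ∑ j ∈ S, ff N I D κ i j ≤ ∑ j ∈ S, Oj N I D i *
        (if lev N I i ≤ j + κ then (1 / 4 : ℝ) ^ (j + κ - lev N I i) else 0) :=
        Finset.sum_le_sum h1
    _ = Oj N I D i * ∑ j ∈ S, (if lev N I i ≤ j + κ then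
        (1 / 4 : ℝ) ^ (j + κ - lev N I i) else 0) := by rw [Finset.mul_sum]
    _ ≤ Oj N I D i * (4 / 3) := mul_le_mul_of_nonneg_left (geo S _ κ) (by linarith)
    _ = 4 / 3 * Oj N I D i := by ring

open Classical in
/-- one certificate -/
theorem one {N : ℕ} {I : DI} {D : ℕ → ℝ} (hN : 8 ≤ N) (hOk : Ok N I) (hopt : Opt N I D)
    (hLB3 : T_LB3) (hO : ∀ i ∈ I.J, 1 ≤ Oj N I D i) (M κ j a b a' b' : ℕ) (hM : 1 ≤ M)
    (ha : a ≤ a') (hab : a' ≤ b') (hb : b' ≤ b)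
    (hS : M * ((N - 4) * (b' - a')) + (b - a) ≤ M * Vv N I (j + κ) a' b') :
    (((b - a : ℕ) : ℝ) / (lam N j : ℝ)) ^ 2 ≤ 4 * ((M : ℝ) * N * 2 ^ κ) ^ 2 *
      ∑ i ∈ I.J.filter (fun i => a ≤ I.R i ∧ I.R i < b), ff N I D κ i j := by
  have hN1 : 1 ≤ N := by omega
  rcases Nat.eq_zero_or_pos (b - a) with h0 | h0
  · rw [h0, Nat.cast_zero, zero_div, zero_pow (by norm_num)]
    exact mul_nonneg (by positivity) (Finset.sum_nonneg fun i _ => ff_nonneg hO κ i j)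
  have hMR : (0 : ℝ) < M := by exact_mod_cast hM
  have hlam : (0 : ℝ) < (lam N j : ℝ) := by
    have := lam_pos hN1 j
    exact_mod_cast this
  have hNR : (0 : ℝ) < N := by exact_mod_cast hN1
  set E : ℝ := ((b - a : ℕ) : ℝ) / M with hE
  have hEpos : 0 < E := div_pos (by exact_mod_cast h0) hMR
  have hcast : (M : ℝ) * (((N : ℝ) - 4) * ((b' : ℝ) - a')) + ((b - a : ℕ) : ℝ) ≤
      M * (Vv N I (j + κ) a' b' : ℝ) := by
    have h1 : ((M * ((N - 4) * (b' - a')) + (b - a) : ℕ) : ℝ) ≤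
        ((M * Vv N I (j + κ) a' b' : ℕ) : ℝ) := by exact_mod_cast hS
    rw [Nat.cast_add, Nat.cast_mul, Nat.cast_mul, Nat.cast_sub (by omega : 4 ≤ N),
      Nat.cast_sub hab, Nat.cast_mul] at h1
    exact_mod_cast h1
  have h1 : E + ((N : ℝ) - 4) * ((b' : ℝ) - a') ≤ Vv N I (j + κ) a' b' := by
    have h2 : M * (E + ((N : ℝ) - 4) * ((b' : ℝ) - a')) ≤
        M * (Vv N I (j + κ) a' b' : ℝ) := by
      have h3 : (M : ℝ) * E = ((b - a : ℕ) : ℝ) := by
        rw [hE]; field_simp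
      rw [mul_add, h3]
      linarith
    exact le_of_mul_le_mul_left h2 hMR
  have h2 := hLB3 N I D hN hOk hopt (j + κ) a' b' E hab hEpos h1
  have h3 : ∀ i ∈ I.J.filter (fun i => (a' ≤ I.R i ∧ I.R i < b') ∧ lev N I i ≤ j + κ),
      Oj N I D i * (I.q i : ℝ) ^ 2 =
        ((N : ℝ) * 2 ^ κ * lam N j) ^ 2 * ff N I D κ i j := by
    intro i hi
    rw [Finset.mem_filter] at hi
    unfold ff
    rw [if_pos ⟨hi.1, hi.2.2⟩]
    have h4 : (ell N (j + κ) : ℝ) = (N : ℝ) * 2 ^ κ * lam N j := by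
      unfold ell; rw [lam_add]; push_cast; ring
    rw [h4]
    have h5 : (N : ℝ) * 2 ^ κ * lam N j ≠ 0 := by positivity
    field_simp
  rw [Finset.sum_congr rfl h3, ← Finset.mul_sum] at h2
  have h4 : ∑ i ∈ I.J.filter (fun i => (a' ≤ I.R i ∧ I.R i < b') ∧ lev N I i ≤ j + κ),
      ff N I D κ i j ≤ ∑ i ∈ I.J.filter (fun i => a ≤ I.R i ∧ I.R i < b), ff N I D κ i j := by
    refine Finset.sum_le_sum_of_subset_of_nonneg ?_ fun i _ _ => ff_nonneg hO κ i j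
    intro i hi
    rw [Finset.mem_filter] at hi ⊢
    exact ⟨hi.1, by omega, by omega⟩
  have h5 : ((b - a : ℕ) : ℝ) / (lam N j : ℝ) = M * E / lam N j := by
    rw [hE]; field_simp
  rw [h5, div_pow, mul_pow, div_le_iff₀ (by positivity)]
  calc (M : ℝ) ^ 2 * E ^ 2 ≤ (M : ℝ) ^ 2 * (4 * (((N : ℝ) * 2 ^ κ * lam N j) ^ 2 *
        ∑ i ∈ I.J.filter (fun i => (a' ≤ I.R i ∧ I.R i < b') ∧ lev N I i ≤ j + κ),
          ff N I D κ i j)) := mul_le_mul_of_nonneg_left h2 (by positivity)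
    _ ≤ (M : ℝ) ^ 2 * (4 * (((N : ℝ) * 2 ^ κ * lam N j) ^ 2 *
        ∑ i ∈ I.J.filter (fun i => a ≤ I.R i ∧ I.R i < b), ff N I D κ i j)) := by
        gcongr
    _ = _ := by ring

end CSS_

/-- sum of the squares of the sizes of the `S`-certificates -/
theorem p_CSS (hLB3 : T_LB3) (hSWP : T_SWP) (hON : T_ON) : T_CSS := by
  classical
  intro N I D hN hOk hopt F hF hSC
  have hN1 : 1 ≤ N := by omega
  obtain ⟨hO, -⟩ := hON N I D hN hOk hopt
  have hM : 1 ≤ Mc N := by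
    have h0 : 0 < N := by omega
    have h1 : 0 < Mc N := by
      unfold Mc M0 FG Fc Rc
      positivity
    exact h1
  have hX : ∀ x ∈ F, sz N x ^ 2 ≤ 4 * ((Mc N : ℝ) * N * 2 ^ kap N) ^ 2 *
      ∑ i ∈ I.J.filter (fun i => x.2.1 ≤ I.R i ∧ I.R i < x.2.2),
        CSS_.ff N I D (kap N) i x.1 := by
    intro x hx
    obtain ⟨a', b', h1, h2, h3, h4⟩ := hSC x hx
    exact CSS_.one hN hOk hopt hLB3 hO (Mc N) (kap N) x.1 x.2.1 x.2.2 a' b' hM h1 h2 h3 h4
  have hsw := hSWP I F (CSS_.ff N I D (kap N)) hF (fun i j => CSS_.ff_nonneg hO _ i j)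
  generalize hXd : ((Mc N : ℝ) * N * 2 ^ kap N) ^ 2 = X at hX ⊢
  have hX0 : 0 ≤ X := by rw [← hXd]; positivity
  have hOO : 0 ≤ OO N I D := by
    unfold OO
    exact Finset.sum_nonneg fun i hi => by have := hO i hi; linarith
  calc ∑ x ∈ F, sz N x ^ 2 ≤ ∑ x ∈ F, 4 * X *
        ∑ i ∈ I.J.filter (fun i => x.2.1 ≤ I.R i ∧ I.R i < x.2.2),
          CSS_.ff N I D (kap N) i x.1 := Finset.sum_le_sum hX
    _ = 4 * X * ∑ x ∈ F, ∑ i ∈ I.J.filter (fun i => x.2.1 ≤ I.R i ∧ I.R i < x.2.2),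
          CSS_.ff N I D (kap N) i x.1 := by rw [Finset.mul_sum]
    _ ≤ 4 * X * ∑ i ∈ I.J, ∑ j ∈ F.image Prod.fst, CSS_.ff N I D (kap N) i j := by
        refine mul_le_mul_of_nonneg_left ?_ (by positivity)
        exact hsw
    _ ≤ 4 * X * ∑ i ∈ I.J, 4 / 3 * Oj N I D i := by
        refine mul_le_mul_of_nonneg_left (Finset.sum_le_sum fun i hi => ?_) (by positivity)
        exact CSS_.ff_sum hN1 hO _ _ hi
    _ = 16 / 3 * X * OO N I D := by
        rw [← Finset.mul_sum]; unfold OO; ring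
    _ ≤ 6 * X * OO N I D := by
        refine mul_le_mul_of_nonneg_right ?_ hOO
        nlinarith

end STR
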