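import Pool.Agent.STR.Basic

/-!
# Project STR (MP_32d942_lc): targets on counting and on the offline schedule (Blueprint section 4)

Every target has its complete proof in the docstring. The list after the word uses names the targets that may be taken as
hypotheses (all lemmas of `Basic.lean` may be used freely).
-/

set_option autoImplicit false

namespace STR

open Classical in
/-- STR-NDS. PROOF. Let `c m` be the number of the `i` in the set with `lev i = m`. For every level `m` which occurs, `m0 < m` and `¬ dens K m a' b'`,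
so `c m * lam m ≤ cnt m a' b' * lam m < K (b' - a')` (the interval `[a, b)` is contained in `[a', b')`). `lam m = 2^(m-m0) lam m0`
(`lam_add`), so `lam m0 * c m ≤ K (b'-a') / 2^(m-m0)` (in reals). The set has `∑_m c m` elements
(`Finset.card_eq_sum_card_fiberwise`), the sum is over a finite set of `m > m0`, and `∑_{m > m0} 2^-(m-m0) ≤ 1`. -/
def T_NDS : Prop := ∀ (N : ℕ) (I : DI), 1 ≤ N → ∀ (K m0 a b a' b' : ℕ), a' ≤ a → b ≤ b' →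
  lam N m0 * (I.J.filter fun i => (a ≤ I.R i ∧ I.R i < b) ∧
    (m0 < lev N I i ∧ ¬ dens N I K (lev N I i) a' b')).card ≤ K * (b' - a')

open Classical in
/-- STR-MASS (uses T_NDS). PROOF. Let `V = Vv (j+κ) a b`, `G` = number of the `i ∈ J` released in `[a,b)` with `lev i > j+κ`.
`Wp j a b ≤ (1 + 1/N) V + 2 ell j G`: for `lev i ≤ j+κ`: `min + N ≤ q + N ≤ q + q/N` (`q ≥ N²`); for the others
`min + N ≤ ell j + N ≤ 2 ell j`. Suppose the first alternative fails: `V < (N-4)(b-a) + len/M`. Then (reals)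
`2 F ell j G ≥ F(N-2)(b-a) + len - F (1+1/N) ((N-4)(b-a) + len/M) ≥ len - 2 F len/(16 F N) ≥ len / 2` (`(1+1/N)(N-4) ≤ N-3`),
so `4 F N lam j G ≥ len`. Split `G = Gn + Gf` according to `lev i ≤ j+κ+h` or not. By T_NDS for `[a1, b1)` and `m0 = j+κ`: the
number `nn` of the non-dense members of the first set satisfies `lam (j+κ) nn ≤ K len`, i.e.
`lam j nn ≤ K len / 2^κ ≤ len / M ≤ len / (16 F N)` (`M K La ≤ 2^κ`). By T_NDS for `[a2, b2)` and `m0 = j+κ+h`: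
`lam j nf ≤ K La 2^h len / 2^(κ+h) ≤ len / (16 F N)`. So `4 F N lam j ((Gn - nn) + (Gf - nf)) ≥ len - len/2`, and one of the two
dense sets has `lam j * card ≥ len / (16 F N) ≥ len / M`. -/
def T_MASS : Prop := ∀ (N : ℕ) (I : DI), 8 ≤ N → Ok N I →
  ∀ (F K La κ h M j a b a1 b1 a2 b2 len : ℕ), a ≤ b → 0 < len → 1 ≤ La → 16 * F * N ≤ M → M * (K * La) ≤ 2 ^ κ →
  F * ((N - 2) * (b - a)) + len ≤ F * Wp N I j a b →
  a1 ≤ a → b ≤ b1 → b1 - a1 ≤ len → a2 ≤ a → b ≤ b2 → b2 - a2 ≤ La * (2 ^ h * len) →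
  M * ((N - 4) * (b - a)) + len ≤ M * Vv N I (j + κ) a b ∨
  len ≤ M * lam N j * (I.J.filter fun i => (a ≤ I.R i ∧ I.R i < b) ∧
    (j + κ < lev N I i ∧ lev N I i ≤ j + κ + h) ∧ dens N I K (lev N I i) a1 b1).card ∨
  len ≤ M * lam N j * (I.J.filter fun i => (a ≤ I.R i ∧ I.R i < b) ∧
    j + κ + h < lev N I i ∧ dens N I K (lev N I i) a2 b2).card

/-- STR-ON. PROOF. `Opt.work` for `a = R j`, `T = D j`, `S = {j}`: `q j ≤ (N-4)(D j - R j)`, `q j ≥ N² > 0`. So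
`Oj = N (D j - R j) / q j ≥ N / (N-4) ≥ 1`. Sum. -/
def T_ON : Prop := ∀ (N : ℕ) (I : DI) (D : ℕ → ℝ), 8 ≤ N → Ok N I → Opt N I D →
  (∀ j ∈ I.J, 1 ≤ Oj N I D j) ∧ (I.J.card : ℝ) ≤ OO N I D

/-- STR-LB2 (uses T_ON). PROOF. Let `c = cnt m a b`, `c = 0` is trivial. `b - a ≤ c lam m / 8`. `T = a + c lam m / 4` (real). The set `S` of the
jobs of `jobs m a b` with `D ≤ T`: `Opt.work`: `∑ q ≤ (N-4) c lam m / 4`, and `q ≥ ell m / 2 = N lam m / 2` (`ell_lev_le`), so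
`#S ≤ c/2`. The at least `c/2` others have `D > T`, `R < b ≤ a + c lam m / 8` (`a < b` since `c > 0`), so `D - R ≥ c lam m / 8` and
`Oj ≥ N (c lam m / 8) / ell m = c / 8` (`q_le_ell`). All `Oj ≥ 0`. So the sum is at least `(c/2)(c/8)`. -/
def T_LB2 : Prop := ∀ (N : ℕ) (I : DI) (D : ℕ → ℝ), 8 ≤ N → Ok N I → Opt N I D → ∀ (K m a b : ℕ), 8 ≤ K →
  dens N I K m a b → (cnt N I m a b : ℝ) ^ 2 ≤ 16 * ∑ i ∈ jobs N I m a b, Oj N I D i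

open Classical in
/-- STR-LB3 (uses T_ON). PROOF. `S` = the jobs of the set with `D ≤ T`, `T = b + E/(2N)`. `Opt.work` (for `a`):
`∑_S q ≤ (N-4)(b - a + E/(2N)) ≤ (N-4)(b-a) + E/2`. So the others have `∑ q ≥ E/2`, and each of them has
`D - R ≥ T - b = E/(2N)`, so `Oj q² = N (D - R) q ≥ (E/2) q`. The sum is at least `(E/2)(E/2)`. -/
def T_LB3 : Prop := ∀ (N : ℕ) (I : DI) (D : ℕ → ℝ), 8 ≤ N → Ok N I → Opt N I D → ∀ (k a b : ℕ) (E : ℝ),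
  a ≤ b → 0 < E → E + ((N : ℝ) - 4) * ((b : ℝ) - a) ≤ Vv N I k a b →
  E ^ 2 ≤ 4 * ∑ i ∈ I.J.filter (fun i => (a ≤ I.R i ∧ I.R i < b) ∧ lev N I i ≤ k), Oj N I D i * (I.q i : ℝ) ^ 2

open Classical in
/-- STR-SWP. PROOF. `∑_{x ∈ F} ∑_{i ∈ J} [a ≤ R i < b] f i j = ∑_{i ∈ J} ∑_{x ∈ F, R i ∈ x} f i x.1` (`Finset.sum_comm`), and for a fixed `i` the map
`x ↦ x.1` is injective on `{x ∈ F | R i ∈ x}` by `Fam` (with `t = R i`), so the inner sum is at most the sum over the image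
(`Finset.sum_image`, `Finset.sum_le_sum_of_subset_of_nonneg`). -/
def T_SWP : Prop := ∀ (I : DI) (F : Finset (ℕ × ℕ × ℕ)) (f : ℕ → ℕ → ℝ), Fam F → (∀ i j, 0 ≤ f i j) →
  ∑ x ∈ F, ∑ i ∈ I.J.filter (fun i => x.2.1 ≤ I.R i ∧ I.R i < x.2.2), f i x.1 ≤
    ∑ i ∈ I.J, ∑ j ∈ F.image Prod.fst, f i j

/-- STR-CSS (uses T_LB3, T_SWP, T_ON). PROOF. Let `M = Mc`, `κ = kap`, `X = M N 2^κ`. For `x = (j, a, b)` with `a < b` (otherwise `sz = 0`) take `a', b'`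
from `SC`, `E = (b - a)/M`. T_LB3 for `k = j+κ`, `[a', b')`: `E² ≤ 4 ∑ Oj q²`, so
`sz x ^2 = (M E / lam j)² ≤ 4 M² ∑ Oj (q / lam j)² = 4 X² ∑ Oj (q / ell (j+κ))²` over `i` released in `[a, b)` with `lev i ≤ j+κ`
(`ell (j+κ) = N 2^κ lam j`). T_SWP with `f i j = Oj i (q i / ell (j+κ))²` if `lev i ≤ j+κ`, otherwise `0` (and `0` if `i ∉ J`):
for fixed `i` the sum over `j` is at most `Oj i ∑_j 4^-(j+κ-lev i) ≤ (4/3) Oj i` (`q i ≤ ell (lev i)`, distinct exponents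
`j + κ - lev i ≥ 0`). Total `≤ (16/3) X² OO`. -/
def T_CSS : Prop := ∀ (N : ℕ) (I : DI) (D : ℕ → ℝ), 8 ≤ N → Ok N I → Opt N I D → ∀ F : Finset (ℕ × ℕ × ℕ), Fam F →
  (∀ x ∈ F, SC N I x.1 x.2.1 x.2.2) →
  ∑ x ∈ F, sz N x ^ 2 ≤ 6 * ((Mc N : ℝ) * N * 2 ^ kap N) ^ 2 * OO N I D

/-- STR-CSN (uses T_LB2, T_SWP, T_ON). PROOF. For `x = (j, a, b)` let `S` be the set of the levels `m ∈ (j+κ, j+κ+g]` with `dens 16 m a b`, `#S ≤ g`.
`sz x ≤ M ∑_{m ∈ S} cnt m a b` (the set in `NC` is the union of the `jobs m a b`, `m ∈ S`). Cauchy: `sz² ≤ M² g ∑_{m ∈ S} cnt²`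
`≤ 16 M² g ∑_{m ∈ S} ∑_{jobs m a b} Oj = 16 M² g ∑_{i released in [a,b), lev i ∈ S} Oj i`. T_SWP with `f i j = Oj i` if `i ∈ J`,
`j+κ < lev i ≤ j+κ+g`, and `0` otherwise: for fixed `i` at most `g` values of `j`. Total `16 M² g² OO`. -/
def T_CSN : Prop := ∀ (N : ℕ) (I : DI) (D : ℕ → ℝ), 8 ≤ N → Ok N I → Opt N I D →
  ∀ (F : Finset (ℕ × ℕ × ℕ)) (g : ℕ), Fam F → (∀ x ∈ F, NC N I g x.1 x.2.1 x.2.2) →
  ∑ x ∈ F, sz N x ^ 2 ≤ 16 * (Mc N : ℝ) ^ 2 * (g : ℝ) ^ 2 * OO N I D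

/-- STR-CS (uses T_CSS, T_CSN, T_ON). PROOF. Split `F` into the `x` with `SC` and the others (`NC`); subfamilies of a `Fam` are `Fam`.
`6 X² + 16 Mc² g² ≤ 22 X² (g+1)²`, `X = Mc N 2^kap ≥ Mc`; `OO ≥ 0`. -/
def T_CS : Prop := ∀ (N : ℕ) (I : DI) (D : ℕ → ℝ), 8 ≤ N → Ok N I → Opt N I D →
  ∀ (F : Finset (ℕ × ℕ × ℕ)) (g : ℕ), Fam F → (∀ x ∈ F, Cert N I g x.1 x.2.1 x.2.2) →
  ∑ x ∈ F, sz N x ^ 2 ≤ Cs N * ((g : ℝ) + 1) ^ 2 * OO N I D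

/-- STR-COV. The covering lemma. PROOF. `f x y = cnt m x y * lam m` is additive (`cnt_add`) and monotone (`cnt_mono`). For `x ∈ [a, b)` let `(l x, r x)` be an
admissible pair with the largest `r x` (`r ≤ b`, so it exists). Claim: for `a ≤ x < b`: `K (b - x) ≤ f (l x) b + f x b`. Strong
induction on `b - x`. If `r x = b`: `K (b - x) ≤ K (b - l x) ≤ f (l x) b`. If `r = r x < b`: the claim for `r`:
`K (b - r) ≤ f (l r) b + f r b`. `l r > x`: otherwise `(l r, r r)` is admissible for `x` with `r r > r`. So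
`K (b - x) ≤ K (r - l x) + K (b - r) ≤ f (l x) r + f (l r) b + f r b = f (l x) b + f (l r) b ≤ f (l x) b + f x b`. For `x = a`
(`l a = a`): `2 f a b`. If `a ≥ b` trivial. -/
def T_COV : Prop := ∀ (N : ℕ) (I : DI) (K m a b : ℕ),
  (∀ x, a ≤ x → x < b → ∃ l r, a ≤ l ∧ l ≤ x ∧ x < r ∧ r ≤ b ∧ dens N I K m l r) →
  K * (b - a) ≤ 2 * (cnt N I m a b * lam N m)

/-- STR-RUN. Runs of a finite set. PROOF. With `X` a strict upper bound of `S`, `G` = all `(c, d)`, `c < d ≤ X`, with `[c, d) ⊆ S`, `d ∉ S`, and (`c = 0` or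
`c - 1 ∉ S`). If two of them share `t` they are equal: `c < c'` gives `c' - 1 ∈ [c, t] ⊆ S`, the same for the ends. For
`[l, r) ⊆ S`, `l < r`: `c` = least number with `[c, l] ⊆ S` (`Nat.find`), `d` = least number `≥ r` not in `S`. -/
def T_RUN : Prop := ∀ S : Finset ℕ, ∃ G : Finset (ℕ × ℕ),
  (∀ g ∈ G, ∀ t, g.1 ≤ t → t < g.2 → t ∈ S) ∧
  (∀ g ∈ G, ∀ g' ∈ G, (∃ t, (g.1 ≤ t ∧ t < g.2) ∧ (g'.1 ≤ t ∧ t < g'.2)) → g = g') ∧
  (∀ l r, l < r → (∀ t, l ≤ t → t < r → t ∈ S) → ∃ g ∈ G, g.1 ≤ l ∧ r ≤ g.2)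

open Classical in
/-- STR-PRM (uses T_COV, T_RUN, T_LB2, T_ON). Pairs of fixed levels. PROOF. Let `S` be the set of the `t` for which there are `a ≤ t < b` with `dens 16 m a b` and
`dens 16 m' a b`. It is finite: `16 (b-a) ≤ cnt m a b * lam m` and `a < b` imply that a job is released in `[a, b)` and
`b - a ≤ #J lam m`, so `b ≤ max R + 1 + #J lam m`. T_RUN gives `G`. For `g ∈ G`: every `t ∈ g` lies in an interval `[l, r)` dense for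
both, which is `⊆ S`, hence contained in a member of `G`, which is `g`. T_COV: `16 |g| ≤ 2 cnt m g lam m`: `dens 8 m g`, the same for
`m'`. T_LB2: `cnt m g ^ 2 ≤ 16 ∑_{jobs m g} Oj`, so `∑_g cnt m g ^2 ≤ 16 ∑_{lev i = m} Oj` (disjoint), the same for `m'`. Every pair of the
set has both releases in one `g` (witness interval `⊆ S`). So the number is at most `∑_g cnt m g * cnt m' g ≤ (1/2) ∑_g (cnt m g ^2 + cnt m' g ^2)`. -/
def T_PRM : Prop := ∀ (N : ℕ) (I : DI) (D : ℕ → ℝ), 8 ≤ N → Ok N I → Opt N I D → ∀ m m' : ℕ,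
  (((PP N I).filter fun p => lev N I p.1 = m ∧ lev N I p.2 = m').card : ℝ) ≤
    8 * ((∑ i ∈ I.J.filter (fun i => lev N I i = m), Oj N I D i) + ∑ i ∈ I.J.filter (fun i => lev N I i = m'), Oj N I D i)

/-- STR-PR (uses T_PRM, T_ON). PROOF. Sum of T_PRM over `(m, m') ∈ [k0, k0+L)²` (`Finset.card_eq_sum_card_fiberwise`): the right side is
`8 (L OO + L OO)`. -/
def T_PR : Prop := ∀ (N : ℕ) (I : DI) (D : ℕ → ℝ), 8 ≤ N → Ok N I → Opt N I D → ∀ k0 L : ℕ, Lv N I k0 L →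
  ((PP N I).card : ℝ) ≤ 16 * L * OO N I D

open Classical in
/-- STR-BU (uses T_F1, T_MASS, T_CSS, T_PR, T_GAM, T_BEM, T_ON; T_F1 T_GAM T_BEM are in TargetsSim:
import it too). Busy intervals. PROOF. For `b ∈ W`, `g = gam k b`: T_F1 with `ts = g` (nonempty on `[b, g)` by T_GAM) gives
`[a', b') ⊆ [b, g)`. T_MASS with `F = Fc`, `K = 16`, `La = 1`, `κ = kap`, `h = 0`, `M = Mc`, `len = g - b`, both outer intervals `[b, g)`
(`Mc * 16 ≤ 2 ^ kap`: `kap = 64 Mc Ks ≥ 16 Mc`, `Nat.lt_two_pow_self`): (S) gives `SC k b g`; (near) is impossible (`h = 0`: empty set); (far):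
`g - b ≤ Mc lam k #Y_b`, `Y_b` = jobs `i` with `b ≤ R i < g`, `dens 16 (lev i) b g`. Let `W1` be the `b` with `SC`: T_CSS for the family
`(k, b, gam k b)` (`Fam`: a common `t` gives `be k t = b = b'`, T_GAM): `≤ 6 X² OO`. For the others
`((g-b)/lam k)² ≤ Mc² #(Y_b × Y_b)`, `Y_b × Y_b ⊆ PP` and these sets are disjoint for different `b` (`be k (R i) = b`): sum
`≤ Mc² #PP ≤ 16 Mc² L OO`. If `L = 0` there are no jobs, `W` is empty; otherwise `6 X² OO + 16 Mc² L OO ≤ 22 X² L OO`. -/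
def T_BU : Prop := ∀ (N : ℕ) (I : DI) (D : ℕ → ℝ), 8 ≤ N → Ok N I → Opt N I D → ∀ k0 L : ℕ, Lv N I k0 L →
  ∀ (k : ℕ) (W : Finset ℕ), (∀ b ∈ W, (Ak N I k b).Nonempty ∧ be N I k b = b) →
  ∑ b ∈ W, (((gam N I k b - b : ℕ) : ℝ) / (lam N k : ℝ)) ^ 2 ≤ Cs N * L * OO N I D

/-- STR-OM. PROOF. `g - g/4` and `g/4`: (1) strong induction in steps of `4`: `(1/2)^3 ≤ (3/5)^4`, base cases `g < 4` by `norm_num`. (2)
`om g = 2^(g/4) / 2^g` since `g/4 ≤ g`. (3) With `h = g/4`: `(h+1)² ≤ 3 * 2^h` (induction), and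
`om g ^2 = (1/2)^(2(g-h))`, `2(g-h) - h ≥ g` (`4h ≤ g`), so `om² (h+1)² ≤ 3 (1/2)^(2(g-h)-h) ≤ 3 (1/2)^g`. (4) induction on `n` in the form
`∑_{g < 4m} (1/2)^(g/4) = 8 - 8 (1/2)^m` and monotonicity. -/
def T_OM : Prop := (∀ g : ℕ, om g ≤ (3 / 5 : ℝ) ^ g) ∧ (∀ g : ℕ, om g * 2 ^ g = (2 : ℝ) ^ (g / 4)) ∧
  (∀ g : ℕ, om g ^ 2 * (((g / 4 : ℕ) : ℝ) + 1) ^ 2 ≤ 3 * (1 / 2 : ℝ) ^ g) ∧
  ∀ n : ℕ, ∑ g ∈ Finset.range n, (1 / 2 : ℝ) ^ (g / 4) ≤ 8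

/-- STR-PIG (uses T_OM (4)). PROOF. Otherwise `8 * 2^((b-1-j)/4) (f j - f (j+1)) < f a - f b` for all `j ∈ [a, b)`. Telescoping:
`f a - f b = ∑_{j ∈ [a,b)} (f j - f (j+1)) < (f a - f b)/8 ∑_j (1/2)^((b-1-j)/4) ≤ f a - f b` (reals; reflect the sum,
`Finset.sum_range_reflect`), a contradiction; the sum has at least one term since `a < b`. -/
def T_PIG : Prop := ∀ (f : ℕ → ℕ) (a b : ℕ), a < b → (∀ j, a ≤ j → j < b → f (j + 1) ≤ f j) →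
  ∃ j, a ≤ j ∧ j < b ∧ f a - f b ≤ 8 * (2 ^ ((b - 1 - j) / 4) * (f j - f (j + 1)))

/-- STR-CHG. Charging. PROOF. `∑_x c x ≤ C ∑_x ∑_{p ∈ Q x} w x = C ∑_{p ∈ P} ∑_{x ∈ F, p ∈ Q x} w x ≤ C c0 #P` (`Finset.sum_comm'`). -/
def T_CHG : Prop := ∀ (F : Finset (ℕ × ℕ × ℕ)) (P : Finset (ℕ × ℕ)) (Q : ℕ × ℕ × ℕ → Finset (ℕ × ℕ))
  (w c : ℕ × ℕ × ℕ → ℝ) (C c0 : ℝ), 0 ≤ C → (∀ x ∈ F, 0 ≤ w x) → (∀ x ∈ F, Q x ⊆ P) →
  (∀ x ∈ F, c x ≤ C * (w x * (Q x).card)) →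
  (∀ p ∈ P, ∑ x ∈ F.filter (fun x => p ∈ Q x), w x ≤ c0) →
  ∑ x ∈ F, c x ≤ C * (c0 * P.card)

/-- STR-GEO. PROOF. The exponents `x.1 - rho` are distinct natural numbers, so the sum is at most a partial sum of the geometric series of `3/5`
(`Finset.sum_image`, `Summable.sum_le_tsum` or induction): `1/(1 - 3/5) = 5/2`. The same for `1/2`: `2`. -/
def T_GEO : Prop := ∀ (F : Finset (ℕ × ℕ × ℕ)) (rho : ℕ), (∀ x ∈ F, rho ≤ x.1) →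
  (∀ x ∈ F, ∀ y ∈ F, x.1 = y.1 → x = y) →
  ∑ x ∈ F, (3 / 5 : ℝ) ^ (x.1 - rho) ≤ 5 / 2 ∧ ∑ x ∈ F, (1 / 2 : ℝ) ^ (x.1 - rho) ≤ 2

end STR
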