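import Pool.Agent.STR.TargetsAna
import Pool.Agent.STR.TargetsOpt

/-!
# STR-DISC: the discrete theorem
-/

set_option autoImplicit false

namespace STR

namespace DISC_

open Classical in
/-- a sum of costs is grouped by the chosen chains -/
theorem group (S : Finset ℕ) (g : ℕ → ℕ × ℕ × ℕ) (c : ℕ → ℝ) (z n : ℕ × ℕ × ℕ → ℝ)
    (hz : ∀ x, 0 ≤ z x) (hc : ∀ i ∈ S, c i ≤ 2 * z (g i))
    (hn : ∀ x ∈ S.image g, ((S.filter (fun i => g i = x)).card : ℝ) ≤ n x) :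
    ∑ i ∈ S, c i ≤ 2 * ∑ x ∈ S.image g, n x * z x := by
  calc ∑ i ∈ S, c i ≤ ∑ i ∈ S, 2 * z (g i) := Finset.sum_le_sum hc
    _ = ∑ x ∈ S.image g, ∑ i ∈ S.filter (fun i => g i = x), 2 * z (g i) := by
        rw [Finset.sum_fiberwise_of_maps_to]
        intro i hi
        exact Finset.mem_image_of_mem _ hi
    _ = ∑ x ∈ S.image g, ((S.filter (fun i => g i = x)).card : ℝ) * (2 * z x) := by
        apply Finset.sum_congr rfl
        intro x _
        rw [Finset.sum_congr rfl (g := fun _ => 2 * z x)]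
        · rw [Finset.sum_const, nsmul_eq_mul]
        · intro i hi
          rw [(Finset.mem_filter.1 hi).2]
    _ ≤ 2 * ∑ x ∈ S.image g, n x * z x := by
        rw [Finset.mul_sum]
        apply Finset.sum_le_sum
        intro x hx
        have h1 := mul_le_mul_of_nonneg_right (hn x hx) (hz x)
        nlinarith [h1]

theorem sz_nonneg (N : ℕ) (x : ℕ × ℕ × ℕ) : 0 ≤ sz N x := by
  unfold sz; positivity

theorem mu_nonneg (N : ℕ) (I : DI) (x : ℕ × ℕ × ℕ) : 0 ≤ mu N I x := by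
  unfold mu; positivity

theorem C1_nonneg (N : ℕ) : 0 ≤ C1 N := by
  unfold C1 Cs; positivity

end DISC_

open DISC_ in
open Classical in
theorem p_DISC (hJ1 : T_J1) (hJE : T_JE) (hJC : T_JC) (hON : T_ON) : T_DISC := by
  intro N I D hN hOk hOpt k0 L hLv
  have hOO : 0 ≤ OO N I D := le_trans (Nat.cast_nonneg _) (hON N I D hN hOk hOpt).2
  set c : ℕ → ℝ := fun i => (N : ℝ) * ((cmp N I i : ℝ) - I.R i) / I.q i with hc
  set P : ℕ → ℕ × ℕ × ℕ → Prop := fun i x => EC N I x ∧ x.1 = lev N I i ∧ x.2.1 ≤ I.R i ∧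
    I.R i < x.2.2 ∧ c i ≤ 2 * sz N x with hP
  set Q : ℕ → ℕ × ℕ × ℕ → Prop := fun i x => CC N I x ∧ x.1 = lev N I i ∧ bs N I x ≤ I.R i ∧
    I.R i < x.2.2 ∧ c i ≤ 2 * mu N I x with hQ
  have h1 : ∀ i ∈ I.J, (∃ x, P i x) ∨ ∃ x, Q i x := fun i hi => (hJ1 N I hN hOk i hi).2.2
  set A := I.J.filter (fun i => ∃ x, P i x) with hA
  set B := I.J.filter (fun i => ¬ ∃ x, P i x) with hB
  have hPA : ∀ i, ∃ x, i ∈ A → P i x := by
    intro i
    by_cases h : i ∈ A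
    · obtain ⟨x, hx⟩ := (Finset.mem_filter.1 h).2
      exact ⟨x, fun _ => hx⟩
    · exact ⟨(0, 0, 0), fun h' => absurd h' h⟩
  have hQB : ∀ i, ∃ x, i ∈ B → Q i x := by
    intro i
    by_cases h : i ∈ B
    · obtain ⟨h2, h3⟩ := Finset.mem_filter.1 h
      obtain ⟨x, hx⟩ := (h1 i h2).resolve_left h3
      exact ⟨x, fun _ => hx⟩
    · exact ⟨(0, 0, 0), fun h' => absurd h' h⟩
  choose g hg using hPA
  choose f hf using hQB
  have hAJ : ∀ i ∈ A, i ∈ I.J := fun i hi => (Finset.mem_filter.1 hi).1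
  have hBJ : ∀ i ∈ B, i ∈ I.J := fun i hi => (Finset.mem_filter.1 hi).1
  have e1 := group A g c (sz N) (fun x => (cnt N I x.1 x.2.1 x.2.2 : ℝ)) (sz_nonneg N)
    (fun i hi => (hg i hi).2.2.2.2) (by
      intro x _
      have h2 : (A.filter (fun i => g i = x)) ⊆ jobs N I x.1 x.2.1 x.2.2 := by
        intro i hi
        obtain ⟨h3, h4⟩ := Finset.mem_filter.1 hi
        have h5 := hg i h3
        rw [h4] at h5
        exact mem_jobs.2 ⟨hAJ i h3, ⟨h5.2.2.1, h5.2.2.2.1⟩, h5.2.1.symm⟩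
      have h3 := Finset.card_le_card h2
      show _ ≤ ((cnt N I x.1 x.2.1 x.2.2 : ℕ) : ℝ)
      unfold cnt
      exact_mod_cast h3)
  have e2 := group B f c (mu N I) (fun x => (cnt N I x.1 (bs N I x) x.2.2 : ℝ)) (mu_nonneg N I)
    (fun i hi => (hf i hi).2.2.2.2) (by
      intro x _
      have h2 : (B.filter (fun i => f i = x)) ⊆ jobs N I x.1 (bs N I x) x.2.2 := by
        intro i hi
        obtain ⟨h3, h4⟩ := Finset.mem_filter.1 hi
        have h5 := hf i h3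
        rw [h4] at h5
        exact mem_jobs.2 ⟨hBJ i h3, ⟨h5.2.2.1, h5.2.2.2.1⟩, h5.2.1.symm⟩
      have h3 := Finset.card_le_card h2
      show _ ≤ ((cnt N I x.1 (bs N I x) x.2.2 : ℕ) : ℝ)
      unfold cnt
      exact_mod_cast h3)
  have e3 := hJE N I D hN hOk hOpt k0 L hLv (A.image g) (by
    intro x hx
    obtain ⟨i, hi, rfl⟩ := Finset.mem_image.1 hx
    have h5 := hg i hi
    have h6 := hLv i (hAJ i hi)
    rw [h5.2.1]
    exact ⟨h5.1, h6⟩)
  have e4 := hJC N I D hN hOk hOpt k0 L hLv (B.image f) (by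
    intro x hx
    obtain ⟨i, hi, rfl⟩ := Finset.mem_image.1 hx
    have h5 := hf i hi
    have h6 := hLv i (hBJ i hi)
    rw [h5.2.1]
    exact ⟨h5.1, h6⟩)
  have e5 : ∑ i ∈ I.J, c i = ∑ i ∈ A, c i + ∑ i ∈ B, c i :=
    (Finset.sum_filter_add_sum_filter_not I.J (fun i => ∃ x, P i x) c).symm
  have e6 : 0 ≤ C1 N * L * OO N I D :=
    mul_nonneg (mul_nonneg (C1_nonneg N) (Nat.cast_nonneg _)) hOO
  have e7 : 0 ≤ (Rc N : ℝ) * (C1 N * L * OO N I D) := mul_nonneg (Nat.cast_nonneg _) e6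
  show ∑ i ∈ I.J, c i ≤ _
  rw [e5]
  unfold CD
  nlinarith [e1, e2, e3, e4, e6, e7]

end STR
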