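import Pool.Agent.STR.TargetsReal

/-!
# STR, targets DOK and DLV: the discretisation of an instance
-/

set_option autoImplicit false

namespace STR

namespace DOK_

theorem ell_add (N k m : ℕ) : ell N (k + m) = 2 ^ m * ell N k := by
  unfold ell
  rw [lam_add]
  ring

/-- lower bound of the rounded size -/
theorem q_ge (N : ℕ) (s w : ℝ) (I : Inst) (j : ℕ) :
    I.p j / w ≤ ((di N s w I).q j : ℝ) := Nat.le_ceil _

/-- upper bound of the rounded size -/
theorem q_le (N : ℕ) (s w : ℝ) (I : Inst) (j : ℕ) (h : 0 ≤ I.p j / w) :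
    ((di N s w I).q j : ℝ) ≤ I.p j / w + 1 := (Nat.ceil_lt_add_one h).le

theorem pw_ge {N : ℕ} {w p : ℝ} (hw : 0 < w) (h : (N : ℝ) * N * w ≤ p) :
    (N : ℝ) * N ≤ p / w := by
  rw [le_div_iff₀ hw]
  exact h

end DOK_

theorem p_DOK : T_DOK := by
  intro N s w I hw hp j hj
  have h1 := DOK_.pw_ge hw (hp j hj)
  have h2 := h1.trans (DOK_.q_ge N s w I j)
  exact_mod_cast h2

theorem p_DLV (hDOK : T_DOK) : T_DLV := by
  intro N s w P I hN hs hw hp hP hpp
  have hlogP : 0 ≤ Real.log P := Real.log_nonneg hP
  have hOk := hDOK N s w I hw hp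
  rcases I.jobs.eq_empty_or_nonempty with he | hne
  · refine ⟨0, 0, ?_, ?_⟩
    · intro j hj
      have hj' : j ∈ I.jobs := hj
      rw [he] at hj'
      simp at hj'
    · push_cast
      positivity
  · obtain ⟨i, hi, hi'⟩ := Finset.exists_min_image I.jobs (lev N (di N s w I)) hne
    obtain ⟨j, hj, hj'⟩ := Finset.exists_max_image I.jobs (lev N (di N s w I)) hne
    refine ⟨lev N (di N s w I) i, lev N (di N s w I) j - lev N (di N s w I) i + 1, ?_, ?_⟩
    · intro x hx
      have h1 := hi' x hx
      have h2 := hj' x hx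
      exact ⟨h1, by omega⟩
    · have hij := hi' j hj
      rcases Nat.eq_or_lt_of_le hij with h0 | h0
      · rw [← h0, Nat.sub_self]
        push_cast
        linarith
      · obtain ⟨m, hm⟩ : ∃ m, lev N (di N s w I) j = lev N (di N s w I) i + m + 1 :=
          ⟨lev N (di N s w I) j - lev N (di N s w I) i - 1, by omega⟩
        have h1 : ell N (lev N (di N s w I) i + m) < (di N s w I).q j :=
          ell_lt_q (by omega)
        have h2 : (di N s w I).q i ≤ ell N (lev N (di N s w I) i) := q_le_ell (by omega) _ _
        rw [DOK_.ell_add] at h1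
        have h3 : 2 ^ m * (di N s w I).q i < (di N s w I).q j :=
          lt_of_le_of_lt (Nat.mul_le_mul_left _ h2) h1
        have h3' : (2 : ℝ) ^ m * ((di N s w I).q i : ℝ) < ((di N s w I).q j : ℝ) := by
          exact_mod_cast h3
        have h4 := DOK_.q_ge N s w I i
        have hNN : (64 : ℝ) ≤ (N : ℝ) * N := by
          have : (8 : ℝ) ≤ N := by exact_mod_cast hN
          nlinarith
        have h5 := DOK_.pw_ge hw (hp i hi)
        have h6 := DOK_.pw_ge hw (hp j hj)
        have h7 := DOK_.q_le N s w I j (by linarith)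
        have h8 : I.p j / w ≤ P * (I.p i / w) := by
          rw [← mul_div_assoc]
          exact div_le_div_of_nonneg_right (hpp i hi j hj) hw.le
        have h9 : 0 < I.p i / w := by linarith
        have h10 : (2 : ℝ) ^ m * (I.p i / w) < (2 * P) * (I.p i / w) := by
          calc (2 : ℝ) ^ m * (I.p i / w) ≤ (2 : ℝ) ^ m * ((di N s w I).q i : ℝ) := by gcongr
            _ < ((di N s w I).q j : ℝ) := h3'
            _ ≤ I.p j / w + 1 := h7
            _ ≤ 2 * (I.p j / w) := by linarith
            _ ≤ (2 * P) * (I.p i / w) := by linarith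
        have h11 : (2 : ℝ) ^ m < 2 * P := lt_of_mul_lt_mul_right h10 h9.le
        have h12 : (m : ℝ) * Real.log 2 < Real.log 2 + Real.log P := by
          rw [← Real.log_pow, ← Real.log_mul (by norm_num) (by linarith)]
          exact Real.log_lt_log (by positivity) h11
        have h13 := Real.log_two_gt_d9
        have h14 : (m : ℝ) < 1 + 3 * Real.log P := by
          by_contra hcon
          have h15 : 1 + 3 * Real.log P ≤ (m : ℝ) := not_lt.1 hcon
          nlinarith
        have h16 : lev N (di N s w I) j - lev N (di N s w I) i + 1 = m + 2 := by omega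
        rw [h16]
        push_cast
        linarith

end STR
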