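import Pool.Agent.STR.TargetsAna
import Pool.Agent.STR.TargetsSim

/-!
# Project STR: ECB, chains which end
-/

set_option autoImplicit false

namespace STR

theorem p_ECB (hCHN : T_CHN) (hMT : T_MT) (hTH : T_TH) : T_ECB := by
  intro N I hN hOk x hx
  obtain ⟨k, a, e⟩ := x
  obtain ⟨v, hv, hE, hu⟩ := hx
  simp only at hv hE hu
  subst hv
  have hav : a ≤ v := uu_le N I hu
  obtain ⟨h1, h2, h3, h4, h5, h6, h7, h8⟩ := hCHN N I hN hOk k v a hu
  refine ⟨⟨?_, ?_, ?_, ?_⟩, ?_, ?_⟩
  · show a < v + 1
    omega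
  · exact h3
  · show v + 1 ≤ gam N I k a
    omega
  · exact h5
  · intro hl
    have hl' : lam N k < v + 1 - a := hl
    have hlp := lam_pos hN k
    rcases hTH N I hN k v a hu with h | h
    · omega
    · rw [h2] at h
      have e1 : v + 1 - 1 - a = v - a := by omega
      have hb : bs N I (k, a, v + 1) = be N I k a := rfl
      refine ⟨?_, ?_⟩
      · show bs N I (k, a, v + 1) + Rc N * (v + 1 - 1 - a) < a
        rw [e1, hb]
        exact h
      · show Rc N * (v + 1 - a) ≤ 2 * (a - bs N I (k, a, v + 1))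
        rw [hb]
        have h9 : Rc N * (v + 1 - a) ≤ Rc N * (2 * (v - a)) :=
          Nat.mul_le_mul_left _ (by omega)
        have h10 : Rc N * (2 * (v - a)) = 2 * (Rc N * (v - a)) := by ring
        omega
  · intro y hy hxy ht
    obtain ⟨k', a', e'⟩ := y
    obtain ⟨v', hv', hE', hu'⟩ := hy
    simp only at hv' hE' hu' hxy
    subst hv'
    subst hxy
    obtain ⟨t, ⟨ht1, ht2⟩, ht3, ht4⟩ := ht
    simp only at ht1 ht2 ht3 ht4
    rcases lt_trichotomy v v' with h | h | h
    · have h9 := (hMT N I k v v' a' h.le hu').2.1 hE h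
      omega
    · subst h
      rw [hu] at hu'
      have h9 : a = a' := by exact_mod_cast hu'
      rw [h9]
    · have h9 := (hMT N I k v' v a h.le hu).2.1 hE' h
      omega

end STR
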