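import Pool.Agent.STR.TargetsAna
import Pool.Agent.STR.TargetsOpt
import Pool.Agent.STR.TargetsSim

/-!
# Project STR (MP_32d942_lc): target ES (long end chains)
-/

set_option autoImplicit false

namespace STR

namespace ES_

theorem kap_big (N : ℕ) : Mc N * (16 * 16) ≤ 2 ^ kap N := by
  have h1 : kap N < 2 ^ kap N := Nat.lt_two_pow_self
  have h2 : Mc N * (16 * 16) ≤ kap N := by
    unfold kap
    have h3 : 128 ≤ Ks N := by
      unfold Ks
      omega
    calc Mc N * (16 * 16) ≤ 64 * Mc N * 128 := by omega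
      _ ≤ 64 * Mc N * Ks N := Nat.mul_le_mul_left _ h3
  omega

theorem Fc_pos {N : ℕ} (hN : 8 ≤ N) : 1 ≤ Fc N := by
  unfold Fc
  have h1 : 1 ≤ N * N := Nat.mul_pos (by omega) (by omega)
  exact Nat.mul_pos h1 (by omega)

theorem Fc_le_FG {N : ℕ} (hN : 8 ≤ N) : Fc N ≤ FG N := by
  unfold FG
  have h1 : 1 ≤ 400 * (N * N) := Nat.mul_pos (by norm_num) (Nat.mul_pos (by omega) (by omega))
  exact Nat.le_mul_of_pos_left _ h1

theorem Mc_big {N : ℕ} (hN : 8 ≤ N) : 16 * Fc N * N ≤ Mc N := by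
  unfold Mc M0
  have h1 := Fc_le_FG hN
  calc 16 * Fc N * N ≤ 16 * FG N * N := by gcongr
    _ ≤ 3 * (16 * FG N * N) := by omega

theorem Rc_big {N : ℕ} (hN : 8 ≤ N) : 8000 ≤ Rc N := by
  unfold Rc
  omega

theorem be_le_of_le (hBEM : T_BEM) (N : ℕ) (I : DI) {j k : ℕ} (h : j ≤ k) (t : ℕ) :
    be N I k t ≤ be N I j t := by
  induction h with
  | refl => exact le_rfl
  | step _ ih => exact ((hBEM N I _ t).2.1).trans ih

theorem pe_le (hBEM : T_BEM) (N : ℕ) (I : DI) (j a : ℕ) : pe N I j a ≤ a := by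
  cases j with
  | zero => exact le_rfl
  | succ j => exact (hBEM N I j a).1

theorem be_le_pe (hBEM : T_BEM) (N : ℕ) (I : DI) (j a : ℕ) : be N I j a ≤ pe N I j a := by
  cases j with
  | zero => exact (hBEM N I 0 a).1
  | succ j => exact (hBEM N I j a).2.1

/-- the case distinction for the recent part -/
theorem partX (hMASS : T_MASS) {N : ℕ} {I : DI} (hN : 8 ≤ N) (hOk : Ok N I) (k a e b L : ℕ)
    (hae : a < e) (hba : b ≤ a) (hW : (N - 1) * (e - a) ≤ Wp N I k a e)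
    (hL : e - b ≤ L * (e - a)) :
    Cert N I (Nat.clog 2 L) k a e ∨ ∃ X : Finset ℕ, X ⊆ I.J ∧
      (∀ i ∈ X, (a ≤ I.R i ∧ I.R i < e) ∧ dens N I Kd (lev N I i) b e) ∧
      e - a ≤ Mc N * lam N k * X.card := by
  classical
  have h1 : 16 * 1 * N ≤ Mc N := by
    have h2 := Mc_big hN
    have h3 : 16 * 1 * N ≤ 16 * Fc N * N := by
      have := Fc_pos hN
      gcongr
    exact h3.trans h2
  have h4 : Mc N * (16 * 1) ≤ 2 ^ kap N := by
    have := kap_big N
    omega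
  have h5 : 1 * ((N - 2) * (e - a)) + (e - a) ≤ 1 * Wp N I k a e := by
    rw [one_mul, one_mul]
    have h6 : (N - 2) * (e - a) + (e - a) = (N - 1) * (e - a) := by
      have h7 : N - 1 = (N - 2) + 1 := by omega
      rw [h7, add_mul, one_mul]
    rw [h6]
    exact hW
  have h8 : e - b ≤ 1 * (2 ^ Nat.clog 2 L * (e - a)) := by
    rw [one_mul]
    exact hL.trans (Nat.mul_le_mul_right _ (Nat.le_pow_clog (by norm_num) L))
  have key := hMASS N I hN hOk 1 16 1 (kap N) (Nat.clog 2 L) (Mc N) k a e a e b e (e - a)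
    hae.le (by omega) le_rfl h1 h4 h5 le_rfl le_rfl le_rfl hba le_rfl h8
  rcases key with key | key | key
  · left; left
    exact ⟨a, e, le_rfl, hae.le, le_rfl, key⟩
  · left; right
    unfold NC Kd
    convert key using 3
  · right
    refine ⟨_, Finset.filter_subset _ _, ?_, key⟩
    intro i hi
    rw [Finset.mem_filter] at hi
    exact ⟨hi.2.1, hi.2.2.2⟩

/-- the case distinction for the piece of the history -/
theorem partZ (hMASS : T_MASS) {N : ℕ} {I : DI} (hN : 8 ≤ N) (hOk : Ok N I)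
    (j h p0 p1 b e a' b' : ℕ) (hp : p0 < p1) (h1 : p0 ≤ a') (h2 : a' ≤ b') (h3 : b' ≤ p1)
    (hF : Fc N * ((N - 2) * (b' - a')) + (p1 - p0) ≤ Fc N * Wp N I j a' b')
    (hb : b ≤ p0) (he : p1 ≤ e) (hlen : e - b ≤ 16 * (2 ^ h * (p1 - p0))) :
    Cert N I h j p0 p1 ∨ ∃ Z : Finset ℕ, Z ⊆ I.J ∧
      (∀ i ∈ Z, (p0 ≤ I.R i ∧ I.R i < p1) ∧ dens N I Kd (lev N I i) b e) ∧
      p1 - p0 ≤ Mc N * lam N j * Z.card := by
  classical
  have key := hMASS N I hN hOk (Fc N) 16 16 (kap N) h (Mc N) j a' b' p0 p1 b e (p1 - p0)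
    h2 (by omega) (by norm_num) (Mc_big hN) (kap_big N) hF h1 h3 le_rfl (hb.trans h1)
    (h3.trans he) hlen
  rcases key with key | key | key
  · left; left
    exact ⟨a', b', h1, h2, h3, key⟩
  · left; right
    unfold NC
    refine key.trans (Nat.mul_le_mul_left _ (Finset.card_le_card ?_))
    intro i hi
    rw [Finset.mem_filter] at hi ⊢
    exact ⟨hi.1, ⟨h1.trans hi.2.1.1, hi.2.1.2.trans_le h3⟩, hi.2.2.1, hi.2.2.2⟩
  · right
    refine ⟨_, Finset.filter_subset _ _, ?_, key⟩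
    intro i hi
    rw [Finset.mem_filter] at hi
    exact ⟨⟨h1.trans hi.2.1.1, hi.2.1.2.trans_le h3⟩, hi.2.2.2⟩

end ES_

theorem p_ES (hECB : T_ECB) (hNE : T_NE) (hBEM : T_BEM) (hGAM : T_GAM)
    (hF1 : T_F1) (hMASS : T_MASS) (hPIG : T_PIG) : T_ES := by
  classical
  intro N I hN hOk x L hEC hL hlong
  obtain ⟨k, a, e⟩ := x
  have hN1 : 1 ≤ N := by omega
  have hECB' := hECB N I hN1 hOk (k, a, e) hEC
  obtain ⟨v, hev, hEnd, huv⟩ := hEC
  simp only at hlong hECB' hev hEnd huv ⊢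
  obtain ⟨⟨hae, hba, heg, hW⟩, h2, -⟩ := hECB'
  obtain ⟨-, hRc⟩ := h2 hlong
  have hbs : bs N I (k, a, e) = be N I k a := rfl
  rw [hbs] at hba hRc ⊢
  by_cases hcase : L * (e - a) ≤ gs N I (k, a, e) - be N I k a
  · left; exact hcase
  push Not at hcase
  right
  have hL' : e - be N I k a ≤ L * (e - a) := by omega
  rcases ES_.partX hMASS hN hOk k a e (be N I k a) L hae hba hW hL' with hX | ⟨X, hXJ, hXp, hXc⟩
  · left; exact hX
  right
  -- the piece of the history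
  have hRb := ES_.Rc_big hN
  have hgap : 4000 * (e - a) ≤ a - be N I k a := by
    have h3 : 8000 * (e - a) ≤ Rc N * (e - a) := Nat.mul_le_mul_right _ hRb
    omega
  obtain ⟨j, -, hj, hpig⟩ := hPIG (fun j => pe N I j a) 0 (k + 1) (by omega)
    (fun j _ _ => ES_.be_le_pe hBEM N I j a)
  have hjk : j ≤ k := by omega
  have e1 : pe N I 0 a = a := rfl
  have e2 : pe N I (k + 1) a = be N I k a := rfl
  have e3 : pe N I (j + 1) a = be N I j a := rfl
  have e4 : k + 1 - 1 - j = k - j := by omega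
  rw [e1, e2, e3, e4] at hpig
  refine ⟨j, hjk, hpig, ?_⟩
  have hp : be N I j a < pe N I j a := by
    by_contra hcon
    push Not at hcon
    have h3 : pe N I j a - be N I j a = 0 := by omega
    rw [h3, mul_zero, mul_zero] at hpig
    omega
  obtain ⟨-, i0, hi0, hi0R⟩ := hNE N I hN1 hOk k v a huv
  have hne : (Ak N I j a).Nonempty := by
    refine ⟨i0, ?_⟩
    have := self_mem N I hN1 hOk hi0 j
    rw [hi0R] at this
    exact this
  obtain ⟨hg1, -, hg3⟩ := hGAM N I hN1 j a hne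
  have hbb : be N I j (be N I j a) = be N I j a :=
    (hg3 (be N I j a) le_rfl (lt_of_le_of_lt (hBEM N I j a).1 hg1)).2.1
  have hpa := ES_.pe_le hBEM N I j a
  obtain ⟨a', b', ha1, ha2, ha3, ha4⟩ := hF1 N I hN hOk j (be N I j a) (pe N I j a) hp hbb
    (fun t ht1 ht2 => (hBEM N I j a).2.2.1 t ht1 (by omega))
  have hbk := ES_.be_le_of_le hBEM N I hjk a
  have hlen : e - be N I k a ≤ 16 * (2 ^ ((k - j) / 4) * (pe N I j a - be N I j a)) := by
    omega
  rcases ES_.partZ hMASS hN hOk j ((k - j) / 4) (be N I j a) (pe N I j a) (be N I k a) e a' b'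
    hp ha1 ha2 ha3 ha4 hbk (by omega) hlen with hZ | ⟨Z, hZJ, hZp, hZc⟩
  · left; exact hZ
  right
  refine ⟨X, Z, hXJ, hZJ, fun i hi => (hXp i hi).1, fun i hi => (hZp i hi).1, ?_, hXc, hZc⟩
  intro p hp'
  rw [Finset.mem_product] at hp'
  have hx := hXp p.1 hp'.1
  have hz := hZp p.2 hp'.2
  unfold PP
  rw [Finset.mem_filter, Finset.mem_product]
  refine ⟨⟨hXJ hp'.1, hZJ hp'.2⟩, be N I k a, e, ⟨hba.trans hx.1.1, hx.1.2⟩, ⟨?_, ?_⟩, hx.2, hz.2⟩
  · exact hbk.trans hz.1.1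
  · have := hz.1.2
    omega

end STR
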