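import Pool.Agent.STR.TargetsAna
import Pool.Agent.STR.TargetsOpt
import Pool.Agent.STR.TargetsSim

/-!
# Project STR: target T_ES1
-/

set_option autoImplicit false

namespace STR

namespace ES1_

/-- one group of short intervals inside an interval of length `G` -/
theorem group (S : Finset (ℕ × ℕ × ℕ)) (L b g : ℕ)
    (h1 : ∀ x ∈ S, b ≤ x.2.1 ∧ x.2.2 ≤ g ∧ L * (x.2.2 - x.2.1) ≤ g - b)
    (h2 : ∀ x ∈ S, ∀ y ∈ S, (∃ t, (x.2.1 ≤ t ∧ t < x.2.2) ∧ (y.2.1 ≤ t ∧ t < y.2.2)) → x = y) :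
    L * ∑ x ∈ S, (x.2.2 - x.2.1) ^ 2 ≤ (g - b) ^ 2 := by
  classical
  have hsum : ∑ x ∈ S, (x.2.2 - x.2.1) ≤ g - b := by
    have hd : (S : Set (ℕ × ℕ × ℕ)).PairwiseDisjoint
        (fun x : ℕ × ℕ × ℕ => Finset.Ico x.2.1 x.2.2) := by
      intro x hx y hy hxy
      show Disjoint (Finset.Ico x.2.1 x.2.2) (Finset.Ico y.2.1 y.2.2)
      rw [Finset.disjoint_left]
      intro t ht ht'
      rw [Finset.mem_Ico] at ht ht'
      exact hxy (h2 x hx y hy ⟨t, ht, ht'⟩)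
    have hc : (S.biUnion fun x => Finset.Ico x.2.1 x.2.2).card
        = ∑ x ∈ S, (x.2.2 - x.2.1) := by
      rw [Finset.card_biUnion hd]
      exact Finset.sum_congr rfl fun x _ => by rw [Nat.card_Ico]
    have hs : (S.biUnion fun x => Finset.Ico x.2.1 x.2.2) ⊆ Finset.Ico b g := by
      intro t ht
      rw [Finset.mem_biUnion] at ht
      obtain ⟨x, hx, ht⟩ := ht
      have := h1 x hx
      rw [Finset.mem_Ico] at ht ⊢
      exact ⟨by omega, by omega⟩
    have := Finset.card_le_card hs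
    rw [hc, Nat.card_Ico] at this
    exact this
  calc L * ∑ x ∈ S, (x.2.2 - x.2.1) ^ 2
      = ∑ x ∈ S, (L * (x.2.2 - x.2.1)) * (x.2.2 - x.2.1) := by
        rw [Finset.mul_sum]
        exact Finset.sum_congr rfl fun x _ => by ring
    _ ≤ ∑ x ∈ S, (g - b) * (x.2.2 - x.2.1) :=
        Finset.sum_le_sum fun x hx => Nat.mul_le_mul_right _ (h1 x hx).2.2
    _ = (g - b) * ∑ x ∈ S, (x.2.2 - x.2.1) := by rw [Finset.mul_sum]
    _ ≤ (g - b) * (g - b) := Nat.mul_le_mul_left _ hsum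
    _ = (g - b) ^ 2 := by ring

/-- one level -/
theorem level (hECB : T_ECB) (hCHN : T_CHN) {N : ℕ} {I : DI} (hN : 1 ≤ N) (hOk : Ok N I)
    (k L : ℕ) (S : Finset (ℕ × ℕ × ℕ))
    (hS : ∀ x ∈ S, EC N I x ∧ x.1 = k ∧ L * (x.2.2 - x.2.1) ≤ gs N I x - bs N I x) :
    ∃ W : Finset ℕ, (∀ b ∈ W, (Ak N I k b).Nonempty ∧ be N I k b = b) ∧
      (L : ℝ) * ∑ x ∈ S, sz N x ^ 2 ≤
        ∑ b ∈ W, (((gam N I k b - b : ℕ) : ℝ) / (lam N k : ℝ)) ^ 2 := by
  classical
  have hbas : ∀ x ∈ S, (Ak N I k (bs N I x)).Nonempty ∧ be N I k (bs N I x) = bs N I x ∧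
      gs N I x = gam N I k (bs N I x) := by
    intro x hx
    obtain ⟨⟨v, h1, h2, h3⟩, h4, h5⟩ := hS x hx
    have h6 := hCHN N I hN hOk x.1 v x.2.1 h3
    unfold bs gs
    rw [← h4]
    exact ⟨h6.2.2.2.2.2.2.1, h6.2.2.2.2.2.1, h6.2.2.2.2.2.2.2.symm⟩
  refine ⟨S.image (bs N I), ?_, ?_⟩
  · intro b hb
    rw [Finset.mem_image] at hb
    obtain ⟨x, hx, rfl⟩ := hb
    exact ⟨(hbas x hx).1, (hbas x hx).2.1⟩
  · have hfib : ∑ x ∈ S, sz N x ^ 2
        = ∑ b ∈ S.image (bs N I), ∑ x ∈ S.filter (fun x => bs N I x = b), sz N x ^ 2 :=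
      (Finset.sum_fiberwise_of_maps_to (fun x hx => Finset.mem_image_of_mem _ hx) _).symm
    rw [hfib, Finset.mul_sum]
    apply Finset.sum_le_sum
    intro b hb
    set T := S.filter (fun x => bs N I x = b) with hT
    have hmem : ∀ x ∈ T, x ∈ S ∧ bs N I x = b := fun x hx => Finset.mem_filter.1 hx
    have key : L * ∑ x ∈ T, (x.2.2 - x.2.1) ^ 2 ≤ (gam N I k b - b) ^ 2 := by
      apply group
      · intro x hx
        obtain ⟨hx1, hx2⟩ := hmem x hx
        have h1 := hECB N I hN hOk x (hS x hx1).1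
        have h2 := (hbas x hx1).2.2
        have h3 := (hS x hx1).2.2
        rw [h2, hx2] at h3
        have h4 := h1.1.2.1
        have h5 := h1.1.2.2.1
        rw [hx2] at h4
        rw [h2, hx2] at h5
        exact ⟨h4, h5, h3⟩
      · intro x hx y hy hxy
        obtain ⟨hx1, hx2⟩ := hmem x hx
        obtain ⟨hy1, hy2⟩ := hmem y hy
        exact (hECB N I hN hOk x (hS x hx1).1).2.2 y (hS y hy1).1
          ((hS x hx1).2.1.trans (hS y hy1).2.1.symm) hxy
    have hl : (0 : ℝ) < (lam N k : ℝ) := by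
      exact_mod_cast lam_pos hN k
    have hsz : ∑ x ∈ T, sz N x ^ 2
        = ((∑ x ∈ T, (x.2.2 - x.2.1) ^ 2 : ℕ) : ℝ) / (lam N k : ℝ) ^ 2 := by
      rw [Nat.cast_sum, Finset.sum_div]
      refine Finset.sum_congr rfl fun x hx => ?_
      unfold sz
      rw [(hS x (hmem x hx).1).2.1, div_pow, Nat.cast_pow]
    rw [hsz, div_pow, ← mul_div_assoc]
    apply div_le_div_of_nonneg_right _ (by positivity)
    exact_mod_cast key

end ES1_

theorem p_ES1 (hECB : T_ECB) (hBU : T_BU) (hGAM : T_GAM) (hCHN : T_CHN) (hON : T_ON) :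
    T_ES1 := by
  classical
  intro N I D hN hOk hD k0 L hLv F hF
  have hN1 : 1 ≤ N := by omega
  have hlev : ∀ k, ∑ x ∈ F.filter (fun x => x.1 = k), sz N x ^ 2 ≤ Cs N * OO N I D := by
    intro k
    obtain ⟨W, hW, h1⟩ := ES1_.level hECB hCHN hN1 hOk k L (F.filter fun x => x.1 = k)
      (fun x hx => by
        have hx' := Finset.mem_filter.1 hx
        exact ⟨(hF x hx'.1).1, hx'.2, (hF x hx'.1).2.2.2⟩)
    rcases Nat.eq_zero_or_pos L with h0 | h0
    · have he : F.filter (fun x => x.1 = k) = ∅ := by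
        apply Finset.filter_eq_empty_iff.2
        intro x hx
        have := hF x hx
        omega
      rw [he, Finset.sum_empty]
      have h3 : (0 : ℝ) ≤ OO N I D := le_trans (Nat.cast_nonneg _) (hON N I D hN hOk hD).2
      unfold Cs
      positivity
    · have h2 := hBU N I D hN hOk hD k0 L hLv k W hW
      have h3 : (L : ℝ) * ∑ x ∈ F.filter (fun x => x.1 = k), sz N x ^ 2
          ≤ (L : ℝ) * (Cs N * OO N I D) := by
        calc (L : ℝ) * ∑ x ∈ F.filter (fun x => x.1 = k), sz N x ^ 2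
            ≤ Cs N * L * OO N I D := h1.trans h2
          _ = (L : ℝ) * (Cs N * OO N I D) := by ring
      exact le_of_mul_le_mul_left h3 (by exact_mod_cast h0)
  have hfib : ∑ x ∈ F, sz N x ^ 2
      = ∑ k ∈ Finset.Ico k0 (k0 + L), ∑ x ∈ F.filter (fun x => x.1 = k), sz N x ^ 2 :=
    (Finset.sum_fiberwise_of_maps_to (fun x hx => by
      rw [Finset.mem_Ico]
      exact ⟨(hF x hx).2.1, (hF x hx).2.2.1⟩) _).symm
  rw [hfib]
  calc ∑ k ∈ Finset.Ico k0 (k0 + L), ∑ x ∈ F.filter (fun x => x.1 = k), sz N x ^ 2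
      ≤ ∑ _k ∈ Finset.Ico k0 (k0 + L), Cs N * OO N I D :=
        Finset.sum_le_sum fun k _ => hlev k
    _ = Cs N * L * OO N I D := by
        rw [Finset.sum_const, Nat.card_Ico, nsmul_eq_mul]
        have : k0 + L - k0 = L := by omega
        rw [this]
        ring

end STR
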