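import Pool.Agent.STR.TargetsAna
import Pool.Agent.STR.TargetsOpt

/-!
# Project STR: target ES3 (end chains with a certificate, all gaps)
-/

set_option autoImplicit false

namespace STR

theorem ES3_Cs_nonneg (N : ℕ) : 0 ≤ Cs N := by
  unfold Cs
  exact mul_nonneg (by norm_num) (sq_nonneg _)

open Classical in
theorem p_ES3 (hES3g : T_ES3g) (hOM : T_OM) (hON : T_ON) : T_ES3 := by
  intro N I D hN hOk hOpt F hF
  have hOO : 0 ≤ OO N I D := (Nat.cast_nonneg _).trans (hON N I D hN hOk hOpt).2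
  have hCs := ES3_Cs_nonneg N
  have hex : ∀ x : ℕ × ℕ × ℕ, ∃ j, x ∈ F → j ≤ x.1 ∧
      x.2.1 - bs N I x ≤ 8 * (2 ^ ((x.1 - j) / 4) * (pe N I j x.2.1 - be N I j x.2.1)) ∧
      Cert N I ((x.1 - j) / 4) j (be N I j x.2.1) (pe N I j x.2.1) := by
    intro x
    by_cases hx : x ∈ F
    · obtain ⟨_, _, j, hj⟩ := hF x hx
      exact ⟨j, fun _ => hj⟩
    · exact ⟨0, fun h => absurd h hx⟩
  choose j hj using hex
  have hmap : ∀ x ∈ F, x.1 - j x ∈ Finset.range (F.sup (fun x => x.1 - j x) + 1) := by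
    intro x hx
    rw [Finset.mem_range]
    exact Nat.lt_succ_of_le (Finset.le_sup (f := fun x : ℕ × ℕ × ℕ => x.1 - j x) hx)
  rw [← Finset.sum_fiberwise_of_maps_to hmap]
  have h1 : ∀ g ∈ Finset.range (F.sup (fun x => x.1 - j x) + 1),
      ∑ x ∈ F.filter (fun x => x.1 - j x = g), sz N x ^ 2 ≤
        (3 * Cs N * OO N I D) * (1 / 2 : ℝ) ^ g := by
    intro g _
    have h2 := hES3g N I D hN hOk hOpt g (F.filter fun x => x.1 - j x = g) (by
      intro x hx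
      obtain ⟨hx1, hx2⟩ := Finset.mem_filter.1 hx
      obtain ⟨h3, h4, h5⟩ := hj x hx1
      obtain ⟨h6, h7, _⟩ := hF x hx1
      rw [hx2] at h4 h5
      exact ⟨h6, h7, j x, by omega, h4, h5⟩)
    refine h2.trans ?_
    have h3 := hOM.2.2.1 g
    calc om g ^ 2 * (Cs N * (((g / 4 : ℕ) : ℝ) + 1) ^ 2 * OO N I D)
        = (Cs N * OO N I D) * (om g ^ 2 * (((g / 4 : ℕ) : ℝ) + 1) ^ 2) := by ring
      _ ≤ (Cs N * OO N I D) * (3 * (1 / 2 : ℝ) ^ g) :=
          mul_le_mul_of_nonneg_left h3 (mul_nonneg hCs hOO)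
      _ = (3 * Cs N * OO N I D) * (1 / 2 : ℝ) ^ g := by ring
  refine (Finset.sum_le_sum h1).trans ?_
  rw [← Finset.mul_sum]
  have h4 := sum_geometric_two_le (F.sup (fun x => x.1 - j x) + 1)
  have h5 : 0 ≤ 3 * Cs N * OO N I D := mul_nonneg (mul_nonneg (by norm_num) hCs) hOO
  calc (3 * Cs N * OO N I D) * ∑ g ∈ Finset.range (F.sup (fun x => x.1 - j x) + 1), (1 / 2 : ℝ) ^ g
      ≤ (3 * Cs N * OO N I D) * 2 := mul_le_mul_of_nonneg_left h4 h5
    _ = 6 * Cs N * OO N I D := by ring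

end STR
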