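import Pool.Agent.STR.TargetsAna
import Pool.Agent.STR.TargetsOpt
import Pool.Agent.STR.TargetsSim

/-!
# Project STR (MP_32d942_lc): the target ES4

Long ended chains whose history has a mass of pairs in one piece: charging of the squares of the
relative sizes to the pairs of `PP`.
-/

set_option autoImplicit false

namespace STR

/-- the start of the busy interval is monotone in time -/
theorem ES4_be_mono (hBEM : T_BEM) (N : ℕ) (I : DI) (k : ℕ) {t t' : ℕ} (h : t ≤ t') :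
    be N I k t ≤ be N I k t' := by
  classical
  induction t', h using Nat.le_induction with
  | base => exact le_rfl
  | succ m _ ih =>
    refine ih.trans ?_
    rw [be_succ]
    split_ifs with h1
    · exact le_rfl
    · have := (hBEM N I k m).1
      omega

/-- the start of the busy interval is antitone in the level -/
theorem ES4_be_anti (hBEM : T_BEM) (N : ℕ) (I : DI) {j k : ℕ} (h : j ≤ k) (t : ℕ) :
    be N I k t ≤ be N I j t := by
  induction k, h using Nat.le_induction with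
  | base => exact le_rfl
  | succ m _ ih => exact ((hBEM N I m t).2.1).trans ih

/-- the end of a piece of the history is at most the start of the chain -/
theorem ES4_pe_le (hBEM : T_BEM) (N : ℕ) (I : DI) (j a : ℕ) : pe N I j a ≤ a := by
  cases j with
  | zero => exact le_rfl
  | succ j => exact (hBEM N I j a).1

/-- slots of the history and of the chain lie in the busy interval of the chain -/
theorem ES4_busy (hBEM : T_BEM) (hGAM : T_GAM) (hCHN : T_CHN) {N : ℕ} {I : DI} (hN : 1 ≤ N)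
    (hOk : Ok N I) {x : ℕ × ℕ × ℕ} (hx : EC N I x) {t : ℕ} (h1 : bs N I x ≤ t)
    (h2 : t < x.2.2) : be N I x.1 t = bs N I x := by
  obtain ⟨v, hv, hE, hu⟩ := hx
  obtain ⟨hne, -, -, hg, -⟩ := hCHN N I hN hOk x.1 v x.2.1 hu
  have := (hGAM N I hN x.1 x.2.1 hne).2.2 t h1 (by omega)
  exact this.2.1

/-- the merging level of a pair of the mass lies between the level of the piece and the level of
the chain -/
theorem ES4_mg (hBEM : T_BEM) (hGAM : T_GAM) (hUPC : T_UPC) (hCHN : T_CHN) {N : ℕ} {I : DI}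
    (hN : 1 ≤ N) (hOk : Ok N I) {x : ℕ × ℕ × ℕ} (hx : EC N I x) (hlt : x.2.1 < x.2.2)
    (hbs : bs N I x ≤ x.2.1) {j : ℕ} (hj : j ≤ x.1) {i i' : ℕ}
    (h1 : x.2.1 ≤ I.R i ∧ I.R i < x.2.2)
    (h2 : be N I j x.2.1 ≤ I.R i' ∧ I.R i' < pe N I j x.2.1) :
    j ≤ mg N I i i' ∧ mg N I i i' ≤ x.1 := by
  have hmem : x.1 ∈ {l | be N I l (I.R i) = be N I l (I.R i')} := by
    show be N I x.1 (I.R i) = be N I x.1 (I.R i')
    have h3 : bs N I x ≤ be N I j x.2.1 := ES4_be_anti hBEM N I hj x.2.1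
    have h4 := ES4_pe_le hBEM N I j x.2.1
    rw [ES4_busy hBEM hGAM hCHN hN hOk hx (by omega) h1.2,
      ES4_busy hBEM hGAM hCHN hN hOk hx (by omega) (by omega)]
  refine ⟨?_, Nat.sInf_le hmem⟩
  by_contra hlt'
  have hlt' : mg N I i i' < j := not_le.1 hlt'
  obtain ⟨j', rfl⟩ : ∃ j', j = j' + 1 := ⟨j - 1, by omega⟩
  have h5 : be N I (mg N I i i') (I.R i) = be N I (mg N I i i') (I.R i') :=
    Nat.sInf_mem (⟨x.1, hmem⟩ : {l | be N I l (I.R i) = be N I l (I.R i')}.Nonempty)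
  have h6 := hUPC N I i i' (mg N I i i') j' (by omega) h5
  have h7 := ES4_be_mono hBEM N I j' h1.1
  have h8 := (hBEM N I j' (I.R i')).1
  have h9 : I.R i' < be N I j' x.2.1 := h2.2
  omega

/-- the second bound of the relative size -/
theorem ES4_size {N : ℕ} (hN : 8 ≤ N) (hOM : T_OM) {k j n m c M : ℕ} (hj : j ≤ k) {A P : ℕ}
    (h1 : Rc N * n ≤ 2 * A) (h2 : A ≤ 8 * (2 ^ ((k - j) / 4) * P)) (h3 : P ≤ M * lam N j * c)
    (h4 : m = k) : (n : ℝ) / (lam N m : ℝ) ≤ om (k - j) * ((M : ℝ) * c) := by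
  subst h4
  have hl : (0 : ℝ) < (lam N j : ℝ) := by exact_mod_cast lam_pos (by omega) j
  have hk : (lam N m : ℝ) = 2 ^ (m - j) * (lam N j : ℝ) := by
    have h5 := lam_add N j (m - j)
    rw [Nat.add_sub_cancel' hj] at h5
    rw [h5]
    push_cast
    ring
  have h5 : n ≤ 2 ^ ((m - j) / 4) * (M * lam N j * c) := by
    have h6 : 16 * n ≤ Rc N * n := by
      apply Nat.mul_le_mul_right
      unfold Rc
      omega
    have h7 : 2 ^ ((m - j) / 4) * P ≤ 2 ^ ((m - j) / 4) * (M * lam N j * c) :=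
      Nat.mul_le_mul_left _ h3
    omega
  have h6 : (n : ℝ) ≤ 2 ^ ((m - j) / 4) * ((M : ℝ) * (lam N j : ℝ) * (c : ℝ)) := by
    exact_mod_cast h5
  have h7 := hOM.2.1 (m - j)
  rw [hk, div_le_iff₀ (by positivity)]
  calc (n : ℝ) ≤ 2 ^ ((m - j) / 4) * ((M : ℝ) * (lam N j : ℝ) * (c : ℝ)) := h6
    _ = (om (m - j) * 2 ^ (m - j)) * ((M : ℝ) * (lam N j : ℝ) * (c : ℝ)) := by rw [h7]
    _ = om (m - j) * ((M : ℝ) * c) * (2 ^ (m - j) * (lam N j : ℝ)) := by ring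

/-- the first bound of the relative size -/
theorem ES4_size1 {N : ℕ} (hN : 1 ≤ N) {k n c M : ℕ} (h : n ≤ M * lam N k * c) :
    (n : ℝ) / (lam N k : ℝ) ≤ (M : ℝ) * c := by
  have hl : (0 : ℝ) < (lam N k : ℝ) := by exact_mod_cast lam_pos hN k
  rw [div_le_iff₀ hl]
  have h1 : (n : ℝ) ≤ (M : ℝ) * (lam N k : ℝ) * c := by exact_mod_cast h
  calc (n : ℝ) ≤ (M : ℝ) * (lam N k : ℝ) * c := h1
    _ = (M : ℝ) * c * (lam N k : ℝ) := by ring

theorem ES4_om_nonneg (g : ℕ) : 0 ≤ om g := by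
  unfold om
  positivity

theorem p_ES4 (hECB : T_ECB) (hBEM : T_BEM) (hGAM : T_GAM) (hUPC : T_UPC) (hCHG : T_CHG)
    (hGEO : T_GEO) (hOM : T_OM) (hCHN : T_CHN) : T_ES4 := by
  classical
  intro N I hN hOk F hF
  have hN1 : 1 ≤ N := by omega
  have hF' : ∀ x : ℕ × ℕ × ℕ, ∃ (j : ℕ) (X Z : Finset ℕ), x ∈ F →
      (EC N I x ∧ lam N x.1 < x.2.2 - x.2.1 ∧ j ≤ x.1 ∧
      x.2.1 - bs N I x ≤ 8 * (2 ^ ((x.1 - j) / 4) * (pe N I j x.2.1 - be N I j x.2.1)) ∧
      X ⊆ I.J ∧ Z ⊆ I.J ∧ (∀ i ∈ X, x.2.1 ≤ I.R i ∧ I.R i < x.2.2) ∧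
        (∀ i ∈ Z, be N I j x.2.1 ≤ I.R i ∧ I.R i < pe N I j x.2.1) ∧ X ×ˢ Z ⊆ PP N I ∧
        x.2.2 - x.2.1 ≤ Mc N * lam N x.1 * X.card ∧
        pe N I j x.2.1 - be N I j x.2.1 ≤ Mc N * lam N j * Z.card) := by
    intro x
    by_cases hx : x ∈ F
    · obtain ⟨h1, h2, j, h3, h4, X, Z, h5⟩ := hF x hx
      exact ⟨j, X, Z, fun _ => ⟨h1, h2, h3, h4, h5⟩⟩
    · exact ⟨0, ∅, ∅, fun h => absurd h hx⟩
  choose jj X Z hxz using hF'
  have hsz : ∀ x ∈ F, sz N x ^ 2 ≤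
      (Mc N : ℝ) ^ 2 * (om (x.1 - jj x) * ((X x ×ˢ Z x).card : ℝ)) := by
    intro x hx
    obtain ⟨h1, h2, h3, h4, -, -, -, -, -, h10, h11⟩ := hxz x hx
    have h12 := ((hECB N I hN1 hOk x h1).2.1 h2).2
    have hA : sz N x ≤ (Mc N : ℝ) * ((X x).card : ℝ) := ES4_size1 hN1 h10
    have hB : sz N x ≤ om (x.1 - jj x) * ((Mc N : ℝ) * ((Z x).card : ℝ)) :=
      ES4_size hN hOM h3 h12 h4 h11 rfl
    have h0 : 0 ≤ sz N x := by
      unfold sz
      positivity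
    rw [Finset.card_product]
    push_cast
    calc sz N x ^ 2 = sz N x * sz N x := by ring
      _ ≤ ((Mc N : ℝ) * ((X x).card : ℝ)) *
          (om (x.1 - jj x) * ((Mc N : ℝ) * ((Z x).card : ℝ))) :=
        mul_le_mul hA hB h0 (by positivity)
      _ = (Mc N : ℝ) ^ 2 * (om (x.1 - jj x) * (((X x).card : ℝ) * ((Z x).card : ℝ))) := by
        ring
  refine hCHG F (PP N I) (fun x => X x ×ˢ Z x) (fun x => om (x.1 - jj x))
    (fun x => sz N x ^ 2) ((Mc N : ℝ) ^ 2) (5 / 2) (by positivity)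
    (fun x _ => ES4_om_nonneg _) (fun x hx => (hxz x hx).2.2.2.2.2.2.2.2.1) hsz ?_
  rintro ⟨i, i'⟩ -
  have key : ∀ x ∈ F.filter (fun x => (i, i') ∈ X x ×ˢ Z x),
      EC N I x ∧ (x.2.1 ≤ I.R i ∧ I.R i < x.2.2) ∧ jj x ≤ mg N I i i' ∧
        mg N I i i' ≤ x.1 := by
    intro x hx
    rw [Finset.mem_filter, Finset.mem_product] at hx
    obtain ⟨hx, hi, hi'⟩ := hx
    obtain ⟨h1, h2, h3, -, -, -, h7, h8, -, -, -⟩ := hxz x hx
    have h9 := (hECB N I hN1 hOk x h1).1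
    have h10 := ES4_mg hBEM hGAM hUPC hCHN hN1 hOk h1 h9.1 h9.2.1 h3 (h7 i hi) (h8 i' hi')
    exact ⟨h1, h7 i hi, h10⟩
  have hgeo := (hGEO (F.filter (fun x => (i, i') ∈ X x ×ˢ Z x)) (mg N I i i')
    (fun x hx => (key x hx).2.2.2)
    (fun x hx y hy hxy => (hECB N I hN1 hOk x (key x hx).1).2.2 y (key y hy).1 hxy
      ⟨I.R i, (key x hx).2.1, (key y hy).2.1⟩)).1
  refine le_trans (Finset.sum_le_sum ?_) hgeo
  intro x hx
  have h1 := key x hx
  refine (hOM.1 (x.1 - jj x)).trans ?_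
  exact pow_le_pow_of_le_one (by norm_num) (by norm_num) (by omega)

end STR
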