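import Pool.Agent.STR.TargetsSim

/-!
# Project STR: the first event after a release, and old jobs (T_EV, T_OLD)
-/

set_option autoImplicit false

namespace STR

theorem p_EV (hP1 : T_P1) (hFIN : T_FIN) : T_EV := by
  intro N I hN hOk i hi k
  have h0 := uu_rel N I hN hOk hi (k := k)
  obtain ⟨a, ha⟩ := ENat.ne_top_iff_exists.1 h0
  have ha' : uu N I k (I.R i) = (a : ℕ∞) := ha.symm
  have haR : a ≤ I.R i := uu_le N I ha'
  by_contra hno
  have key : ∀ t, I.R i ≤ t → ∀ t', I.R i ≤ t' → t' ≤ t → uu N I k t' = (a : ℕ∞) := by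
    intro t ht
    induction t, ht using Nat.le_induction with
    | base =>
      intro t' h1 h2
      have h3 : t' = I.R i := by omega
      rw [h3]
      exact ha'
    | succ t ht ih =>
      intro t' h1 h2
      rcases Nat.lt_or_ge t' (t + 1) with h3 | h3
      · exact ih t' h1 (by omega)
      · have h4 : t' = t + 1 := by omega
        rw [h4]
        have h5 : uu N I k t = (a : ℕ∞) := ih t ht le_rfl
        have h6 : uu N I k t ≠ ⊤ := by
          rw [h5]
          exact ENat.natCast_ne_top _
        have hcon : Con N I k t := by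
          by_contra hc
          apply hno
          refine ⟨t, a, ht, haR, ih, Or.inr ⟨⟨h6, hc⟩, ?_⟩⟩
          intro hm
          apply hc
          refine ⟨i, hm, ?_, by omega⟩
          rw [h5]
          exact_mod_cast haR
        have hclo : ¬ Clo N I k t := by
          intro hc
          apply hno
          exact ⟨t, a, ht, haR, ih, Or.inl ⟨h6, hcon, hc⟩⟩
        rw [uu_keep N I hcon hclo, h5]
  obtain ⟨T0, -, h2, -⟩ := hFIN N I hN
  have h3 : I.R i ≤ max T0 (I.R i) := le_max_right _ _
  have h4 := key _ h3 _ h3 le_rfl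
  obtain ⟨j, -, hj, -⟩ := hP1 N I hN hOk k _ a h4 (max T0 (I.R i)) (haR.trans h3) le_rfl
  rw [h2 k _ (le_max_left _ _)] at hj
  simp at hj

theorem p_OLD (hEV : T_EV) : T_OLD := by
  intro N I hN hOk k t j hj htop
  have hj' := (mem_Ak N I).1 hj
  obtain ⟨t1, a, h1, h2, h3, h4⟩ := hEV N I hN hOk j hj'.1 k
  have ht1 : t1 < t := by
    by_contra h
    have h5 := h3 t hj'.2.1 (not_lt.1 h)
    rw [htop] at h5
    exact ENat.natCast_ne_top a h5.symm
  refine ⟨t1, a, ht1, h1, h2, h3 t1 h1 le_rfl, ?_⟩
  rcases h4 with h4 | ⟨-, h5⟩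
  · exact h4
  · exact absurd (Ak_back N I hj (by omega) (by omega)) h5

end STR
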