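import Pool.Agent.STR.TargetsSim

/-!
# Project STR: T_F1, the lemma on the first busy stretch
-/

set_option autoImplicit false

namespace STR

namespace F1_

/-- the arithmetic, integers -/
theorem arith (n F L t o y : ℤ) (hn : 8 ≤ n) (hF : F = n * n * (1000 * n + 1)) (hL : 0 < L)
    (hy : n * n * y ≤ L) (h1 : F * t < F * ((n - 2) * y) + L)
    (h2 : F * ((n - 1) * o) < F * ((n - 2) * L) + L) (h3 : t + o = L) : False := by
  have hn0 : (0 : ℤ) ≤ n := by omega
  have hnn : (0 : ℤ) < n * n := mul_pos (by omega) (by omega)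
  have hF0 : n * n * n ≤ F := by
    have h4 : 0 ≤ n * n * (999 * n + 1) := mul_nonneg hnn.le (by omega)
    rw [hF]
    linarith
  have hF1 : 0 ≤ F := le_trans (mul_nonneg hnn.le hn0) hF0
  have e1 := mul_lt_mul_of_pos_left h1 (show (0 : ℤ) < n - 1 by omega)
  have e2 : F * ((n - 1) * L) = (n - 1) * (F * t) + F * ((n - 1) * o) := by
    rw [← h3]; ring
  have A : F * L < F * ((n - 1) * (n - 2)) * y + n * L := by
    linarith
  have hp : 0 ≤ F * ((n - 1) * (n - 2)) :=
    mul_nonneg hF1 (mul_nonneg (by omega) (by omega))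
  have e3 := mul_le_mul_of_nonneg_left hy hp
  have e4 := mul_lt_mul_of_pos_left A hnn
  have e5 : F ≤ F * (3 * n - 2) := le_mul_of_one_le_right hF1 (by omega)
  have e6 : 0 ≤ (F * (3 * n - 2) - n * n * n) * L := mul_nonneg (by linarith) hL.le
  linarith

/-- the arithmetic, natural numbers -/
theorem arithN (m F L t o y : ℕ) (hm : 6 ≤ m)
    (hF : F = (m + 2) * (m + 2) * (1000 * (m + 2) + 1)) (hL : 0 < L)
    (hy : (m + 2) * (m + 2) * y ≤ L) (h1 : F * t < F * (m * y) + L)
    (h2 : F * ((m + 1) * o) < F * (m * L) + L) (h3 : t + o = L) : False := by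
  zify at hF hL hy h1 h2 h3 hm
  refine arith ((m : ℤ) + 2) F L t o y (by linarith) hF hL hy ?_ ?_ h3
  · have e : (m : ℤ) + 2 - 2 = m := by ring
    rw [e]; exact h1
  · have e : (m : ℤ) + 2 - 2 = m := by ring
    have e' : (m : ℤ) + 2 - 1 = m + 1 := by ring
    rw [e, e']; exact h2

end F1_

open F1_

open Classical in
theorem p_F1 (hBEM : T_BEM) (hP1 : T_P1) (hOLD : T_OLD) (hWKM : T_WKM) (hWKB : T_WKB) :
    T_F1 := by
  intro N I hN hOk k b ts hbts hbe hne
  by_contra hcon
  have hneg : ∀ a' b', b ≤ a' → a' ≤ b' → b' ≤ ts →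
      Fc N * Wp N I k a' b' < Fc N * ((N - 2) * (b' - a')) + (ts - b) := by
    intro a' b' h1 h2 h3
    by_contra h4
    exact hcon ⟨a', b', h1, h2, h3, not_lt.1 h4⟩
  have hN1 : 1 ≤ N := by omega
  obtain ⟨m, hm⟩ : ∃ m, N = m + 2 := ⟨N - 2, by omega⟩
  have hm1 : N - 1 = m + 1 := by omega
  have hm2 : N - 2 = m := by omega
  -- the busy interval starts at `b`
  have hbeb : ∀ t, b ≤ t → t ≤ ts → be N I k t = b := by
    intro t h1 h2
    have h3 := (hBEM N I k b).2.2.2.2.2 t h1 (fun t' h4 h5 => hne t' h4 (by omega))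
    rw [h3, hbe]
  -- closings are early
  have hC1 : ∀ t1 a : ℕ, t1 + 1 ≤ ts → uu N I k t1 = (a : ℕ∞) → ClE N I k t1 → b ≤ a →
      N * N * (t1 + 1 - b) < ts - b := by
    intro t1 a h1 h2 h3 h4
    have h5 := uu_le N I h2
    have h6 := hWKM N I hN1 (Finset.Ico a (t1 + 1)) k a (t1 + 1) (by
      intro t' ht'
      rw [Finset.mem_Ico] at ht'
      obtain ⟨j, hj1, hj2, hj3⟩ := hP1 N I hN1 hOk k t1 a h2 t' ht'.1 (by omega)
      have h7 := ((mem_Ak N I).1 hj2).2.1
      exact ⟨j, hj1, hj2, hj3, by omega⟩)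
    rw [Nat.card_Ico] at h6
    have h7 := hneg a (t1 + 1) h4 (by omega) h1
    have h8 := h3.2.2.2
    rw [h2, ENat.toNat_natCast, hbeb (t1 + 1) (by omega) h1] at h8
    obtain ⟨x, hx⟩ : ∃ x, t1 + 1 = a + x := ⟨t1 + 1 - a, by omega⟩
    have hx1 : t1 + 1 - a = x := by omega
    rw [hx1] at h6 h7 h8
    rw [hm1] at h6
    rw [hm2] at h7
    have h9 : Fc N * x < ts - b := by
      have e1 : Fc N * ((m + 1) * x) ≤ Fc N * Wp N I k a (t1 + 1) := Nat.mul_le_mul_left _ h6
      have e2 : Fc N * ((m + 1) * x) = Fc N * (m * x) + Fc N * x := by ring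
      omega
    have h10 : t1 + 1 - b ≤ (Rc N + 1) * x := by
      rw [add_mul, one_mul]; omega
    calc N * N * (t1 + 1 - b) ≤ N * N * ((Rc N + 1) * x) := Nat.mul_le_mul_left _ h10
      _ = Fc N * x := by unfold Fc; ring
      _ < ts - b := h9
  have hNN : 0 < N * N := Nat.mul_pos (by omega) (by omega)
  -- slots without chain
  have htop : Fc N * ((Finset.Ico b ts).filter fun t => uu N I k t = ⊤).card <
      Fc N * (m * ((ts - b - 1) / (N * N))) + (ts - b) := by
    have hy1 : (ts - b - 1) / (N * N) ≤ ts - b - 1 := Nat.div_le_self _ _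
    have h1 := hWKB N I hN1 ((Finset.Ico b ts).filter fun t => uu N I k t = ⊤) k b
      (b + (ts - b - 1) / (N * N)) (by
        intro t ht
        rw [Finset.mem_filter, Finset.mem_Ico] at ht
        obtain ⟨⟨ht1, ht2⟩, ht3⟩ := ht
        obtain ⟨j, hj1, hj2⟩ := bj_low N I (hne t ht1 ht2)
        obtain ⟨t1, a, h2, h3, h4, h5, h6⟩ := hOLD N I hN1 hOk k t j hj2 ht3
        have h7 : b ≤ I.R j := by
          have h8 := (hBEM N I k t).2.2.2.2.1 j hj2
          rwa [hbeb t ht1 ht2.le] at h8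
        have h8 : b ≤ a := by
          by_contra h9
          have h10 := (hBEM N I k b).2.2.2.1
          rw [hbe] at h10
          rcases h10 with h10 | h10
          · omega
          · obtain ⟨j', -, hj', -⟩ := hP1 N I hN1 hOk k t1 a h5 (b - 1) (by omega) (by omega)
            rw [h10] at hj'
            exact absurd hj' (Finset.notMem_empty _)
        have h9 := hC1 t1 a (by omega) h5 h6 h8
        refine ⟨j, hj1, hj2, h7, ?_⟩
        have h10 : t1 + 1 - b ≤ (ts - b - 1) / (N * N) := by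
          rw [Nat.le_div_iff_mul_le hNN, mul_comm]
          omega
        omega)
    have hc : b + (ts - b - 1) / (N * N) ≤ ts :=
      le_trans (Nat.add_le_add_left hy1 b) (by omega)
    have h2 := hneg b (b + (ts - b - 1) / (N * N)) le_rfl (Nat.le_add_right _ _) hc
    rw [hm2, Nat.add_sub_cancel_left] at h2
    exact lt_of_le_of_lt (Nat.mul_le_mul_left _ h1) h2
  -- slots with a chain
  have hopen : Fc N * ((m + 1) * ((Finset.Ico b ts).filter fun t => ¬ uu N I k t = ⊤).card) <
      Fc N * (m * (ts - b)) + (ts - b) := by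
    have h1 := hWKM N I hN1 ((Finset.Ico b ts).filter fun t => ¬ uu N I k t = ⊤) k b ts (by
        intro t ht
        rw [Finset.mem_filter, Finset.mem_Ico] at ht
        obtain ⟨⟨ht1, ht2⟩, ht3⟩ := ht
        obtain ⟨a, ha⟩ := ENat.ne_top_iff_exists.1 ht3
        have h2 := uu_le N I ha.symm
        obtain ⟨j, hj1, hj2, hj3⟩ := hP1 N I hN1 hOk k t a ha.symm t h2 le_rfl
        have h7 : b ≤ I.R j := by
          have h8 := (hBEM N I k t).2.2.2.2.1 j hj2
          rwa [hbeb t ht1 ht2.le] at h8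
        have h9 := ((mem_Ak N I).1 hj2).2.1
        exact ⟨j, hj1, hj2, h7, by omega⟩)
    have h2 := hneg b ts le_rfl hbts.le le_rfl
    rw [hm2] at h2
    rw [hm1] at h1
    exact lt_of_le_of_lt (Nat.mul_le_mul_left _ h1) h2
  have hcard := Finset.card_filter_add_card_filter_not (s := Finset.Ico b ts)
    (fun t => uu N I k t = ⊤)
  rw [Nat.card_Ico] at hcard
  refine arithN m (Fc N) (ts - b) _ _ ((ts - b - 1) / (N * N)) (by omega) ?_ (by omega) ?_ htop
    hopen hcard
  · unfold Fc Rc; rw [hm]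
  · rw [← hm]
    have h1 := Nat.mul_div_le (ts - b - 1) (N * N)
    omega

end STR
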