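import Pool.Agent.STR.TargetsReal

/-!
# Project STR (MP_32d942_lc): feasibility of the algorithm
-/

set_option autoImplicit false

namespace STR

open Filter Topology

namespace FEA_

lemma del_pos {N : ℕ} {s w : ℝ} (hN : 1 ≤ N) (hs : 0 < s) (hw : 0 < w) : 0 < del N s w := by
  unfold del
  have : (0 : ℝ) < N := by exact_mod_cast hN
  positivity

lemma sum_eq (hLIN : T_LIN) (N : ℕ) (s w : ℝ) (I : Inst) (t : ℝ) :
    ∑ j ∈ I.jobs, alg N s w I j t =
      w * lin (fun n => ∑ j ∈ I.jobs, (eu N (di N s w I) n j : ℝ)) (t / del N s w) := by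
  rw [← hLIN.2.2.2.2.1 I.jobs (fun j n => (eu N (di N s w I) n j : ℝ)) (t / del N s w),
    Finset.mul_sum]
  rfl

end FEA_

open FEA_

/-- STR-FEA. -/
theorem p_FEA (hLIN : T_LIN) : T_FEA := by
  intro N s w hN hs hw I
  have hd := del_pos hN hs hw
  refine ⟨?_, ?_, ?_⟩
  · intro j _ t t' htt
    unfold alg
    refine mul_le_mul_of_nonneg_left ?_ hw.le
    refine hLIN.2.2.1 _ ?_ (div_le_div_of_nonneg_right htt hd.le)
    intro a b hab
    change (eu N (di N s w I) a j : ℝ) ≤ (eu N (di N s w I) b j : ℝ)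
    exact_mod_cast eu_mono N (di N s w I) hab j
  · intro j _ t ht
    unfold alg
    rw [hLIN.2.1 (fun n => (eu N (di N s w I) n j : ℝ)) ((di N s w I).R j) (t / del N s w),
      mul_zero]
    · intro l hl
      exact_mod_cast eu_before N (di N s w I) hl
    · change t / del N s w ≤ ((⌈I.r j / del N s w⌉₊ : ℕ) : ℝ)
      exact (div_le_div_of_nonneg_right ht hd.le).trans (Nat.le_ceil _)
  · intro t t' htt
    rw [Finset.sum_sub_distrib, sum_eq hLIN, sum_eq hLIN, ← mul_sub]
    have h1 := hLIN.2.2.2.1 (fun n => ∑ j ∈ I.jobs, (eu N (di N s w I) n j : ℝ)) N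
      (by positivity) ?_ ?_ (t / del N s w) (t' / del N s w)
      (div_le_div_of_nonneg_right htt hd.le)
    · refine (mul_le_mul_of_nonneg_left h1 hw.le).trans (le_of_eq ?_)
      have hN0 : (N : ℝ) ≠ 0 := by
        have : (0 : ℝ) < N := by exact_mod_cast hN
        exact this.ne'
      have hw0 := hw.ne'
      have hs0 := hs.ne'
      unfold del
      field_simp
    · intro n
      have h2 := cap N (di N s w I) hN I.jobs n
      have h3 : (∑ j ∈ I.jobs, (eu N (di N s w I) (n + 1) j : ℝ)) ≤
          ∑ j ∈ I.jobs, (eu N (di N s w I) n j : ℝ) + N := by exact_mod_cast h2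
      linarith
    · intro a b hab
      refine Finset.sum_le_sum fun j _ => ?_
      exact_mod_cast eu_mono N (di N s w I) hab j

end STR
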