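import Pool.Agent.STR.TargetsSim

/-!
# Project STR: the run is finite
-/

set_option autoImplicit false

namespace STR

namespace FIN_

/-- total useful service -/
noncomputable def pot (N : ℕ) (I : DI) (t : ℕ) : ℕ := ∑ j ∈ I.J, min (eu N I t j) (I.q j)

theorem pot_le (N : ℕ) (I : DI) (t : ℕ) : pot N I t ≤ ∑ j ∈ I.J, I.q j :=
  Finset.sum_le_sum fun _ _ => min_le_right _ _

theorem pot_step (N : ℕ) (I : DI) (t : ℕ) (h : (al N I t).Nonempty) :
    pot N I t + 1 ≤ pot N I (t + 1) := by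
  classical
  obtain ⟨j, hj⟩ := bj_exists N I h
  have h1 := (bj_spec N I hj).1
  rw [mem_al] at h1
  have h2 : eu N I t j + 1 ≤ eu N I (t + 1) j := by
    rw [eu_succ, if_pos hj]
    omega
  have h3 : pot N I t < pot N I (t + 1) := by
    refine Finset.sum_lt_sum (fun i _ => ?_) ⟨j, h1.1, ?_⟩
    · exact min_le_min_right _ (eu_mono_succ N I t i)
    · rw [min_eq_left h1.2.2.le]
      exact lt_min (by omega) h1.2.2
  exact h3

theorem R_le (I : DI) {j : ℕ} (hj : j ∈ I.J) : I.R j ≤ ∑ i ∈ I.J, I.R i :=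
  Finset.single_le_sum (f := fun i => I.R i) (fun _ _ => Nat.zero_le _) hj

theorem pot_ge (N : ℕ) (I : DI) (t : ℕ) (h : (al N I t).Nonempty) (n : ℕ)
    (hn : (∑ i ∈ I.J, I.R i) + n ≤ t) : n ≤ pot N I ((∑ i ∈ I.J, I.R i) + n) := by
  induction n with
  | zero => exact Nat.zero_le _
  | succ n ih =>
    have h1 := ih (by omega)
    obtain ⟨j, hj⟩ := h
    rw [mem_al] at hj
    have h2 : (al N I ((∑ i ∈ I.J, I.R i) + n)).Nonempty := by
      refine ⟨j, ?_⟩
      rw [mem_al]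
      have h3 := R_le I hj.1
      have h4 := eu_mono N I (t := (∑ i ∈ I.J, I.R i) + n) (t' := t) (by omega) j
      exact ⟨hj.1, by omega, by omega⟩
    have h5 := pot_step N I _ h2
    rw [← add_assoc]
    omega

theorem al_empty (N : ℕ) (I : DI) (t : ℕ)
    (ht : (∑ i ∈ I.J, I.R i) + (∑ i ∈ I.J, I.q i) + 1 ≤ t) : al N I t = ∅ := by
  by_contra h
  have h1 : (al N I t).Nonempty := Finset.nonempty_iff_ne_empty.2 h
  have h2 := pot_ge N I t h1 ((∑ i ∈ I.J, I.q i) + 1) (by omega)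
  have h3 := pot_le N I ((∑ i ∈ I.J, I.R i) + ((∑ i ∈ I.J, I.q i) + 1))
  omega

end FIN_

open FIN_ in
theorem p_FIN : T_FIN := by
  intro N I _
  refine ⟨(∑ i ∈ I.J, I.R i) + (∑ i ∈ I.J, I.q i) + 1, al_empty N I, fun k t ht => ?_,
    fun j hj t ht hR => ?_⟩
  · have h := al_empty N I t ht
    unfold Ak lowJ
    rw [h, Finset.filter_empty]
  · have h := al_empty N I t ht
    by_contra h'
    have h1 : j ∈ al N I t := (mem_al N I).2 ⟨hj, hR, by omega⟩
    rw [h] at h1
    exact absurd h1 (Finset.notMem_empty _)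

end STR
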