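import Pool.Agent.STR.TargetsAna
import Pool.Agent.STR.TargetsSim

/-!
# Project STR: targets GAM (busy intervals) and CHN (chains)
-/

set_option autoImplicit false

namespace STR

namespace GAM_

theorem be_be (hBEM : T_BEM) (N : ℕ) (I : DI) (k x : ℕ) :
    be N I k (be N I k x) = be N I k x := by
  obtain ⟨-, -, -, h4, -, -⟩ := hBEM N I k x
  rcases h4 with h | h
  · rw [h, be_zero]
  · rcases Nat.eq_zero_or_pos (be N I k x) with h0 | h0
    · rw [h0, be_zero]
    · obtain ⟨m, hm⟩ : ∃ m, be N I k x = m + 1 := ⟨be N I k x - 1, by omega⟩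
      have h1 : Ak N I k m = ∅ := by
        have h2 : be N I k x - 1 = m := by omega
        rw [h2] at h
        exact h
      rw [hm, be_succ, if_neg]
      rw [h1]
      exact Finset.not_nonempty_empty

end GAM_

open GAM_ in
theorem p_GAM (hBEM : T_BEM) (hFIN : T_FIN) : T_GAM := by
  intro N I hN k x hx
  obtain ⟨T0, -, hT0, -⟩ := hFIN N I hN
  have hne : {t | x ≤ t ∧ Ak N I k t = ∅}.Nonempty :=
    ⟨max x T0, le_max_left _ _, hT0 k _ (le_max_right _ _)⟩
  have hmem : x ≤ gam N I k x ∧ Ak N I k (gam N I k x) = ∅ := Nat.sInf_mem hne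
  have hlt : x < gam N I k x := by
    rcases lt_or_eq_of_le hmem.1 with h | h
    · exact h
    · exfalso
      have h1 := hmem.2
      rw [← h] at h1
      rw [h1] at hx
      exact Finset.not_nonempty_empty hx
  have hnon : ∀ t, be N I k x ≤ t → t < gam N I k x → (Ak N I k t).Nonempty := by
    intro t h1 h2
    rcases lt_or_ge t x with h3 | h3
    · exact (hBEM N I k x).2.2.1 t h1 h3
    · rw [Finset.nonempty_iff_ne_empty]
      intro h4
      have h5 : gam N I k x ≤ t := Nat.sInf_le ⟨h3, h4⟩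
      omega
  have hb : ∀ t, be N I k x ≤ t → t < gam N I k x → be N I k t = be N I k x := by
    intro t h1 h2
    have h3 := (hBEM N I k (be N I k x)).2.2.2.2.2 t h1
      (fun t' h4 h5 => hnon t' h4 (by omega))
    rw [h3, be_be hBEM]
  refine ⟨hlt, hmem.2, fun t h1 h2 => ⟨hnon t h1 h2, hb t h1 h2, ?_⟩⟩
  apply le_antisymm
  · exact Nat.sInf_le ⟨h2.le, hmem.2⟩
  · have h3 : {s | t ≤ s ∧ Ak N I k s = ∅}.Nonempty := ⟨_, h2.le, hmem.2⟩
    have h4 : t ≤ gam N I k t ∧ Ak N I k (gam N I k t) = ∅ := Nat.sInf_mem h3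
    by_contra h5
    have h6 := hnon (gam N I k t) (by omega) (by omega)
    rw [h4.2] at h6
    exact Finset.not_nonempty_empty h6

theorem p_CHN (hP1 : T_P1) (hBEM : T_BEM) (hGAM : T_GAM) (hWKM : T_WKM) : T_CHN := by
  intro N I hN hOk k v a hu
  have hav : a ≤ v := uu_le N I hu
  have hp := hP1 N I hN hOk k v a hu
  have hnon : ∀ t, a ≤ t → t ≤ v → (Ak N I k t).Nonempty := by
    intro t h1 h2
    obtain ⟨j, -, hj, -⟩ := hp t h1 h2
    exact ⟨j, hj⟩
  have hA := hnon a le_rfl hav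
  obtain ⟨g1, g2, g3⟩ := hGAM N I hN k a hA
  have hb1 := (hBEM N I k a).1
  have hvg : v < gam N I k a := by
    by_contra h
    have h1 := hnon (gam N I k a) (by omega) (by omega)
    rw [g2] at h1
    exact Finset.not_nonempty_empty h1
  have hw : (N - 1) * (v + 1 - a) ≤ Wp N I k a (v + 1) := by
    have h1 := hWKM N I hN (Finset.Icc a v) k a (v + 1) (by
      intro t ht
      rw [Finset.mem_Icc] at ht
      obtain ⟨j, hj1, hj2, hj3⟩ := hp t ht.1 ht.2
      have h2 := ((mem_Ak N I).1 hj2).2.1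
      exact ⟨j, hj1, hj2, hj3, by omega⟩)
    rw [Nat.card_Icc] at h1
    exact h1
  have hbe := g3 (be N I k a) le_rfl (by omega)
  refine ⟨hA, (g3 v (by omega) hvg).2.1, hb1, hvg, hw, hbe.2.1, hbe.1, hbe.2.2⟩

end STR
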