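import Pool.Agent.STR.TargetsSim

/-!
# Project STR: job GAW (main work after the last closing)
-/

set_option autoImplicit false

namespace STR

namespace GAW_

/-- arithmetic of the last step -/
theorem arith {N m p q r T B W : ℕ} (hN : 8 ≤ N) (hp : (N - 1) * p ≤ W) (hm : m ≤ p + q + r)
    (hq : 100 * N * q ≤ T) (hr : 1000 * N * r ≤ B + 1000 * N) (hB : 7000 * N < B)
    (hBT : B ≤ 2 * T) (hmT : T ≤ 8 * m + 7) : 32 * ((N - 2) * m) + B ≤ 32 * W := by
  obtain ⟨n, rfl⟩ : ∃ n, N = n + 2 := ⟨N - 2, by omega⟩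
  have e1 : n + 2 - 1 = n + 1 := by omega
  have e2 : n + 2 - 2 = n := by omega
  rw [e1] at hp
  rw [e2]
  have h1 : (n + 1) * m ≤ (n + 1) * p + (n + 1) * q + (n + 1) * r := by
    calc (n + 1) * m ≤ (n + 1) * (p + q + r) := Nat.mul_le_mul_left _ hm
      _ = _ := by ring
  have h2 : (n + 1) * m = n * m + m := by ring
  have h3 : (n + 1) * q ≤ (n + 2) * q := Nat.mul_le_mul_right _ (by omega)
  have h4 : (n + 1) * r ≤ (n + 2) * r := Nat.mul_le_mul_right _ (by omega)
  have h5 : 100 * (n + 2) * q = 100 * ((n + 2) * q) := by ring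
  have h6 : 1000 * (n + 2) * r = 1000 * ((n + 2) * r) := by ring
  rw [h5] at hq
  rw [h6] at hr
  omega

end GAW_

open Classical in
/-- STR-GAW -/
theorem p_GAW (hTH : T_TH) (hP1 : T_P1) (hWKM : T_WKM) (hGAM : T_GAM) : T_GAW := by
  intro N I hN hOk k b s a hne hbe hbs hsg hcl hua hab hB2 htop x y hx hy hxy
  have hN1 : 1 ≤ N := by omega
  obtain ⟨-, -, hclo⟩ := hcl
  have hclo1 : lam N k ≤ s + 1 - a := by
    have h := hclo.1
    rw [hua] at h
    simpa using h
  have hlam : 8 ≤ lam N k := le_trans hN (N_le_lam N k)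
  have ha_le : a ≤ s := uu_le N I hua
  have h7 : 7 ≤ s - a := by omega
  have hRc : Rc N = 1000 * N := rfl
  have hRpos : 0 < Rc N := by omega
  obtain ⟨hg1, hg2, hg3⟩ := hGAM N I hN1 k b hne
  generalize gam N I k b = g at *
  have hbig : Rc N * 7 < g - b := by
    have h : Rc N * 7 ≤ Rc N * (s - a) := Nat.mul_le_mul_left _ h7
    omega
  set Top := (Finset.Ico x y).filter fun t => uu N I k t = ⊤ with hTop
  set Late := (Finset.Ico x y).filter fun t => ∃ c : ℕ, uu N I k t = (c : ℕ∞) ∧ c < x with hLate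
  set S := (Finset.Ico x y).filter fun t => ∃ c : ℕ, uu N I k t = (c : ℕ∞) ∧ x ≤ c with hS
  -- the three kinds of slots
  have hcard : y - x ≤ S.card + Top.card + Late.card := by
    have hsub : Finset.Ico x y ⊆ S ∪ (Top ∪ Late) := by
      intro t ht
      rw [Finset.mem_union, Finset.mem_union, hS, hTop, hLate, Finset.mem_filter,
        Finset.mem_filter, Finset.mem_filter]
      by_cases h : uu N I k t = ⊤
      · exact Or.inr (Or.inl ⟨ht, h⟩)
      · obtain ⟨c, hc⟩ := ENat.ne_top_iff_exists.1 h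
        rcases lt_or_ge c x with h' | h'
        · exact Or.inr (Or.inr ⟨ht, c, hc.symm, h'⟩)
        · exact Or.inl ⟨ht, c, hc.symm, h'⟩
    have h1 := Finset.card_le_card hsub
    rw [Nat.card_Ico] at h1
    have h2 := Finset.card_union_le S (Top ∪ Late)
    have h3 := Finset.card_union_le Top Late
    omega
  -- top slots
  have htopc : Top.card ≤ ((Finset.Ico (s + 1) g).filter fun t => uu N I k t = ⊤).card := by
    apply Finset.card_le_card
    intro t ht
    rw [hTop, Finset.mem_filter, Finset.mem_Ico] at ht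
    rw [Finset.mem_filter, Finset.mem_Ico]
    exact ⟨⟨by omega, by omega⟩, ht.2⟩
  -- late slots
  have hlate : Late.card ≤ (g - b) / Rc N + 1 := by
    have hsub : Late ⊆ Finset.Ico x (x + ((g - b) / Rc N + 1)) := by
      intro t ht
      rw [hLate, Finset.mem_filter, Finset.mem_Ico] at ht
      obtain ⟨⟨ht1, ht2⟩, c, hc, hcx⟩ := ht
      have hbet : be N I k t = b := by
        have h := (hg3 t (by omega) (by omega)).2.1
        omega
      have hmono : Rc N * (t - x) ≤ Rc N * (t - c) := Nat.mul_le_mul_left _ (by omega)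
      have hlt : Rc N * (t - c) < g - b := by
        rcases hTH N I hN1 k t c hc with h | h
        · have h1 : Rc N * (t - c) ≤ Rc N * (s - a) := Nat.mul_le_mul_left _ (by omega)
          omega
        · rw [hbet] at h
          omega
      have h2 : t - x ≤ (g - b) / Rc N := by
        rw [Nat.le_div_iff_mul_le hRpos, mul_comm]
        omega
      rw [Finset.mem_Ico]
      omega
    have h1 := Finset.card_le_card hsub
    rw [Nat.card_Ico, Nat.add_sub_cancel_left] at h1
    exact h1
  -- main slots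
  have hmain : (N - 1) * S.card ≤ Wp N I k x y := by
    apply hWKM N I hN1
    intro t ht
    rw [hS, Finset.mem_filter, Finset.mem_Ico] at ht
    obtain ⟨⟨ht1, ht2⟩, c, hc, hcx⟩ := ht
    obtain ⟨j, hj1, hj2, hj3⟩ := hP1 N I hN1 hOk k t c hc t (uu_le N I hc) le_rfl
    have hj4 := ((mem_Ak N I).1 hj2).2.1
    exact ⟨j, hj1, hj2, by omega, by omega⟩
  have hr : 1000 * N * Late.card ≤ (g - b) + 1000 * N := by
    have h1 : Rc N * ((g - b) / Rc N) ≤ g - b := Nat.mul_div_le _ _
    have h2 : Rc N * Late.card ≤ Rc N * ((g - b) / Rc N + 1) := Nat.mul_le_mul_left _ hlate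
    calc 1000 * N * Late.card = Rc N * Late.card := by rw [hRc]
      _ ≤ Rc N * ((g - b) / Rc N + 1) := h2
      _ = Rc N * ((g - b) / Rc N) + Rc N := by rw [mul_add, mul_one]
      _ ≤ (g - b) + Rc N := Nat.add_le_add_right h1 _
      _ = (g - b) + 1000 * N := by rw [hRc]
  have hq : 100 * N * Top.card ≤ g - (s + 1) :=
    le_trans (Nat.mul_le_mul_left _ htopc) htop
  exact GAW_.arith hN hmain hcard hq hr (by omega) hB2 (by omega)

end STR
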