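import Pool.Agent.STR.TargetsSim

/-!
# Project STR: last closings
-/

set_option autoImplicit false

namespace STR

namespace GL_

theorem Fc_pos {N : ℕ} (hN : 8 ≤ N) : 1 ≤ Fc N := by
  unfold Fc
  exact Nat.mul_pos (Nat.mul_pos (by omega) (by omega)) (by omega)

/-- from the prefix lemma to the statement -/
theorem scale {N X Y L B : ℕ} (h : Fc N * X + L ≤ Fc N * Y) (hB : B ≤ 400 * (N * N) * L) :
    FG N * X + B ≤ FG N * Y := by
  have h1 := Nat.mul_le_mul_left (400 * (N * N)) h
  unfold FG
  calc 400 * (N * N) * Fc N * X + B ≤ 400 * (N * N) * Fc N * X + 400 * (N * N) * L := by omega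
    _ = 400 * (N * N) * (Fc N * X + L) := by ring
    _ ≤ 400 * (N * N) * (Fc N * Y) := h1
    _ = 400 * (N * N) * Fc N * Y := by ring

theorem scale2 {N X Y B : ℕ} (hN : 8 ≤ N) (h : 400 * N * X + B ≤ 400 * N * Y) :
    FG N * X + B ≤ FG N * Y := by
  have h0 : 1 ≤ N * Fc N := Nat.mul_pos (by omega) (Fc_pos hN)
  have h1 := Nat.mul_le_mul_left (N * Fc N) h
  have h2 : B ≤ N * Fc N * B := Nat.le_mul_of_pos_left _ h0
  unfold FG
  calc 400 * (N * N) * Fc N * X + B ≤ 400 * (N * N) * Fc N * X + N * Fc N * B := by omega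
    _ = N * Fc N * (400 * N * X + B) := by ring
    _ ≤ N * Fc N * (400 * N * Y) := h1
    _ = 400 * (N * N) * Fc N * Y := by ring

end GL_

open GL_

open Classical in
theorem p_GL (hF1 : T_F1) (hOLD : T_OLD) (hWKB : T_WKB) (hBEM : T_BEM) (hGAM : T_GAM) :
    T_GL := by
  intro N I hN hOk k b s hne hbe hbs hsg hcl hmax
  obtain ⟨-, -, hall⟩ := hGAM N I (by omega) k b hne
  rw [hbe] at hall
  obtain ⟨g, hg⟩ : ∃ g, g = gam N I k b := ⟨_, rfl⟩
  rw [← hg] at hsg hmax hall ⊢
  have hpre := hF1 N I hN hOk k b (s + 1) (by omega) hbe (fun t h1 h2 => (hall t h1 (by omega)).1)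
  have hNN : N * 1 ≤ N * N := Nat.mul_le_mul_left N (by omega)
  by_cases hc : g - b ≤ 2 * (g - (s + 1))
  · by_cases htop : 100 * N * ((Finset.Ico (s + 1) g).filter fun t => uu N I k t = ⊤).card ≤
        g - (s + 1)
    · exact Or.inr ⟨hc, htop⟩
    · left
      push Not at htop
      have hW := hWKB N I (by omega) ((Finset.Ico (s + 1) g).filter fun t => uu N I k t = ⊤)
        k b (s + 1) (by
          intro t ht
          rw [Finset.mem_filter, Finset.mem_Ico] at ht
          have h1 := hall t (by omega) ht.1.2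
          obtain ⟨j, hj, hjA⟩ := bj_low N I h1.1
          obtain ⟨t1, a, h2, h3, h4, h5, h6⟩ := hOLD N I (by omega) hOk k t j hjA ht.2
          have h7 : t1 ≤ s := by
            by_contra h8
            push Not at h8
            exact hmax t1 h8 (by omega) h6
          have h8 := (hBEM N I k t).2.2.2.2.1 j hjA
          rw [h1.2.1] at h8
          exact ⟨j, hj, hjA, h8, by omega⟩)
      have hW2 : 100 * N * ((Finset.Ico (s + 1) g).filter fun t => uu N I k t = ⊤).card ≤
          100 * N * Wp N I k b (s + 1) := Nat.mul_le_mul_left _ hW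
      by_cases hd : 400 * N * ((N - 2) * (s + 1 - b)) ≤ g - b
      · refine ⟨b, s + 1, le_rfl, by omega, le_rfl, scale2 hN ?_⟩
        have e1 : 400 * N * Wp N I k b (s + 1) = 4 * (100 * N * Wp N I k b (s + 1)) := by ring
        omega
      · push Not at hd
        obtain ⟨a', b', h1, h2, h3, h4⟩ := hpre
        refine ⟨a', b', h1, h2, h3, scale h4 ?_⟩
        have e1 : 400 * N * ((N - 2) * (s + 1 - b)) ≤ 400 * (N * N) * (s + 1 - b) := by
          calc 400 * N * ((N - 2) * (s + 1 - b)) ≤ 400 * N * (N * (s + 1 - b)) := by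
                apply Nat.mul_le_mul_left
                exact Nat.mul_le_mul_right _ (by omega)
            _ = 400 * (N * N) * (s + 1 - b) := by ring
        omega
  · left
    push Not at hc
    obtain ⟨a', b', h1, h2, h3, h4⟩ := hpre
    refine ⟨a', b', h1, h2, h3, scale h4 ?_⟩
    have e1 : 2 * (s + 1 - b) ≤ 400 * (N * N) * (s + 1 - b) :=
      Nat.mul_le_mul_right _ (by omega)
    omega

end STR
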