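import Pool.Agent.STR.TargetsAna
import Pool.Agent.STR.TargetsSim

/-!
# Project STR: the cost of a job (T_J1)
-/

set_option autoImplicit false

namespace STR

namespace J1_

theorem cost {N c R q l m : ℕ} (hq : 1 ≤ q) (hl : 1 ≤ l) (hle : N * l ≤ 2 * q)
    (h : c ≤ R + m) :
    (N : ℝ) * ((c : ℝ) - R) / q ≤ 2 * ((m : ℝ) / l) := by
  have hq' : (0 : ℝ) < q := by exact_mod_cast hq
  have hl' : (0 : ℝ) < l := by exact_mod_cast hl
  have hle' : (N : ℝ) * l ≤ 2 * q := by exact_mod_cast hle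
  have h' : (c : ℝ) - R ≤ m := by
    have : (c : ℝ) ≤ R + m := by exact_mod_cast h
    linarith
  have hN : (0 : ℝ) ≤ N := Nat.cast_nonneg N
  have hm : (0 : ℝ) ≤ m := Nat.cast_nonneg m
  rw [div_le_iff₀ hq']
  have h1 : (m : ℝ) / l * (N * l) ≤ (m : ℝ) / l * (2 * q) :=
    mul_le_mul_of_nonneg_left hle' (div_nonneg hm hl'.le)
  have h2 : (m : ℝ) / l * (N * l) = m * N := by
    field_simp
  have h3 : (N : ℝ) * ((c : ℝ) - R) ≤ N * m := mul_le_mul_of_nonneg_left h' hN
  nlinarith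

theorem last {P : ℕ → Prop} {g t : ℕ} (h1 : t + 1 < g) (h2 : P t) :
    ∃ s, t ≤ s ∧ s + 1 < g ∧ P s ∧ ∀ s', s < s' → s' + 1 < g → ¬ P s' := by
  classical
  have hne : ((Finset.range g).filter fun s => s + 1 < g ∧ P s).Nonempty :=
    ⟨t, Finset.mem_filter.2 ⟨Finset.mem_range.2 (by omega), h1, h2⟩⟩
  obtain ⟨s, hs, hmax⟩ := Finset.exists_max_image _ (fun s => s) hne
  have hs' := (Finset.mem_filter.1 hs).2
  refine ⟨s, ?_, hs'.1, hs'.2, ?_⟩
  · exact hmax t (Finset.mem_filter.2 ⟨Finset.mem_range.2 (by omega), h1, h2⟩)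
  · intro s' h3 h4 h5
    have := hmax s' (Finset.mem_filter.2 ⟨Finset.mem_range.2 (by omega), h4, h5⟩)
    omega

end J1_

theorem p_J1 (hEV : T_EV) (hFIN : T_FIN) (hGAM : T_GAM) (hBEM : T_BEM) (hCHN : T_CHN) :
    T_J1 := by
  intro N I hN hOk i hi
  have hN1 : 1 ≤ N := by omega
  have hq1 : 1 ≤ I.q i := by
    have h1 := hOk i hi
    have h2 : 1 ≤ N * N := Nat.mul_pos hN1 hN1
    omega
  have hcmp_le : ∀ t, I.q i ≤ eu N I t i → cmp N I i ≤ t := fun t ht => Nat.sInf_le ht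
  have hdone : I.q i ≤ eu N I (cmp N I i) i := by
    obtain ⟨T0, -, -, h3⟩ := hFIN N I hN1
    have hne : {t | I.q i ≤ eu N I t i}.Nonempty :=
      ⟨max T0 (I.R i), h3 i hi _ (le_max_left _ _) (le_max_right _ _)⟩
    exact Nat.sInf_mem hne
  have hrel : I.R i ≤ cmp N I i := by
    by_contra hcon
    have h1 := eu_before N I (t := cmp N I i) (j := i) (by omega)
    omega
  refine ⟨hdone, hrel, ?_⟩
  have hqe : I.q i ≤ ell N (lev N I i) := q_le_ell hN1 I i
  have hel : N * lam N (lev N I i) ≤ 2 * I.q i := ell_lev_le hOk hi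
  have hlp : 1 ≤ lam N (lev N I i) := lam_pos hN1 _
  have hout : ∀ t, I.R i ≤ t → i ∉ Ak N I (lev N I i) t → cmp N I i ≤ t := by
    intro t h1 h2
    apply hcmp_le
    by_contra hcon
    apply h2
    rw [mem_Ak]
    exact ⟨hi, h1, by omega, by omega⟩
  obtain ⟨t, a, hRt, haR, hu, hev⟩ := hEV N I hN1 hOk i hi (lev N I i)
  have hut : uu N I (lev N I i) t = (a : ℕ∞) := hu t hRt le_rfl
  rcases hev with hcl | ⟨hend, hnot⟩
  · right
    obtain ⟨c1, c2, c3, c4, -, -, -, -⟩ := hCHN N I hN1 hOk (lev N I i) t a hut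
    have hga := (hGAM N I hN1 (lev N I i) a c1).2.2
    obtain ⟨-, e1, e2⟩ := hga (I.R i) (by omega) (by omega)
    have hself := self_mem N I hN1 hOk hi (lev N I i)
    obtain ⟨g1, g2, g3⟩ := hGAM N I hN1 (lev N I i) (I.R i) ⟨i, hself⟩
    have hb : be N I (lev N I i) (I.R i) ≤ I.R i := (hBEM N I (lev N I i) (I.R i)).1
    have ht1 : t + 1 < gam N I (lev N I i) (I.R i) := by
      have h1 : t < gam N I (lev N I i) (I.R i) := by rw [e2]; exact c4
      rcases Nat.lt_or_ge (t + 1) (gam N I (lev N I i) (I.R i)) with h2 | h2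
      · exact h2
      · exfalso
        have h3 : gam N I (lev N I i) (I.R i) = t + 1 := by omega
        rw [h3] at g2
        obtain ⟨j, hj, -, -⟩ := hcl.2.1
        rw [g2] at hj
        exact absurd hj (Finset.notMem_empty j)
    obtain ⟨s, hts, hsg, hcs, hmax⟩ := J1_.last (P := fun s => ClE N I (lev N I i) s) ht1 hcl
    obtain ⟨a', ha'⟩ := ENat.ne_top_iff_exists.1 hcs.1
    have hus : uu N I (lev N I i) s = (a' : ℕ∞) := ha'.symm
    obtain ⟨d1, d2, d3, d4, -, -, -, -⟩ := hCHN N I hN1 hOk (lev N I i) s a' hus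
    have has : a' ≤ s := uu_le N I hus
    obtain ⟨-, f1, f2⟩ := (hGAM N I hN1 (lev N I i) a' d1).2.2 s (by omega) d4
    obtain ⟨-, k1, k2⟩ := g3 s (by omega) (by omega)
    have hbs : bs N I (lev N I i, a', s + 1) = be N I (lev N I i) (I.R i) := by
      show be N I (lev N I i) a' = _
      rw [← d2, k1]
    have hgs : gs N I (lev N I i, a', s + 1) = gam N I (lev N I i) (I.R i) := by
      show gam N I (lev N I i) a' = _
      rw [← f2, k2]
    refine ⟨(lev N I i, a', s + 1), ?_, rfl, ?_, ?_, ?_⟩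
    · refine ⟨s, rfl, hcs, hus, ?_, ?_⟩
      · rw [hgs]; exact hsg
      · intro s' h1 h2
        rw [hgs] at h2
        exact hmax s' h1 h2
    · rw [hbs]; exact hb
    · show I.R i < s + 1
      omega
    · have hc : cmp N I i ≤ gam N I (lev N I i) (I.R i) := by
        apply hout _ (by omega)
        rw [g2]
        exact Finset.notMem_empty i
      unfold mu
      apply J1_.cost hq1 hlp hel
      rw [hbs, hgs]
      omega
  · left
    refine ⟨(lev N I i, a, t + 1), ⟨t, rfl, hend, hut⟩, rfl, haR, ?_, ?_⟩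
    · show I.R i < t + 1
      omega
    · have hc : cmp N I i ≤ t + 1 := hout _ (by omega) hnot
      unfold sz
      apply J1_.cost hq1 hlp hel
      show cmp N I i ≤ I.R i + (t + 1 - a)
      omega

end STR
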