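import Pool.Agent.STR.TargetsAna
import Pool.Agent.STR.TargetsOpt

/-!
# STR, target JC: the cost of the jobs charged to last closed chains
-/

set_option autoImplicit false

namespace STR

namespace JC_

theorem const {N : ℕ} (hN : 8 ≤ N) :
    8 + Cs N / 2 + 16 * ((Rc N : ℝ) + 1) * (2 * N + C1 N) ≤ 40 * ((Rc N : ℝ) + 1) * C1 N ∧
      0 ≤ C1 N ∧ 0 ≤ Cs N := by
  have hN0 : 0 < N := by omega
  have hN8 : (8 : ℝ) ≤ N := by exact_mod_cast hN
  have hM : (1 : ℝ) ≤ Mc N := by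
    have h : 0 < Mc N := by
      unfold Mc M0 FG Fc
      positivity
    exact_mod_cast h
  have hk : (1 : ℝ) ≤ kap N := by
    have h : 0 < kap N := by
      unfold kap Mc M0 FG Fc Ks
      positivity
    exact_mod_cast h
  have h2 : (1 : ℝ) ≤ 2 ^ kap N := one_le_pow₀ (by norm_num)
  have hX : (N : ℝ) ≤ (Mc N : ℝ) * N * 2 ^ kap N := by
    have h3 : (N : ℝ) ≤ (Mc N : ℝ) * N := by nlinarith
    nlinarith
  have hX2 : (N : ℝ) ^ 2 ≤ ((Mc N : ℝ) * N * 2 ^ kap N) ^ 2 :=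
    pow_le_pow_left₀ (by positivity) hX 2
  have hCs : 22 * (N : ℝ) ^ 2 ≤ Cs N := by
    unfold Cs
    linarith
  have hCs0 : 0 ≤ Cs N := by
    have : 0 ≤ 22 * (N : ℝ) ^ 2 := by positivity
    linarith
  have hC1 : 100 * Cs N ≤ C1 N := by
    unfold C1
    have : 0 ≤ 100 * Cs N := by linarith
    nlinarith
  have hR : (0 : ℝ) ≤ Rc N := Nat.cast_nonneg _
  have hNC : 22 * (N : ℝ) ≤ Cs N := by nlinarith
  have hC10 : 0 ≤ C1 N := by linarith
  refine ⟨?_, hC10, hCs0⟩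
  have h3 : 8 + Cs N / 2 ≤ C1 N := by nlinarith
  have h4 : 2 * (N : ℝ) ≤ C1 N := by linarith
  have h5 : 16 * ((Rc N : ℝ) + 1) * (2 * N + C1 N) ≤ 16 * ((Rc N : ℝ) + 1) * (C1 N + C1 N) :=
    mul_le_mul_of_nonneg_left (by linarith) (by positivity)
  have h6 : C1 N ≤ ((Rc N : ℝ) + 1) * C1 N := by nlinarith
  nlinarith

theorem two_mul_le {c m L : ℝ} (hL : 0 < L) : c * m ≤ L / 2 * c ^ 2 + 1 / (2 * L) * m ^ 2 := by
  have h : L / 2 * c ^ 2 + 1 / (2 * L) * m ^ 2 - c * m = (L * c - m) ^ 2 / (2 * L) := by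
    field_simp
    ring
  have h2 : 0 ≤ (L * c - m) ^ 2 / (2 * L) := by positivity
  linarith

theorem mu_nonneg (N : ℕ) (I : DI) (x : ℕ × ℕ × ℕ) : 0 ≤ mu N I x := by
  unfold mu
  positivity

theorem sz_nonneg (N : ℕ) (x : ℕ × ℕ × ℕ) : 0 ≤ sz N x := by
  unfold sz
  positivity

/-- the sum of the squares of the counts of dense chains -/
theorem sumsq (hCCB : T_CCB) (hLB2 : T_LB2) {N : ℕ} {I : DI} {D : ℕ → ℝ} (hN : 8 ≤ N)
    (hOk : Ok N I) (hOpt : Opt N I D) (hO1 : ∀ j ∈ I.J, 1 ≤ Oj N I D j)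
    (G : Finset (ℕ × ℕ × ℕ)) (hG : ∀ x ∈ G, CC N I x ∧ dens N I 16 x.1 (bs N I x) x.2.2) :
    ∑ x ∈ G, (cnt N I x.1 (bs N I x) x.2.2 : ℝ) ^ 2 ≤ 16 * OO N I D := by
  classical
  have hdis : (G : Set (ℕ × ℕ × ℕ)).PairwiseDisjoint
      (fun x => jobs N I x.1 (bs N I x) x.2.2) := by
    intro x hx y hy hxy
    rw [Function.onFun, Finset.disjoint_left]
    intro i hi hi'
    rw [mem_jobs] at hi hi'
    apply hxy
    obtain ⟨⟨-, -, h1, -⟩, -, -, -, h2⟩ := hCCB N I hN hOk x (hG x hx).1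
    obtain ⟨⟨-, -, h3, -⟩, -⟩ := hCCB N I hN hOk y (hG y hy).1
    refine h2 y (hG y hy).1 (by rw [← hi.2.2, ← hi'.2.2]) ⟨I.R i, ⟨hi.2.1.1, ?_⟩, hi'.2.1.1, ?_⟩
    · exact lt_trans hi.2.1.2 h1
    · exact lt_trans hi'.2.1.2 h3
  calc ∑ x ∈ G, (cnt N I x.1 (bs N I x) x.2.2 : ℝ) ^ 2
      ≤ ∑ x ∈ G, 16 * ∑ i ∈ jobs N I x.1 (bs N I x) x.2.2, Oj N I D i := by
        apply Finset.sum_le_sum
        intro x hx
        exact hLB2 N I D hN hOk hOpt 16 x.1 (bs N I x) x.2.2 (by norm_num) (hG x hx).2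
    _ = 16 * ∑ i ∈ G.biUnion (fun x => jobs N I x.1 (bs N I x) x.2.2), Oj N I D i := by
        rw [Finset.sum_biUnion hdis, Finset.mul_sum]
    _ ≤ 16 * OO N I D := by
        apply mul_le_mul_of_nonneg_left _ (by norm_num)
        unfold OO
        apply Finset.sum_le_sum_of_subset_of_nonneg
        · intro i hi
          rw [Finset.mem_biUnion] at hi
          obtain ⟨x, -, hx⟩ := hi
          exact (mem_jobs.1 hx).1
        · intro i hi _
          linarith [hO1 i hi]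

/-- sums over levels -/
theorem levels {N : ℕ} {I : DI} {k0 L : ℕ} {c : ℝ} (G : Finset (ℕ × ℕ × ℕ))
    (hG : ∀ x ∈ G, k0 ≤ x.1 ∧ x.1 < k0 + L)
    (h : ∀ k, ∑ x ∈ G.filter (fun x => x.1 = k), mu N I x ≤ c) :
    ∑ x ∈ G, mu N I x ≤ L * c := by
  classical
  have hmap : ∀ x ∈ G, x.1 ∈ Finset.Ico k0 (k0 + L) := fun x hx => Finset.mem_Ico.2 (hG x hx)
  rw [← Finset.sum_fiberwise_of_maps_to hmap]
  calc ∑ k ∈ Finset.Ico k0 (k0 + L), ∑ x ∈ G.filter (fun x => x.1 = k), mu N I x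
      ≤ ∑ _k ∈ Finset.Ico k0 (k0 + L), c := Finset.sum_le_sum fun k _ => h k
    _ = L * c := by
        rw [Finset.sum_const, Nat.card_Ico, nsmul_eq_mul]
        congr 2
        omega

/-- the count of a chain which is not dense -/
theorem sparse (hCCB : T_CCB) {N : ℕ} {I : DI} (hN : 8 ≤ N) (hOk : Ok N I) {x : ℕ × ℕ × ℕ}
    (hx : CC N I x) (hd : ¬ dens N I 16 x.1 (bs N I x) x.2.2) :
    (cnt N I x.1 (bs N I x) x.2.2 : ℝ) ≤ 16 * ((Rc N : ℝ) + 1) * sz N x := by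
  obtain ⟨⟨h1, h2, -, -⟩, ⟨-, h3⟩, -⟩ := hCCB N I hN hOk x hx
  unfold dens at hd
  push Not at hd
  have h4 : x.2.2 - bs N I x ≤ (Rc N + 1) * (x.2.2 - x.2.1) := by
    have h5 : x.2.2 - bs N I x = (x.2.2 - x.2.1) + (x.2.1 - bs N I x) := by omega
    rw [h5, add_mul, one_mul]
    omega
  have h6 : cnt N I x.1 (bs N I x) x.2.2 * lam N x.1 ≤ 16 * ((Rc N + 1) * (x.2.2 - x.2.1)) := by
    calc cnt N I x.1 (bs N I x) x.2.2 * lam N x.1 ≤ 16 * (x.2.2 - bs N I x) := hd.le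
      _ ≤ 16 * ((Rc N + 1) * (x.2.2 - x.2.1)) := Nat.mul_le_mul_left _ h4
  have hl : (0 : ℝ) < lam N x.1 := by
    have := lam_pos (N := N) (by omega) x.1
    exact_mod_cast this
  unfold sz
  rw [← mul_div_assoc, le_div_iff₀ hl]
  have h7 : ((cnt N I x.1 (bs N I x) x.2.2 * lam N x.1 : ℕ) : ℝ) ≤
      ((16 * ((Rc N + 1) * (x.2.2 - x.2.1)) : ℕ) : ℝ) := by exact_mod_cast h6
  rw [Nat.cast_mul, Nat.cast_mul, Nat.cast_mul, Nat.cast_add] at h7
  push_cast at h7 ⊢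
  linarith

end JC_

theorem p_JC (hCCB : T_CCB) (hLB2 : T_LB2) (hNMU : T_NMU) (hNOD : T_NOD) (hMU1 : T_MU1)
    (hON : T_ON) : T_JC := by
  classical
  intro N I D hN hOk hOpt k0 L hLv F hF
  obtain ⟨hO1, hO2⟩ := hON N I D hN hOk hOpt
  have hOO : 0 ≤ OO N I D := le_trans (Nat.cast_nonneg _) hO2
  obtain ⟨hc1, hc2, hc3⟩ := JC_.const hN
  have hR : (0 : ℝ) ≤ Rc N := Nat.cast_nonneg _
  rcases F.eq_empty_or_nonempty with rfl | hFne
  · rw [Finset.sum_empty]
    positivity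
  have hL : 1 ≤ L := by
    obtain ⟨x, hx⟩ := hFne
    have := hF x hx
    omega
  have hLr : (1 : ℝ) ≤ L := by exact_mod_cast hL
  have hL0 : (0 : ℝ) < L := by linarith
  -- dense chains
  have p1 : ∑ x ∈ F.filter (fun x => dens N I 16 x.1 (bs N I x) x.2.2),
      (cnt N I x.1 (bs N I x) x.2.2 : ℝ) * mu N I x ≤ (8 + Cs N / 2) * L * OO N I D := by
    have h1 := JC_.sumsq hCCB hLB2 hN hOk hOpt hO1
      (F.filter (fun x => dens N I 16 x.1 (bs N I x) x.2.2))
      (fun x hx => ⟨(hF x (Finset.mem_filter.1 hx).1).1, (Finset.mem_filter.1 hx).2⟩)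
    have h2 : ∑ x ∈ F.filter (fun x => dens N I 16 x.1 (bs N I x) x.2.2), mu N I x ^ 2 ≤
        Cs N * L * L * OO N I D :=
      le_trans (Finset.sum_le_sum_of_subset_of_nonneg (Finset.filter_subset _ _)
        (fun x _ _ => sq_nonneg _)) (hNMU N I D hN hOk hOpt k0 L hLv F hF)
    calc ∑ x ∈ F.filter (fun x => dens N I 16 x.1 (bs N I x) x.2.2),
          (cnt N I x.1 (bs N I x) x.2.2 : ℝ) * mu N I x
        ≤ ∑ x ∈ F.filter (fun x => dens N I 16 x.1 (bs N I x) x.2.2),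
          ((L : ℝ) / 2 * (cnt N I x.1 (bs N I x) x.2.2 : ℝ) ^ 2 +
            1 / (2 * (L : ℝ)) * mu N I x ^ 2) :=
          Finset.sum_le_sum fun x _ => JC_.two_mul_le hL0
      _ = (L : ℝ) / 2 * ∑ x ∈ F.filter (fun x => dens N I 16 x.1 (bs N I x) x.2.2),
            (cnt N I x.1 (bs N I x) x.2.2 : ℝ) ^ 2 +
          1 / (2 * (L : ℝ)) * ∑ x ∈ F.filter (fun x => dens N I 16 x.1 (bs N I x) x.2.2),
            mu N I x ^ 2 := by
          rw [Finset.sum_add_distrib, ← Finset.mul_sum, ← Finset.mul_sum]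
      _ ≤ (L : ℝ) / 2 * (16 * OO N I D) + 1 / (2 * (L : ℝ)) * (Cs N * L * L * OO N I D) :=
          add_le_add (mul_le_mul_of_nonneg_left h1 (by positivity))
            (mul_le_mul_of_nonneg_left h2 (by positivity))
      _ = (8 + Cs N / 2) * L * OO N I D := by
          field_simp
          ring
  -- the other chains which are not nodes
  have p2 : ∑ x ∈ (F.filter (fun x => ¬ dens N I 16 x.1 (bs N I x) x.2.2)).filter
      (fun x => ¬ Nd N I x), (cnt N I x.1 (bs N I x) x.2.2 : ℝ) * mu N I x ≤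
      16 * ((Rc N : ℝ) + 1) * (L * (2 * N * OO N I D)) := by
    have h1 : ∑ x ∈ (F.filter (fun x => ¬ dens N I 16 x.1 (bs N I x) x.2.2)).filter
        (fun x => ¬ Nd N I x), mu N I x ≤ L * (2 * N * OO N I D) := by
      apply JC_.levels (k0 := k0)
      · intro x hx
        exact (hF x (Finset.mem_filter.1 (Finset.mem_filter.1 hx).1).1).2
      · intro k
        apply hMU1 N I D hN hOk hOpt k
        intro x hx
        rw [Finset.mem_filter, Finset.mem_filter, Finset.mem_filter] at hx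
        exact ⟨(hF x hx.1.1.1).1, hx.2⟩
    calc ∑ x ∈ (F.filter (fun x => ¬ dens N I 16 x.1 (bs N I x) x.2.2)).filter
          (fun x => ¬ Nd N I x), (cnt N I x.1 (bs N I x) x.2.2 : ℝ) * mu N I x
        ≤ ∑ x ∈ (F.filter (fun x => ¬ dens N I 16 x.1 (bs N I x) x.2.2)).filter
          (fun x => ¬ Nd N I x), 16 * ((Rc N : ℝ) + 1) * mu N I x := by
          apply Finset.sum_le_sum
          intro x hx
          rw [Finset.mem_filter, Finset.mem_filter] at hx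
          have h2 := JC_.sparse hCCB hN hOk (hF x hx.1.1).1 hx.1.2
          have h3 : sz N x = 1 := by
            obtain ⟨-, -, h4, -⟩ := hCCB N I hN hOk x (hF x hx.1.1).1
            rcases h4 with h4 | h4
            · unfold sz
              rw [h4]
              apply div_self
              have := lam_pos (N := N) (by omega) x.1
              have h5 : (0 : ℝ) < lam N x.1 := by exact_mod_cast this
              exact h5.ne'
            · exact absurd h4 hx.2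
          rw [h3, mul_one] at h2
          exact mul_le_mul_of_nonneg_right h2 (JC_.mu_nonneg N I x)
      _ = 16 * ((Rc N : ℝ) + 1) *
          ∑ x ∈ (F.filter (fun x => ¬ dens N I 16 x.1 (bs N I x) x.2.2)).filter
            (fun x => ¬ Nd N I x), mu N I x := by rw [Finset.mul_sum]
      _ ≤ 16 * ((Rc N : ℝ) + 1) * (L * (2 * N * OO N I D)) :=
          mul_le_mul_of_nonneg_left h1 (by positivity)
  -- the nodes
  have p3 : ∑ x ∈ (F.filter (fun x => ¬ dens N I 16 x.1 (bs N I x) x.2.2)).filter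
      (fun x => Nd N I x), (cnt N I x.1 (bs N I x) x.2.2 : ℝ) * mu N I x ≤
      16 * ((Rc N : ℝ) + 1) * (C1 N * L * OO N I D) := by
    have h1 := hNOD N I D hN hOk hOpt k0 L hLv
      ((F.filter (fun x => ¬ dens N I 16 x.1 (bs N I x) x.2.2)).filter (fun x => Nd N I x))
      (fun x hx => ⟨(Finset.mem_filter.1 hx).2,
        (hF x (Finset.mem_filter.1 (Finset.mem_filter.1 hx).1).1).2⟩)
    calc ∑ x ∈ (F.filter (fun x => ¬ dens N I 16 x.1 (bs N I x) x.2.2)).filter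
          (fun x => Nd N I x), (cnt N I x.1 (bs N I x) x.2.2 : ℝ) * mu N I x
        ≤ ∑ x ∈ (F.filter (fun x => ¬ dens N I 16 x.1 (bs N I x) x.2.2)).filter
          (fun x => Nd N I x), 16 * ((Rc N : ℝ) + 1) * (sz N x * mu N I x) := by
          apply Finset.sum_le_sum
          intro x hx
          rw [Finset.mem_filter, Finset.mem_filter] at hx
          have h2 := JC_.sparse hCCB hN hOk (hF x hx.1.1).1 hx.1.2
          calc (cnt N I x.1 (bs N I x) x.2.2 : ℝ) * mu N I x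
              ≤ (16 * ((Rc N : ℝ) + 1) * sz N x) * mu N I x :=
                mul_le_mul_of_nonneg_right h2 (JC_.mu_nonneg N I x)
            _ = 16 * ((Rc N : ℝ) + 1) * (sz N x * mu N I x) := by ring
      _ = 16 * ((Rc N : ℝ) + 1) *
          ∑ x ∈ (F.filter (fun x => ¬ dens N I 16 x.1 (bs N I x) x.2.2)).filter
            (fun x => Nd N I x), sz N x * mu N I x := by rw [Finset.mul_sum]
      _ ≤ 16 * ((Rc N : ℝ) + 1) * (C1 N * L * OO N I D) :=
          mul_le_mul_of_nonneg_left h1 (by positivity)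
  have hsum : ∑ x ∈ F, (cnt N I x.1 (bs N I x) x.2.2 : ℝ) * mu N I x =
      ∑ x ∈ F.filter (fun x => dens N I 16 x.1 (bs N I x) x.2.2),
        (cnt N I x.1 (bs N I x) x.2.2 : ℝ) * mu N I x +
      (∑ x ∈ (F.filter (fun x => ¬ dens N I 16 x.1 (bs N I x) x.2.2)).filter
        (fun x => Nd N I x), (cnt N I x.1 (bs N I x) x.2.2 : ℝ) * mu N I x +
      ∑ x ∈ (F.filter (fun x => ¬ dens N I 16 x.1 (bs N I x) x.2.2)).filter
        (fun x => ¬ Nd N I x), (cnt N I x.1 (bs N I x) x.2.2 : ℝ) * mu N I x) := by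
    rw [Finset.sum_filter_add_sum_filter_not, Finset.sum_filter_add_sum_filter_not]
  have hLO : 0 ≤ (L : ℝ) * OO N I D := by positivity
  have h9 := mul_le_mul_of_nonneg_right hc1 hLO
  rw [hsum]
  calc _ ≤ (8 + Cs N / 2) * L * OO N I D + (16 * ((Rc N : ℝ) + 1) * (C1 N * L * OO N I D) +
        16 * ((Rc N : ℝ) + 1) * (L * (2 * N * OO N I D))) := add_le_add p1 (add_le_add p3 p2)
    _ = (8 + Cs N / 2 + 16 * ((Rc N : ℝ) + 1) * (2 * N + C1 N)) * (L * OO N I D) := by ring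
    _ ≤ 40 * ((Rc N : ℝ) + 1) * C1 N * (L * OO N I D) := h9
    _ = 40 * ((Rc N : ℝ) + 1) * C1 N * L * OO N I D := by ring

end STR
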