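import Pool.Agent.STR.TargetsAna
import Pool.Agent.STR.TargetsOpt

/-!
# STR, target JE: the cost of the jobs charged to end chains
-/

set_option autoImplicit false

namespace STR

namespace JE_

theorem one_le_C1 {N : ℕ} (hN : 8 ≤ N) : 1 ≤ C1 N := by
  have hN0 : 0 < N := by omega
  have hN8 : (8 : ℝ) ≤ N := by exact_mod_cast hN
  have hM : (1 : ℝ) ≤ Mc N := by
    have h : 0 < Mc N := by
      unfold Mc M0 FG Fc
      positivity
    exact_mod_cast h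
  have hk : (1 : ℝ) ≤ kap N := by
    have h : 0 < kap N := by
      unfold kap Mc M0 FG Fc Ks
      positivity
    exact_mod_cast h
  have h2 : (1 : ℝ) ≤ 2 ^ kap N := one_le_pow₀ (by norm_num)
  have h3 : (1 : ℝ) ≤ (Mc N : ℝ) * N := by nlinarith
  have hX : (1 : ℝ) ≤ (Mc N : ℝ) * N * 2 ^ kap N := by nlinarith
  have hCs : 1 ≤ Cs N := by
    unfold Cs
    have := one_le_pow₀ hX (n := 2)
    linarith
  unfold C1
  have : 1 ≤ 100 * Cs N := by linarith
  nlinarith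

/-- the jobs of the chains are disjoint -/
theorem disj (hECB : T_ECB) {N : ℕ} {I : DI} {D : ℕ → ℝ} (hN : 8 ≤ N) (hOk : Ok N I)
    (hO1 : ∀ j ∈ I.J, 1 ≤ Oj N I D j) (F : Finset (ℕ × ℕ × ℕ)) (hF : ∀ x ∈ F, EC N I x) :
    ∑ x ∈ F, ∑ i ∈ jobs N I x.1 x.2.1 x.2.2, (1 + Oj N I D i) ≤
      (I.J.card : ℝ) + OO N I D := by
  classical
  have hdis : (F : Set (ℕ × ℕ × ℕ)).PairwiseDisjoint
      (fun x => jobs N I x.1 x.2.1 x.2.2) := by
    intro x hx y hy hxy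
    rw [Function.onFun, Finset.disjoint_left]
    intro i hi hi'
    rw [mem_jobs] at hi hi'
    apply hxy
    obtain ⟨-, -, h2⟩ := hECB N I (by omega) hOk x (hF x hx)
    exact h2 y (hF y hy) (by rw [← hi.2.2, ← hi'.2.2]) ⟨I.R i, hi.2.1, hi'.2.1⟩
  calc ∑ x ∈ F, ∑ i ∈ jobs N I x.1 x.2.1 x.2.2, (1 + Oj N I D i)
      = ∑ i ∈ F.biUnion (fun x => jobs N I x.1 x.2.1 x.2.2), (1 + Oj N I D i) := by
        rw [Finset.sum_biUnion hdis]
    _ ≤ ∑ i ∈ I.J, (1 + Oj N I D i) := by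
        apply Finset.sum_le_sum_of_subset_of_nonneg
        · intro i hi
          rw [Finset.mem_biUnion] at hi
          obtain ⟨x, -, hx⟩ := hi
          exact (mem_jobs.1 hx).1
        · intro i hi _
          linarith [hO1 i hi]
    _ = (I.J.card : ℝ) + OO N I D := by
        rw [Finset.sum_add_distrib, Finset.sum_const, nsmul_eq_mul, mul_one]
        rfl

/-- a single chain -/
theorem one (hLB2 : T_LB2) {N : ℕ} {I : DI} {D : ℕ → ℝ} (hN : 8 ≤ N) (hOk : Ok N I)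
    (hOpt : Opt N I D) (hO1 : ∀ j ∈ I.J, 1 ≤ Oj N I D j) (x : ℕ × ℕ × ℕ) :
    (cnt N I x.1 x.2.1 x.2.2 : ℝ) * sz N x ≤
      ∑ i ∈ jobs N I x.1 x.2.1 x.2.2, (1 + Oj N I D i) +
        (if lam N x.1 < x.2.2 - x.2.1 then 16 * sz N x ^ 2 else 0) := by
  have hl : (0 : ℝ) < lam N x.1 := by
    have := lam_pos (N := N) (by omega) x.1
    exact_mod_cast this
  have hz : 0 ≤ sz N x := by
    unfold sz
    positivity
  have hc : (0 : ℝ) ≤ cnt N I x.1 x.2.1 x.2.2 := Nat.cast_nonneg _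
  have hs0 : 0 ≤ ∑ i ∈ jobs N I x.1 x.2.1 x.2.2, Oj N I D i := by
    apply Finset.sum_nonneg
    intro i hi
    linarith [hO1 i (mem_jobs.1 hi).1]
  have hs : ∑ i ∈ jobs N I x.1 x.2.1 x.2.2, (1 + Oj N I D i) =
      (cnt N I x.1 x.2.1 x.2.2 : ℝ) + ∑ i ∈ jobs N I x.1 x.2.1 x.2.2, Oj N I D i := by
    rw [Finset.sum_add_distrib, Finset.sum_const, nsmul_eq_mul, mul_one]
    rfl
  have hzl : sz N x * lam N x.1 = ((x.2.2 - x.2.1 : ℕ) : ℝ) := by
    unfold sz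
    rw [div_mul_cancel₀ _ hl.ne']
  rw [hs]
  split_ifs with hlong
  · by_cases hd : dens N I 16 x.1 x.2.1 x.2.2
    · have h1 := hLB2 N I D hN hOk hOpt 16 x.1 x.2.1 x.2.2 (by norm_num) hd
      unfold dens at hd
      have h2 : (16 : ℝ) * ((x.2.2 - x.2.1 : ℕ) : ℝ) ≤
          (cnt N I x.1 x.2.1 x.2.2 : ℝ) * lam N x.1 := by exact_mod_cast hd
      rw [← hzl] at h2
      have h3 : 16 * sz N x ≤ (cnt N I x.1 x.2.1 x.2.2 : ℝ) := by
        have h4 : 16 * sz N x * lam N x.1 ≤ (cnt N I x.1 x.2.1 x.2.2 : ℝ) * lam N x.1 := by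
          linarith
        exact le_of_mul_le_mul_right h4 hl
      nlinarith [sq_nonneg (sz N x)]
    · unfold dens at hd
      push Not at hd
      have h2 : (cnt N I x.1 x.2.1 x.2.2 : ℝ) * lam N x.1 ≤
          (16 : ℝ) * ((x.2.2 - x.2.1 : ℕ) : ℝ) := by exact_mod_cast hd.le
      rw [← hzl] at h2
      have h3 : (cnt N I x.1 x.2.1 x.2.2 : ℝ) ≤ 16 * sz N x := by
        have h4 : (cnt N I x.1 x.2.1 x.2.2 : ℝ) * lam N x.1 ≤ 16 * sz N x * lam N x.1 := by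
          linarith
        exact le_of_mul_le_mul_right h4 hl
      nlinarith
  · have h1 : sz N x ≤ 1 := by
      unfold sz
      rw [div_le_one hl]
      exact_mod_cast not_lt.1 hlong
    have h2 : (cnt N I x.1 x.2.1 x.2.2 : ℝ) * sz N x ≤ (cnt N I x.1 x.2.1 x.2.2 : ℝ) * 1 :=
      mul_le_mul_of_nonneg_left h1 hc
    linarith

end JE_

theorem p_JE (hECB : T_ECB) (hLB2 : T_LB2) (hSH : T_SH) (hON : T_ON) : T_JE := by
  classical
  intro N I D hN hOk hOpt k0 L hLv F hF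
  obtain ⟨hO1, hO2⟩ := hON N I D hN hOk hOpt
  have hOO : 0 ≤ OO N I D := le_trans (Nat.cast_nonneg _) hO2
  have hC1 := JE_.one_le_C1 hN
  rcases F.eq_empty_or_nonempty with rfl | hFne
  · rw [Finset.sum_empty]
    have : 0 ≤ C1 N := by linarith
    positivity
  have hL : 1 ≤ L := by
    obtain ⟨x, hx⟩ := hFne
    have := hF x hx
    omega
  have hLr : (1 : ℝ) ≤ L := by exact_mod_cast hL
  have h1 := JE_.disj hECB hN hOk hO1 F (fun x hx => (hF x hx).1)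
  have h2 := hSH N I D hN hOk hOpt k0 L hLv
    (F.filter fun x => lam N x.1 < x.2.2 - x.2.1) (fun x hx => by
      rw [Finset.mem_filter] at hx
      exact ⟨(hF x hx.1).1, (hF x hx.1).2.1, (hF x hx.1).2.2, hx.2⟩)
  have h3 : ∑ x ∈ F, (cnt N I x.1 x.2.1 x.2.2 : ℝ) * sz N x ≤
      ∑ x ∈ F, ∑ i ∈ jobs N I x.1 x.2.1 x.2.2, (1 + Oj N I D i) +
        16 * ∑ x ∈ F.filter (fun x => lam N x.1 < x.2.2 - x.2.1), sz N x ^ 2 := by
    rw [Finset.mul_sum, Finset.sum_filter, ← Finset.sum_add_distrib]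
    exact Finset.sum_le_sum fun x _ => JE_.one hLB2 hN hOk hOpt hO1 x
  have h4 : OO N I D ≤ C1 N * L * OO N I D := by
    have h5 : 1 ≤ C1 N * L := by nlinarith
    nlinarith
  have h6 : 18 * C1 N * L * OO N I D = 2 * (C1 N * L * OO N I D) +
      16 * (C1 N * L * OO N I D) := by ring
  rw [h6]
  linarith

end STR
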