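import Pool.Agent.STR.TargetsReal

/-!
# Project STR: the bound for the limit (target `T_LB`)
-/

set_option autoImplicit false

namespace STR

open Filter Topology

namespace LB_

/-- the increments of a single job are bounded by the speed -/
theorem inc {I : Inst} {s : ℝ} {W : ℕ → ℝ → ℝ} (h : Feasible I s W) {j : ℕ} (hj : j ∈ I.jobs)
    {t t' : ℝ} (ht : t ≤ t') : W j t' - W j t ≤ s * (t' - t) :=
  (Finset.single_le_sum (f := fun i => W i t' - W i t)
    (fun i hi => sub_nonneg.2 (h.mono i hi ht)) hj).trans (h.speed t t' ht)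

theorem cont {I : Inst} {s : ℝ} {W : ℕ → ℝ → ℝ} (hs : 0 < s) (h : Feasible I s W) {j : ℕ}
    (hj : j ∈ I.jobs) : Continuous (W j) := by
  have hl : LipschitzWith s.toNNReal (W j) := by
    apply LipschitzWith.of_le_add_mul
    intro x y
    rw [Real.coe_toNNReal s hs.le, Real.dist_eq]
    rcases le_total x y with hxy | hxy
    · have h1 := h.mono j hj hxy
      have h2 : 0 ≤ s * |x - y| := by positivity
      linarith
    · have h1 := inc h hj hxy
      rw [abs_of_nonneg (sub_nonneg.2 hxy)]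
      linarith
  exact hl.continuous

theorem str_term {I : Inst} {c : ℕ → ℝ} (hc : ∀ j ∈ I.jobs, I.r j ≤ c j) {b : ℝ}
    (hb : str I c ≤ b) {j : ℕ} (hj : j ∈ I.jobs) : c j ≤ I.r j + b * I.p j := by
  have hp := I.p_pos j hj
  have h1 : (c j - I.r j) / I.p j ≤ b := by
    refine (Finset.single_le_sum (f := fun i => (c i - I.r i) / I.p i) (fun i hi => ?_) hj).trans hb
    exact div_nonneg (sub_nonneg.2 (hc i hi)) (I.p_pos i hi).le
  rw [div_le_iff₀ hp] at h1
  linarith

theorem str_mono {I : Inst} {c c' : ℕ → ℝ} (hc : ∀ j ∈ I.jobs, c j ≤ c' j) :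
    str I c ≤ str I c' := by
  apply Finset.sum_le_sum
  intro j hj
  apply div_le_div_of_nonneg_right _ (I.p_pos j hj).le
  have := hc j hj
  linarith

/-- a completed job has a least completion time -/
theorem least {I : Inst} {s : ℝ} {W : ℕ → ℝ → ℝ} (hs : 0 < s) (h : Feasible I s W) {j : ℕ}
    (hj : j ∈ I.jobs) {d : ℝ} (hd : I.p j ≤ W j d) :
    IsLeast {t | I.p j ≤ W j t} (sInf {t | I.p j ≤ W j t}) ∧ sInf {t | I.p j ≤ W j t} ≤ d := by
  have hcl : IsClosed {t | I.p j ≤ W j t} := isClosed_le continuous_const (cont hs h hj)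
  have hbd : BddBelow {t | I.p j ≤ W j t} := by
    refine ⟨I.r j, fun t ht => ?_⟩
    by_contra hlt
    have h1 := h.before j hj t (not_le.1 hlt).le
    have h2 : I.p j ≤ W j t := ht
    have h3 := I.p_pos j hj
    linarith
  exact ⟨⟨hcl.csInf_mem ⟨d, hd⟩ hbd, fun t ht => csInf_le hbd ht⟩, csInf_le hbd hd⟩

end LB_

theorem p_LB (hULM : T_ULM) (hLF : T_LF) : T_LB := by
  classical
  intro s hs A hA I Bd hBd hex
  obtain ⟨hU1, hU2, hU3⟩ := hULM
  obtain ⟨hF, hT⟩ := hLF s hs A hA
  obtain ⟨b0, hb0⟩ := hBd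
  obtain ⟨m0, hm0⟩ := hex
  choose c hc hcb using hm0
  -- the completion times for all indices
  let C : ℕ → ℕ → ℝ := fun m => c (max m m0) (le_max_right m m0)
  have hCr : ∀ m, ∀ j ∈ I.jobs, I.r j ≤ C m j := fun m j hj => (hc _ _ j hj).1
  have hCb : ∀ m, ∀ b ∈ Bd, str I (C m) ≤ b := fun m b hb => hcb _ _ b hb
  have hCp : ∀ m, m0 ≤ m → ∀ j ∈ I.jobs, I.p j ≤ A m I j (C m j) := by
    intro m hm j hj
    have h1 := (hc (max m m0) (le_max_right m m0) j hj).2
    have h2 : max m m0 = m := max_eq_left hm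
    have h3 : A (max m m0) I j (C m j) = A m I j (C m j) := by rw [h2]
    rw [← h3]
    exact h1
  -- the limit
  have hlim : ∀ j ∈ I.jobs, Tendsto (fun m => C m j) ((hyperfilter ℕ : Ultrafilter ℕ) : Filter ℕ)
      (𝓝 (ulim fun m => C m j)) := by
    intro j hj
    apply hU1 _ (I.r j) (I.r j + b0 * I.p j)
    intro m
    exact ⟨hCr m j hj, LB_.str_term (hCr m) (hCb m b0 hb0) hj⟩
  have hBp : ∀ j ∈ I.jobs, I.p j ≤ ulim fun m => A m I j (ulim fun m => C m j) := by
    intro j hj
    apply ge_of_tendsto (hT I j hj _ _ (hlim j hj))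
    exact hU3 _ ⟨m0, fun m hm => hCp m hm j hj⟩
  have hstr : Tendsto (fun m => str I (C m)) ((hyperfilter ℕ : Ultrafilter ℕ) : Filter ℕ)
      (𝓝 (str I fun j => ulim fun m => C m j)) := by
    unfold str
    apply tendsto_finsetSum
    intro j hj
    exact ((hlim j hj).sub_const _).div_const _
  refine ⟨fun j => sInf {t | I.p j ≤ ulim fun m => A m I j t}, fun j hj => ?_, fun b hb => ?_⟩
  · exact (LB_.least hs (hF I) hj (hBp j hj)).1
  · refine (LB_.str_mono (c' := fun j => ulim fun m => C m j) fun j hj => ?_).trans ?_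
    · exact (LB_.least hs (hF I) hj (hBp j hj)).2
    · exact le_of_tendsto hstr (Eventually.of_forall fun m => hCb m b hb)

end STR
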