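import Pool.Agent.STR.TargetsOpt

/-!
# Project STR (MP_32d942_lc): the lower bound from an excess of volume (target LB3)
-/

set_option autoImplicit false

namespace STR

open Classical in
theorem p_LB3 : T_LB3 := by
  intro N I D hN hOk hOpt k a b E hab hE hV
  have hN0 : (0 : ℝ) < (N : ℝ) := by
    have : 0 < N := by omega
    exact_mod_cast this
  have hN4 : (0 : ℝ) ≤ (N : ℝ) - 4 := by
    have : (8 : ℝ) ≤ (N : ℝ) := by exact_mod_cast hN
    linarith
  have habR : (a : ℝ) ≤ (b : ℝ) := by exact_mod_cast hab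
  set F : Finset ℕ := I.J.filter (fun i => (a ≤ I.R i ∧ I.R i < b) ∧ lev N I i ≤ k) with hF
  have hVF : (Vv N I k a b : ℝ) = ∑ i ∈ F, (I.q i : ℝ) := by
    unfold Vv
    rw [Nat.cast_sum]
  set T : ℝ := b + E / (2 * N) with hT
  have hE2 : 0 < E / (2 * N) := by positivity
  set S : Finset ℕ := F.filter (fun i => D i ≤ T) with hS
  have hwork : ∑ j ∈ S, (I.q j : ℝ) ≤ ((N : ℝ) - 4) * (T - a) := by
    refine hOpt.work a T (by rw [hT]; linarith) S ?_ ?_
    · intro j hj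
      rw [hS, Finset.mem_filter, hF, Finset.mem_filter] at hj
      exact hj.1.1
    · intro j hj
      rw [hS, Finset.mem_filter, hF, Finset.mem_filter] at hj
      exact ⟨hj.1.2.1.1, hj.2⟩
  have h1 : ((N : ℝ) - 4) * (T - a) ≤ ((N : ℝ) - 4) * ((b : ℝ) - a) + E / 2 := by
    have h2 : ((N : ℝ) - 4) * (T - a) =
        ((N : ℝ) - 4) * ((b : ℝ) - a) + ((N : ℝ) - 4) * (E / (2 * N)) := by
      rw [hT]; ring
    have h3 : ((N : ℝ) - 4) * (E / (2 * N)) ≤ N * (E / (2 * N)) :=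
      mul_le_mul_of_nonneg_right (by linarith) hE2.le
    have h4 : (N : ℝ) * (E / (2 * N)) = E / 2 := by
      field_simp
    rw [h2]
    linarith
  have hsplit : ∑ i ∈ S, (I.q i : ℝ) + ∑ i ∈ F.filter (fun i => ¬ D i ≤ T), (I.q i : ℝ) =
      ∑ i ∈ F, (I.q i : ℝ) := Finset.sum_filter_add_sum_filter_not F _ _
  have hrest : E / 2 ≤ ∑ i ∈ F.filter (fun i => ¬ D i ≤ T), (I.q i : ℝ) := by
    rw [hVF] at hV
    linarith
  have hnn : ∀ i ∈ F, 0 ≤ Oj N I D i * (I.q i : ℝ) ^ 2 := by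
    intro i hi
    rw [hF, Finset.mem_filter] at hi
    have h5 := hOpt.rel i hi.1
    unfold Oj
    refine mul_nonneg (div_nonneg (mul_nonneg hN0.le (by linarith)) (Nat.cast_nonneg _)) ?_
    positivity
  have hlow : ∀ i ∈ F.filter (fun i => ¬ D i ≤ T),
      E / 2 * (I.q i : ℝ) ≤ Oj N I D i * (I.q i : ℝ) ^ 2 := by
    intro i hi
    rw [Finset.mem_filter] at hi
    have h6 := hi.1
    rw [hF, Finset.mem_filter] at h6
    have h7 : (I.R i : ℝ) ≤ b := by
      exact_mod_cast h6.2.1.2.le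
    have h8 : E / (2 * N) ≤ D i - I.R i := by
      have h9 := not_le.1 hi.2
      rw [hT] at h9
      linarith
    have hq : (0 : ℝ) < (I.q i : ℝ) := by
      have h10 := hOk i h6.1
      have h11 : 0 < N * N := Nat.mul_pos (by omega) (by omega)
      have h12 : 0 < I.q i := by omega
      exact_mod_cast h12
    have h13 : Oj N I D i * (I.q i : ℝ) ^ 2 = N * (D i - I.R i) * I.q i := by
      unfold Oj
      field_simp
    rw [h13]
    refine mul_le_mul_of_nonneg_right ?_ hq.le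
    calc E / 2 = N * (E / (2 * N)) := by field_simp
      _ ≤ N * (D i - I.R i) := mul_le_mul_of_nonneg_left h8 hN0.le
  have hsum : E / 2 * (E / 2) ≤ ∑ i ∈ F, Oj N I D i * (I.q i : ℝ) ^ 2 := by
    calc E / 2 * (E / 2) ≤ E / 2 * ∑ i ∈ F.filter (fun i => ¬ D i ≤ T), (I.q i : ℝ) :=
          mul_le_mul_of_nonneg_left hrest (by linarith)
      _ = ∑ i ∈ F.filter (fun i => ¬ D i ≤ T), E / 2 * (I.q i : ℝ) := by rw [Finset.mul_sum]
      _ ≤ ∑ i ∈ F.filter (fun i => ¬ D i ≤ T), Oj N I D i * (I.q i : ℝ) ^ 2 :=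
          Finset.sum_le_sum hlow
      _ ≤ ∑ i ∈ F, Oj N I D i * (I.q i : ℝ) ^ 2 :=
          Finset.sum_le_sum_of_subset_of_nonneg (Finset.filter_subset _ _)
            fun i hi _ => hnn i hi
  calc E ^ 2 = 4 * (E / 2 * (E / 2)) := by ring
    _ ≤ 4 * ∑ i ∈ F, Oj N I D i * (I.q i : ℝ) ^ 2 := by linarith

end STR
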