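import Pool.Agent.STR.TargetsReal

/-!
# Project STR: causality of the limit algorithm
-/

set_option autoImplicit false

namespace STR

open Filter Topology

namespace LC_

theorem uf_fin (U : Ultrafilter ℕ) (S : Finset ℕ) (p : ℕ → ℕ → Prop)
    (h : ∀ᶠ m in (U : Filter ℕ), ∃ j ∈ S, p j m) :
    ∃ j ∈ S, ∀ᶠ m in (U : Filter ℕ), p j m := by
  by_contra hc
  have h1 : ∀ j ∈ S, ∀ᶠ m in (U : Filter ℕ), ¬ p j m := by
    intro j hj
    rw [Ultrafilter.eventually_not]
    exact fun h' => hc ⟨j, hj, h'⟩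
  have h2 : ∀ᶠ m in (U : Filter ℕ), ∀ j ∈ S, ¬ p j m := (Finset.eventually_all S).2 h1
  obtain ⟨m, hm1, hm2⟩ := (h.and h2).exists
  obtain ⟨j, hj, hj'⟩ := hm1
  exact hm2 j hj hj'

theorem lip {I : Inst} {s : ℝ} {W : ℕ → ℝ → ℝ} (hW : Feasible I s W) {j : ℕ} (hj : j ∈ I.jobs)
    {t t' : ℝ} (h : t ≤ t') : W j t' - W j t ≤ s * (t' - t) :=
  le_trans (Finset.single_le_sum (f := fun j => W j t' - W j t)
    (fun i hi => sub_nonneg.2 (hW.mono i hi h)) hj) (hW.speed t t' h)

/-- the same information at an earlier time -/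
theorem info {I I' : Inst} {W W' : ℕ → ℝ → ℝ} {t τ : ℝ} (h1 : ∀ j, (j ∈ I.jobs ∧ I.r j < t) ↔
    (j ∈ I'.jobs ∧ I'.r j < t)) (h2 : ∀ j ∈ I.jobs, I.r j < t → I.r j = I'.r j) (hτ : τ ≤ t)
    (h3 : ∀ j ∈ I.jobs, I.r j < t → ∀ x < τ, (I.p j ≤ W j x ↔ I'.p j ≤ W' j x)) :
    SameInfo I I' W W' τ := by
  refine ⟨fun j => ⟨fun h => ?_, fun h => ?_⟩, fun j hj hr => h2 j hj (by linarith),
    fun j hj hr => h3 j hj (by linarith)⟩
  · have h4 := (h1 j).1 ⟨h.1, by linarith [h.2]⟩
    have h5 := h2 j h.1 (by linarith [h.2])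
    exact ⟨h4.1, by rw [← h5]; exact h.2⟩
  · have h4 := (h1 j).2 ⟨h.1, by linarith [h.2]⟩
    have h5 := h2 j h4.1 h4.2
    exact ⟨h4.1, by rw [h5]; exact h.2⟩

/-- equality of the works from causality -/
theorem same {s : ℝ} {A : Inst → ℕ → ℝ → ℝ} (hA : NonClair s A) {I I' : Inst} {t τ : ℝ}
    (h1 : ∀ j, (j ∈ I.jobs ∧ I.r j < t) ↔ (j ∈ I'.jobs ∧ I'.r j < t))
    (h2 : ∀ j ∈ I.jobs, I.r j < t → I.r j = I'.r j) (hτ : τ ≤ t)
    (h3 : ∀ j ∈ I.jobs, I.r j < t → ∀ x < τ, (I.p j ≤ A I j x ↔ I'.p j ≤ A I' j x)) :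
    ∀ j ∈ I.jobs, I.r j < t → ∀ x ≤ τ, A I j x = A I' j x := by
  intro j hj hr x hx
  by_cases h4 : I.r j < τ
  · exact hA.caus I I' τ (info h1 h2 hτ h3) j hj h4 x hx
  · have h5 : x ≤ I.r j := by linarith
    have h6 := ((h1 j).1 ⟨hj, hr⟩).1
    rw [(hA.feas I).before j hj x h5, (hA.feas I').before j h6 x (by rw [← h2 j hj hr]; exact h5)]

/-- the key fact at the first difference for one job -/
theorem key1 {s : ℝ} (hs : 0 < s) {f g : ℝ → ℝ} {p q σ : ℝ}
    (hf : ∀ t t', t ≤ t' → f t ≤ f t' ∧ f t' - f t ≤ s * (t' - t))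
    (hg : ∀ t t', t ≤ t' → g t ≤ g t' ∧ g t' - g t ≤ s * (t' - t))
    (he : f σ = g σ)
    (h1 : ∀ x < σ, (p ≤ f x ↔ q ≤ g x))
    (h2 : ∀ η > σ, ∃ x, σ ≤ x ∧ x < η ∧ ¬ (p ≤ f x ↔ q ≤ g x)) :
    (f σ = p ∧ p < q) ∨ (f σ = q ∧ q < p) := by
  -- not both incomplete near σ
  have a1 : p ≤ f σ ∨ q ≤ f σ := by
    by_contra hc
    rw [not_or, not_le, not_le] at hc
    set η := min (p - f σ) (q - f σ) with hη
    have hη0 : 0 < η := lt_min (by linarith [hc.1]) (by linarith [hc.2])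
    obtain ⟨x, hx1, hx2, hx3⟩ := h2 (σ + η / s) (by have := div_pos hη0 hs; linarith)
    apply hx3
    have b1 := (hf σ x hx1).2
    have b2 := (hg σ x hx1).2
    have b3 : s * (x - σ) < η := by
      have : x - σ < η / s := by linarith
      rw [lt_div_iff₀ hs] at this
      linarith
    have b4 : η ≤ p - f σ := min_le_left _ _
    have b5 : η ≤ q - f σ := min_le_right _ _
    constructor
    · intro h; exfalso; linarith
    · intro h; exfalso; linarith
  have a2 : f σ < p ∨ f σ < q := by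
    by_contra hc
    rw [not_or, not_lt, not_lt] at hc
    obtain ⟨x, hx1, hx2, hx3⟩ := h2 (σ + 1) (by linarith)
    apply hx3
    have b1 := (hf σ x hx1).1
    have b2 := (hg σ x hx1).1
    constructor
    · intro _; linarith [hc.2]
    · intro _; linarith [hc.1]
  rcases lt_trichotomy p q with hpq | hpq | hpq
  · left
    have c1 : p ≤ f σ := by
      rcases a1 with h | h <;> linarith
    have c2 : f σ < q := by
      rcases a2 with h | h <;> linarith
    refine ⟨?_, hpq⟩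
    by_contra hne
    have c3 : p < f σ := lt_of_le_of_ne c1 (Ne.symm hne)
    have hd : 0 < (f σ - p) / (2 * s) := div_pos (by linarith) (by linarith)
    have d1 := (hf (σ - (f σ - p) / (2 * s)) σ (by linarith)).2
    have d2 := (hg (σ - (f σ - p) / (2 * s)) σ (by linarith)).1
    have d3 : s * (σ - (σ - (f σ - p) / (2 * s))) = (f σ - p) / 2 := by
      field_simp
      ring
    rw [d3] at d1
    have d4 := (h1 (σ - (f σ - p) / (2 * s)) (by linarith)).1 (by linarith)
    linarith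
  · exfalso
    subst hpq
    rcases a1 with h | h <;> rcases a2 with h' | h' <;> linarith
  · right
    have c1 : q ≤ f σ := by
      rcases a1 with h | h <;> linarith
    have c2 : f σ < p := by
      rcases a2 with h | h <;> linarith
    refine ⟨?_, hpq⟩
    by_contra hne
    have c3 : q < f σ := lt_of_le_of_ne c1 (Ne.symm hne)
    have hd : 0 < (f σ - q) / (2 * s) := div_pos (by linarith) (by linarith)
    have d1 := (hg (σ - (f σ - q) / (2 * s)) σ (by linarith)).2
    have d2 := (hf (σ - (f σ - q) / (2 * s)) σ (by linarith)).1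
    have d3 : s * (σ - (σ - (f σ - q) / (2 * s))) = (f σ - q) / 2 := by
      field_simp
      ring
    rw [d3] at d1
    have d4 := (h1 (σ - (f σ - q) / (2 * s)) (by linarith)).2 (by linarith)
    linarith

/-- the first difference -/
theorem key2 {s : ℝ} (hs : 0 < s) {A : Inst → ℕ → ℝ → ℝ} (hA : NonClair s A) {I I' : Inst}
    {t τ : ℝ} (h1 : ∀ j, (j ∈ I.jobs ∧ I.r j < t) ↔ (j ∈ I'.jobs ∧ I'.r j < t))
    (h2 : ∀ j ∈ I.jobs, I.r j < t → I.r j = I'.r j) (hτ : τ < t)
    (h3 : ¬ ∀ j ∈ I.jobs, I.r j < t → ∀ x < τ, (I.p j ≤ A I j x ↔ I'.p j ≤ A I' j x)) :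
    ∃ σ, 0 ≤ σ ∧ σ ≤ τ ∧ ∃ j ∈ I.jobs.filter (fun j => I.r j < t),
      A I j σ = A I' j σ ∧ ((A I j σ = I.p j ∧ I.p j < I'.p j) ∨
        (A I j σ = I'.p j ∧ I'.p j < I.p j)) := by
  classical
  set D : ℕ → Set ℝ := fun j => {x | x < τ ∧ ¬ (I.p j ≤ A I j x ↔ I'.p j ≤ A I' j x)} with hD
  set S := (I.jobs.filter (fun j => I.r j < t)).filter (fun j => (D j).Nonempty) with hS
  have hSne : S.Nonempty := by
    by_contra hemp
    apply h3
    intro j hj hr x hx
    by_contra hx'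
    apply hemp
    refine ⟨j, ?_⟩
    rw [hS, Finset.mem_filter, Finset.mem_filter]
    exact ⟨⟨hj, hr⟩, x, hx, hx'⟩
  obtain ⟨j, hjS, hmin⟩ := S.exists_min_image (fun j => sInf (D j)) hSne
  rw [hS, Finset.mem_filter] at hjS
  obtain ⟨hjF, hjD⟩ := hjS
  have hjJ := (Finset.mem_filter.1 hjF).1
  have hjr := (Finset.mem_filter.1 hjF).2
  have hpos : ∀ i ∈ I.jobs.filter (fun j => I.r j < t), ∀ x ∈ D i, 0 ≤ x := by
    intro i hi x hx
    by_contra hneg
    rw [not_le] at hneg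
    have hi' := Finset.mem_filter.1 hi
    have hi2 := ((h1 i).1 hi').1
    have e1 := (hA.feas I).before i hi'.1 x (by linarith [I.r_nonneg i hi'.1])
    have e2 := (hA.feas I').before i hi2 x (by linarith [I'.r_nonneg i hi2])
    apply hx.2
    rw [e1, e2]
    have p1 := I.p_pos i hi'.1
    have p2 := I'.p_pos i hi2
    constructor
    · intro h; linarith
    · intro h; linarith
  have hbdd : ∀ i ∈ I.jobs.filter (fun j => I.r j < t), BddBelow (D i) :=
    fun i hi => ⟨0, fun x hx => hpos i hi x hx⟩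
  set σ := sInf (D j) with hσ
  have hσ0 : 0 ≤ σ := le_csInf hjD (fun x hx => hpos j hjF x hx)
  have hστ : σ ≤ τ := by
    obtain ⟨x, hx⟩ := hjD
    exact (csInf_le (hbdd j hjF) hx).trans hx.1.le
  have hno : ∀ i ∈ I.jobs, I.r i < t → ∀ x < σ, (I.p i ≤ A I i x ↔ I'.p i ≤ A I' i x) := by
    intro i hi hr x hx
    by_contra hc
    have hiF : i ∈ I.jobs.filter (fun j => I.r j < t) := Finset.mem_filter.2 ⟨hi, hr⟩
    have hxD : x ∈ D i := ⟨by linarith, hc⟩
    have hiS : i ∈ S := by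
      rw [hS, Finset.mem_filter]
      exact ⟨hiF, x, hxD⟩
    have e1 := hmin i hiS
    have e2 := csInf_le (hbdd i hiF) hxD
    have e3 : σ ≤ sInf (D i) := e1
    linarith
  have heq := same hA h1 h2 (by linarith : σ ≤ t) hno
  refine ⟨σ, hσ0, hστ, j, hjF, heq j hjJ hjr σ le_rfl, ?_⟩
  have hj' := ((h1 j).1 ⟨hjJ, hjr⟩).1
  refine key1 hs (f := A I j) (g := A I' j) (p := I.p j) (q := I'.p j)
    (fun a b hab => ⟨(hA.feas I).mono j hjJ hab, lip (hA.feas I) hjJ hab⟩)
    (fun a b hab => ⟨(hA.feas I').mono j hj' hab, lip (hA.feas I') hj' hab⟩)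
    (heq j hjJ hjr σ le_rfl) (hno j hjJ hjr) ?_
  intro η hη
  obtain ⟨x, hx, hx'⟩ := exists_lt_of_csInf_lt hjD (show sInf (D j) < η from hη)
  exact ⟨x, csInf_le (hbdd j hjF) hx, hx', hx.2⟩

end LC_

theorem p_LC (hULM : T_ULM) (hLF : T_LF) : T_LC := by
  classical
  intro s hs A hA
  obtain ⟨hfeas, hjoint⟩ := hLF s hs A hA
  refine ⟨hfeas, ?_⟩
  intro I I' t hinfo
  obtain ⟨h1, h2, h30⟩ := hinfo
  have h3 : ∀ j ∈ I.jobs, I.r j < t → ∀ τ < t, ((I.p j ≤ ulim fun m => A m I j τ) ↔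
    I'.p j ≤ ulim fun m => A m I' j τ) := h30
  -- equality before t
  have main : ∀ j ∈ I.jobs, I.r j < t → ∀ τ < t,
      (ulim fun m => A m I j τ) = ulim fun m => A m I' j τ := by
    intro j hj hr τ hτ
    have hj' := ((h1 j).1 ⟨hj, hr⟩).1
    by_cases hG : ∀ᶠ m in ((hyperfilter ℕ : Ultrafilter ℕ) : Filter ℕ),
        ∀ i ∈ I.jobs, I.r i < t → ∀ x < τ, (I.p i ≤ A m I i x ↔ I'.p i ≤ A m I' i x)
    · have e1 := hjoint I j hj (fun _ => τ) τ tendsto_const_nhds
      have e2 := hjoint I' j hj' (fun _ => τ) τ tendsto_const_nhds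
      have e3 : (fun m => A m I j τ) =ᶠ[((hyperfilter ℕ : Ultrafilter ℕ) : Filter ℕ)]
          fun m => A m I' j τ := by
        filter_upwards [hG] with m hm
        exact LC_.same (hA m) h1 h2 hτ.le hm j hj hr τ le_rfl
      exact tendsto_nhds_unique e1 (e2.congr' e3.symm)
    · exfalso
      rw [← Ultrafilter.eventually_not] at hG
      have hex : ∀ m, ∃ σ, 0 ≤ σ ∧ σ ≤ max τ 0 ∧
          ((¬ ∀ i ∈ I.jobs, I.r i < t → ∀ x < τ, (I.p i ≤ A m I i x ↔ I'.p i ≤ A m I' i x)) →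
            σ ≤ τ ∧ ∃ j ∈ I.jobs.filter (fun j => I.r j < t),
            A m I j σ = A m I' j σ ∧ ((A m I j σ = I.p j ∧ I.p j < I'.p j) ∨
              (A m I j σ = I'.p j ∧ I'.p j < I.p j))) := by
        intro m
        by_cases h : ∀ i ∈ I.jobs, I.r i < t → ∀ x < τ, (I.p i ≤ A m I i x ↔ I'.p i ≤ A m I' i x)
        · exact ⟨0, le_rfl, le_max_right _ _, fun h' => absurd h h'⟩
        · obtain ⟨σ, a1, a2, a3⟩ := LC_.key2 hs (hA m) h1 h2 hτ h
          exact ⟨σ, a1, a2.trans (le_max_left _ _), fun _ => ⟨a2, a3⟩⟩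
      choose σ hσ0 hσ1 hσ2 using hex
      have hσlim := hULM.1 σ 0 (max τ 0) (fun m => ⟨hσ0 m, hσ1 m⟩)
      have hσle : ulim σ ≤ τ := by
        refine le_of_tendsto hσlim ?_
        filter_upwards [hG] with m hm
        exact (hσ2 m hm).1
      have hpig := LC_.uf_fin (hyperfilter ℕ) (I.jobs.filter (fun j => I.r j < t))
        (fun j m => A m I j (σ m) = A m I' j (σ m) ∧
          ((A m I j (σ m) = I.p j ∧ I.p j < I'.p j) ∨
            (A m I j (σ m) = I'.p j ∧ I'.p j < I.p j)))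
        (by filter_upwards [hG] with m hm; exact (hσ2 m hm).2)
      obtain ⟨i, hi, hi2⟩ := hpig
      have hiJ := (Finset.mem_filter.1 hi).1
      have hir := (Finset.mem_filter.1 hi).2
      have hiJ' := ((h1 i).1 ⟨hiJ, hir⟩).1
      have l1 := hjoint I i hiJ σ (ulim σ) hσlim
      have l2 := hjoint I' i hiJ' σ (ulim σ) hσlim
      have h4 := h3 i hiJ hir (ulim σ) (by linarith)
      have hi3 : (∀ᶠ m in ((hyperfilter ℕ : Ultrafilter ℕ) : Filter ℕ),
          (A m I i (σ m) = A m I' i (σ m) ∧ A m I i (σ m) = I.p i ∧ I.p i < I'.p i)) ∨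
          ∀ᶠ m in ((hyperfilter ℕ : Ultrafilter ℕ) : Filter ℕ),
          (A m I i (σ m) = A m I' i (σ m) ∧ A m I i (σ m) = I'.p i ∧ I'.p i < I.p i) := by
        rw [← Ultrafilter.eventually_or]
        filter_upwards [hi2] with m hm
        rcases hm.2 with hm2 | hm2
        · left; exact ⟨hm.1, hm2⟩
        · right; exact ⟨hm.1, hm2⟩
      rcases hi3 with hc | hc
      · obtain ⟨m0, -, -, hlt⟩ := hc.exists
        have e1 : (ulim fun m => A m I i (ulim σ)) = I.p i := by
          refine tendsto_nhds_unique l1 (tendsto_const_nhds.congr' ?_)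
          filter_upwards [hc] with m hm
          exact hm.2.1.symm
        have e2 : (ulim fun m => A m I' i (ulim σ)) = I.p i := by
          refine tendsto_nhds_unique l2 (tendsto_const_nhds.congr' ?_)
          filter_upwards [hc] with m hm
          exact (hm.1.symm.trans hm.2.1).symm
        have h5 := h4.1 (by rw [e1])
        rw [e2] at h5
        linarith
      · obtain ⟨m0, -, -, hlt⟩ := hc.exists
        have e1 : (ulim fun m => A m I i (ulim σ)) = I'.p i := by
          refine tendsto_nhds_unique l1 (tendsto_const_nhds.congr' ?_)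
          filter_upwards [hc] with m hm
          exact hm.2.1.symm
        have e2 : (ulim fun m => A m I' i (ulim σ)) = I'.p i := by
          refine tendsto_nhds_unique l2 (tendsto_const_nhds.congr' ?_)
          filter_upwards [hc] with m hm
          exact (hm.1.symm.trans hm.2.1).symm
        have h5 := h4.2 (by rw [e2])
        rw [e1] at h5
        linarith
  intro j hj hr τ hτ
  rcases lt_or_eq_of_le hτ with hlt | heq
  · exact main j hj hr τ hlt
  · subst heq
    have hj' := ((h1 j).1 ⟨hj, hr⟩).1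
    have hl1 := fun a b (hab : a ≤ b) => LC_.lip (hfeas I) hj hab
    have hm1 := fun a b (hab : a ≤ b) => (hfeas I).mono j hj hab
    have hl2 := fun a b (hab : a ≤ b) => LC_.lip (hfeas I') hj' hab
    have hm2 := fun a b (hab : a ≤ b) => (hfeas I').mono j hj' hab
    refine le_antisymm ?_ ?_
    · refine le_of_forall_pos_le_add fun ε hε => ?_
      have hd : 0 < ε / s := div_pos hε hs
      have e1 := hl1 (τ - ε / s) τ (by linarith)
      have e2 := hm2 (τ - ε / s) τ (by linarith)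
      have e3 := main j hj hr (τ - ε / s) (by linarith)
      have e4 : s * (τ - (τ - ε / s)) = ε := by field_simp; ring
      simp only at e1 e2 e3 e4 ⊢
      rw [e4] at e1
      linarith
    · refine le_of_forall_pos_le_add fun ε hε => ?_
      have hd : 0 < ε / s := div_pos hε hs
      have e1 := hl2 (τ - ε / s) τ (by linarith)
      have e2 := hm1 (τ - ε / s) τ (by linarith)
      have e3 := main j hj hr (τ - ε / s) (by linarith)
      have e4 : s * (τ - (τ - ε / s)) = ε := by field_simp; ring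
      simp only at e1 e2 e3 e4 ⊢
      rw [e4] at e1
      linarith

end STR
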