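import Pool.Agent.STR.TargetsReal

/-!
# Project STR: limits of feasible schedules (T_LF)
-/

set_option autoImplicit false

namespace STR

open Filter Topology

namespace LF_

/-- increments of the work on one job -/
theorem lip {I : Inst} {s : ℝ} {W : ℕ → ℝ → ℝ} (hW : Feasible I s W) {j : ℕ} (hj : j ∈ I.jobs)
    {t t' : ℝ} (h : t ≤ t') : 0 ≤ W j t' - W j t ∧ W j t' - W j t ≤ s * (t' - t) := by
  refine ⟨sub_nonneg.2 (hW.mono j hj h), ?_⟩
  refine le_trans ?_ (hW.speed t t' h)
  exact Finset.single_le_sum (f := fun j => W j t' - W j t)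
    (fun i hi => sub_nonneg.2 (hW.mono i hi h)) hj

/-- bounds for the work on one job -/
theorem bd {I : Inst} {s : ℝ} {W : ℕ → ℝ → ℝ} (hW : Feasible I s W) {j : ℕ} (hj : j ∈ I.jobs)
    (t : ℝ) : 0 ≤ W j t ∧ W j t ≤ s * (max t (I.r j) - I.r j) := by
  rcases le_total t (I.r j) with h | h
  · rw [hW.before j hj t h, max_eq_right h, sub_self, mul_zero]
    exact ⟨le_rfl, le_rfl⟩
  · have h1 := lip hW hj h
    rw [hW.before j hj _ le_rfl, sub_zero] at h1
    rw [max_eq_left h]
    exact h1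

theorem abs_lip {I : Inst} {s : ℝ} {W : ℕ → ℝ → ℝ} (hW : Feasible I s W) {j : ℕ}
    (hj : j ∈ I.jobs) (t t' : ℝ) : |W j t' - W j t| ≤ s * |t' - t| := by
  rcases le_total t t' with h | h
  · have h1 := lip hW hj h
    rw [abs_of_nonneg h1.1, abs_of_nonneg (sub_nonneg.2 h)]
    exact h1.2
  · have h1 := lip hW hj h
    rw [abs_sub_comm, abs_sub_comm t', abs_of_nonneg h1.1, abs_of_nonneg (sub_nonneg.2 h)]
    exact h1.2

end LF_

theorem p_LF (hULM : T_ULM) : T_LF := by
  intro s hs A hA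
  have key : ∀ I : Inst, ∀ j ∈ I.jobs, ∀ t : ℝ, Tendsto (fun m => A m I j t)
      ((hyperfilter ℕ : Ultrafilter ℕ) : Filter ℕ) (𝓝 (ulim fun m => A m I j t)) :=
    fun I j hj t => hULM.1 (fun m => A m I j t) 0 _ (fun m => LF_.bd ((hA m).feas I) hj t)
  refine ⟨fun I => ⟨?_, ?_, ?_⟩, ?_⟩
  · intro j hj t t' h
    exact le_of_tendsto_of_tendsto' (key I j hj t) (key I j hj t')
      (fun m => ((hA m).feas I).mono j hj h)
  · intro j hj t ht
    have h1 := hULM.2.1 (fun m => A m I j t) 0 0 (fun m => by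
      show 0 ≤ A m I j t ∧ A m I j t ≤ 0
      rw [((hA m).feas I).before j hj t ht]
      exact ⟨le_rfl, le_rfl⟩)
    exact le_antisymm h1.2 h1.1
  · intro t t' h
    have h1 : Tendsto (fun m => ∑ j ∈ I.jobs, (A m I j t' - A m I j t))
        ((hyperfilter ℕ : Ultrafilter ℕ) : Filter ℕ)
        (𝓝 (∑ j ∈ I.jobs, ((ulim fun m => A m I j t') - ulim fun m => A m I j t))) :=
      tendsto_finsetSum _ (fun j hj => (key I j hj t').sub (key I j hj t))
    exact le_of_tendsto' h1 (fun m => ((hA m).feas I).speed t t' h)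
  · intro I j hj τ τ0 hτ
    have h1 : Tendsto (fun m => A m I j (τ m) - A m I j τ0)
        ((hyperfilter ℕ : Ultrafilter ℕ) : Filter ℕ) (𝓝 0) := by
      have h2 : Tendsto (fun m => s * |τ m - τ0|)
          ((hyperfilter ℕ : Ultrafilter ℕ) : Filter ℕ) (𝓝 0) := by
        have h3 : Tendsto (fun m => s * |τ m - τ0|)
            ((hyperfilter ℕ : Ultrafilter ℕ) : Filter ℕ) (𝓝 (s * |τ0 - τ0|)) :=
          ((hτ.sub_const τ0).abs).const_mul s
        rw [sub_self, abs_zero, mul_zero] at h3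
        exact h3
      refine squeeze_zero_norm (fun m => ?_) h2
      rw [Real.norm_eq_abs]
      exact LF_.abs_lip ((hA m).feas I) hj τ0 (τ m)
    have h4 := (key I j hj τ0).add h1
    rw [add_zero] at h4
    refine h4.congr (fun m => ?_)
    ring

end STR
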