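import Pool.Agent.STR.TargetsReal

/-!
# Project STR, T_LOC: locality of the run
-/

set_option autoImplicit false

namespace STR

namespace LOC_

theorem contn_congr {N : ℕ} {Rf Rf' : ℕ → ℕ} {al : Finset ℕ} (h : ∀ j ∈ al, Rf j = Rf' j)
    (e : ℕ → ℕ) (t k : ℕ) (a : ℕ∞) :
    contn N Rf al e t k a = contn N Rf' al e t k a := by
  apply propext
  unfold contn
  constructor
  · rintro ⟨j, hj, h1, h2⟩
    have h3 := h j (Finset.mem_filter.1 hj).1
    exact ⟨j, hj, by rw [← h3]; exact h1, by rw [← h3]; exact h2⟩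
  · rintro ⟨j, hj, h1, h2⟩
    have h3 := h j (Finset.mem_filter.1 hj).1
    exact ⟨j, hj, by rw [h3]; exact h1, by rw [h3]; exact h2⟩

theorem mid_congr {N : ℕ} {Rf Rf' : ℕ → ℕ} {al : Finset ℕ} (h : ∀ j ∈ al, Rf j = Rf' j)
    (e : ℕ → ℕ) (uo : ℕ → ℕ∞) (b : ℕ → ℕ) (t k : ℕ) :
    mid N Rf al e uo b t k = mid N Rf' al e uo b t k := by
  induction k with
  | zero =>
    unfold mid
    rw [contn_congr h]
  | succ k ih =>
    unfold mid
    rw [contn_congr h, ih]

theorem updU_congr {N : ℕ} {Rf Rf' : ℕ → ℕ} {al : Finset ℕ} (h : ∀ j ∈ al, Rf j = Rf' j)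
    (e : ℕ → ℕ) (uo : ℕ → ℕ∞) (b : ℕ → ℕ) (t : ℕ) :
    updU N Rf al e uo b t = updU N Rf' al e uo b t := by
  funext k
  have h1 : (∃ j ∈ al, Rf j = t) = (∃ j ∈ al, Rf' j = t) := by
    apply propext
    constructor
    · rintro ⟨j, hj, h1⟩
      exact ⟨j, hj, by rw [← h j hj]; exact h1⟩
    · rintro ⟨j, hj, h1⟩
      exact ⟨j, hj, by rw [h j hj]; exact h1⟩
  unfold updU
  rw [mid_congr h]
  by_cases h2 : mid N Rf' al e uo b t k = ⊤ ∧ ∃ j ∈ al, Rf' j = t
  · rw [if_pos h2, if_pos (by rw [h1]; exact h2)]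
  · rw [if_neg h2, if_neg (by rw [h1]; exact h2)]

theorem mainJ_congr {N : ℕ} {Rf Rf' : ℕ → ℕ} {al : Finset ℕ} (h : ∀ j ∈ al, Rf j = Rf' j)
    (S : St) : mainJ N Rf al S = mainJ N Rf' al S := by
  classical
  have hf : ∀ k, ((lowJ N al S.e k).filter fun j => S.u k ≤ (Rf j : ℕ∞)) =
      (lowJ N al S.e k).filter fun j => S.u k ≤ (Rf' j : ℕ∞) := by
    intro k
    apply Finset.filter_congr
    intro j hj
    rw [h j (Finset.mem_filter.1 hj).1]
  unfold mainJ
  simp only [hf]

theorem serve_congr {N : ℕ} {Rf Rf' : ℕ → ℕ} {al : Finset ℕ} (h : ∀ j ∈ al, Rf j = Rf' j)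
    (S : St) : serve N Rf al S = serve N Rf' al S := by
  funext j
  unfold serve
  rw [mainJ_congr h]

theorem sim_congr (N : ℕ) (I I' : DI) (n : ℕ) (h1 : ∀ t ≤ n, al N I t = al N I' t)
    (h2 : ∀ t ≤ n, ∀ j ∈ al N I t, I.R j = I'.R j) : sim N I n = sim N I' n := by
  induction n with
  | zero =>
    have ha : alv I 0 (fun _ => 0) = alv I' 0 (fun _ => 0) := h1 0 le_rfl
    have hr : ∀ j ∈ alv I' 0 (fun _ => 0), I.R j = I'.R j := by
      rw [← ha]; exact h2 0 le_rfl
    unfold sim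
    rw [ha, updU_congr hr]
  | succ n ih =>
    have hs : sim N I n = sim N I' n :=
      ih (fun t ht => h1 t (by omega)) (fun t ht => h2 t (by omega))
    have ha : alv I n (sim N I n).e = alv I' n (sim N I' n).e := h1 n (by omega)
    have hr : ∀ j ∈ alv I' n (sim N I' n).e, I.R j = I'.R j := by
      rw [← ha]; exact h2 n (by omega)
    have he : serve N I.R (alv I n (sim N I n).e) (sim N I n) =
        serve N I'.R (alv I' n (sim N I' n).e) (sim N I' n) := by
      rw [ha, hs]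
      exact serve_congr hr _
    have ha' : alv I (n + 1) (serve N I.R (alv I n (sim N I n).e) (sim N I n)) =
        alv I' (n + 1) (serve N I'.R (alv I' n (sim N I' n).e) (sim N I' n)) :=
      h1 (n + 1) le_rfl
    have hr' : ∀ j ∈ alv I' (n + 1) (serve N I'.R (alv I' n (sim N I' n).e) (sim N I' n)),
        I.R j = I'.R j := by
      rw [← ha']; exact h2 (n + 1) le_rfl
    have hb : updB N (alv I n (sim N I n).e) (sim N I n) n =
        updB N (alv I' n (sim N I' n).e) (sim N I' n) n := by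
      rw [ha, hs]
    unfold sim
    rw [ha', he, hb, hs, updU_congr hr']

end LOC_

theorem p_LOC : T_LOC := by
  intro N I I' n h1 h2
  have hs := LOC_.sim_congr N I I' n h1 h2
  refine ⟨hs, fun j => ?_⟩
  have ha : alv I n (sim N I n).e = alv I' n (sim N I' n).e := h1 n le_rfl
  have hr : ∀ j ∈ alv I' n (sim N I' n).e, I.R j = I'.R j := by
    rw [← ha]; exact h2 n le_rfl
  have he : serve N I.R (alv I n (sim N I n).e) (sim N I n) =
      serve N I'.R (alv I' n (sim N I' n).e) (sim N I' n) := by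
    rw [ha, hs]
    exact LOC_.serve_congr hr _
  exact congrFun he j

end STR

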