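import Pool.Agent.STR.TargetsReal

set_option autoImplicit false

/-!
# Project STR: the main theorem from the bound for a fixed unit and the limit lemmas
-/

namespace STR

open Filter Topology

namespace MAIN_

/-- choice of `N` -/
theorem exists_N (ε : ℝ) (hε : 0 < ε) : ∃ N : ℕ, 8 ≤ N ∧
    (1 + 1 / ((N : ℝ) * N)) * N ≤ ((N : ℝ) - 4) * (1 + ε) := by
  refine ⟨max 8 ⌈4 + 5 / ε⌉₊, le_max_left _ _, ?_⟩
  set N : ℕ := max 8 ⌈4 + 5 / ε⌉₊ with hN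
  have h8 : (8 : ℝ) ≤ N := by exact_mod_cast (le_max_left 8 ⌈4 + 5 / ε⌉₊)
  have h5 : 4 + 5 / ε ≤ (N : ℝ) := by
    have h1 : (⌈4 + 5 / ε⌉₊ : ℝ) ≤ N := by exact_mod_cast (le_max_right 8 ⌈4 + 5 / ε⌉₊)
    exact (Nat.le_ceil _).trans h1
  have h6 : 5 ≤ ε * ((N : ℝ) - 4) := by
    have h7 : 5 / ε ≤ (N : ℝ) - 4 := by linarith
    have h8' : ε * (5 / ε) ≤ ε * ((N : ℝ) - 4) := mul_le_mul_of_nonneg_left h7 hε.le
    have h9 : ε * (5 / ε) = 5 := by field_simp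
    linarith
  have h10 : (1 + 1 / ((N : ℝ) * N)) * N = N + 1 / N := by
    have : (N : ℝ) ≠ 0 := by positivity
    field_simp
  have h11 : 1 / (N : ℝ) ≤ 1 := by
    rw [div_le_one (by linarith)]
    linarith
  rw [h10]
  nlinarith

/-- for small units all jobs are long -/
theorem small_unit (N : ℕ) (I : Inst) : ∃ m0 : ℕ, ∀ m : ℕ, m0 ≤ m → ∀ j ∈ I.jobs,
    (N : ℝ) * N * (1 / ((m : ℝ) + 1)) ≤ I.p j := by
  have h1 : Tendsto (fun m : ℕ => (N : ℝ) * N * (1 / ((m : ℝ) + 1))) atTop (𝓝 0) := by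
    have h2 := (tendsto_one_div_add_atTop_nhds_zero_nat (𝕜 := ℝ)).const_mul ((N : ℝ) * N)
    rw [mul_zero] at h2
    exact h2
  have h3 : ∀ᶠ m : ℕ in atTop, ∀ j ∈ I.jobs, (N : ℝ) * N * (1 / ((m : ℝ) + 1)) ≤ I.p j := by
    rw [Filter.eventually_all_finset]
    intro j hj
    exact h1.eventually_le_const (I.p_pos j hj)
  exact eventually_atTop.1 h3

end MAIN_

open MAIN_ in
theorem p_MAIN (hNCL : T_NCL) (hRB : T_RB) (hLC : T_LC) (hLB : T_LB) (hEX : T_EX) : T_MAIN := by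
  intro ε hε
  obtain ⟨N, hN8, hNs⟩ := exists_N ε hε
  have hs : (0 : ℝ) < 1 + ε := by linarith
  have hw : ∀ m : ℕ, (0 : ℝ) < 1 / ((m : ℝ) + 1) := fun m => by positivity
  have hA : ∀ m : ℕ, NonClair (1 + ε) (alg N (1 + ε) (1 / ((m : ℝ) + 1))) := fun m =>
    hNCL N (1 + ε) _ (by omega) hs (hw m)
  refine ⟨(6 * CD N + 1) * ((1 + ε) + 1),
    fun I j t => ulim fun m => alg N (1 + ε) (1 / ((m : ℝ) + 1)) I j t,
    hLC (1 + ε) hs (fun m => alg N (1 + ε) (1 / ((m : ℝ) + 1))) hA, ?_⟩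
  intro I P hP
  rcases I.jobs.eq_empty_or_nonempty with hE | ⟨j0, hj0⟩
  · refine ⟨fun _ => 0, ?_, ?_⟩
    · intro j hj
      rw [hE] at hj
      simp at hj
    · intro V d _ _
      rw [hE]
      simp
  · have hP1 : 1 ≤ P := by
      have h1 := hP j0 hj0 j0 hj0
      have h2 := I.p_pos j0 hj0
      by_contra h3
      rw [not_le] at h3
      nlinarith
    set Bd : Set ℝ := {b | ∃ (V : ℕ → ℝ → ℝ) (d : ℕ → ℝ), Feasible I 1 V ∧
      (∀ j ∈ I.jobs, I.p j ≤ V j (d j)) ∧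
      b = (6 * CD N + 1) * ((1 + ε) + 1) * (1 + Real.log P) * str I d} with hBd
    have hne : Bd.Nonempty := by
      obtain ⟨V, d, h1, h2⟩ := hEX I
      exact ⟨_, V, d, h1, h2, rfl⟩
    obtain ⟨m0, hm0⟩ := small_unit N I
    obtain ⟨c, hc1, hc2⟩ := hLB (1 + ε) hs (fun m => alg N (1 + ε) (1 / ((m : ℝ) + 1))) hA I Bd hne
      ⟨m0, fun m hm => by
        obtain ⟨c, h1, h2⟩ := hRB N (1 + ε) (1 / ((m : ℝ) + 1)) P I hN8 (by linarith) (hw m)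
          (hm0 m hm) hNs hP1 hP
        refine ⟨c, h1, ?_⟩
        rintro b ⟨V, d, h3, h4, rfl⟩
        exact h2 V d h3 h4⟩
    refine ⟨c, hc1, ?_⟩
    intro V d h3 h4
    exact hc2 _ ⟨V, d, h3, h4, rfl⟩

end STR
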