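import Pool.Agent.STR.TargetsOpt

/-!
# Project STR (MP_32d942_lc): the mass alternative (T_MASS)
-/

set_option autoImplicit false

namespace STR

namespace MASS_

open Classical in
/-- the rounded work of the released jobs against the volume of the low levels and the number
of the jobs of high level -/
theorem Wp_le {N : ℕ} {I : DI} (hN : 8 ≤ N) (hOk : Ok N I) (j k a b : ℕ) :
    N * Wp N I j a b ≤ (N + 1) * Vv N I k a b +
      N * (2 * (ell N j * (I.J.filter fun i => (a ≤ I.R i ∧ I.R i < b) ∧ k < lev N I i).card)) := by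
  have hsplit : Wp N I j a b =
      ∑ i ∈ I.J.filter (fun i => (a ≤ I.R i ∧ I.R i < b) ∧ lev N I i ≤ k),
        (min (I.q i) (ell N j) + N) +
      ∑ i ∈ I.J.filter (fun i => (a ≤ I.R i ∧ I.R i < b) ∧ k < lev N I i),
        (min (I.q i) (ell N j) + N) := by
    have h := Finset.sum_filter_add_sum_filter_not
      (I.J.filter (fun i => a ≤ I.R i ∧ I.R i < b)) (fun i => lev N I i ≤ k)
      (fun i => min (I.q i) (ell N j) + N)
    rw [Finset.filter_filter, Finset.filter_filter] at h
    simp only [not_le] at h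
    exact h.symm
  have h1 : N * ∑ i ∈ I.J.filter (fun i => (a ≤ I.R i ∧ I.R i < b) ∧ lev N I i ≤ k),
        (min (I.q i) (ell N j) + N) ≤ (N + 1) * Vv N I k a b := by
    unfold Vv
    rw [Finset.mul_sum, Finset.mul_sum]
    refine Finset.sum_le_sum fun i hi => ?_
    rw [Finset.mem_filter] at hi
    have h2 := hOk i hi.1
    have h3 : min (I.q i) (ell N j) ≤ I.q i := min_le_left _ _
    calc N * (min (I.q i) (ell N j) + N) ≤ N * (I.q i + N) :=
          Nat.mul_le_mul_left _ (Nat.add_le_add_right h3 _)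
      _ = N * I.q i + N * N := by ring
      _ ≤ N * I.q i + I.q i := Nat.add_le_add_left h2 _
      _ = (N + 1) * I.q i := by ring
  have h2 : ∑ i ∈ I.J.filter (fun i => (a ≤ I.R i ∧ I.R i < b) ∧ k < lev N I i),
        (min (I.q i) (ell N j) + N) ≤
      2 * (ell N j * (I.J.filter fun i => (a ≤ I.R i ∧ I.R i < b) ∧ k < lev N I i).card) := by
    have h3 : ∀ i ∈ I.J.filter (fun i => (a ≤ I.R i ∧ I.R i < b) ∧ k < lev N I i),
        min (I.q i) (ell N j) + N ≤ 2 * ell N j := by
      intro i _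
      have h4 : min (I.q i) (ell N j) ≤ ell N j := min_le_right _ _
      have h5 := NN_le_ell N j
      have h6 : N * 1 ≤ N * N := Nat.mul_le_mul_left _ (by omega)
      omega
    have h7 := Finset.sum_le_card_nsmul _ _ _ h3
    rw [smul_eq_mul] at h7
    refine h7.trans (le_of_eq ?_)
    ring
  rw [hsplit, mul_add]
  exact Nat.add_le_add h1 (Nat.mul_le_mul_left _ h2)

/-- from the failure of the first alternative: the number of high jobs is large -/
theorem large {N F M d len V W G e : ℕ} (hN : 8 ≤ N) (hlen : 0 < len) (hM : 16 * F * N ≤ M)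
    (hW : F * ((N - 2) * d) + len ≤ F * W) (hWV : N * W ≤ (N + 1) * V + N * (2 * (e * G)))
    (hV : M * V < M * ((N - 4) * d) + len) : len ≤ 4 * F * (e * G) := by
  have hF : 0 < F := by
    rcases Nat.eq_zero_or_pos F with h | h
    · subst h
      simp only [zero_mul] at hW
      omega
    · exact h
  have hMp : 0 < M := lt_of_lt_of_le (by positivity) hM
  obtain ⟨n, rfl⟩ : ∃ n, N = n + 4 := ⟨N - 4, by omega⟩
  have e1 : n + 4 - 2 = n + 2 := by omega
  have e2 : n + 4 - 4 = n := by omega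
  rw [e1] at hW
  rw [e2] at hV
  by_contra hcon
  push Not at hcon
  -- pass to the reals
  have hW' : (F : ℝ) * (((n : ℝ) + 2) * d) + len ≤ F * W := by exact_mod_cast hW
  have hWV' : ((n : ℝ) + 4) * W ≤ ((n : ℝ) + 4 + 1) * V + ((n : ℝ) + 4) * (2 * (e * G)) := by
    exact_mod_cast hWV
  have hV' : (M : ℝ) * V < M * ((n : ℝ) * d) + len := by exact_mod_cast hV
  have hM' : 16 * (F : ℝ) * ((n : ℝ) + 4) ≤ M := by exact_mod_cast hM
  have hcon' : 4 * (F : ℝ) * (e * G) < len := by exact_mod_cast hcon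
  have hF' : (0 : ℝ) < F := by exact_mod_cast hF
  have hMp' : (0 : ℝ) < M := by exact_mod_cast hMp
  have hn' : (0 : ℝ) ≤ n := Nat.cast_nonneg n
  have hd' : (0 : ℝ) ≤ d := Nat.cast_nonneg d
  have hlen' : (0 : ℝ) < len := by exact_mod_cast hlen
  -- multiply by M (n + 4)
  have s1 : (M : ℝ) * ((n : ℝ) + 4) * (F * (((n : ℝ) + 2) * d) + len) ≤
      M * F * (((n : ℝ) + 4) * W) := by
    have := mul_le_mul_of_nonneg_left hW' (mul_nonneg hMp'.le (by linarith : (0 : ℝ) ≤ n + 4))
    linarith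
  have s2 : (M : ℝ) * F * (((n : ℝ) + 4) * W) ≤
      M * F * (((n : ℝ) + 4 + 1) * V + ((n : ℝ) + 4) * (2 * (e * G))) :=
    mul_le_mul_of_nonneg_left hWV' (mul_nonneg hMp'.le hF'.le)
  have s3 : (F : ℝ) * ((n : ℝ) + 4 + 1) * (M * V) ≤
      F * ((n : ℝ) + 4 + 1) * (M * ((n : ℝ) * d) + len) :=
    mul_le_mul_of_nonneg_left hV'.le (mul_nonneg hF'.le (by linarith))
  have s4 : (M : ℝ) * (((n : ℝ) + 4) / 2) * (4 * (F : ℝ) * (e * G)) <
      M * (((n : ℝ) + 4) / 2) * len :=
    mul_lt_mul_of_pos_left hcon' (mul_pos hMp' (by linarith))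
  have s5 : 16 * (F : ℝ) * ((n : ℝ) + 4) * len ≤ M * len :=
    mul_le_mul_of_nonneg_right hM' hlen'.le
  have s6 : (0 : ℝ) ≤ M * F * n * d :=
    mul_nonneg (mul_nonneg (mul_nonneg hMp'.le hF'.le) hn') hd'
  have s7 : (0 : ℝ) ≤ M * F * d := mul_nonneg (mul_nonneg hMp'.le hF'.le) hd'
  have s8 : (0 : ℝ) ≤ F * len := mul_nonneg hF'.le hlen'.le
  have s9 : (0 : ℝ) ≤ F * n * len := mul_nonneg (mul_nonneg hF'.le hn') hlen'.le
  have s10 : (0 : ℝ) ≤ M * n * len := mul_nonneg (mul_nonneg hMp'.le hn') hlen'.le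
  have s11 : (0 : ℝ) < M * len := mul_pos hMp' hlen'
  nlinarith [s1, s2, s3, s4, s5, s6, s7, s8, s9, s10, s11]

/-- the number of the non dense members is small -/
theorem small {M K L p l c len : ℕ} (hκ : M * (K * L) ≤ p) (h : p * l * c ≤ K * L * len)
    (h0 : 0 < p * l) : M * (l * c) ≤ len := by
  rcases Nat.eq_zero_or_pos (K * L) with hz | hz
  · rw [hz, zero_mul] at h
    have hc : c = 0 := by
      rcases Nat.eq_zero_or_pos c with hc | hc
      · exact hc
      · exact absurd h (not_le.2 (Nat.mul_pos h0 hc))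
    rw [hc]
    simp
  · refine Nat.le_of_mul_le_mul_left ?_ hz
    calc K * L * (M * (l * c)) = M * (K * L) * (l * c) := by ring
      _ ≤ p * (l * c) := Nat.mul_le_mul_right _ hκ
      _ = p * l * c := by ring
      _ ≤ K * L * len := h

end MASS_

open Classical in
theorem p_MASS (hNDS : T_NDS) : T_MASS := by
  intro N I hN hOk F K La κ h M j a b a1 b1 a2 b2 len hab hlen hLa hM hκ hW ha1 hb1 hl1
    ha2 hb2 hl2
  by_contra hcon
  rw [not_or, not_or] at hcon
  obtain ⟨c1, c2, c3⟩ := hcon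
  push Not at c1 c2 c3
  have hN1 : 1 ≤ N := by omega
  have hWV := MASS_.Wp_le (I := I) hN hOk j (j + κ) a b
  have hlarge := MASS_.large hN hlen hM hW hWV c1
  -- names of the sets
  set G := I.J.filter (fun i => (a ≤ I.R i ∧ I.R i < b) ∧ j + κ < lev N I i) with hG
  set Dn := I.J.filter (fun i => (a ≤ I.R i ∧ I.R i < b) ∧
    (j + κ < lev N I i ∧ lev N I i ≤ j + κ + h) ∧ dens N I K (lev N I i) a1 b1) with hDn
  set Df := I.J.filter (fun i => (a ≤ I.R i ∧ I.R i < b) ∧
    j + κ + h < lev N I i ∧ dens N I K (lev N I i) a2 b2) with hDf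
  set A1 := I.J.filter (fun i => (a ≤ I.R i ∧ I.R i < b) ∧
    (j + κ < lev N I i ∧ ¬ dens N I K (lev N I i) a1 b1)) with hA1
  set A2 := I.J.filter (fun i => (a ≤ I.R i ∧ I.R i < b) ∧
    (j + κ + h < lev N I i ∧ ¬ dens N I K (lev N I i) a2 b2)) with hA2
  have hcover : G ⊆ (Dn ∪ A1) ∪ (Df ∪ A2) := by
    intro i hi
    rw [hG, Finset.mem_filter] at hi
    rw [Finset.mem_union, Finset.mem_union, Finset.mem_union, hDn, hDf, hA1, hA2,
      Finset.mem_filter, Finset.mem_filter, Finset.mem_filter, Finset.mem_filter]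
    by_cases h1 : lev N I i ≤ j + κ + h
    · by_cases h2 : dens N I K (lev N I i) a1 b1
      · exact Or.inl (Or.inl ⟨hi.1, hi.2.1, ⟨hi.2.2, h1⟩, h2⟩)
      · exact Or.inl (Or.inr ⟨hi.1, hi.2.1, hi.2.2, h2⟩)
    · by_cases h2 : dens N I K (lev N I i) a2 b2
      · exact Or.inr (Or.inl ⟨hi.1, hi.2.1, not_le.1 h1, h2⟩)
      · exact Or.inr (Or.inr ⟨hi.1, hi.2.1, not_le.1 h1, h2⟩)
  have hcard : G.card ≤ (Dn.card + A1.card) + (Df.card + A2.card) :=
    (Finset.card_le_card hcover).trans ((Finset.card_union_le _ _).trans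
      (Nat.add_le_add (Finset.card_union_le _ _) (Finset.card_union_le _ _)))
  -- the non dense members
  have n1 : M * (lam N j * A1.card) ≤ len := by
    have h1 := hNDS N I hN1 K (j + κ) a b a1 b1 ha1 hb1
    rw [← hA1, lam_add] at h1
    refine MASS_.small (K := K) (L := La) hκ ?_ ?_
    · calc 2 ^ κ * lam N j * A1.card ≤ K * (b1 - a1) := h1
        _ ≤ K * len := Nat.mul_le_mul_left _ hl1
        _ = K * 1 * len := by ring
        _ ≤ K * La * len := Nat.mul_le_mul_right _ (Nat.mul_le_mul_left _ hLa)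
    · exact Nat.mul_pos (by positivity) (lam_pos hN1 j)
  have n2 : M * (lam N j * A2.card) ≤ len := by
    have h1 := hNDS N I hN1 K (j + κ + h) a b a2 b2 ha2 hb2
    rw [← hA2, lam_add, lam_add] at h1
    refine MASS_.small (K := K) (L := La) hκ ?_ ?_
    · have h2 : 2 ^ h * (2 ^ κ * lam N j * A2.card) ≤ 2 ^ h * (K * La * len) := by
        calc 2 ^ h * (2 ^ κ * lam N j * A2.card) = 2 ^ h * (2 ^ κ * lam N j) * A2.card := by
              ring
          _ ≤ K * (b2 - a2) := h1
          _ ≤ K * (La * (2 ^ h * len)) := Nat.mul_le_mul_left _ hl2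
          _ = 2 ^ h * (K * La * len) := by ring
      exact Nat.le_of_mul_le_mul_left h2 (by positivity)
    · exact Nat.mul_pos (by positivity) (lam_pos hN1 j)
  -- conclusion
  have hsum : M * (lam N j * G.card) < 4 * len := by
    calc M * (lam N j * G.card)
        ≤ M * (lam N j * ((Dn.card + A1.card) + (Df.card + A2.card))) :=
          Nat.mul_le_mul_left _ (Nat.mul_le_mul_left _ hcard)
      _ = M * lam N j * Dn.card + M * (lam N j * A1.card) + M * lam N j * Df.card +
          M * (lam N j * A2.card) := by ring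
      _ < 4 * len := by omega
  have hF : 0 < F := by
    rcases Nat.eq_zero_or_pos F with h0 | h0
    · rw [h0] at hlarge
      simp only [mul_zero, zero_mul] at hlarge
      omega
    · exact h0
  have hfin : M * len < M * len := by
    calc M * len ≤ M * (4 * F * (ell N j * G.card)) := Nat.mul_le_mul_left _ hlarge
      _ = 4 * F * N * (M * (lam N j * G.card)) := by unfold ell; ring
      _ < 4 * F * N * (4 * len) := by
          refine Nat.mul_lt_mul_of_pos_left hsum ?_
          exact Nat.mul_pos (Nat.mul_pos (by norm_num) hF) hN1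
      _ = 16 * F * N * len := by ring
      _ ≤ M * len := Nat.mul_le_mul_right _ hM
  exact lt_irrefl _ hfin

end STR
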