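import Pool.Agent.STR.TargetsSim

/-!
# STR, target MON: the chain starts are nonincreasing in the level
-/

set_option autoImplicit false

namespace STR

namespace MON_

theorem md_top {N : ℕ} {I : DI} {k t : ℕ} (h : ¬ Con N I k t) : md N I k t = ⊤ := by
  classical
  cases k with
  | zero => rw [md_zero, if_neg h]
  | succ k => rw [md_succ, if_neg h]

/-- monotone chain at a fixed time -/
theorem chain {N : ℕ} {I : DI} {t : ℕ} (h : ∀ k, uu N I (k + 1) t ≤ uu N I k t) {i k : ℕ}
    (hik : i ≤ k) : uu N I k t ≤ uu N I i t := by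
  induction hik with
  | refl => exact le_rfl
  | step _ ih => exact (h _).trans ih

theorem uu_le_md {N : ℕ} {I : DI} {t : ℕ} (h : ∀ k, uu N I (k + 1) t ≤ uu N I k t) (k : ℕ) :
    uu N I k t ≤ md N I k t := by
  rcases md_cases N I k t with h1 | ⟨i, hi, h1, -, -⟩
  · rw [h1]
    exact le_top
  · rw [h1]
    exact chain h hi

theorem md_mono {N : ℕ} {I : DI} {t : ℕ} (h : ∀ k, uu N I (k + 1) t ≤ uu N I k t) (k : ℕ) :
    md N I (k + 1) t ≤ md N I k t := by
  classical
  by_cases hc : Con N I (k + 1) t
  · by_cases hcl : Clo N I (k + 1) t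
    · rw [md_succ, if_pos hc, if_pos hcl]
    · rw [md_succ, if_pos hc, if_neg hcl]
      exact (h k).trans (uu_le_md h k)
  · have h1 : ¬ Con N I k t := by
      rintro ⟨j, hj, h2, h3⟩
      exact hc ⟨j, Ak_level N I (Nat.le_succ k) hj, (h k).trans h2, h3⟩
    rw [md_top h1]
    exact le_top

end MON_

theorem p_MON : T_MON := by
  classical
  intro N I k t
  induction t generalizing k with
  | zero => rw [uu_zero, uu_zero]
  | succ t ih =>
    have hmd := MON_.md_mono ih k
    by_cases h1 : md N I k t = ⊤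
    · by_cases h2 : ∃ j ∈ al N I (t + 1), I.R j = t + 1
      · rw [uu_succ N I k t, if_pos ⟨h1, h2⟩, uu_succ N I (k + 1) t]
        by_cases h3 : md N I (k + 1) t = ⊤
        · rw [if_pos ⟨h3, h2⟩]
        · rw [if_neg (fun h => h3 h.1)]
          rcases md_cases N I (k + 1) t with h4 | ⟨i, hi, h4, h5, -⟩
          · exact absurd h4 h3
          · obtain ⟨a, ha⟩ := ENat.ne_top_iff_exists.1 (con_ne_top N I h5)
            have h6 := uu_le N I ha.symm
            rw [h4, ← ha]
            exact_mod_cast (show a ≤ t + 1 by omega)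
      · rw [uu_succ N I k t, if_neg (fun h => h2 h.2), h1]
        exact le_top
    · have h3 : md N I (k + 1) t ≠ ⊤ := ne_top_of_le_ne_top h1 hmd
      rw [uu_succ N I k t, if_neg (fun h => h1 h.1), uu_succ N I (k + 1) t,
        if_neg (fun h => h3 h.1)]
      exact hmd

end STR
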