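import Pool.Agent.STR.TargetsSim

/-!
# STR, target MT: chain starts are nondecreasing in time
-/

set_option autoImplicit false

namespace STR

namespace MT_

theorem chain (hMON : T_MON) {N : ℕ} {I : DI} {t i k : ℕ} (hik : i ≤ k) :
    uu N I k t ≤ uu N I i t := by
  induction hik with
  | refl => exact le_rfl
  | step _ ih => exact (hMON N I _ t).trans ih

/-- a chain of level `k` alive at `t + 1` is new, or a chain of level `k` was alive at `t` -/
theorem back (hMON : T_MON) {N : ℕ} {I : DI} {k t a : ℕ} (h : uu N I k (t + 1) = (a : ℕ∞)) :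
    a = t + 1 ∨ ∃ a'' : ℕ, uu N I k t = (a'' : ℕ∞) ∧ a'' ≤ a := by
  rcases uu_cases N I h with ⟨h1, -⟩ | ⟨i, hi, h1, -, -⟩
  · left; exact h1
  · right
    have h2 : uu N I k t ≤ (a : ℕ∞) := h1 ▸ chain hMON hi
    have h3 : uu N I k t ≠ ⊤ := ne_top_of_le_ne_top (by simp) h2
    obtain ⟨b, hb⟩ := ENat.ne_top_iff_exists.1 h3
    refine ⟨b, hb.symm, ?_⟩
    rw [← hb] at h2
    exact_mod_cast h2

theorem one (hMON : T_MON) {N : ℕ} {I : DI} {k t : ℕ} : ∀ {t' a' : ℕ}, t ≤ t' →
    uu N I k t' = (a' : ℕ∞) → ∀ a : ℕ, uu N I k t = (a : ℕ∞) → a ≤ a' := by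
  intro t' a' htt
  induction htt generalizing a' with
  | refl =>
    intro h a ha
    rw [h] at ha
    have : a' = a := by exact_mod_cast ha
    omega
  | step hm ih =>
    rename_i m
    intro h a ha
    have hm' : t ≤ m := hm
    rcases back hMON h with h1 | ⟨a'', h1, h2⟩
    · have := uu_le N I ha
      omega
    · have := ih h1 a ha
      omega

theorem two (hMON : T_MON) {N : ℕ} {I : DI} {k t : ℕ} (hE : ¬ Con N I k t) :
    ∀ {t' a' : ℕ}, t + 1 ≤ t' → uu N I k t' = (a' : ℕ∞) → t + 1 ≤ a' := by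
  intro t' a' htt
  induction htt generalizing a' with
  | refl =>
    intro h
    rcases uu_end N I hE with h1 | h1
    · rw [h1] at h
      exact absurd h (by simp)
    · rw [h1] at h
      have : t + 1 = a' := by exact_mod_cast h
      omega
  | step hm ih =>
    rename_i m
    intro h
    have hm' : t + 1 ≤ m := hm
    rcases back hMON h with h1 | ⟨a'', h1, h2⟩
    · omega
    · have := ih h1
      omega

theorem three (hMON : T_MON) {N : ℕ} {I : DI} {k t : ℕ} (hE : uu N I k t = ⊤) :
    ∀ {t' a' : ℕ}, t ≤ t' → uu N I k t' = (a' : ℕ∞) → t < a' := by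
  intro t' a' htt
  induction htt generalizing a' with
  | refl =>
    intro h
    rw [hE] at h
    exact absurd h (by simp)
  | step hm ih =>
    rename_i m
    intro h
    have hm' : t ≤ m := hm
    rcases back hMON h with h1 | ⟨a'', h1, h2⟩
    · omega
    · have := ih h1
      omega

end MT_

theorem p_MT (hMON : T_MON) : T_MT := by
  intro N I k t t' a' htt h
  refine ⟨MT_.one hMON htt h, ?_, ?_⟩
  · intro hE hlt
    exact MT_.two hMON hE.2 hlt h
  · intro hE
    exact MT_.three hMON hE htt h

end STR
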