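import Pool.Agent.STR.TargetsAna
import Pool.Agent.STR.TargetsOpt
import Pool.Agent.STR.TargetsSim

/-!
# Project STR (MP_32d942_lc): target MU1 (total relative size of busy intervals)
-/

set_option autoImplicit false

namespace STR

namespace MU1_

theorem Wp_le {N : ℕ} (hN : 8 ≤ N) (I : DI) (k a b : ℕ) :
    Wp N I k a b ≤ I.J.card * (2 * (N * lam N k)) := by
  unfold Wp
  have h1 : ∀ j ∈ I.J.filter (fun j => a ≤ I.R j ∧ I.R j < b),
      min (I.q j) (ell N k) + N ≤ 2 * (N * lam N k) := by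
    intro j _
    have h2 : min (I.q j) (ell N k) ≤ ell N k := min_le_right _ _
    have h3 : ell N k = N * lam N k := rfl
    have h4 : N ≤ N * lam N k := Nat.le_mul_of_pos_right _ (lam_pos (by omega) k)
    omega
  have h5 := Finset.sum_le_card_nsmul _ _ _ h1
  rw [smul_eq_mul] at h5
  exact h5.trans (Nat.mul_le_mul_right _ (Finset.card_le_card (Finset.filter_subset _ _)))

end MU1_

theorem p_MU1 (hCCB : T_CCB) (hGAM : T_GAM) (hWKB : T_WKB) (hON : T_ON) (hCHN : T_CHN) :
    T_MU1 := by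
  classical
  intro N I D hN hOk hOpt k F hF
  have hN1 : 1 ≤ N := by omega
  -- the busy intervals are disjoint
  have hdisj : Set.PairwiseDisjoint (F : Set (ℕ × ℕ × ℕ))
      (fun x => Finset.Ico (bs N I x) (gs N I x)) := by
    intro x hx y hy hxy
    rw [Function.onFun, Finset.disjoint_left]
    intro t ht ht'
    rw [Finset.mem_Ico] at ht ht'
    have hx' := hF x hx
    have hy' := hF y hy
    exact hxy ((hCCB N I hN hOk x hx'.1).2.2.2.2 y hy'.1 (hx'.2.trans hy'.2.symm) ⟨t, ht, ht'⟩)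
  have hcard : (F.biUnion fun x => Finset.Ico (bs N I x) (gs N I x)).card =
      ∑ x ∈ F, (gs N I x - bs N I x) := by
    rw [Finset.card_biUnion hdisj]
    apply Finset.sum_congr rfl
    intro x _
    rw [Nat.card_Ico]
  -- the background job
  have hslot : ∀ t ∈ F.biUnion (fun x => Finset.Ico (bs N I x) (gs N I x)),
      ∃ j, bj N I t = some j ∧ j ∈ Ak N I k t ∧ 0 ≤ I.R j ∧ I.R j < I.J.sup I.R + 1 := by
    intro t ht
    rw [Finset.mem_biUnion] at ht
    obtain ⟨x, hx, ht⟩ := ht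
    rw [Finset.mem_Ico] at ht
    obtain ⟨hCC, hk⟩ := hF x hx
    obtain ⟨s, -, -, hu, -, -⟩ := hCC
    rw [hk] at hu
    have h1 := (hCHN N I hN1 hOk k s x.2.1 hu).1
    have h2 := (hGAM N I hN1 k x.2.1 h1).2.2 t
      (by have := ht.1; unfold bs at this; rw [hk] at this; exact this)
      (by have := ht.2; unfold gs at this; rw [hk] at this; exact this)
    obtain ⟨j, hj, hj'⟩ := bj_low N I h2.1
    refine ⟨j, hj, hj', Nat.zero_le _, ?_⟩
    have h3 := ((mem_Ak N I).1 hj').1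
    exact Nat.lt_succ_of_le (Finset.le_sup h3)
  have h4 := hWKB N I hN1 _ k 0 (I.J.sup I.R + 1) hslot
  rw [hcard] at h4
  have h5 := h4.trans (MU1_.Wp_le hN I k 0 (I.J.sup I.R + 1))
  have hlam : (0 : ℝ) < (lam N k : ℝ) := by
    have := lam_pos hN1 k
    exact_mod_cast this
  have h6 : ∑ x ∈ F, mu N I x = ((∑ x ∈ F, (gs N I x - bs N I x) : ℕ) : ℝ) / (lam N k : ℝ) := by
    rw [Nat.cast_sum, Finset.sum_div]
    apply Finset.sum_congr rfl
    intro x hx
    unfold mu
    rw [(hF x hx).2]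
  have h7 : ((∑ x ∈ F, (gs N I x - bs N I x) : ℕ) : ℝ) ≤
      ((I.J.card * (2 * (N * lam N k)) : ℕ) : ℝ) := by exact_mod_cast h5
  have h8 := (hON N I D hN hOk hOpt).2
  rw [h6, div_le_iff₀ hlam]
  refine h7.trans ?_
  push_cast
  have h9 : (0 : ℝ) ≤ 2 * ((N : ℝ) * (lam N k : ℝ)) := by positivity
  nlinarith [mul_le_mul_of_nonneg_right h8 h9]

end STR
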