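import Pool.Agent.STR.TargetsAna
import Pool.Agent.STR.TargetsOpt
import Pool.Agent.STR.TargetsSim

/-!
# Project STR, target N1: the trichotomy of the nodes
-/

set_option autoImplicit false

namespace STR

namespace N1_

theorem FG_ge {N : ℕ} (hN : 8 ≤ N) : 32 ≤ FG N := by
  unfold FG Fc
  have h1 : 1 ≤ N * N * (Rc N + 1) := Nat.mul_pos (Nat.mul_pos (by omega) (by omega)) (by omega)
  have h2 : 1 ≤ N * N := Nat.mul_pos (by omega) (by omega)
  have h3 : 1 ≤ (N * N) * (N * N * (Rc N + 1)) := Nat.mul_pos h2 h1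
  calc 32 ≤ 400 * 1 := by norm_num
    _ ≤ 400 * ((N * N) * (N * N * (Rc N + 1))) := Nat.mul_le_mul_left _ h3
    _ = 400 * (N * N) * (N * N * (Rc N + 1)) := by ring

theorem Mc_ge {N F : ℕ} (hF : F ≤ FG N) : 16 * F * N ≤ Mc N := by
  unfold Mc M0
  have : 16 * F * N ≤ 16 * FG N * N :=
    Nat.mul_le_mul_right _ (Nat.mul_le_mul_left _ hF)
  omega

theorem Ks_ge (N : ℕ) : 1 ≤ Ks N := by unfold Ks; omega

theorem kap_ge {N c : ℕ} (hc : c ≤ 64 * Ks N) : Mc N * c ≤ 2 ^ kap N := by
  have h1 : kap N < 2 ^ kap N := Nat.lt_two_pow_self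
  have h2 : Mc N * c ≤ kap N := by
    calc Mc N * c ≤ Mc N * (64 * Ks N) := Nat.mul_le_mul_left _ hc
      _ = kap N := by unfold kap; ring
  omega

end N1_

open N1_ in
/-- the trichotomy of the nodes -/
theorem p_N1 (hCHN : T_CHN) (hGL : T_GL) (hGAW : T_GAW) (hMASS : T_MASS) (hSEP : T_SEP) :
    T_N1 := by
  classical
  intro N I hN hOk x hNd
  obtain ⟨k, a, e⟩ := x
  have hNd' := hNd
  obtain ⟨⟨s, hs, hCl, hu, hsg, hmax⟩, hlong⟩ := hNd'
  simp only at hs hCl hu hmax hlong
  subst hs
  have hN1 : 1 ≤ N := by omega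
  obtain ⟨hAa, -, hba, -, hW, hbb, hAb, hgb⟩ := hCHN N I hN1 hOk k s a hu
  have has : a ≤ s := uu_le N I hu
  have hbs : bs N I (k, a, s + 1) = be N I k a := rfl
  have hgs : gs N I (k, a, s + 1) = gam N I k a := rfl
  rw [hbs] at hlong
  rw [hgs] at hsg hmax
  rw [hbs, hgs]
  simp only
  obtain ⟨b, hb⟩ : ∃ b, b = be N I k a := ⟨_, rfl⟩
  obtain ⟨g, hg⟩ : ∃ g, g = gam N I k a := ⟨_, rfl⟩
  rw [← hb] at hba hbb hAb hgb hlong ⊢
  rw [← hg] at hsg hmax hgb ⊢
  have hKs := Ks_ge N
  have hFG := FG_ge hN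
  have hlevel : ∀ A B : ℕ, (I.J.filter fun i => (A ≤ I.R i ∧ I.R i < B) ∧
      (k + kap N < lev N I i ∧ lev N I i ≤ k + kap N + 0) ∧
      dens N I Kd (lev N I i) A B).card = 0 := by
    intro A B
    rw [Finset.card_eq_zero, Finset.filter_eq_empty_iff]
    rintro i - ⟨-, h, -⟩
    omega
  rcases hGL N I hN hOk k b s hAb hbb (by omega) (by rw [hgb]; exact hsg) hCl
    (by rw [hgb]; exact hmax) with ⟨a', b', h1, h2, h3, h4⟩ | ⟨h1, h2⟩
  · rw [hgb] at h4
    have hM := hMASS N I hN hOk (FG N) Kd 2 (kap N) 0 (Mc N) k a' b' a' b' b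
      (b + 2 * (s + 1 - b)) (g - b) h2 (by omega) (by omega) (Mc_ge le_rfl)
      (kap_ge (by unfold Kd; omega)) h4 le_rfl le_rfl (by omega) h1 (by omega)
      (by rw [pow_zero, one_mul]; omega)
    rcases hM with hM | hM | hM
    · left
      exact ⟨a', b', h1, h2, by omega, hM⟩
    · exfalso
      rw [hlevel, mul_zero] at hM
      omega
    · have hY : g - b ≤ Mc N * lam N k * (YY N I (k, a, s + 1)).card := by
        refine hM.trans (Nat.mul_le_mul_left _ (Finset.card_le_card ?_))
        intro i hi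
        rw [Finset.mem_filter] at hi
        unfold YY
        rw [Finset.mem_filter, hbs, ← hb]
        exact ⟨hi.1, ⟨by omega, by show I.R i < s + 1; omega⟩, hi.2.2.2⟩
      have hM' := hMASS N I hN hOk 1 (Ks N) 1 (kap N) 0 (Mc N) k a (s + 1) a (s + 1) a (s + 1)
        (s + 1 - a) (by omega) (by omega) le_rfl (Mc_ge (by omega)) (kap_ge (by omega))
        (by
          have h5 : (N - 2) * (s + 1 - a) + (s + 1 - a) = (N - 1) * (s + 1 - a) := by
            have h6 : N - 1 = (N - 2) + 1 := by omega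
            rw [h6, Nat.add_mul, one_mul]
          rw [one_mul, one_mul, h5]
          exact hW)
        le_rfl le_rfl le_rfl le_rfl le_rfl (by rw [pow_zero, one_mul, one_mul])
      rcases hM' with hM' | hM' | hM'
      · right; right; left
        exact ⟨a, s + 1, le_rfl, by omega, le_rfl, hM'⟩
      · exfalso
        have h6 : (I.J.filter fun i => (a ≤ I.R i ∧ I.R i < s + 1) ∧
            (k + kap N < lev N I i ∧ lev N I i ≤ k + kap N + 0) ∧
            dens N I (Ks N) (lev N I i) a (s + 1)).card = 0 := by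
          rw [Finset.card_eq_zero, Finset.filter_eq_empty_iff]
          rintro i - ⟨-, h, -⟩
          omega
        rw [h6, mul_zero] at hM'
        omega
      · right; right; right
        refine ⟨hNd, ?_, ?_⟩
        · refine hM'.trans (Nat.mul_le_mul_left _ (Finset.card_le_card ?_))
          intro i hi
          rw [Finset.mem_filter] at hi
          unfold XX
          rw [Finset.mem_filter]
          exact ⟨hi.1, hi.2.1, hi.2.2.2⟩
        · rw [hbs, hgs, ← hb, ← hg]
          exact hY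
  · rw [hgb] at h1 h2
    obtain ⟨T, hT⟩ : ∃ T, T = g - (s + 1) := ⟨_, rfl⟩
    have key : ∀ x y, s + 1 ≤ x → y ≤ g → y = x + T / 8 →
        SC N I k b g ∨ g - b ≤ Mc N * lam N k * (I.J.filter fun i => (x ≤ I.R i ∧ I.R i < y) ∧
          k + kap N + 0 < lev N I i ∧ dens N I Kd (lev N I i) (s + 1) g).card := by
      intro x y hx hy hxy
      have h3 := hGAW N I hN hOk k b s a hAb hbb (by omega) (by rw [hgb]; exact hsg) hCl hu
        (by simpa using hlong) (by rw [hgb]; exact h1) (by rw [hgb]; exact h2) x y hx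
        (by rw [hgb]; exact hy) (by rw [hgb, ← hT]; exact hxy)
      rw [hgb] at h3
      have hM := hMASS N I hN hOk 32 Kd 1 (kap N) 0 (Mc N) k x y x y (s + 1) g (g - b)
        (by omega) (by omega) le_rfl (Mc_ge hFG) (kap_ge (by unfold Kd; omega)) h3 le_rfl
        le_rfl (by omega) hx hy (by rw [pow_zero, one_mul, one_mul]; omega)
      rcases hM with hM | hM | hM
      · left
        exact ⟨x, y, by omega, by omega, hy, hM⟩
      · exfalso
        rw [hlevel, mul_zero] at hM
        omega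
      · right; exact hM
    have hT8 : T / 8 ≤ g := by omega
    rcases key (s + 1) (s + 1 + T / 8) le_rfl (by omega) rfl with h3 | h3
    · left; exact h3
    rcases key (g - T / 8) g (by omega) le_rfl (by omega) with h4 | h4
    · left; exact h4
    by_cases hsc : SC N I k b g
    · left; exact hsc
    right; left
    refine ⟨_, _, Finset.filter_subset _ _, Finset.filter_subset _ _, ?_, ?_, ?_, ?_, h3, h4⟩
    · intro i hi
      rw [Finset.mem_filter] at hi
      omega
    · intro i hi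
      rw [Finset.mem_filter] at hi
      omega
    · rintro ⟨i, i'⟩ hp
      rw [Finset.mem_product, Finset.mem_filter, Finset.mem_filter] at hp
      obtain ⟨⟨hi, ⟨hi1, hi2⟩, -, hi3⟩, ⟨hj, ⟨hj1, hj2⟩, -, hj3⟩⟩ := hp
      simp only at hi hi1 hi2 hi3 hj hj1 hj2 hj3
      unfold PP
      rw [Finset.mem_filter, Finset.mem_product]
      exact ⟨⟨hi, hj⟩, s + 1, g, ⟨hi1, by simp only; omega⟩, ⟨by simp only; omega, hj2⟩,
        hi3, hj3⟩
    · intro hk i hi i' hi' heq
      rw [Finset.mem_filter] at hi hi'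
      apply hsc
      have h5 := hSEP N I hN hOk k b (I.R i) (I.R i') hAb hbb hk (by omega) (by omega)
        (by rw [hgb]; omega) ⟨i, self_mem N I hN1 hOk hi.1 _⟩ ⟨i', self_mem N I hN1 hOk hi'.1 _⟩
        heq (by rw [hgb]; omega)
      rw [hgb] at h5
      exact h5

end STR
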