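import Pool.Agent.STR.TargetsAna
import Pool.Agent.STR.TargetsOpt
import Pool.Agent.STR.TargetsSim

/-!
# Project STR (MP_32d942_lc): T_N2, the far alternatives of the nodes
-/

set_option autoImplicit false

namespace STR

namespace N2_

open Classical in
/-- a point of `A` with many partners outside of `T` -/
theorem pick (A B : Finset ℕ) (T : Finset (ℕ × ℕ)) (hT : T ⊆ A ×ˢ B)
    (h : 2 * T.card < A.card * B.card) :
    ∃ i ∈ A, B.card < 2 * (B.filter fun y => (i, y) ∉ T).card := by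
  by_contra hcon
  push Not at hcon
  have h1 : ∑ i ∈ A, (B.filter fun y => (i, y) ∉ T).card = ((A ×ˢ B) \ T).card := by
    have h2 : (A ×ˢ B) \ T = (A ×ˢ B).filter fun p => p ∉ T := by
      ext p
      simp
    rw [h2, Finset.card_filter, Finset.sum_product]
    refine Finset.sum_congr rfl fun i _ => ?_
    rw [Finset.card_filter]
  have h3 : ((A ×ˢ B) \ T).card = A.card * B.card - T.card := by
    rw [Finset.card_sdiff_of_subset hT, Finset.card_product]
  have h4 : ∑ i ∈ A, 2 * (B.filter fun y => (i, y) ∉ T).card ≤ ∑ _i ∈ A, B.card :=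
    Finset.sum_le_sum fun i hi => hcon i hi
  rw [← Finset.mul_sum, h1, h3, Finset.sum_const, smul_eq_mul] at h4
  omega

theorem mem_XX {N : ℕ} {I : DI} {x : ℕ × ℕ × ℕ} {i : ℕ} : i ∈ XX N I x ↔
    i ∈ I.J ∧ (x.2.1 ≤ I.R i ∧ I.R i < x.2.2) ∧
      dens N I (Ks N) (lev N I i) x.2.1 x.2.2 := by
  simp only [XX, Finset.mem_filter]

theorem mem_YY {N : ℕ} {I : DI} {x : ℕ × ℕ × ℕ} {i : ℕ} : i ∈ YY N I x ↔
    i ∈ I.J ∧ (bs N I x ≤ I.R i ∧ I.R i < x.2.2) ∧
      dens N I Kd (lev N I i) (bs N I x) (bs N I x + 2 * (x.2.2 - bs N I x)) := by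
  simp only [YY, Finset.mem_filter]

theorem mem_TB {N : ℕ} {I : DI} {x x1 : ℕ × ℕ × ℕ} {p : ℕ × ℕ} : p ∈ TB N I x x1 ↔
    (p.1 ∈ XX N I x1 ∧ p.2 ∈ YY N I x) ∧ I.R p.1 - be N I x.1 (I.R p.1) <
      2 * (I.R p.1 - be N I (mg N I p.1 p.2) (I.R p.1)) := by
  simp only [TB, Finset.mem_filter, Finset.mem_product]

theorem mem_PP {N : ℕ} {I : DI} {p : ℕ × ℕ} : p ∈ PP N I ↔
    (p.1 ∈ I.J ∧ p.2 ∈ I.J) ∧ ∃ a b, (a ≤ I.R p.1 ∧ I.R p.1 < b) ∧
      (a ≤ I.R p.2 ∧ I.R p.2 < b) ∧ dens N I Kd (lev N I p.1) a b ∧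
        dens N I Kd (lev N I p.2) a b := by
  simp only [PP, Finset.mem_filter, Finset.mem_product]

theorem be_anti (hBEM : T_BEM) (N : ℕ) (I : DI) (t : ℕ) {j k : ℕ} (h : j ≤ k) :
    be N I k t ≤ be N I j t := by
  induction h with
  | refl => exact le_rfl
  | step _ ih => exact ((hBEM N I _ t).2.1).trans ih

theorem Fc_M (N : ℕ) (hN : 1 ≤ N) : 16 * Fc N * N ≤ Mc N := by
  unfold Mc M0 FG
  have h1 : 1 ≤ N * N := Nat.mul_pos hN hN
  have h2 : Fc N ≤ 400 * (N * N) * Fc N := Nat.le_mul_of_pos_left _ (by positivity)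
  calc 16 * Fc N * N ≤ 16 * (400 * (N * N) * Fc N) * N := by gcongr
    _ ≤ 3 * (16 * (400 * (N * N) * Fc N) * N) := Nat.le_mul_of_pos_left _ (by norm_num)

theorem M_kap (N : ℕ) : Mc N * (Kd * 64) ≤ 2 ^ kap N := by
  have h1 : Mc N * (Kd * 64) ≤ kap N := by
    unfold kap Ks Kd
    calc Mc N * (16 * 64) = 64 * Mc N * 16 := by ring
      _ ≤ 64 * Mc N * (128 * (Rc N + 1)) := by
        apply Nat.mul_le_mul_left
        omega
  exact h1.trans Nat.lt_two_pow_self.le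

end N2_

open N2_ in
theorem p_N2 (hCEL : T_CEL) (hCCB : T_CCB) (hCHN : T_CHN) (hGAM : T_GAM) (hBEM : T_BEM)
    (hUPC : T_UPC) (hF1 : T_F1) (hMASS : T_MASS) (hPIG : T_PIG) (hOM : T_OM) : T_N2 := by
  classical
  intro N I hN hOk x x1 hx hx1 hcell hle
  have hN1 : 1 ≤ N := by omega
  by_cases hb : (XX N I x1).card * (YY N I x).card ≤ 2 * (TB N I x x1).card
  · left; exact hb
  right
  push Not at hb
  obtain ⟨C1, C2, C3, -, -, C6, -⟩ := hCEL N I hN hOk x x1 hx.1 hx1.1 hcell hle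
  obtain ⟨⟨B1, B2, B3, -⟩, -⟩ := hCCB N I hN hOk x hx.1.1
  have hTBs : TB N I x x1 ⊆ XX N I x1 ×ˢ YY N I x := by
    intro p hp
    rw [mem_TB] at hp
    exact Finset.mem_product.2 hp.1
  obtain ⟨i, hi, hi2⟩ := pick _ _ _ hTBs hb
  set Y := (YY N I x).filter fun y => (i, y) ∉ TB N I x x1 with hY
  set k := x.1 with hk
  set b := bs N I x with hbdef
  set e := x.2.2 with he
  have hiX := mem_XX.1 hi
  obtain ⟨D1, D2⟩ := C1 (I.R i) hiX.2.1.1 hiX.2.1.2
  have hbRi : b ≤ I.R i := C2.trans hiX.2.1.1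
  have hDk : 0 < I.R i - b := by
    have : 0 < e - b := by omega
    omega
  -- the busy interval of x
  obtain ⟨s, hs, hcl, hus, -, -⟩ := hx.1.1
  obtain ⟨E1, E2, E3, E4, -⟩ := hCHN N I hN1 hOk x.1 s x.2.1 hus
  obtain ⟨G1, G2, G3⟩ := hGAM N I hN1 x.1 x.2.1 E1
  have hbek : ∀ t, b ≤ t → t < gs N I x → be N I k t = b := fun t h1 h2 => (G3 t h1 h2).2.1
  -- members of Y
  have hYm : ∀ i' ∈ Y, i' ∈ YY N I x ∧ be N I k (I.R i') = b ∧ I.R i' < gs N I x ∧
      mg N I i i' ≤ k ∧ be N I (mg N I i i') (I.R i) = be N I (mg N I i i') (I.R i') ∧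
      2 * (I.R i - be N I (mg N I i i') (I.R i)) ≤ I.R i - b := by
    intro i' hi'
    rw [hY, Finset.mem_filter] at hi'
    obtain ⟨h1, h2⟩ := hi'
    have h3 := mem_YY.1 h1
    have h4 : I.R i' < gs N I x := h3.2.1.2.trans B3
    have h5 : be N I k (I.R i') = b := hbek _ h3.2.1.1 h4
    have hmem : k ∈ {j | be N I j (I.R i) = be N I j (I.R i')} := by
      show be N I k (I.R i) = be N I k (I.R i')
      rw [D1, h5]
    refine ⟨h1, h5, h4, Nat.sInf_le hmem, Nat.sInf_mem ⟨k, hmem⟩, ?_⟩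
    by_contra h6
    apply h2
    rw [mem_TB]
    refine ⟨⟨hi, h1⟩, ?_⟩
    show I.R i - be N I k (I.R i) < 2 * (I.R i - be N I (mg N I i i') (I.R i))
    rw [D1]
    omega
  have hYne : Y.Nonempty := by
    rw [← Finset.card_pos]
    omega
  obtain ⟨i1, hi1, hmax⟩ := Y.exists_max_image (fun i' => mg N I i i') hYne
  set j1 := mg N I i i1 with hj1
  obtain ⟨-, -, -, hj1k, -, hj1D⟩ := hYm i1 hi1
  have hj1lt : j1 < k := by
    rcases hj1k.lt_or_eq with h | h
    · exact h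
    · exfalso
      rw [h, D1] at hj1D
      omega
  obtain ⟨j', P1, P2, P3⟩ := hPIG (fun j => be N I j (I.R i)) j1 k hj1lt
    (fun j _ _ => (hBEM N I j (I.R i)).2.1)
  simp only [D1] at P3
  set p1 := be N I j' (I.R i) with hp1
  set p0 := be N I (j' + 1) (I.R i) with hp0
  set h := (k - 1 - j') / 4 with hh
  have hfj1 : be N I j1 (I.R i) ≤ I.R i := (hBEM N I j1 (I.R i)).1
  have hbfj1 : b ≤ be N I j1 (I.R i) := by
    have := be_anti hBEM N I (I.R i) hj1lt.le
    rwa [D1] at this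
  have hp01 : p0 ≤ p1 := (hBEM N I j' (I.R i)).2.1
  have hp1R : p1 ≤ I.R i := (hBEM N I j' (I.R i)).1
  have hbp0 : b ≤ p0 := by
    have := be_anti hBEM N I (I.R i) (show j' + 1 ≤ k by omega)
    rwa [D1] at this
  have hDkP : I.R i - b ≤ 16 * (2 ^ h * (p1 - p0)) := by
    have h1 : I.R i - b ≤ 2 * (be N I j1 (I.R i) - b) := by
      have h0 : 2 * (I.R i - be N I j1 (I.R i)) ≤ I.R i - b := hj1D
      omega
    have h2 : be N I j1 (I.R i) - b ≤ 8 * (2 ^ h * (p1 - p0)) := P3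
    omega
  have hPpos : 0 < p1 - p0 := by
    rcases Nat.eq_zero_or_pos (p1 - p0) with h0 | h0
    · rw [h0] at hDkP
      omega
    · exact h0
  have hHP : e - b ≤ 32 * (2 ^ h * (p1 - p0)) := by omega
  have hself := self_mem N I hN1 hOk hiX.1
  have hRg : I.R i < gs N I x := by
    by_contra h1
    push Not at h1
    rcases h1.eq_or_lt with h2 | h2
    · have := hself k
      have h3 : Ak N I k (gs N I x) = ∅ := G2
      rw [← h2, h3] at this
      simp at this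
    · have h3 := (hBEM N I k (I.R i)).2.2.1 (gs N I x) (by rw [D1]; omega) h2
      have h4 : Ak N I k (gs N I x) = ∅ := G2
      rw [h4] at h3
      simp at h3
  set j := j' + 1 with hj
  obtain ⟨g, hg⟩ : ∃ g, g = k - 1 - j' := ⟨_, rfl⟩
  have hkg : k = j + g := by omega
  have hhg : g / 4 = h := by rw [hg]
  -- size of x
  have hsz : sz N x ≤ om g * (((p1 - p0 : ℕ) : ℝ) / lam N j) := by
    have h1 : e - x.2.1 ≤ 2 ^ h * (p1 - p0) := by
      have h2 : 64 * (e - x.2.1) ≤ Rc N * (e - x.2.1) :=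
        Nat.mul_le_mul_right _ (by unfold Rc; omega)
      omega
    have h3 : (0 : ℝ) < lam N j := by
      have := lam_pos hN1 j
      exact_mod_cast this
    have h4 : (lam N k : ℝ) = 2 ^ g * lam N j := by
      rw [hkg, lam_add]
      push_cast
      ring
    have h5 : ((e - x.2.1 : ℕ) : ℝ) ≤ 2 ^ h * ((p1 - p0 : ℕ) : ℝ) := by
      exact_mod_cast h1
    have h6 : om g * 2 ^ g = (2 : ℝ) ^ h := by
      have := hOM.2.1 g
      rwa [hhg] at this
    unfold sz
    rw [← hk, ← he, h4, div_le_iff₀ (by positivity)]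
    calc ((e - x.2.1 : ℕ) : ℝ) ≤ 2 ^ h * ((p1 - p0 : ℕ) : ℝ) := h5
      _ = om g * (((p1 - p0 : ℕ) : ℝ) / lam N j) * (2 ^ g * lam N j) := by
        rw [← h6]
        field_simp
  -- T_F1 for the level j
  have hgamj := hGAM N I hN1 j (I.R i) ⟨i, hself j⟩
  have hbej : ∀ t, p0 ≤ t → t ≤ I.R i → be N I j t = p0 := fun t h1 h2 =>
    (hgamj.2.2 t h1 (lt_of_le_of_lt h2 hgamj.1)).2.1
  obtain ⟨a', b', F1, F2, F3, F4⟩ := hF1 N I hN hOk j p0 p1 (by omega)
    (hbej p0 le_rfl (by omega))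
    (fun t h1 h2 => (hBEM N I j (I.R i)).2.2.1 t h1 (by omega))
  have hM := hMASS N I hN hOk (Fc N) Kd 64 (kap N) h (Mc N) j a' b' p0 p1 b (b + 2 * (e - b))
    (p1 - p0) F2 hPpos (by norm_num) (Fc_M N hN1) (M_kap N) F4 F1 F3 le_rfl (by omega)
    (by omega) (by omega)
  rcases hM with hS | hNr | hFar
  · left
    refine ⟨j, g, p0, p1, hkg, hbp0, hp01, by omega, hsz, Or.inl ⟨a', b', F1, F2, F3, hS⟩⟩
  · left
    refine ⟨j, g, p0, p1, hkg, hbp0, hp01, by omega, hsz, Or.inr ?_⟩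
    unfold NC
    refine hNr.trans (Nat.mul_le_mul_left _ (Finset.card_le_card ?_))
    intro l hl
    rw [Finset.mem_filter] at hl ⊢
    rw [hhg]
    exact ⟨hl.1, ⟨by omega, by omega⟩, hl.2.2.1, hl.2.2.2⟩
  · right
    set Z := I.J.filter fun i => (a' ≤ I.R i ∧ I.R i < b') ∧
      j + kap N + h < lev N I i ∧ dens N I Kd (lev N I i) b (b + 2 * (e - b)) with hZ
    refine ⟨j, g, Z, Y, hkg, ?_, fun i' hi' => ⟨(hYm i' hi').2.1, (hYm i' hi').2.2.1⟩,
      hi2.le, ?_, ?_⟩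
    · rintro ⟨z, y⟩ hzy
      rw [Finset.mem_product] at hzy
      obtain ⟨hz, hy⟩ := hzy
      have hz' := Finset.mem_filter.1 hz
      have hy' := mem_YY.1 (hYm y hy).1
      rw [mem_PP]
      refine ⟨⟨hz'.1, hy'.1⟩, b, b + 2 * (e - b), ⟨?_, ?_⟩, ⟨?_, ?_⟩, hz'.2.2.2, hy'.2.2⟩
      · show b ≤ I.R z
        have h1 : a' ≤ I.R z := hz'.2.1.1
        omega
      · show I.R z < b + 2 * (e - b)
        have h1 : I.R z < b' := hz'.2.1.2
        omega
      · exact hy'.2.1.1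
      · show I.R y < b + 2 * (e - b)
        have h1 : I.R y < e := hy'.2.1.2
        omega
    · have h3 : (0 : ℝ) < lam N j := by
        have := lam_pos hN1 j
        exact_mod_cast this
      have h4 : ((p1 - p0 : ℕ) : ℝ) / lam N j ≤ Mc N * (Z.card : ℝ) := by
        rw [div_le_iff₀ h3]
        have h5 : ((p1 - p0 : ℕ) : ℝ) ≤ ((Mc N * lam N j * Z.card : ℕ) : ℝ) := by
          exact_mod_cast hFar
        refine h5.trans (le_of_eq ?_)
        push_cast
        ring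
      have h6 : 0 ≤ om g := by unfold om; positivity
      exact hsz.trans (mul_le_mul_of_nonneg_left h4 h6)
    · intro z hz y hy
      have hz' := Finset.mem_filter.1 hz
      obtain ⟨-, -, -, -, hmy, -⟩ := hYm y hy
      have hmy1 : mg N I i y ≤ j1 := hmax y hy
      have hzj : be N I j (I.R z) = p0 := hbej _ (by omega) (by omega)
      have hyj : be N I j (I.R i) = be N I j (I.R y) :=
        hUPC N I i y (mg N I i y) j (by omega) hmy
      have hyj' : be N I j' (I.R i) = be N I j' (I.R y) :=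
        hUPC N I i y (mg N I i y) j' (by omega) hmy
      have hmem : j ∈ {l | be N I l (I.R z) = be N I l (I.R y)} := by
        show be N I j (I.R z) = be N I j (I.R y)
        rw [hzj, ← hyj]
      have hle' : mg N I z y ≤ j := Nat.sInf_le hmem
      have hin : be N I (mg N I z y) (I.R z) = be N I (mg N I z y) (I.R y) :=
        Nat.sInf_mem ⟨j, hmem⟩
      by_contra hne
      have hlt : mg N I z y ≤ j' := by omega
      have h1 := hUPC N I z y (mg N I z y) j' hlt hin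
      have h2 : be N I j' (I.R z) ≤ I.R z := (hBEM N I j' (I.R z)).1
      have h3 : p1 = be N I j' (I.R y) := hyj'
      omega

end STR
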