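import Pool.Agent.STR.TargetsAna
import Pool.Agent.STR.TargetsOpt
import Pool.Agent.STR.TargetsSim

/-!
# Project STR: job NB
-/

set_option autoImplicit false

namespace STR

namespace NB_

theorem be_anti (hBEM : T_BEM) (N : ℕ) (I : DI) (t : ℕ) {j k : ℕ} (h : j ≤ k) :
    be N I k t ≤ be N I j t := by
  induction h with
  | refl => exact le_rfl
  | step _ ih => exact (hBEM N I _ t).2.1.trans ih

theorem mem_XX {N : ℕ} {I : DI} {x : ℕ × ℕ × ℕ} {i : ℕ} (h : i ∈ XX N I x) :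
    x.2.1 ≤ I.R i ∧ I.R i < x.2.2 := by
  classical
  unfold XX at h
  rw [Finset.mem_filter] at h
  exact h.2.1

theorem mem_YY {N : ℕ} {I : DI} {x : ℕ × ℕ × ℕ} {i : ℕ} (h : i ∈ YY N I x) :
    bs N I x ≤ I.R i ∧ I.R i < x.2.2 := by
  classical
  unfold YY at h
  rw [Finset.mem_filter] at h
  exact h.2.1

theorem mem_TB {N : ℕ} {I : DI} {x x1 : ℕ × ℕ × ℕ} {p : ℕ × ℕ} (h : p ∈ TB N I x x1) :
    p.1 ∈ XX N I x1 ∧ p.2 ∈ YY N I x ∧
      I.R p.1 - be N I x.1 (I.R p.1) < 2 * (I.R p.1 - be N I (mg N I p.1 p.2) (I.R p.1)) := by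
  classical
  unfold TB at h
  rw [Finset.mem_filter, Finset.mem_product] at h
  exact ⟨h.1.1, h.1.2, h.2⟩

/-- the bound of one term -/
theorem term_le {N : ℕ} {I : DI} (hN : 8 ≤ N) {x x1 : ℕ × ℕ × ℕ} (hx : XY N I x)
    (hx1 : XY N I x1) (hk : x1.1 ≤ x.1) (h4 : x.2.2 - x.2.1 ≤ 4 * (x1.2.2 - x1.2.1))
    (hT : (XX N I x1).card * (YY N I x).card ≤ 2 * (TB N I x x1).card) :
    sz N x * mu N I x ≤ 8 * (Mc N : ℝ) ^ 2 *
      ((1 / 2 : ℝ) ^ (x.1 - x1.1) * ((TB N I x x1).card : ℝ)) := by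
  have hl1 : (0 : ℝ) < (lam N x1.1 : ℝ) := by exact_mod_cast lam_pos (by omega) x1.1
  have hl : (0 : ℝ) < (lam N x.1 : ℝ) := by exact_mod_cast lam_pos (by omega) x.1
  have hp : (0 : ℝ) < (2 : ℝ) ^ (x.1 - x1.1) := by positivity
  have hlam : (lam N x.1 : ℝ) = 2 ^ (x.1 - x1.1) * (lam N x1.1 : ℝ) := by
    have h := lam_add N x1.1 (x.1 - x1.1)
    rw [Nat.add_sub_cancel' hk] at h
    rw [h]; push_cast; ring
  have h1 : sz N x ≤ 4 * (Mc N : ℝ) * ((1 / 2 : ℝ) ^ (x.1 - x1.1) * ((XX N I x1).card : ℝ)) := by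
    unfold sz
    rw [div_le_iff₀ hl, hlam]
    have h5 : ((x.2.2 - x.2.1 : ℕ) : ℝ) ≤ 4 * ((Mc N : ℝ) * (lam N x1.1 : ℝ) *
        ((XX N I x1).card : ℝ)) := by
      have h6 : x.2.2 - x.2.1 ≤ 4 * (Mc N * lam N x1.1 * (XX N I x1).card) :=
        h4.trans (Nat.mul_le_mul_left 4 hx1.2.1)
      exact_mod_cast h6
    refine h5.trans (le_of_eq ?_)
    rw [one_div, inv_pow]
    field_simp
  have h2 : mu N I x ≤ (Mc N : ℝ) * ((YY N I x).card : ℝ) := by
    unfold mu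
    rw [div_le_iff₀ hl]
    have h6 : ((gs N I x - bs N I x : ℕ) : ℝ) ≤
        (Mc N : ℝ) * (lam N x.1 : ℝ) * ((YY N I x).card : ℝ) := by
      exact_mod_cast hx.2.2
    refine h6.trans (le_of_eq ?_)
    ring
  have h3 : (0 : ℝ) ≤ mu N I x := by unfold mu; positivity
  have hT' : ((XX N I x1).card : ℝ) * ((YY N I x).card : ℝ) ≤
      2 * ((TB N I x x1).card : ℝ) := by exact_mod_cast hT
  have hw : (0 : ℝ) ≤ (1 / 2 : ℝ) ^ (x.1 - x1.1) := by positivity
  calc sz N x * mu N I x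
      ≤ (4 * (Mc N : ℝ) * ((1 / 2 : ℝ) ^ (x.1 - x1.1) * ((XX N I x1).card : ℝ))) *
        ((Mc N : ℝ) * ((YY N I x).card : ℝ)) :=
        mul_le_mul h1 h2 h3 (by positivity)
    _ = 4 * (Mc N : ℝ) ^ 2 * (1 / 2 : ℝ) ^ (x.1 - x1.1) *
        (((XX N I x1).card : ℝ) * ((YY N I x).card : ℝ)) := by ring
    _ ≤ 4 * (Mc N : ℝ) ^ 2 * (1 / 2 : ℝ) ^ (x.1 - x1.1) *
        (2 * ((TB N I x x1).card : ℝ)) := mul_le_mul_of_nonneg_left hT' (by positivity)
    _ = _ := by ring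

/-- geometry of one member of the fibre over a pair -/
theorem geo {N : ℕ} {I : DI} (hN : 8 ≤ N) (hOk : Ok N I) (hCEL : T_CEL) (hCCB : T_CCB)
    (hGAM : T_GAM) (hBEM : T_BEM) (hCHN : T_CHN) {x x1 : ℕ × ℕ × ℕ} (hx : Nd N I x)
    (hx1 : Nd N I x1) (hc : cell x = cell x1) (hk : x1.1 ≤ x.1) {p : ℕ × ℕ}
    (hp : p ∈ TB N I x x1) :
    Rc N * (x.2.2 - x.2.1) < 8 * (I.R p.1 - be N I (mg N I p.1 p.2) (I.R p.1)) ∧
    I.R p.1 - be N I (mg N I p.1 p.2) (I.R p.1) < 2 * ((Rc N + 1) * (x.2.2 - x.2.1)) ∧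
    0 < x.2.2 - x.2.1 ∧
    (x.2.1 / 4 ^ (scl x + 2) = I.R p.1 / 4 ^ (scl x + 2) ∨
      x.2.1 / 4 ^ (scl x + 2) = I.R p.1 / 4 ^ (scl x + 2) - 1) := by
  obtain ⟨h1, h2, h3, -, -, h6, h7⟩ := hCEL N I hN hOk x x1 hx hx1 hc hk
  obtain ⟨hX, hY, hD⟩ := mem_TB hp
  have hX' := mem_XX hX
  have hY' := mem_YY hY
  obtain ⟨hb1, hb2⟩ := h1 (I.R p.1) hX'.1 hX'.2
  have hcx := hCCB N I hN hOk x hx.1
  have hcx1 := hCCB N I hN hOk x1 hx1.1
  -- the start of the busy interval of the second job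
  have hb3 : be N I x.1 (I.R p.2) = bs N I x := by
    obtain ⟨s, hs, -, hu, -, -⟩ := hx.1
    have hn := hCHN N I (by omega) hOk x.1 s x.2.1 hu
    have hg := (hGAM N I (by omega) x.1 x.2.1 hn.1).2.2 (I.R p.2) hY'.1
      (lt_trans hY'.2 hcx.1.2.2.1)
    exact hg.2.1
  have hrho : mg N I p.1 p.2 ≤ x.1 := Nat.sInf_le (by
    show be N I x.1 (I.R p.1) = be N I x.1 (I.R p.2)
    rw [hb1, hb3])
  have hle := be_anti hBEM N I (I.R p.1) hrho
  have hble : be N I (mg N I p.1 p.2) (I.R p.1) ≤ I.R p.1 := (hBEM N I _ _).1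
  rw [hb1] at hD hle
  have hn0 : x.2.1 < x.2.2 := hcx.1.1
  refine ⟨by omega, ?_, by omega, ?_⟩
  · have h8 : x.2.2 - bs N I x ≤ (Rc N + 1) * (x.2.2 - x.2.1) := h7
    generalize (Rc N + 1) * (x.2.2 - x.2.1) = T at h8 ⊢
    omega
  · -- the cell
    have hc1 : scl x = scl x1 := congrArg Prod.fst hc
    have hc2 : x.2.1 / 4 ^ (scl x + 2) = x1.2.1 / 4 ^ (scl x1 + 2) := congrArg Prod.snd hc
    rw [hc2, hc1]
    have hlt : x1.2.2 - x1.2.1 < 4 ^ (scl x1 + 1) :=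
      Nat.lt_pow_succ_log_self (by norm_num) _
    have hpow : (4 : ℕ) ^ (scl x1 + 1) ≤ 4 ^ (scl x1 + 2) :=
      Nat.pow_le_pow_right (by norm_num) (by omega)
    have hpos : 0 < (4 : ℕ) ^ (scl x1 + 2) := by positivity
    have hn1 : x1.2.1 < x1.2.2 := hcx1.1.1
    generalize (4 : ℕ) ^ (scl x1 + 2) = D at hpow hpos ⊢
    have hr1 : x1.2.1 / D ≤ I.R p.1 / D := Nat.div_le_div_right hX'.1
    have hr2 : I.R p.1 / D ≤ (x1.2.1 + D) / D := Nat.div_le_div_right (by omega)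
    rw [Nat.add_div_right _ hpos] at hr2
    clear hc2 hlt hpow
    generalize x1.2.1 / D = q1 at hr1 hr2 ⊢
    generalize I.R p.1 / D = q2 at hr1 hr2 ⊢
    rcases Nat.lt_or_ge q1 q2 with h | h
    · right
      exact (Nat.sub_eq_of_eq_add (Nat.le_antisymm hr2 h)).symm
    · left
      exact Nat.le_antisymm hr1 h

theorem scale_le {N : ℕ} (hN : 8 ≤ N) {n m D s t : ℕ} (h1 : Rc N * n < 8 * D)
    (h2 : D < 2 * ((Rc N + 1) * m)) (hs : 4 ^ s ≤ n) (ht : m < 4 ^ (t + 1)) : s ≤ t + 3 := by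
  by_contra hcon
  have hst : t + 4 ≤ s := by omega
  have h3 : (4 : ℕ) ^ (t + 4) ≤ 4 ^ s := Nat.pow_le_pow_right (by norm_num) hst
  have hR : 8000 ≤ Rc N := by unfold Rc; omega
  have h4 : (4 : ℕ) ^ (t + 4) = 64 * 4 ^ (t + 1) := by
    rw [show t + 4 = (t + 1) + 3 by ring, pow_add]; ring
  have h5 : Rc N * (64 * m) ≤ Rc N * n := Nat.mul_le_mul_left _ (by omega)
  have h6 : Rc N * (64 * m) < 16 * ((Rc N + 1) * m) := by omega
  have h7 : 16 * ((Rc N + 1) * m) ≤ Rc N * (64 * m) := by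
    have h8 : (Rc N + 1) * 16 ≤ Rc N * 64 := by omega
    calc 16 * ((Rc N + 1) * m) = ((Rc N + 1) * 16) * m := by ring
      _ ≤ (Rc N * 64) * m := Nat.mul_le_mul_right _ h8
      _ = Rc N * (64 * m) := by ring
  omega

end NB_

open NB_ in
theorem p_NB (hCEL : T_CEL) (hXP : T_XP) (hCCB : T_CCB) (hGAM : T_GAM) (hCHG : T_CHG)
    (hGEO : T_GEO) (hBEM : T_BEM) (hCHN : T_CHN) : T_NB := by
  classical
  intro N I hN hOk F phi hF hcell
  refine hCHG F (PP N I) (fun x => TB N I x (phi x))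
    (fun x => (1 / 2 : ℝ) ^ (x.1 - (phi x).1)) (fun x => sz N x * mu N I x)
    (8 * (Mc N : ℝ) ^ 2) 16 (by positivity) (fun x _ => by positivity) ?_ ?_ ?_
  · intro x hx p hp
    obtain ⟨h1, h2, h3, h4, -⟩ := hF x hx
    have hm := mem_TB hp
    exact hXP N I hN hOk x (phi x) h1.1 h2.1 h3 h4 (Finset.mem_product.2 ⟨hm.1, hm.2.1⟩)
  · intro x hx
    obtain ⟨h1, h2, h3, h4, h5⟩ := hF x hx
    exact term_le hN h1 h2 h4 (hCEL N I hN hOk x (phi x) h1.1 h2.1 h3 h4).2.2.2.2.1 h5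
  · intro p hp
    set G := F.filter (fun x => p ∈ TB N I x (phi x)) with hG
    have hGm : ∀ x ∈ G, x ∈ F ∧ p ∈ TB N I x (phi x) := fun x hx => Finset.mem_filter.1 hx
    have hgeo : ∀ x ∈ G,
        Rc N * (x.2.2 - x.2.1) < 8 * (I.R p.1 - be N I (mg N I p.1 p.2) (I.R p.1)) ∧
        I.R p.1 - be N I (mg N I p.1 p.2) (I.R p.1) < 2 * ((Rc N + 1) * (x.2.2 - x.2.1)) ∧
        0 < x.2.2 - x.2.1 ∧
        (x.2.1 / 4 ^ (scl x + 2) = I.R p.1 / 4 ^ (scl x + 2) ∨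
          x.2.1 / 4 ^ (scl x + 2) = I.R p.1 / 4 ^ (scl x + 2) - 1) := by
      intro x hx
      obtain ⟨hx1, hx2⟩ := hGm x hx
      obtain ⟨h1, h2, h3, h4, -⟩ := hF x hx1
      exact geo hN hOk hCEL hCCB hGAM hBEM hCHN h1.1 h2.1 h3 h4 hx2
    rcases G.eq_empty_or_nonempty with hE | hne
    · rw [hE]; norm_num
    · obtain ⟨x0, hx0, hmin⟩ := G.exists_min_image scl hne
      set s0 := scl x0 with hs0
      -- the cells
      set Cs := (Finset.range 4 ×ˢ Finset.range 2).image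
        (fun q : ℕ × ℕ => (s0 + q.1, I.R p.1 / 4 ^ (s0 + q.1 + 2) - q.2)) with hCs
      have hCcard : Cs.card ≤ 8 := by
        refine Finset.card_image_le.trans ?_
        rw [Finset.card_product, Finset.card_range, Finset.card_range]
      have hmaps : ∀ x ∈ G, cell x ∈ Cs := by
        intro x hx
        obtain ⟨g1, g2, g3, g4⟩ := hgeo x hx
        obtain ⟨f1, f2, f3, f4⟩ := hgeo x0 hx0
        have hl1 : 4 ^ scl x ≤ x.2.2 - x.2.1 := Nat.pow_log_le_self 4 (by omega)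
        have hl2 : x0.2.2 - x0.2.1 < 4 ^ (s0 + 1) := Nat.lt_pow_succ_log_self (by norm_num) _
        have hsc := scale_le hN g1 f2 hl1 hl2
        have hsc' : s0 ≤ scl x := hmin x hx
        rw [hCs, Finset.mem_image]
        rcases g4 with g4 | g4
        · refine ⟨(scl x - s0, 0), ?_, ?_⟩
          · rw [Finset.mem_product, Finset.mem_range, Finset.mem_range]
            exact ⟨by show scl x - s0 < 4; omega, by norm_num⟩
          · show (s0 + (scl x - s0), I.R p.1 / 4 ^ (s0 + (scl x - s0) + 2) - 0) = cell x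
            rw [Nat.add_sub_cancel' hsc', Nat.sub_zero, ← g4]
            rfl
        · refine ⟨(scl x - s0, 1), ?_, ?_⟩
          · rw [Finset.mem_product, Finset.mem_range, Finset.mem_range]
            exact ⟨by show scl x - s0 < 4; omega, by norm_num⟩
          · show (s0 + (scl x - s0), I.R p.1 / 4 ^ (s0 + (scl x - s0) + 2) - 1) = cell x
            rw [Nat.add_sub_cancel' hsc', ← g4]
            rfl
      rw [← Finset.sum_fiberwise_of_maps_to hmaps]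
      have hin : ∀ c ∈ Cs, ∑ x ∈ G.filter (fun x => cell x = c),
          (1 / 2 : ℝ) ^ (x.1 - (phi x).1) ≤ 2 := by
        intro c _
        rcases (G.filter (fun x => cell x = c)).eq_empty_or_nonempty with hE | ⟨y, hy⟩
        · rw [hE]; norm_num
        · obtain ⟨hy1, hy2⟩ := Finset.mem_filter.1 hy
          have hyF := (hGm y hy1).1
          have hphi : ∀ x ∈ G.filter (fun x => cell x = c), phi x = phi y := by
            intro x hx
            obtain ⟨hx1, hx2⟩ := Finset.mem_filter.1 hx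
            exact hcell x (hGm x hx1).1 y hyF (hx2.trans hy2.symm)
          have hsum : ∑ x ∈ G.filter (fun x => cell x = c), (1 / 2 : ℝ) ^ (x.1 - (phi x).1) =
              ∑ x ∈ G.filter (fun x => cell x = c), (1 / 2 : ℝ) ^ (x.1 - (phi y).1) :=
            Finset.sum_congr rfl (fun x hx => by rw [hphi x hx])
          rw [hsum]
          refine (hGEO _ (phi y).1 ?_ ?_).2
          · intro x hx
            have h1 := hphi x hx
            obtain ⟨hx1, hx2⟩ := Finset.mem_filter.1 hx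
            have h2 := (hF x (hGm x hx1).1).2.2.2.1
            rw [h1] at h2
            exact h2
          · intro x hx z hz hxz
            obtain ⟨hx1, hx2⟩ := Finset.mem_filter.1 hx
            obtain ⟨hz1, hz2⟩ := Finset.mem_filter.1 hz
            have hxN := (hF x (hGm x hx1).1).1.1
            have hzN := (hF z (hGm z hz1).1).1.1
            exact ((hCEL N I hN hOk x z hxN hzN (hx2.trans hz2.symm) hxz.ge).2.2.2.1
              hxz.symm).symm
      calc ∑ c ∈ Cs, ∑ x ∈ G.filter (fun x => cell x = c), (1 / 2 : ℝ) ^ (x.1 - (phi x).1)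
          ≤ ∑ _c ∈ Cs, (2 : ℝ) := Finset.sum_le_sum hin
        _ = Cs.card * 2 := by rw [Finset.sum_const, nsmul_eq_mul]
        _ ≤ 8 * 2 := by
            have : (Cs.card : ℝ) ≤ 8 := by exact_mod_cast hCcard
            linarith
        _ = 16 := by norm_num

end STR
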