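import Pool.Agent.STR.TargetsReal

/-!
# Project STR (MP_32d942_lc): job STR-NCL, the algorithm is non-clairvoyant
-/

set_option autoImplicit false

namespace STR

namespace NCL_

theorem del_pos {N : ℕ} {s w : ℝ} (hN : 1 ≤ N) (hs : 0 < s) (hw : 0 < w) : 0 < del N s w := by
  have h : (0 : ℝ) < N := by exact_mod_cast hN
  unfold del
  positivity

/-- the work done at the slot boundaries -/
theorem alg_at (hLIN : T_LIN) {N : ℕ} {s w : ℝ} (hN : 1 ≤ N) (hs : 0 < s) (hw : 0 < w)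
    (I : Inst) (n j : ℕ) :
    alg N s w I j (n * del N s w) = w * (eu N (di N s w I) n j : ℝ) := by
  have h := del_pos hN hs hw
  unfold alg
  rw [mul_div_assoc, div_self h.ne', mul_one, hLIN.1]

/-- the alive jobs at slot `n` -/
theorem mem_al_iff (hLIN : T_LIN) {N : ℕ} {s w : ℝ} (hN : 1 ≤ N) (hs : 0 < s) (hw : 0 < w)
    (I : Inst) (n j : ℕ) : j ∈ al N (di N s w I) n ↔
      j ∈ I.jobs ∧ I.r j ≤ n * del N s w ∧ ¬ I.p j ≤ alg N s w I j (n * del N s w) := by
  have h := del_pos hN hs hw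
  rw [mem_al, alg_at hLIN hN hs hw, not_le]
  show j ∈ I.jobs ∧ ⌈I.r j / del N s w⌉₊ ≤ n ∧ eu N (di N s w I) n j < ⌈I.p j / w⌉₊ ↔ _
  rw [Nat.ceil_le, Nat.lt_ceil, div_le_iff₀ h, lt_div_iff₀ hw, mul_comm w]

end NCL_

open NCL_

theorem p_NCL (hLIN : T_LIN) (hFEA : T_FEA) (hLOC : T_LOC) : T_NCL := by
  intro N s w hN hs hw
  refine ⟨fun I => hFEA N s w hN hs hw I, ?_⟩
  intro I I' t hS j _ _ τ hτ
  have hd := del_pos hN hs hw
  obtain ⟨hS1, hS2, hS3⟩ := hS
  -- the alive jobs agree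
  have hal : ∀ n : ℕ, (n : ℝ) * del N s w < t →
      al N (di N s w I) n = al N (di N s w I') n := by
    intro n hn
    ext i
    rw [mem_al_iff hLIN hN hs hw, mem_al_iff hLIN hN hs hw]
    constructor
    · rintro ⟨h1, h2, h3⟩
      have h4 : I.r i < t := lt_of_le_of_lt h2 hn
      have h5 := (hS1 i).1 ⟨h1, h4⟩
      refine ⟨h5.1, ?_, ?_⟩
      · rw [← hS2 i h1 h4]; exact h2
      · rw [← hS3 i h1 h4 _ hn]; exact h3
    · rintro ⟨h1, h2, h3⟩
      have h4 : I'.r i < t := lt_of_le_of_lt h2 hn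
      have h5 := (hS1 i).2 ⟨h1, h4⟩
      refine ⟨h5.1, ?_, ?_⟩
      · rw [hS2 i h5.1 h5.2]; exact h2
      · rw [hS3 i h5.1 h5.2 _ hn]; exact h3
  -- the releases of the alive jobs agree
  have hR : ∀ n : ℕ, (n : ℝ) * del N s w < t → ∀ i ∈ al N (di N s w I) n,
      (di N s w I).R i = (di N s w I').R i := by
    intro n hn i hi
    rw [mem_al_iff hLIN hN hs hw] at hi
    have h4 : I.r i < t := lt_of_le_of_lt hi.2.1 hn
    show ⌈I.r i / del N s w⌉₊ = ⌈I'.r i / del N s w⌉₊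
    rw [hS2 i hi.1 h4]
  -- the served units agree
  have hE : ∀ n : ℕ, (n : ℝ) * del N s w < t →
      eu N (di N s w I) n j = eu N (di N s w I') n j ∧
      eu N (di N s w I) (n + 1) j = eu N (di N s w I') (n + 1) j := by
    intro n hn
    have hk : ∀ k ≤ n, (k : ℝ) * del N s w < t := by
      intro k hk
      have h1 : (k : ℝ) ≤ n := by exact_mod_cast hk
      exact lt_of_le_of_lt (mul_le_mul_of_nonneg_right h1 hd.le) hn
    have h := hLOC N (di N s w I) (di N s w I') n (fun k hk' => hal k (hk k hk'))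
      (fun k hk' i hi => hR k (hk k hk') i hi)
    exact ⟨congrArg (fun S => S.e j) h.1, h.2 j⟩
  unfold alg
  rcases le_or_gt τ 0 with h0 | h0
  · have hx : τ / del N s w ≤ ((0 : ℕ) : ℝ) := by
      rw [Nat.cast_zero]
      exact div_nonpos_of_nonpos_of_nonneg h0 hd.le
    have hz : ∀ I : Inst, lin (fun n => (eu N (di N s w I) n j : ℝ)) (τ / del N s w) = 0 := by
      intro I
      refine hLIN.2.1 _ 0 _ ?_ hx
      intro l hl
      have : l = 0 := by omega
      rw [this, eu_zero, Nat.cast_zero]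
    rw [hz, hz]
  · have hx : 0 < τ / del N s w := div_pos h0 hd
    have hc : 0 < ⌈τ / del N s w⌉₊ := Nat.ceil_pos.2 hx
    obtain ⟨n, hn⟩ : ∃ n, ⌈τ / del N s w⌉₊ = n + 1 := ⟨⌈τ / del N s w⌉₊ - 1, by omega⟩
    have h1 : (n : ℝ) < τ / del N s w := Nat.lt_ceil.1 (by omega)
    have h2 : τ / del N s w ≤ n + 1 := by
      have h := Nat.le_ceil (τ / del N s w)
      rw [hn] at h
      exact_mod_cast h
    have h3 : (n : ℝ) * del N s w < t := lt_of_lt_of_le ((lt_div_iff₀ hd).1 h1) hτ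
    obtain ⟨h4, h5⟩ := hE n h3
    have h6 := hLIN.2.2.2.2.2 (fun n => (eu N (di N s w I) n j : ℝ))
      (fun n => (eu N (di N s w I') n j : ℝ)) n (τ / del N s w)
      (by exact_mod_cast h4) (by exact_mod_cast h5) h1 h2
    rw [h6]

end STR
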