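import Pool.Agent.STR.P_NMU

/-!
# Project STR: targets NCg and NC (nodes with a certificate)
-/

set_option autoImplicit false

namespace STR

namespace NCg_

theorem term_le {s o d : ℝ} (hs : 0 ≤ s) (h : s ≤ o * d) : s ^ 2 ≤ o ^ 2 * d ^ 2 := by
  rw [← mul_pow]
  exact pow_le_pow_left₀ hs h 2

theorem amgm {s m L : ℝ} (hL : 0 < L) : s * m ≤ (L * s ^ 2 + m ^ 2 / L) / 2 := by
  have h : 0 ≤ (L * s - m) ^ 2 / L := div_nonneg (sq_nonneg _) hL.le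
  have h2 : (L * s - m) ^ 2 / L = L * s ^ 2 + m ^ 2 / L - 2 * (s * m) := by
    field_simp
    ring
  linarith

end NCg_

open Classical in
theorem p_NCg (hCCB : T_CCB) (hCS : T_CS) : T_NCg := by
  intro N I D hN hOk hOpt g F hF
  have hex : ∀ x : ℕ × ℕ × ℕ, ∃ j p0 p1, x ∈ F → x.1 = j + g ∧ bs N I x ≤ p0 ∧ p0 ≤ p1 ∧
      p1 ≤ gs N I x ∧ sz N x ≤ om g * (((p1 - p0 : ℕ) : ℝ) / lam N j) ∧
      Cert N I (g / 4) j p0 p1 := by
    intro x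
    by_cases hx : x ∈ F
    · obtain ⟨_, j, p0, p1, h⟩ := hF x hx
      exact ⟨j, p0, p1, fun _ => h⟩
    · exact ⟨0, 0, 0, fun h => absurd h hx⟩
  choose j p0 p1 hj using hex
  let T : ℕ × ℕ × ℕ → ℕ × ℕ × ℕ := fun x => (j x, p0 x, p1 x)
  let F' : Finset (ℕ × ℕ × ℕ) := F.filter fun x => p0 x < p1 x
  have hslot : ∀ x ∈ F', ∀ y ∈ F', j x = j y → (∃ t, (p0 x ≤ t ∧ t < p1 x) ∧
      (p0 y ≤ t ∧ t < p1 y)) → x = y := by
    rintro x hx y hy hjj ⟨t, ⟨t1, t2⟩, t3, t4⟩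
    obtain ⟨hx1, -⟩ := Finset.mem_filter.1 hx
    obtain ⟨hy1, -⟩ := Finset.mem_filter.1 hy
    obtain ⟨a1, a2, a3, a4, -, -⟩ := hj x hx1
    obtain ⟨b1, b2, b3, b4, -, -⟩ := hj y hy1
    refine (hCCB N I hN hOk x (hF x hx1).1.1).2.2.2.2 y (hF y hy1).1.1 (by omega) ⟨t, ?_, ?_⟩
    · exact ⟨a2.trans t1, t2.trans_le a4⟩
    · exact ⟨b2.trans t3, t4.trans_le b4⟩
  have hinj : Set.InjOn T (F' : Set (ℕ × ℕ × ℕ)) := by
    intro x hx y hy hxy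
    have hx' : x ∈ F' := Finset.mem_coe.1 hx
    have hy' : y ∈ F' := Finset.mem_coe.1 hy
    simp only [T, Prod.mk.injEq] at hxy
    have h1 := (Finset.mem_filter.1 hx').2
    exact hslot x hx' y hy' hxy.1
      ⟨p0 x, ⟨le_rfl, h1⟩, by rw [← hxy.2.1], by rw [← hxy.2.2]; exact h1⟩
  have hFam : Fam (F'.image T) := by
    rintro u hu v hv huv ⟨t, ht⟩
    obtain ⟨x, hx, rfl⟩ := Finset.mem_image.1 hu
    obtain ⟨y, hy, rfl⟩ := Finset.mem_image.1 hv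
    rw [hslot x hx y hy huv ⟨t, ht⟩]
  have hcs := hCS N I D hN hOk hOpt (F'.image T) (g / 4) hFam (by
    intro u hu
    obtain ⟨x, hx, rfl⟩ := Finset.mem_image.1 hu
    exact (hj x (Finset.mem_filter.1 hx).1).2.2.2.2.2)
  rw [Finset.sum_image hinj] at hcs
  have hterm : ∀ x ∈ F, sz N x ^ 2 ≤ om g ^ 2 * sz N (T x) ^ 2 := by
    intro x hx
    exact NCg_.term_le (NMU_.sz_nn N x) (hj x hx).2.2.2.2.1
  have hzero : ∀ x ∈ F, x ∉ F' → sz N (T x) ^ 2 = 0 := by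
    intro x hx hx'
    have h1 : ¬ p0 x < p1 x := fun h => hx' (Finset.mem_filter.2 ⟨hx, h⟩)
    have h2 : p1 x - p0 x = 0 := by omega
    have h3 : sz N (T x) = 0 := by
      show ((p1 x - p0 x : ℕ) : ℝ) / (lam N (j x) : ℝ) = 0
      rw [h2]
      simp
    rw [h3]
    norm_num
  have hsum : ∑ x ∈ F', sz N (T x) ^ 2 = ∑ x ∈ F, sz N (T x) ^ 2 :=
    Finset.sum_subset (Finset.filter_subset _ _) hzero
  calc ∑ x ∈ F, sz N x ^ 2 ≤ ∑ x ∈ F, om g ^ 2 * sz N (T x) ^ 2 := Finset.sum_le_sum hterm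
    _ = om g ^ 2 * ∑ x ∈ F', sz N (T x) ^ 2 := by rw [hsum, Finset.mul_sum]
    _ ≤ om g ^ 2 * (Cs N * (((g / 4 : ℕ) : ℝ) + 1) ^ 2 * OO N I D) :=
      mul_le_mul_of_nonneg_left hcs (sq_nonneg _)

open Classical in
theorem p_NC (hNCg : T_NCg) (hNMU : T_NMU) (hOM : T_OM) (hON : T_ON) : T_NC := by
  intro N I D hN hOk hOpt k0 L hLv F hF
  have hOO : 0 ≤ OO N I D := NMU_.OO_nn hON hN hOk hOpt
  have hCs := NMU_.Cs_nn N
  rcases F.eq_empty_or_nonempty with rfl | ⟨x0, hx0⟩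
  · rw [Finset.sum_empty]
    positivity
  have hL : 1 ≤ L := by
    have := hF x0 hx0
    omega
  have hL0 : (0 : ℝ) < L := by exact_mod_cast hL
  have hex : ∀ x : ℕ × ℕ × ℕ, ∃ g, x ∈ F → ∃ j p0 p1, x.1 = j + g ∧ bs N I x ≤ p0 ∧ p0 ≤ p1 ∧
      p1 ≤ gs N I x ∧ sz N x ≤ om g * (((p1 - p0 : ℕ) : ℝ) / lam N j) ∧
      Cert N I (g / 4) j p0 p1 := by
    intro x
    by_cases hx : x ∈ F
    · obtain ⟨_, _, _, j, g, p0, p1, h⟩ := hF x hx
      exact ⟨g, fun _ => ⟨j, p0, p1, h⟩⟩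
    · exact ⟨0, fun h => absurd h hx⟩
  choose g hg using hex
  have hmap : ∀ x ∈ F, g x ∈ Finset.range (F.sup g + 1) := by
    intro x hx
    rw [Finset.mem_range]
    exact Nat.lt_succ_of_le (Finset.le_sup hx)
  have hsz : ∑ x ∈ F, sz N x ^ 2 ≤ 6 * Cs N * OO N I D := by
    rw [← Finset.sum_fiberwise_of_maps_to hmap]
    have h1 : ∀ m ∈ Finset.range (F.sup g + 1),
        ∑ x ∈ F.filter (fun x => g x = m), sz N x ^ 2 ≤
          (3 * Cs N * OO N I D) * (1 / 2 : ℝ) ^ m := by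
      intro m _
      have h2 := hNCg N I D hN hOk hOpt m (F.filter fun x => g x = m) (by
        intro x hx
        obtain ⟨hx1, hx2⟩ := Finset.mem_filter.1 hx
        have h3 := hg x hx1
        rw [hx2] at h3
        exact ⟨(hF x hx1).1, h3⟩)
      refine h2.trans ?_
      have h3 := hOM.2.2.1 m
      calc om m ^ 2 * (Cs N * (((m / 4 : ℕ) : ℝ) + 1) ^ 2 * OO N I D)
          = (Cs N * OO N I D) * (om m ^ 2 * (((m / 4 : ℕ) : ℝ) + 1) ^ 2) := by ring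
        _ ≤ (Cs N * OO N I D) * (3 * (1 / 2 : ℝ) ^ m) :=
            mul_le_mul_of_nonneg_left h3 (mul_nonneg hCs hOO)
        _ = (3 * Cs N * OO N I D) * (1 / 2 : ℝ) ^ m := by ring
    refine (Finset.sum_le_sum h1).trans ?_
    rw [← Finset.mul_sum]
    have h4 := sum_geometric_two_le (F.sup g + 1)
    have h5 : 0 ≤ 3 * Cs N * OO N I D := mul_nonneg (mul_nonneg (by norm_num) hCs) hOO
    calc (3 * Cs N * OO N I D) * ∑ m ∈ Finset.range (F.sup g + 1), (1 / 2 : ℝ) ^ m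
        ≤ (3 * Cs N * OO N I D) * 2 := mul_le_mul_of_nonneg_left h4 h5
      _ = 6 * Cs N * OO N I D := by ring
  have hmu : ∑ x ∈ F, mu N I x ^ 2 ≤ Cs N * L * L * OO N I D :=
    hNMU N I D hN hOk hOpt k0 L hLv F fun x hx => ⟨(hF x hx).1.1, (hF x hx).2.1, (hF x hx).2.2.1⟩
  have h6 : ∑ x ∈ F, sz N x * mu N I x ≤
      (L * ∑ x ∈ F, sz N x ^ 2 + (∑ x ∈ F, mu N I x ^ 2) / L) / 2 := by
    rw [Finset.mul_sum, Finset.sum_div, ← Finset.sum_add_distrib, Finset.sum_div]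
    exact Finset.sum_le_sum fun x _ => NCg_.amgm hL0
  have h7 : (∑ x ∈ F, mu N I x ^ 2) / L ≤ Cs N * L * OO N I D := by
    rw [div_le_iff₀ hL0]
    refine hmu.trans (le_of_eq ?_)
    ring
  have h8 : (L : ℝ) * ∑ x ∈ F, sz N x ^ 2 ≤ L * (6 * Cs N * OO N I D) :=
    mul_le_mul_of_nonneg_left hsz hL0.le
  have h9 : 0 ≤ Cs N * L * OO N I D := by positivity
  nlinarith [h6, h7, h8, h9]

end STR
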