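import Pool.Agent.STR.TargetsAna

set_option autoImplicit false

namespace STR

theorem p_NDD (hCCB : T_CCB) (hCHG : T_CHG) (hGEO : T_GEO) (hOM : T_OM) :
    T_NDD := by
  classical
  intro N I hN hOk F hF
  have hN1 : 1 ≤ N := by omega
  choose! j g Z Y hx1 hx2 hx3 hx4 hx5 hx6 using fun x hx => (hF x hx).2
  have hmu : ∀ x ∈ F, mu N I x ≤ 2 * (Mc N * ((Y x).card : ℝ)) := by
    intro x hx
    have h1 := (hF x hx).1.2.2
    have h2 := hx4 x hx
    have hl : (0 : ℝ) < lam N x.1 := by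
      have := lam_pos hN1 x.1
      exact_mod_cast this
    unfold mu
    rw [div_le_iff₀ hl]
    have h3 : ((gs N I x - bs N I x : ℕ) : ℝ) ≤ Mc N * lam N x.1 * (YY N I x).card := by
      exact_mod_cast h1
    have h4 : ((YY N I x).card : ℝ) ≤ 2 * (Y x).card := by exact_mod_cast h2
    have h5 : (0 : ℝ) ≤ Mc N * lam N x.1 := by positivity
    calc ((gs N I x - bs N I x : ℕ) : ℝ) ≤ Mc N * lam N x.1 * (YY N I x).card := h3
      _ ≤ Mc N * lam N x.1 * (2 * (Y x).card) := mul_le_mul_of_nonneg_left h4 h5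
      _ = 2 * (Mc N * ((Y x).card : ℝ)) * lam N x.1 := by ring
  have hom0 : ∀ g, 0 ≤ om g := fun g => by unfold om; positivity
  have key := hCHG F (PP N I) (fun x => Z x ×ˢ Y x) (fun x => om (g x))
    (fun x => sz N x * mu N I x) (2 * (Mc N : ℝ) ^ 2) (5 / 2) (by positivity)
    (fun x _ => hom0 _) hx2 ?_ ?_
  · exact key
  · intro x hx
    have h1 := hx5 x hx
    have h2 := hmu x hx
    have hsz : 0 ≤ sz N x := by unfold sz; positivity
    have hmu0 : 0 ≤ mu N I x := by unfold mu; positivity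
    have h3 : 0 ≤ om (g x) * (Mc N * ((Z x).card : ℝ)) := mul_nonneg (hom0 _) (by positivity)
    calc sz N x * mu N I x ≤ (om (g x) * (Mc N * ((Z x).card : ℝ))) *
          (2 * (Mc N * ((Y x).card : ℝ))) := mul_le_mul h1 h2 hmu0 h3
      _ = 2 * (Mc N : ℝ) ^ 2 * (om (g x) * ((Z x ×ˢ Y x).card : ℝ)) := by
          rw [Finset.card_product]; push_cast; ring
  · intro p hp
    set G := F.filter (fun x => p ∈ Z x ×ˢ Y x) with hG
    have hmem : ∀ x ∈ G, x ∈ F ∧ p.1 ∈ Z x ∧ p.2 ∈ Y x := by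
      intro x hx
      rw [hG, Finset.mem_filter, Finset.mem_product] at hx
      exact hx
    have hmg : ∀ x ∈ G, mg N I p.1 p.2 = j x := fun x hx =>
      hx6 x (hmem x hx).1 p.1 (hmem x hx).2.1 p.2 (hmem x hx).2.2
    have hgeo := hGEO G (mg N I p.1 p.2) (fun x hx => by
      rw [hmg x hx, hx1 x (hmem x hx).1]; omega) (fun x hx y hy hxy => by
      have ex := (hx3 x (hmem x hx).1 p.2 (hmem x hx).2.2).1
      have ey := (hx3 y (hmem y hy).1 p.2 (hmem y hy).2.2).1
      have ccx := (hF x (hmem x hx).1).1.1.1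
      have ccy := (hF y (hmem y hy).1).1.1.1
      have cx := hCCB N I hN hOk x ccx
      have cy := hCCB N I hN hOk y ccy
      refine cx.2.2.2.2 y ccy hxy ⟨bs N I x, ⟨le_rfl, ?_⟩, ?_, ?_⟩
      · have := cx.1; omega
      · rw [← ex, ← ey, hxy]
      · rw [← ex, hxy, ey]
        have := cy.1; omega)
    refine le_trans (Finset.sum_le_sum fun x hx => ?_) hgeo.1
    have e1 : x.1 - mg N I p.1 p.2 = g x := by
      rw [hmg x hx, hx1 x (hmem x hx).1]; omega
    rw [e1]
    exact hOM.1 (g x)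

end STR
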