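import Pool.Agent.STR.TargetsOpt

/-!
# Project STR: non-dense levels
-/

set_option autoImplicit false

namespace STR

namespace NDS_

theorem geo (n : ℕ) : ∑ i ∈ Finset.range n, (1 / 2 : ℝ) ^ (i + 1) = 1 - (1 / 2 : ℝ) ^ n := by
  induction n with
  | zero => simp
  | succ n ih => rw [Finset.sum_range_succ, ih, pow_succ]; ring

theorem geo_set (T : Finset ℕ) (m0 : ℕ) (hT : ∀ m ∈ T, m0 < m) :
    ∑ m ∈ T, (1 / 2 : ℝ) ^ (m - m0) ≤ 1 := by
  have hinj : Set.InjOn (fun m => m - m0 - 1) (T : Set ℕ) := by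
    intro x hx y hy hxy
    have h1 := hT x hx
    have h2 := hT y hy
    simp only at hxy
    omega
  have h1 : ∑ m ∈ T, (1 / 2 : ℝ) ^ (m - m0) =
      ∑ i ∈ T.image (fun m => m - m0 - 1), (1 / 2 : ℝ) ^ (i + 1) := by
    rw [Finset.sum_image hinj]
    refine Finset.sum_congr rfl fun m hm => ?_
    have := hT m hm
    congr 1
    omega
  obtain ⟨n, hn⟩ : ∃ n, T.image (fun m => m - m0 - 1) ⊆ Finset.range n :=
    ⟨(T.image (fun m => m - m0 - 1)).sup id + 1, fun x hx => by
      rw [Finset.mem_range]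
      have := Finset.le_sup (f := id) hx
      simp only [id] at this
      omega⟩
  rw [h1]
  refine (Finset.sum_le_sum_of_subset_of_nonneg hn fun i _ _ => by positivity).trans ?_
  rw [geo]
  have : (0 : ℝ) ≤ (1 / 2 : ℝ) ^ n := by positivity
  linarith

end NDS_

theorem p_NDS : T_NDS := by
  classical
  intro N I hN K m0 a b a' b' ha hb
  set S : Finset ℕ := I.J.filter fun i => (a ≤ I.R i ∧ I.R i < b) ∧
    (m0 < lev N I i ∧ ¬ dens N I K (lev N I i) a' b') with hS
  set T : Finset ℕ := S.image (fun i => lev N I i) with hT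
  have hcard : S.card = ∑ m ∈ T, (S.filter fun i => lev N I i = m).card :=
    Finset.card_eq_sum_card_fiberwise fun i hi => Finset.mem_coe.2 (Finset.mem_image_of_mem _ hi)
  have hTm : ∀ m ∈ T, m0 < m ∧ cnt N I m a' b' * lam N m < K * (b' - a') := by
    intro m hm
    obtain ⟨i, hi, rfl⟩ := Finset.mem_image.1 hm
    rw [hS, Finset.mem_filter] at hi
    obtain ⟨-, -, h1, h2⟩ := hi
    unfold dens at h2
    exact ⟨h1, not_le.1 h2⟩
  have hc : ∀ m, (S.filter fun i => lev N I i = m).card ≤ cnt N I m a' b' := by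
    intro m
    unfold cnt
    apply Finset.card_le_card
    intro i hi
    rw [Finset.mem_filter, hS, Finset.mem_filter] at hi
    obtain ⟨⟨h1, h2, -⟩, h3⟩ := hi
    rw [mem_jobs]
    exact ⟨h1, ⟨by omega, by omega⟩, h3⟩
  have hterm : ∀ m ∈ T, (lam N m0 : ℝ) * ((S.filter fun i => lev N I i = m).card : ℝ) ≤
      ((K * (b' - a') : ℕ) : ℝ) * (1 / 2 : ℝ) ^ (m - m0) := by
    intro m hm
    obtain ⟨h1, h2⟩ := hTm m hm
    have h3 : lam N m = 2 ^ (m - m0) * lam N m0 := by
      rw [← lam_add]; congr 1; omega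
    have h4 : lam N m0 * (S.filter fun i => lev N I i = m).card * 2 ^ (m - m0) ≤
        K * (b' - a') := by
      calc lam N m0 * (S.filter fun i => lev N I i = m).card * 2 ^ (m - m0)
          = (S.filter fun i => lev N I i = m).card * lam N m := by rw [h3]; ring
        _ ≤ cnt N I m a' b' * lam N m := Nat.mul_le_mul_right _ (hc m)
        _ ≤ K * (b' - a') := h2.le
    have h5 : ((lam N m0 : ℝ) * ((S.filter fun i => lev N I i = m).card : ℝ)) *
        2 ^ (m - m0) ≤ ((K * (b' - a') : ℕ) : ℝ) := by exact_mod_cast h4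
    rw [one_div, inv_pow, ← div_eq_mul_inv, le_div_iff₀ (by positivity)]
    exact h5
  have hfin : (lam N m0 : ℝ) * (S.card : ℝ) ≤ ((K * (b' - a') : ℕ) : ℝ) := by
    rw [hcard, Nat.cast_sum, Finset.mul_sum]
    refine (Finset.sum_le_sum hterm).trans ?_
    rw [← Finset.mul_sum]
    exact mul_le_of_le_one_right (by positivity)
      (NDS_.geo_set T m0 fun m hm => (hTm m hm).1)
  exact_mod_cast hfin

end STR
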