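import Pool.Agent.STR.TargetsSim

/-!
# Project STR: proofs of `T_NE` and `T_TH`
-/

set_option autoImplicit false

namespace STR

theorem p_NE : T_NE := by
  classical
  intro N I hN hOk k t
  induction t generalizing k with
  | zero =>
    intro a h
    have ha : a ≤ 0 := uu_le N I h
    have ha0 : a = 0 := by omega
    subst ha0
    rw [uu_zero] at h
    split_ifs at h with h1
    · obtain ⟨j, hj, hj0⟩ := h1
      have hj' := (mem_al N I).1 hj
      refine ⟨⟨j, ?_, by omega⟩, j, hj'.1, hj0⟩
      rw [mem_Ak]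
      refine ⟨hj'.1, hj'.2.1, hj'.2.2, ?_⟩
      rw [eu_zero]
      exact ell_pos hN k
    · exact absurd h (by simp)
  | succ t ih =>
    intro a h
    rcases uu_cases N I h with ⟨h1, j, hj, hjt⟩ | ⟨i, hi, h1, h2, -⟩
    · refine ⟨⟨j, ?_, by omega⟩, j, hj, by omega⟩
      have := self_mem N I hN hOk hj k
      rw [hjt] at this
      exact this
    · obtain ⟨j, hj, hj1, hj2⟩ := h2
      rw [h1] at hj1
      refine ⟨⟨j, Ak_level N I hi hj, by exact_mod_cast hj1⟩, ?_⟩
      exact (ih i a h1).2

theorem TH_be_mono (hBEM : T_BEM) (N : ℕ) (I : DI) (i k t : ℕ) (h : i ≤ k) :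
    be N I k t ≤ be N I i t := by
  induction h with
  | refl => exact le_rfl
  | step _ ih => exact ((hBEM N I _ t).2.1).trans ih

theorem p_TH (hBEM : T_BEM) : T_TH := by
  intro N I hN k t a h
  cases t with
  | zero =>
    left
    have := lam_pos hN k
    omega
  | succ t =>
    rcases uu_cases N I h with ⟨h1, -⟩ | ⟨i, hi, h1, -, h3⟩
    · left
      have := lam_pos hN k
      omega
    · unfold Clo at h3
      rw [h1] at h3
      have h4 : ((a : ℕ∞)).toNat = a := ENat.toNat_natCast a
      rw [h4] at h3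
      have h5 := lam_le N hi
      have h6 := TH_be_mono hBEM N I i k (t + 1) hi
      by_cases h7 : lam N i ≤ t + 1 - a
      · right
        have h8 : ¬ (a ≤ be N I i (t + 1) + Rc N * (t + 1 - a)) := fun h9 => h3 ⟨h7, h9⟩
        omega
      · left
        omega

end STR
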