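import Pool.Agent.STR.TargetsAna
import Pool.Agent.STR.TargetsOpt
import Pool.Agent.STR.TargetsSim

/-!
# Project STR: job NGA
-/

set_option autoImplicit false

namespace STR

namespace NGA_

/-- the bound of one term -/
theorem term_le {N : ℕ} {I : DI} (hN : 8 ≤ N) {x : ℕ × ℕ × ℕ} (h1 : bs N I x ≤ x.2.1)
    (h2 : x.2.2 < gs N I x) {m1 m2 : ℕ}
    (hm1 : gs N I x - bs N I x ≤ Mc N * lam N x.1 * m1)
    (hm2 : gs N I x - bs N I x ≤ Mc N * lam N x.1 * m2) :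
    sz N x * mu N I x ≤ (Mc N : ℝ) ^ 2 * (1 * ((m1 * m2 : ℕ) : ℝ)) := by
  have hl : (0 : ℝ) < (lam N x.1 : ℝ) := by exact_mod_cast lam_pos (by omega) x.1
  have key : ∀ m : ℕ, gs N I x - bs N I x ≤ Mc N * lam N x.1 * m →
      mu N I x ≤ (Mc N : ℝ) * (m : ℝ) := by
    intro m hm
    unfold mu
    rw [div_le_iff₀ hl]
    have h6 : ((gs N I x - bs N I x : ℕ) : ℝ) ≤ (Mc N : ℝ) * (lam N x.1 : ℝ) * (m : ℝ) := by
      exact_mod_cast hm
    refine h6.trans (le_of_eq ?_)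
    ring
  have hs : sz N x ≤ mu N I x := by
    unfold sz mu
    have h3 : x.2.2 - x.2.1 ≤ gs N I x - bs N I x := by omega
    have h4 : ((x.2.2 - x.2.1 : ℕ) : ℝ) ≤ ((gs N I x - bs N I x : ℕ) : ℝ) := by
      exact_mod_cast h3
    exact div_le_div_of_nonneg_right h4 hl.le
  have h0 : (0 : ℝ) ≤ mu N I x := by unfold mu; positivity
  have h5 := key m1 hm1
  have h6 := key m2 hm2
  calc sz N x * mu N I x ≤ ((Mc N : ℝ) * (m1 : ℝ)) * ((Mc N : ℝ) * (m2 : ℝ)) :=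
        mul_le_mul (hs.trans h5) h6 h0 (by positivity)
    _ = _ := by push_cast; ring

/-- numbers in a window, injectively indexed -/
theorem card_window (G : Finset (ℕ × ℕ × ℕ)) (rho w : ℕ)
    (h1 : ∀ x ∈ G, rho ≤ x.1 ∧ x.1 < rho + w)
    (h2 : ∀ x ∈ G, ∀ y ∈ G, x.1 = y.1 → x = y) : G.card ≤ w := by
  classical
  have h3 : (G.image fun x => x.1).card = G.card :=
    Finset.card_image_of_injOn (fun x hx y hy h => h2 x hx y hy h)
  have h4 : (G.image fun x => x.1) ⊆ Finset.Ico rho (rho + w) := by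
    intro k hk
    rw [Finset.mem_image] at hk
    obtain ⟨x, hx, rfl⟩ := hk
    rw [Finset.mem_Ico]
    exact h1 x hx
  have h5 := Finset.card_le_card h4
  rw [h3, Nat.card_Ico] at h5
  omega

end NGA_

theorem p_NGA (hCCB : T_CCB) (hGAM : T_GAM) (hUPC : T_UPC) (hCHG : T_CHG) (hCHN : T_CHN) :
    T_NGA := by
  classical
  intro N I hN hOk F hF
  have hF' : ∀ x : ℕ × ℕ × ℕ, ∃ Y : Finset ℕ × Finset ℕ, x ∈ F →
      Y.1 ⊆ I.J ∧ Y.2 ⊆ I.J ∧ (∀ i ∈ Y.1, bs N I x ≤ I.R i ∧ I.R i < gs N I x) ∧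
      (∀ i ∈ Y.2, bs N I x ≤ I.R i ∧ I.R i < gs N I x) ∧ Y.1 ×ˢ Y.2 ⊆ PP N I ∧
      (kap N ≤ x.1 → ∀ i ∈ Y.1, ∀ i' ∈ Y.2,
        be N I (x.1 - kap N) (I.R i) ≠ be N I (x.1 - kap N) (I.R i')) ∧
      gs N I x - bs N I x ≤ Mc N * lam N x.1 * Y.1.card ∧
      gs N I x - bs N I x ≤ Mc N * lam N x.1 * Y.2.card := by
    intro x
    by_cases hx : x ∈ F
    · obtain ⟨-, Y1, Y2, h⟩ := hF x hx
      exact ⟨(Y1, Y2), fun _ => h⟩
    · exact ⟨(∅, ∅), fun h => absurd h hx⟩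
  choose Y hY using hF'
  -- the start of the busy interval of a slot of the busy interval
  have hbe : ∀ x ∈ F, ∀ t, bs N I x ≤ t → t < gs N I x → be N I x.1 t = bs N I x := by
    intro x hx t h1 h2
    obtain ⟨s, -, -, hu, -, -⟩ := (hF x hx).1.1
    have hn := hCHN N I (by omega) hOk x.1 s x.2.1 hu
    exact ((hGAM N I (by omega) x.1 x.2.1 hn.1).2.2 t h1 h2).2.1
  refine hCHG F (PP N I) (fun x => (Y x).1 ×ˢ (Y x).2) (fun _ => 1)
    (fun x => sz N x * mu N I x) ((Mc N : ℝ) ^ 2) (kap N : ℝ) (by positivity)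
    (fun x _ => zero_le_one) (fun x hx => (hY x hx).2.2.2.2.1) ?_ ?_
  · intro x hx
    obtain ⟨-, -, -, -, -, -, h7, h8⟩ := hY x hx
    have hc := (hCCB N I hN hOk x (hF x hx).1.1).1
    have h9 := NGA_.term_le hN hc.2.1 hc.2.2.1 h7 h8
    rw [← Finset.card_product] at h9
    exact h9
  · intro p _
    have hmem : ∀ x ∈ F.filter (fun x => p ∈ (Y x).1 ×ˢ (Y x).2), x ∈ F ∧ p.1 ∈ (Y x).1 ∧
        p.2 ∈ (Y x).2 := by
      intro x hx
      rw [Finset.mem_filter, Finset.mem_product] at hx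
      exact hx
    rw [Finset.sum_const, nsmul_eq_mul, mul_one]
    have hcard : (F.filter (fun x => p ∈ (Y x).1 ×ˢ (Y x).2)).card ≤ kap N := by
      refine NGA_.card_window _ (mg N I p.1 p.2) (kap N) ?_ ?_
      · intro x hx
        obtain ⟨hx1, hp1, hp2⟩ := hmem x hx
        obtain ⟨-, -, h3, h4, -, h6, -, -⟩ := hY x hx1
        have e1 := hbe x hx1 _ (h3 _ hp1).1 (h3 _ hp1).2
        have e2 := hbe x hx1 _ (h4 _ hp2).1 (h4 _ hp2).2
        have hin : x.1 ∈ {j | be N I j (I.R p.1) = be N I j (I.R p.2)} := by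
          show be N I x.1 (I.R p.1) = be N I x.1 (I.R p.2)
          rw [e1, e2]
        refine ⟨Nat.sInf_le hin, ?_⟩
        by_contra hcon
        have hk : kap N ≤ x.1 := by omega
        have hr : mg N I p.1 p.2 ≤ x.1 - kap N := by omega
        have hm : be N I (mg N I p.1 p.2) (I.R p.1) = be N I (mg N I p.1 p.2) (I.R p.2) :=
          Nat.sInf_mem (s := {j | be N I j (I.R p.1) = be N I j (I.R p.2)}) ⟨_, hin⟩
        exact h6 hk _ hp1 _ hp2 (hUPC N I p.1 p.2 _ _ hr hm)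
      · intro x hx y hy hxy
        obtain ⟨hx1, hp1, -⟩ := hmem x hx
        obtain ⟨hy1, hq1, -⟩ := hmem y hy
        exact (hCCB N I hN hOk x (hF x hx1).1.1).2.2.2.2 y (hF y hy1).1.1 hxy
          ⟨I.R p.1, (hY x hx1).2.2.1 _ hp1, (hY y hy1).2.2.1 _ hq1⟩
    exact_mod_cast hcard

end STR
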