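import Pool.Agent.STR.TargetsAna
import Pool.Agent.STR.TargetsOpt

/-!
# Project STR: the sum over all nodes
-/

set_option autoImplicit false

namespace STR

namespace NOD_

theorem kap_pos {N : ℕ} (hN : 8 ≤ N) : 1 ≤ kap N := by
  have h1 : 0 < Rc N + 1 := Nat.succ_pos _
  have h2 : 0 < N := by omega
  have h3 : 0 < Fc N := by unfold Fc; positivity
  have h4 : 0 < FG N := by unfold FG; positivity
  have h5 : 0 < M0 N := by unfold M0; positivity
  have h6 : 0 < Mc N := by unfold Mc; positivity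
  have h7 : 0 < Ks N := by unfold Ks; positivity
  have h8 : 0 < kap N := by unfold kap; positivity
  exact h8

theorem Cs_ge {N : ℕ} (hN : 8 ≤ N) : 5632 * (Mc N : ℝ) ^ 2 ≤ Cs N := by
  unfold Cs
  have h1 : (8 : ℝ) ≤ (N : ℝ) := by exact_mod_cast hN
  have h2 : (2 : ℝ) ≤ (2 : ℝ) ^ kap N := by
    calc (2 : ℝ) = 2 ^ 1 := by norm_num
      _ ≤ 2 ^ kap N := pow_le_pow_right₀ (by norm_num) (kap_pos hN)
  have h3 : (16 : ℝ) ≤ (N : ℝ) * 2 ^ kap N := by nlinarith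
  have h4 : (256 : ℝ) ≤ ((N : ℝ) * 2 ^ kap N) ^ 2 := by nlinarith
  have h5 : 0 ≤ (Mc N : ℝ) ^ 2 := by positivity
  have h6 : ((Mc N : ℝ) * N * 2 ^ kap N) ^ 2 = (Mc N : ℝ) ^ 2 * ((N : ℝ) * 2 ^ kap N) ^ 2 := by
    ring
  rw [h6]
  nlinarith [mul_le_mul_of_nonneg_left h4 h5]

/-- the final numerical estimate -/
theorem num {cs kp mc L O P s1 s2 s3 s4 s5 s6 : ℝ} (hkp : 1 ≤ kp) (hL : 1 ≤ L) (hO : 0 ≤ O)
    (hcs : 5632 * mc ^ 2 ≤ cs) (hP : P ≤ 16 * L * O)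
    (h1 : s1 ≤ cs * O) (h2 : s2 ≤ mc ^ 2 * (kp * P)) (h3 : s3 ≤ cs * L * O)
    (h4 : s4 ≤ 8 * mc ^ 2 * (16 * P)) (h5 : s5 ≤ 4 * cs * L * O)
    (h6 : s6 ≤ 2 * mc ^ 2 * (5 / 2 * P)) :
    s1 + (s2 + (s3 + (s4 + (s5 + s6)))) ≤ 100 * cs * kp * L * O := by
  have hm : 0 ≤ mc ^ 2 := by positivity
  have hcs0 : 0 ≤ cs := by linarith
  have hLO : 0 ≤ L * O := mul_nonneg (by linarith) hO
  have hO2 : O ≤ L * O := by nlinarith
  have e1 : s1 ≤ cs * (L * O) := h1.trans (mul_le_mul_of_nonneg_left hO2 hcs0)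
  have e2 : s2 ≤ 16 * (mc ^ 2 * (kp * (L * O))) := by
    have : mc ^ 2 * (kp * P) ≤ mc ^ 2 * (kp * (16 * L * O)) := by gcongr
    nlinarith
  have e3 : s3 ≤ cs * (L * O) := by nlinarith
  have e4 : s4 ≤ 2048 * (mc ^ 2 * (L * O)) := by
    have : mc ^ 2 * P ≤ mc ^ 2 * (16 * L * O) := by gcongr
    nlinarith
  have e5 : s5 ≤ 4 * (cs * (L * O)) := by nlinarith
  have e6 : s6 ≤ 80 * (mc ^ 2 * (L * O)) := by
    have : mc ^ 2 * P ≤ mc ^ 2 * (16 * L * O) := by gcongr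
    nlinarith
  have f1 : cs * (L * O) ≤ cs * (L * O) * kp := le_mul_of_one_le_right (by positivity) hkp
  have f2 : 5632 * (mc ^ 2 * (L * O)) ≤ cs * (L * O) := by
    have := mul_le_mul_of_nonneg_right hcs hLO
    nlinarith
  have f3 : 5632 * (mc ^ 2 * (kp * (L * O))) ≤ cs * (L * O) * kp := by
    have := mul_le_mul_of_nonneg_right f2 (show (0 : ℝ) ≤ kp by linarith)
    nlinarith
  have f4 : 0 ≤ cs * (L * O) * kp := by positivity
  have f5 : 100 * cs * kp * L * O = 100 * (cs * (L * O) * kp) := by ring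
  rw [f5]
  linarith

end NOD_

theorem p_NOD (hN1 : T_N1) (hN2 : T_N2) (hNS1 : T_NS1) (hNGA : T_NGA) (hNS2 : T_NS2)
    (hNB : T_NB) (hNC : T_NC) (hNDD : T_NDD) (hPR : T_PR) (hON : T_ON) : T_NOD := by
  classical
  intro N I D hN hOk hOpt k0 L hLv F hF
  have hO : 0 ≤ OO N I D := le_trans (Nat.cast_nonneg _) (hON N I D hN hOk hOpt).2
  rcases F.eq_empty_or_nonempty with hFe | ⟨x0, hx0⟩
  · rw [hFe, Finset.sum_empty]
    unfold C1 Cs
    positivity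
  have hL : 1 ≤ L := by
    have := hF x0 hx0
    omega
  -- the four classes
  set P1 : ℕ × ℕ × ℕ → Prop := fun x => SC N I x.1 (bs N I x) (gs N I x) with hP1
  set P2 : ℕ × ℕ × ℕ → Prop := fun x =>
    ∃ Y1 Y2 : Finset ℕ, Y1 ⊆ I.J ∧ Y2 ⊆ I.J ∧ (∀ i ∈ Y1, bs N I x ≤ I.R i ∧ I.R i < gs N I x) ∧
    (∀ i ∈ Y2, bs N I x ≤ I.R i ∧ I.R i < gs N I x) ∧ Y1 ×ˢ Y2 ⊆ PP N I ∧
    (kap N ≤ x.1 → ∀ i ∈ Y1, ∀ i' ∈ Y2,
      be N I (x.1 - kap N) (I.R i) ≠ be N I (x.1 - kap N) (I.R i')) ∧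
    gs N I x - bs N I x ≤ Mc N * lam N x.1 * Y1.card ∧
    gs N I x - bs N I x ≤ Mc N * lam N x.1 * Y2.card with hP2
  set P3 : ℕ × ℕ × ℕ → Prop := fun x => SC N I x.1 x.2.1 x.2.2 with hP3
  set G1 := F.filter fun x => ¬ P1 x with hG1
  set G2 := G1.filter fun x => ¬ P2 x with hG2
  set F4 := G2.filter fun x => ¬ P3 x with hF4
  have hsplit1 : ∑ x ∈ F, sz N x * mu N I x =
      ∑ x ∈ F.filter P1, sz N x * mu N I x + (∑ x ∈ G1.filter P2, sz N x * mu N I x +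
        (∑ x ∈ G2.filter P3, sz N x * mu N I x + ∑ x ∈ F4, sz N x * mu N I x)) := by
    rw [hF4, Finset.sum_filter_add_sum_filter_not, hG2, Finset.sum_filter_add_sum_filter_not,
      hG1, Finset.sum_filter_add_sum_filter_not]
  have hG1F : ∀ x ∈ G1, x ∈ F ∧ ¬ P1 x := fun x hx => Finset.mem_filter.1 hx
  have hG2F : ∀ x ∈ G2, x ∈ F ∧ ¬ P1 x ∧ ¬ P2 x := fun x hx => by
    have h1 := Finset.mem_filter.1 hx
    have h2 := hG1F x h1.1
    exact ⟨h2.1, h2.2, h1.2⟩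
  have hF4F : ∀ x ∈ F4, x ∈ F ∧ XY N I x := fun x hx => by
    have h1 := Finset.mem_filter.1 hx
    have h2 := hG2F x h1.1
    refine ⟨h2.1, ?_⟩
    rcases hN1 N I hN hOk x (hF x h2.1).1 with h | h | h | h
    · exact absurd h h2.2.1
    · exact absurd h h2.2.2
    · exact absurd h h1.2
    · exact h
  -- the lowest node of a cell
  set psi : ℕ × ℕ → ℕ × ℕ × ℕ := fun c =>
    if h : (F4.filter fun y => cell y = c).Nonempty then
      Classical.choose ((F4.filter fun y => cell y = c).exists_min_image Prod.fst h)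
    else (0, 0, 0) with hpsi
  have hphi : ∀ x ∈ F4, psi (cell x) ∈ F4 ∧ cell x = cell (psi (cell x)) ∧
      (psi (cell x)).1 ≤ x.1 := by
    intro x hx
    have hne : (F4.filter fun y => cell y = cell x).Nonempty :=
      ⟨x, Finset.mem_filter.2 ⟨hx, rfl⟩⟩
    have h1 : psi (cell x) = Classical.choose
        ((F4.filter fun y => cell y = cell x).exists_min_image Prod.fst hne) := by
      rw [hpsi]
      simp only
      rw [dif_pos hne]
    have h2 := Classical.choose_spec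
      ((F4.filter fun y => cell y = cell x).exists_min_image Prod.fst hne)
    rw [← h1] at h2
    have h3 := Finset.mem_filter.1 h2.1
    exact ⟨h3.1, h3.2.symm, h2.2 x (Finset.mem_filter.2 ⟨hx, rfl⟩)⟩
  set A : ℕ × ℕ × ℕ → Prop := fun x =>
    (XX N I (psi (cell x))).card * (YY N I x).card ≤ 2 * (TB N I x (psi (cell x))).card with hA
  set B : ℕ × ℕ × ℕ → Prop := fun x =>
    ∃ j g p0 p1, x.1 = j + g ∧ bs N I x ≤ p0 ∧ p0 ≤ p1 ∧ p1 ≤ gs N I x ∧
    sz N x ≤ om g * (((p1 - p0 : ℕ) : ℝ) / lam N j) ∧ Cert N I (g / 4) j p0 p1 with hB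
  set G5 := F4.filter fun x => ¬ A x with hG5
  have hsplit2 : ∑ x ∈ F4, sz N x * mu N I x =
      ∑ x ∈ F4.filter A, sz N x * mu N I x + (∑ x ∈ G5.filter B, sz N x * mu N I x +
        ∑ x ∈ G5.filter (fun x => ¬ B x), sz N x * mu N I x) := by
    rw [Finset.sum_filter_add_sum_filter_not, hG5, Finset.sum_filter_add_sum_filter_not]
  have hG5F : ∀ x ∈ G5, x ∈ F4 ∧ ¬ A x := fun x hx => Finset.mem_filter.1 hx
  -- the six bounds
  have b1 := hNS1 N I D hN hOk hOpt (F.filter P1) (fun x hx => by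
    have h1 := Finset.mem_filter.1 hx
    exact ⟨(hF x h1.1).1, h1.2⟩)
  have b2 := hNGA N I hN hOk (G1.filter P2) (fun x hx => by
    have h1 := Finset.mem_filter.1 hx
    exact ⟨(hF x (hG1F x h1.1).1).1, h1.2⟩)
  have b3 := hNS2 N I D hN hOk hOpt k0 L hLv (G2.filter P3) (fun x hx => by
    have h1 := Finset.mem_filter.1 hx
    have h2 := hF x (hG2F x h1.1).1
    exact ⟨h2.1, h2.2.1, h2.2.2, h1.2⟩)
  have b4 := hNB N I hN hOk (F4.filter A) (fun x => psi (cell x)) (fun x hx => by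
    have h1 := Finset.mem_filter.1 hx
    have h2 := hphi x h1.1
    exact ⟨(hF4F x h1.1).2, (hF4F _ h2.1).2, h2.2.1, h2.2.2, h1.2⟩) (fun x _ y _ h => by
    simp only [h])
  have b5 := hNC N I D hN hOk hOpt k0 L hLv (G5.filter B) (fun x hx => by
    have h1 := Finset.mem_filter.1 hx
    have h2 := hF x (hF4F x (hG5F x h1.1).1).1
    exact ⟨h2.1, h2.2.1, h2.2.2, h1.2⟩)
  have b6 := hNDD N I hN hOk (G5.filter fun x => ¬ B x) (fun x hx => by
    have h1 := Finset.mem_filter.1 hx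
    have h2 := hG5F x h1.1
    have h3 := hphi x h2.1
    refine ⟨(hF4F x h2.1).2, ?_⟩
    rcases hN2 N I hN hOk x (psi (cell x)) (hF4F x h2.1).2 (hF4F _ h3.1).2 h3.2.1 h3.2.2 with
      h | h | h
    · exact absurd h h2.2
    · exact absurd h h1.2
    · exact h)
  have hP := hPR N I D hN hOk hOpt k0 L hLv
  rw [hsplit1, hsplit2]
  unfold C1
  exact NOD_.num (mc := (Mc N : ℝ)) (by exact_mod_cast NOD_.kap_pos hN) (by exact_mod_cast hL) hO
    (NOD_.Cs_ge hN) hP b1 b2 b3 b4 b5 b6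

end STR
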