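import Pool.Agent.STR.TargetsOpt

/-!
# Project STR: proofs of the targets T_OM and T_PIG
-/

set_option autoImplicit false

namespace STR

namespace OM_

theorem om_le : ∀ g : ℕ, om g ≤ (3 / 5 : ℝ) ^ g
  | 0 => by unfold om; norm_num
  | 1 => by unfold om; norm_num
  | 2 => by unfold om; norm_num
  | 3 => by unfold om; norm_num
  | g + 4 => by
    have ih := om_le g
    have h1 : om (g + 4) = (1 / 8 : ℝ) * om g := by
      unfold om
      have h2 : g + 4 - (g + 4) / 4 = (g - g / 4) + 3 := by omega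
      rw [h2, pow_add]
      norm_num
      ring
    have h3 : (0 : ℝ) ≤ (3 / 5 : ℝ) ^ g := by positivity
    rw [h1, pow_add]
    nlinarith [h3, ih]

theorem om_mul (g : ℕ) : om g * 2 ^ g = (2 : ℝ) ^ (g / 4) := by
  unfold om
  have h1 : (2 : ℝ) ^ g = 2 ^ (g - g / 4) * 2 ^ (g / 4) := by
    rw [← pow_add]
    congr 1
    omega
  rw [h1, ← mul_assoc, ← mul_pow]
  norm_num

theorem sq_le : ∀ h : ℕ, ((h : ℝ) + 1) ^ 2 ≤ 3 * (2 : ℝ) ^ h
  | 0 => by norm_num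
  | 1 => by norm_num
  | 2 => by norm_num
  | h + 3 => by
    have ih := sq_le (h + 2)
    push_cast at ih ⊢
    have h0 : (0 : ℝ) ≤ (h : ℝ) := Nat.cast_nonneg h
    have h1 : (2 : ℝ) ^ (h + 3) = 2 * 2 ^ (h + 2) := by rw [pow_succ' (2 : ℝ) (h + 2)]
    rw [h1]
    nlinarith [ih, h0]

theorem om_sq (g : ℕ) :
    om g ^ 2 * (((g / 4 : ℕ) : ℝ) + 1) ^ 2 ≤ 3 * (1 / 2 : ℝ) ^ g := by
  have h1 := sq_le (g / 4)
  have h2 : (0 : ℝ) ≤ om g ^ 2 := by positivity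
  have h3 : om g ^ 2 * (2 : ℝ) ^ (g / 4) ≤ (1 / 2 : ℝ) ^ g := by
    unfold om
    rw [← pow_mul]
    have h4 : (1 / 2 : ℝ) ^ ((g - g / 4) * 2) * 2 ^ (g / 4) =
        (1 / 2 : ℝ) ^ ((g - g / 4) * 2 - g / 4) := by
      have h5 : (g - g / 4) * 2 = ((g - g / 4) * 2 - g / 4) + g / 4 := by omega
      have h6 : (1 / 2 : ℝ) ^ ((g - g / 4) * 2) =
          (1 / 2 : ℝ) ^ ((g - g / 4) * 2 - g / 4) * (1 / 2 : ℝ) ^ (g / 4) := by
        rw [← pow_add, ← h5]
      rw [h6, mul_assoc, ← mul_pow]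
      norm_num
    rw [h4]
    exact pow_le_pow_of_le_one (by norm_num) (by norm_num) (by omega)
  calc om g ^ 2 * (((g / 4 : ℕ) : ℝ) + 1) ^ 2 ≤ om g ^ 2 * (3 * (2 : ℝ) ^ (g / 4)) := by gcongr
    _ = 3 * (om g ^ 2 * (2 : ℝ) ^ (g / 4)) := by ring
    _ ≤ 3 * (1 / 2 : ℝ) ^ g := by gcongr

theorem sum_four (m : ℕ) :
    ∑ g ∈ Finset.range (4 * m), (1 / 2 : ℝ) ^ (g / 4) = 8 - 8 * (1 / 2 : ℝ) ^ m := by
  induction m with
  | zero => simp
  | succ m ih =>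
    have h1 : 4 * (m + 1) = 4 * m + 1 + 1 + 1 + 1 := by ring
    rw [h1, Finset.sum_range_succ, Finset.sum_range_succ, Finset.sum_range_succ,
      Finset.sum_range_succ, ih]
    have h2 : 4 * m / 4 = m := by omega
    have h3 : (4 * m + 1) / 4 = m := by omega
    have h4 : (4 * m + 1 + 1) / 4 = m := by omega
    have h5 : (4 * m + 1 + 1 + 1) / 4 = m := by omega
    rw [h2, h3, h4, h5, pow_succ]
    ring

theorem sum_le (n : ℕ) : ∑ g ∈ Finset.range n, (1 / 2 : ℝ) ^ (g / 4) ≤ 8 := by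
  have h1 : ∑ g ∈ Finset.range n, (1 / 2 : ℝ) ^ (g / 4) ≤
      ∑ g ∈ Finset.range (4 * n), (1 / 2 : ℝ) ^ (g / 4) := by
    apply Finset.sum_le_sum_of_subset_of_nonneg
    · intro x hx
      rw [Finset.mem_range] at hx ⊢
      omega
    · intro i _ _
      positivity
  rw [sum_four] at h1
  have h2 : (0 : ℝ) ≤ (1 / 2 : ℝ) ^ n := by positivity
  linarith

theorem tele (f : ℕ → ℕ) (a n : ℕ) :
    ∑ i ∈ Finset.range n, ((f (a + i) : ℝ) - f (a + i + 1)) = (f a : ℝ) - f (a + n) := by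
  induction n with
  | zero => simp
  | succ n ih =>
    rw [Finset.sum_range_succ, ih, ← add_assoc]
    ring

end OM_

theorem p_OM : T_OM := ⟨OM_.om_le, OM_.om_mul, OM_.om_sq, OM_.sum_le⟩

theorem p_PIG (hOM : T_OM) : T_PIG := by
  intro f a b hab hf
  by_contra hcon
  push Not at hcon
  obtain ⟨n, rfl⟩ : ∃ n, b = a + (n + 1) := ⟨b - a - 1, by omega⟩
  -- strict inequality for every index
  have h1 : ∀ i ∈ Finset.range (n + 1), (f (a + i) : ℝ) - f (a + i + 1) <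
      ((f a : ℝ) - f (a + (n + 1))) / 8 * (1 / 2 : ℝ) ^ ((n + 1 - 1 - i) / 4) := by
    intro i hi
    rw [Finset.mem_range] at hi
    have h2 := hcon (a + i) (by omega) (by omega)
    have h3 := hf (a + i) (by omega) (by omega)
    have h4 : a + (n + 1) - 1 - (a + i) = n + 1 - 1 - i := by omega
    rw [h4] at h2
    have h5 : 0 < f a - f (a + (n + 1)) := by omega
    have h6 : ((f a - f (a + (n + 1)) : ℕ) : ℝ) = (f a : ℝ) - f (a + (n + 1)) :=
      Nat.cast_sub (by omega)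
    have h7 : ((f (a + i) - f (a + i + 1) : ℕ) : ℝ) = (f (a + i) : ℝ) - f (a + i + 1) :=
      Nat.cast_sub h3
    have h8 : (8 : ℝ) * (2 ^ ((n + 1 - 1 - i) / 4) * ((f (a + i) : ℝ) - f (a + i + 1))) <
        (f a : ℝ) - f (a + (n + 1)) := by
      rw [← h6, ← h7]
      exact_mod_cast h2
    have h9 : (0 : ℝ) < (2 : ℝ) ^ ((n + 1 - 1 - i) / 4) := by positivity
    rw [one_div, inv_pow, ← div_eq_mul_inv, lt_div_iff₀ h9]
    linarith
  have h2 := Finset.sum_lt_sum_of_nonempty (Finset.nonempty_range_add_one (n := n)) h1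
  rw [OM_.tele, ← Finset.mul_sum] at h2
  have h3 : ∑ i ∈ Finset.range (n + 1), (1 / 2 : ℝ) ^ ((n + 1 - 1 - i) / 4) ≤ 8 := by
    rw [Finset.sum_range_reflect (fun i => (1 / 2 : ℝ) ^ (i / 4)) (n + 1)]
    exact hOM.2.2.2 (n + 1)
  have h4 : (0 : ℝ) ≤ (f a : ℝ) - f (a + (n + 1)) := by
    have h5 := hcon a le_rfl (by omega)
    have h6 : f (a + (n + 1)) ≤ f a := by omega
    have h7 : (f (a + (n + 1)) : ℝ) ≤ f a := by exact_mod_cast h6
    linarith
  nlinarith [mul_le_mul_of_nonneg_left h3 (div_nonneg h4 (by norm_num : (0 : ℝ) ≤ 8))]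

end STR
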