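import Pool.Agent.STR.TargetsOpt

/-!
# Project STR, targets ON and LB2
-/

set_option autoImplicit false

namespace STR

namespace ON_

theorem one_le_Oj {N : ℕ} {I : DI} {D : ℕ → ℝ} (hN : 8 ≤ N) (hOk : Ok N I) (hO : Opt N I D)
    {j : ℕ} (hj : j ∈ I.J) : 1 ≤ Oj N I D j := by
  have h1 := hO.work (I.R j) (D j) (hO.rel j hj) {j} (Finset.singleton_subset_iff.2 hj) (by
    intro i hi
    rw [Finset.mem_singleton] at hi
    rw [hi]
    exact ⟨le_rfl, le_rfl⟩)
  rw [Finset.sum_singleton] at h1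
  have h2 := hO.rel j hj
  have h3 : (0 : ℝ) < I.q j := by
    have h4 := hOk j hj
    have h5 : 0 < N * N := Nat.mul_pos (by omega) (by omega)
    have : 0 < I.q j := by omega
    exact_mod_cast this
  unfold Oj
  rw [le_div_iff₀ h3, one_mul]
  have h6 : (0 : ℝ) ≤ D j - I.R j := by linarith
  nlinarith

end ON_

open ON_

theorem p_ON : T_ON := by
  intro N I D hN hOk hO
  refine ⟨fun j hj => one_le_Oj hN hOk hO hj, ?_⟩
  unfold OO
  calc (I.J.card : ℝ) = ∑ _j ∈ I.J, (1 : ℝ) := by simp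
    _ ≤ ∑ j ∈ I.J, Oj N I D j := Finset.sum_le_sum fun j hj => one_le_Oj hN hOk hO hj

theorem p_LB2 (hON : T_ON) : T_LB2 := by
  classical
  intro N I D hN hOk hO K m a b hK hd
  have hOj : ∀ j ∈ I.J, 1 ≤ Oj N I D j := (hON N I D hN hOk hO).1
  have hNr : (8 : ℝ) ≤ N := by exact_mod_cast hN
  have hlam : (0 : ℝ) < lam N m := by
    have := lam_pos (N := N) (by omega) m
    exact_mod_cast this
  set c : ℕ := cnt N I m a b with hc
  have hjJ : ∀ i ∈ jobs N I m a b, i ∈ I.J := fun i hi => (mem_jobs.1 hi).1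
  have hq0 : ∀ i ∈ jobs N I m a b, (N : ℝ) * lam N m / 2 ≤ I.q i := by
    intro i hi
    have h1 := ell_lev_le hOk (hjJ i hi)
    rw [(mem_jobs.1 hi).2.2] at h1
    unfold ell at h1
    have h2 : ((N * lam N m : ℕ) : ℝ) ≤ ((2 * I.q i : ℕ) : ℝ) := by exact_mod_cast h1
    push_cast at h2
    linarith
  have hq1 : ∀ i ∈ jobs N I m a b, (I.q i : ℝ) ≤ N * lam N m := by
    intro i hi
    have h1 := q_le_ell (N := N) (by omega) I i
    rw [(mem_jobs.1 hi).2.2] at h1
    unfold ell at h1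
    exact_mod_cast h1
  set T : ℝ := a + c * lam N m / 4 with hT
  have hcr : (0 : ℝ) ≤ c := Nat.cast_nonneg c
  have hcl : (0 : ℝ) ≤ c * lam N m := mul_nonneg hcr hlam.le
  set S := (jobs N I m a b).filter (fun i => D i ≤ T) with hS
  set S' := (jobs N I m a b).filter (fun i => ¬ D i ≤ T) with hS'
  have hcard : S.card + S'.card = c := Finset.card_filter_add_card_filter_not _
  have hSc : (S.card : ℝ) ≤ c / 2 := by
    have h1 := hO.work a T (by rw [hT]; linarith) S (fun i hi => hjJ i (Finset.mem_filter.1 hi).1)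
      (fun i hi => ⟨(mem_jobs.1 (Finset.mem_filter.1 hi).1).2.1.1, (Finset.mem_filter.1 hi).2⟩)
    have h2 : (S.card : ℝ) * (N * lam N m / 2) ≤ ∑ j ∈ S, (I.q j : ℝ) := by
      rw [← nsmul_eq_mul]
      exact Finset.card_nsmul_le_sum _ _ _ fun i hi => hq0 i (Finset.mem_filter.1 hi).1
    have h3 : ((N : ℝ) - 4) * (T - a) ≤ N * (c * lam N m / 4) := by
      rw [hT]
      have : (0 : ℝ) ≤ c * lam N m / 4 := by linarith
      nlinarith
    have h4 : (S.card : ℝ) * (N * lam N m / 2) ≤ (c / 2) * (N * lam N m / 2) := by linarith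
    have h5 : (0 : ℝ) < N * lam N m / 2 := by positivity
    exact le_of_mul_le_mul_right h4 h5
  have hS'c : (c : ℝ) / 2 ≤ S'.card := by
    have : (S.card : ℝ) + S'.card = c := by exact_mod_cast hcard
    linarith
  have hO' : ∀ i ∈ S', (c : ℝ) / 8 ≤ Oj N I D i := by
    intro i hi
    obtain ⟨hij, hiT⟩ := Finset.mem_filter.1 hi
    push Not at hiT
    obtain ⟨hiJ, ⟨hia, hib⟩, -⟩ := mem_jobs.1 hij
    have h1 : (8 : ℝ) * (b - a) ≤ c * lam N m := by
      have h2 : 8 * (b - a) ≤ c * lam N m := le_trans (Nat.mul_le_mul_right _ hK) hd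
      have h3 : ((8 * (b - a) : ℕ) : ℝ) ≤ ((c * lam N m : ℕ) : ℝ) := by exact_mod_cast h2
      rw [Nat.cast_mul, Nat.cast_sub (by omega), Nat.cast_mul] at h3
      exact_mod_cast h3
    have h4 : (I.R i : ℝ) ≤ b := by
      have : I.R i ≤ b := by omega
      exact_mod_cast this
    have h5 : (c : ℝ) * lam N m / 8 ≤ D i - I.R i := by
      rw [hT] at hiT
      linarith
    have h6 : (0 : ℝ) < I.q i := by
      have := hq0 i hij
      have : (0 : ℝ) < N * lam N m / 2 := by positivity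
      linarith
    unfold Oj
    rw [le_div_iff₀ h6]
    calc (c : ℝ) / 8 * I.q i ≤ c / 8 * (N * lam N m) :=
          mul_le_mul_of_nonneg_left (hq1 i hij) (by linarith)
      _ = N * (c * lam N m / 8) := by ring
      _ ≤ N * (D i - I.R i) := mul_le_mul_of_nonneg_left h5 (by linarith)
  have hsum : (S'.card : ℝ) * (c / 8) ≤ ∑ i ∈ jobs N I m a b, Oj N I D i := by
    calc (S'.card : ℝ) * (c / 8) = S'.card • ((c : ℝ) / 8) := (nsmul_eq_mul _ _).symm
      _ ≤ ∑ i ∈ S', Oj N I D i := Finset.card_nsmul_le_sum _ _ _ hO'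
      _ ≤ ∑ i ∈ jobs N I m a b, Oj N I D i :=
          Finset.sum_le_sum_of_subset_of_nonneg (Finset.filter_subset _ _)
            (fun i hi _ => le_trans zero_le_one (hOj i (hjJ i hi)))
  have hfin : (c : ℝ) / 2 * (c / 8) ≤ S'.card * (c / 8) :=
    mul_le_mul_of_nonneg_right hS'c (by linarith)
  nlinarith

end STR
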