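import Pool.Agent.STR.TargetsReal

/-!
# STR, target OPD: the discretisation of an offline schedule
-/

set_option autoImplicit false

namespace STR

namespace OPD_

/-- lower bound of the rounded size -/
theorem q_ge (N : ℕ) (s w : ℝ) (I : Inst) (j : ℕ) :
    I.p j / w ≤ ((di N s w I).q j : ℝ) := Nat.le_ceil _

/-- upper bound of the rounded size -/
theorem q_le (N : ℕ) (s w : ℝ) (I : Inst) (j : ℕ) (h : 0 ≤ I.p j / w) :
    ((di N s w I).q j : ℝ) ≤ I.p j / w + 1 := (Nat.ceil_lt_add_one h).le

theorem R_ge (N : ℕ) (s w : ℝ) (I : Inst) (j : ℕ) :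
    I.r j / del N s w ≤ ((di N s w I).R j : ℝ) := Nat.le_ceil _

theorem R_lt (N : ℕ) (s w : ℝ) (I : Inst) (j : ℕ) (h : 0 ≤ I.r j / del N s w) :
    ((di N s w I).R j : ℝ) < I.r j / del N s w + 1 := Nat.ceil_lt_add_one h

theorem pw_ge {N : ℕ} {w p : ℝ} (hw : 0 < w) (h : (N : ℝ) * N * w ≤ p) :
    (N : ℝ) * N ≤ p / w := by
  rw [le_div_iff₀ hw]
  exact h

/-- a completed job has been released, and its size is at most its flow time -/
theorem flow {I : Inst} {V : ℕ → ℝ → ℝ} {d : ℕ → ℝ} (hV : Feasible I 1 V)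
    (hd : ∀ j ∈ I.jobs, I.p j ≤ V j (d j)) {j : ℕ} (hj : j ∈ I.jobs) :
    I.r j ≤ d j ∧ I.p j ≤ d j - I.r j := by
  have hp := I.p_pos j hj
  have h1 := hd j hj
  have h2 : I.r j ≤ d j := by
    by_contra hcon
    have h3 := hV.before j hj (d j) (not_le.1 hcon).le
    rw [h3] at h1
    linarith
  refine ⟨h2, ?_⟩
  have h3 := hV.before j hj (I.r j) le_rfl
  have h4 := hV.speed (I.r j) (d j) h2
  have h5 : V j (d j) - V j (I.r j) ≤ ∑ i ∈ I.jobs, (V i (d j) - V i (I.r j)) := by
    apply Finset.single_le_sum (f := fun i => V i (d j) - V i (I.r j)) _ hj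
    intro i hi
    exact sub_nonneg.2 (hV.mono i hi h2)
  rw [h3] at h5
  linarith

/-- the size of the jobs which are released and completed in an interval -/
theorem vol {I : Inst} {V : ℕ → ℝ → ℝ} {d : ℕ → ℝ} (hV : Feasible I 1 V)
    (hd : ∀ j ∈ I.jobs, I.p j ≤ V j (d j)) {S : Finset ℕ} (hS : S ⊆ I.jobs) {x y : ℝ}
    (hxy : x ≤ y) (h : ∀ j ∈ S, x ≤ I.r j ∧ d j ≤ y) : ∑ j ∈ S, I.p j ≤ y - x := by
  have h1 := hV.speed x y hxy
  have h2 : ∑ j ∈ S, (V j y - V j x) ≤ ∑ j ∈ I.jobs, (V j y - V j x) := by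
    apply Finset.sum_le_sum_of_subset_of_nonneg hS
    intro i hi _
    exact sub_nonneg.2 (hV.mono i hi hxy)
  have h3 : ∑ j ∈ S, I.p j ≤ ∑ j ∈ S, (V j y - V j x) := by
    apply Finset.sum_le_sum
    intro j hj
    have hj' := hS hj
    have h4 := hV.before j hj' x (h j hj).1
    have h5 := hV.mono j hj' (h j hj).2
    have h6 := hd j hj'
    rw [h4]
    linarith
  linarith

end OPD_

theorem p_OPD : T_OPD := by
  intro N s w I hN hs hw hp hsp V d hV hd
  have hN8 : (8 : ℝ) ≤ N := by exact_mod_cast hN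
  have hN0 : (0 : ℝ) < N := by linarith
  have hdel : 0 < del N s w := by
    unfold del
    positivity
  have hr : ∀ j ∈ I.jobs, 0 ≤ I.r j / del N s w := fun j hj =>
    div_nonneg (I.r_nonneg j hj) hdel.le
  have hfl := fun j (hj : j ∈ I.jobs) => OPD_.flow hV hd hj
  constructor
  · constructor
    · intro j hj
      have h1 := OPD_.R_lt N s w I j (hr j hj)
      have h2 : I.r j / del N s w ≤ d j / del N s w :=
        div_le_div_of_nonneg_right (hfl j hj).1 hdel.le
      linarith
    · intro a T haT S hS h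
      have hS' : S ⊆ I.jobs := hS
      have h1 : ∑ j ∈ S, I.p j ≤ (T - 1) * del N s w - ((a : ℝ) - 1) * del N s w := by
        apply OPD_.vol hV hd hS'
        · have : (a : ℝ) - 1 ≤ T - 1 := by linarith
          exact mul_le_mul_of_nonneg_right this hdel.le
        · intro j hj
          have h2 := h j hj
          have h3 := OPD_.R_lt N s w I j (hr j (hS' hj))
          have h4 : (a : ℝ) ≤ ((di N s w I).R j : ℝ) := by exact_mod_cast h2.1
          constructor
          · have h5 : (a : ℝ) - 1 ≤ I.r j / del N s w := by linarith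
            rwa [le_div_iff₀ hdel] at h5
          · have h5 : d j / del N s w ≤ T - 1 := by linarith [h2.2]
            rwa [div_le_iff₀ hdel] at h5
      have h2 : ∑ j ∈ S, ((di N s w I).q j : ℝ) ≤
          ∑ j ∈ S, (1 + 1 / ((N : ℝ) * N)) * (I.p j / w) := by
        apply Finset.sum_le_sum
        intro j hj
        have h3 := OPD_.pw_ge hw (hp j (hS' hj))
        have h4 : (0 : ℝ) < (N : ℝ) * N := by positivity
        have h5 := OPD_.q_le N s w I j (by linarith)
        have h6 : 1 ≤ 1 / ((N : ℝ) * N) * (I.p j / w) := by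
          rw [one_div, ← div_eq_inv_mul, le_div_iff₀ h4]
          linarith
        linarith
      refine h2.trans ?_
      rw [← Finset.mul_sum, ← Finset.sum_div]
      have h3 : (∑ j ∈ S, I.p j) / w ≤ (T - a) * N / s := by
        rw [div_le_div_iff₀ hw hs]
        have h4 : (T - 1) * del N s w - ((a : ℝ) - 1) * del N s w = (T - a) * (N * w / s) := by
          unfold del
          ring
        rw [h4] at h1
        calc (∑ j ∈ S, I.p j) * s ≤ ((T - a) * (N * w / s)) * s := by gcongr
          _ = (T - a) * N * w := by field_simp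
      have h5 : (0 : ℝ) ≤ 1 + 1 / ((N : ℝ) * N) := by positivity
      have h6 : 0 ≤ T - a := by linarith
      calc (1 + 1 / ((N : ℝ) * N)) * ((∑ j ∈ S, I.p j) / w)
          ≤ (1 + 1 / ((N : ℝ) * N)) * ((T - a) * N / s) := by gcongr
        _ = ((1 + 1 / ((N : ℝ) * N)) * N) * (T - a) / s := by ring
        _ ≤ (((N : ℝ) - 4) * s) * (T - a) / s := by gcongr
        _ = ((N : ℝ) - 4) * (T - a) := by field_simp
  · unfold OO str
    rw [Finset.mul_sum]
    apply Finset.sum_le_sum
    intro j hj
    have hj' : j ∈ I.jobs := hj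
    have hpj := I.p_pos j hj'
    obtain ⟨h1, h2⟩ := hfl j hj'
    unfold Oj
    have h3 := OPD_.q_ge N s w I j
    have h4 : 0 < I.p j / w := by positivity
    have h5 := OPD_.R_ge N s w I j
    have h6 : 0 ≤ (d j - I.r j) / del N s w := div_nonneg (by linarith) hdel.le
    have h7 : d j / del N s w + 1 - ((di N s w I).R j : ℝ) ≤
        (d j - I.r j) / del N s w + 1 := by
      rw [sub_div]
      linarith
    have h8 : (N : ℝ) * w ≤ I.p j := by
      have h9 := hp j hj'
      have h10 : (N : ℝ) * w ≤ (N : ℝ) * N * w := by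
        have : 0 < (N : ℝ) * w := by positivity
        nlinarith
      linarith
    calc (N : ℝ) * (d j / del N s w + 1 - ((di N s w I).R j : ℝ)) / ((di N s w I).q j : ℝ)
        ≤ (N : ℝ) * ((d j - I.r j) / del N s w + 1) / (I.p j / w) := by
          apply div_le_div₀ _ _ h4 h3
          · positivity
          · gcongr
      _ = (s * (d j - I.r j) + N * w) / I.p j := by
          unfold del
          field_simp
      _ ≤ ((s + 1) * (d j - I.r j)) / I.p j := by
          gcongr
          linarith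
      _ = (s + 1) * ((d j - I.r j) / I.p j) := by ring

end STR
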