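import Pool.Agent.STR.TargetsSim

set_option autoImplicit false

/-!
# Project STR, targets P1 and CHB
-/

namespace STR

theorem P1_mono (hMON : T_MON) (N : ℕ) (I : DI) (t : ℕ) {k l : ℕ} (h : k ≤ l) :
    uu N I l t ≤ uu N I k t := by
  induction h with
  | refl => exact le_rfl
  | step _ ih => exact (hMON N I _ t).trans ih

theorem P1_now (hMON : T_MON) (hNE : T_NE) (N : ℕ) (I : DI) (hN : 1 ≤ N) (hOk : Ok N I)
    (k t a : ℕ) (h : uu N I k t = (a : ℕ∞)) :
    ∃ j, mj N I t = some j ∧ j ∈ Ak N I k t ∧ a ≤ I.R j := by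
  classical
  have hne : ∃ k0, uu N I k0 t ≠ ⊤ := ⟨k, by rw [h]; exact ENat.natCast_ne_top a⟩
  obtain ⟨k0, hk0, hmin⟩ : ∃ k0, uu N I k0 t ≠ ⊤ ∧ ∀ k' < k0, uu N I k' t = ⊤ :=
    ⟨Nat.find hne, Nat.find_spec hne, fun k' hk' => not_not.1 (Nat.find_min hne hk')⟩
  have hle : k0 ≤ k := by
    by_contra hlt
    have := hmin k (not_le.1 hlt)
    rw [h] at this
    exact ENat.natCast_ne_top a this
  obtain ⟨a0, ha0⟩ := ENat.ne_top_iff_exists.1 hk0
  have h1 := P1_mono hMON N I t hle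
  rw [h, ← ha0] at h1
  obtain ⟨⟨j0, hj0, hj0'⟩, -⟩ := hNE N I hN hOk k0 t a0 ha0.symm
  obtain ⟨j, hj1, hj2, hj3⟩ := mj_exists N I hk0 hmin ⟨j0, hj0, by
    rw [← ha0]; exact_mod_cast hj0'⟩
  refine ⟨j, hj1, Ak_level N I hle hj2, ?_⟩
  rw [← ha0] at hj3
  have h2 := h1.trans hj3
  exact_mod_cast h2

theorem p_P1 (hMON : T_MON) (hNE : T_NE) : T_P1 := by
  intro N I hN hOk k t
  induction t generalizing k with
  | zero =>
    intro a h t' h1 h2
    have h3 : t' = 0 := by omega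
    subst h3
    exact P1_now hMON hNE N I hN hOk k 0 a h
  | succ s ih =>
    intro a h t' h1 h2
    rcases Nat.lt_or_ge s t' with h3 | h3
    · have h4 : t' = s + 1 := by omega
      subst h4
      exact P1_now hMON hNE N I hN hOk k (s + 1) a h
    · rcases uu_cases N I h with h4 | h4
      · exfalso
        omega
      · obtain ⟨i, hi, h5, h6⟩ := h4
        obtain ⟨j, hj1, hj2, hj3⟩ := ih i a h5 t' h1 h3
        exact ⟨j, hj1, Ak_level N I hi hj2, hj3⟩

theorem p_CHB (hBEM : T_BEM) (hP1 : T_P1) : T_CHB := by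
  intro N I hN hOk k t a h
  by_contra hlt
  push Not at hlt
  obtain ⟨hb1, -, -, hb4, -, -⟩ := hBEM N I k t
  rcases hb4 with h0 | h0
  · omega
  · obtain ⟨j, -, hj, -⟩ := hP1 N I hN hOk k t a h (be N I k t - 1) (by omega) (by omega)
    rw [h0] at hj
    simp at hj

end STR
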