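import Pool.Agent.STR.TargetsOpt

/-!
# Project STR: pairs of jobs of fixed levels (target `T_PRM`)
-/

set_option autoImplicit false

namespace STR

namespace PRM_

/-- `t` lies in an interval which is dense for both levels -/
def Bo (N : ℕ) (I : DI) (m m' t : ℕ) : Prop :=
  ∃ a b, (a ≤ t ∧ t < b) ∧ dens N I 16 m a b ∧ dens N I 16 m' a b

theorem cnt_le (N : ℕ) (I : DI) (m a b : ℕ) : cnt N I m a b ≤ I.J.card := by
  unfold cnt jobs
  exact Finset.card_le_card (Finset.filter_subset _ _)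

theorem bound {N : ℕ} {I : DI} {m a b : ℕ} (hab : a < b) (h : dens N I 16 m a b) :
    b ≤ I.J.sup I.R + I.J.card * lam N m := by
  unfold dens at h
  have h1 : 0 < cnt N I m a b := by
    rcases Nat.eq_zero_or_pos (cnt N I m a b) with h0 | h0
    · rw [h0, Nat.zero_mul] at h; omega
    · exact h0
  have h2 : cnt N I m a b * lam N m ≤ I.J.card * lam N m :=
    Nat.mul_le_mul_right _ (cnt_le N I m a b)
  obtain ⟨j, hj⟩ := Finset.card_pos.1 h1
  rw [mem_jobs] at hj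
  have h3 : I.R j ≤ I.J.sup I.R := Finset.le_sup (f := I.R) hj.1
  omega

theorem dens8 {N : ℕ} {I : DI} (hCOV : T_COV) {m a b : ℕ}
    (h : ∀ x, a ≤ x → x < b → ∃ l r, a ≤ l ∧ l ≤ x ∧ x < r ∧ r ≤ b ∧ dens N I 16 m l r) :
    dens N I 8 m a b := by
  have h1 := hCOV N I 16 m a b h
  unfold dens
  omega

theorem sum_sq {N : ℕ} {I : DI} {D : ℕ → ℝ} (hN : 8 ≤ N) (hOk : Ok N I) (hD : Opt N I D)
    (hLB2 : T_LB2) (hpos : ∀ j ∈ I.J, 1 ≤ Oj N I D j) (G : Finset (ℕ × ℕ)) (m : ℕ)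
    (hdis : ∀ g ∈ G, ∀ g' ∈ G,
      (∃ t, (g.1 ≤ t ∧ t < g.2) ∧ (g'.1 ≤ t ∧ t < g'.2)) → g = g')
    (hd : ∀ g ∈ G, dens N I 8 m g.1 g.2) :
    ∑ g ∈ G, (cnt N I m g.1 g.2 : ℝ) ^ 2 ≤
      16 * ∑ i ∈ I.J.filter (fun i => lev N I i = m), Oj N I D i := by
  classical
  calc ∑ g ∈ G, (cnt N I m g.1 g.2 : ℝ) ^ 2
      ≤ ∑ g ∈ G, 16 * ∑ i ∈ jobs N I m g.1 g.2, Oj N I D i :=
        Finset.sum_le_sum fun g hg => hLB2 N I D hN hOk hD 8 m g.1 g.2 le_rfl (hd g hg)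
    _ = 16 * ∑ i ∈ G.biUnion (fun g => jobs N I m g.1 g.2), Oj N I D i := by
        rw [← Finset.mul_sum, Finset.sum_biUnion]
        intro g hg g' hg' hne
        rw [Function.onFun, Finset.disjoint_left]
        intro j hj hj'
        rw [mem_jobs] at hj hj'
        exact hne (hdis g hg g' hg' ⟨I.R j, hj.2.1, hj'.2.1⟩)
    _ ≤ 16 * ∑ i ∈ I.J.filter (fun i => lev N I i = m), Oj N I D i := by
        apply mul_le_mul_of_nonneg_left _ (by norm_num)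
        apply Finset.sum_le_sum_of_subset_of_nonneg
        · intro i hi
          rw [Finset.mem_biUnion] at hi
          obtain ⟨g, _, hi⟩ := hi
          rw [mem_jobs] at hi
          rw [Finset.mem_filter]
          exact ⟨hi.1, hi.2.2⟩
        · intro i hi _
          have := hpos i (Finset.mem_filter.1 hi).1
          linarith

end PRM_

open Classical in
theorem p_PRM (hCOV : T_COV) (hRUN : T_RUN) (hLB2 : T_LB2) (hON : T_ON) : T_PRM := by
  intro N I D hN hOk hD m m'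
  obtain ⟨hpos, _⟩ := hON N I D hN hOk hD
  set S : Finset ℕ := (Finset.range (I.J.sup I.R + I.J.card * lam N m)).filter
    (PRM_.Bo N I m m') with hS
  have hmem : ∀ t, t ∈ S ↔ PRM_.Bo N I m m' t := by
    intro t
    rw [hS, Finset.mem_filter, Finset.mem_range]
    constructor
    · exact fun h => h.2
    · rintro ⟨a, b, h1, h2, h3⟩
      have := PRM_.bound (lt_of_le_of_lt h1.1 h1.2) h2
      exact ⟨by omega, a, b, h1, h2, h3⟩
  obtain ⟨G, hG1, hG2, hG3⟩ := hRUN S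
  have hin : ∀ a b, a < b → dens N I 16 m a b → dens N I 16 m' a b →
      ∃ g ∈ G, g.1 ≤ a ∧ b ≤ g.2 := by
    intro a b hab h1 h2
    apply hG3 a b hab
    intro t ht ht'
    rw [hmem]
    exact ⟨a, b, ⟨ht, ht'⟩, h1, h2⟩
  have hcov : ∀ g ∈ G, ∀ x, g.1 ≤ x → x < g.2 →
      ∃ l r, g.1 ≤ l ∧ l ≤ x ∧ x < r ∧ r ≤ g.2 ∧ dens N I 16 m l r ∧ dens N I 16 m' l r := by
    intro g hg x hx hx'
    have h1 := hG1 g hg x hx hx'
    rw [hmem] at h1
    obtain ⟨l, r, hlr, h2, h3⟩ := h1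
    obtain ⟨g', hg', h4, h5⟩ := hin l r (by omega) h2 h3
    have h6 : g = g' := hG2 g hg g' hg' ⟨x, ⟨hx, hx'⟩, by omega, by omega⟩
    subst h6
    exact ⟨l, r, h4, hlr.1, hlr.2, h5, h2, h3⟩
  have hd : ∀ g ∈ G, dens N I 8 m g.1 g.2 := by
    intro g hg
    apply PRM_.dens8 hCOV
    intro x hx hx'
    obtain ⟨l, r, h1, h2, h3, h4, h5, _⟩ := hcov g hg x hx hx'
    exact ⟨l, r, h1, h2, h3, h4, h5⟩
  have hd' : ∀ g ∈ G, dens N I 8 m' g.1 g.2 := by
    intro g hg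
    apply PRM_.dens8 hCOV
    intro x hx hx'
    obtain ⟨l, r, h1, h2, h3, h4, _, h5⟩ := hcov g hg x hx hx'
    exact ⟨l, r, h1, h2, h3, h4, h5⟩
  have hA := PRM_.sum_sq hN hOk hD hLB2 hpos G m hG2 hd
  have hB := PRM_.sum_sq hN hOk hD hLB2 hpos G m' hG2 hd'
  have hsub : ((PP N I).filter fun p => lev N I p.1 = m ∧ lev N I p.2 = m') ⊆
      G.biUnion fun g => jobs N I m g.1 g.2 ×ˢ jobs N I m' g.1 g.2 := by
    intro p hp
    rw [Finset.mem_filter] at hp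
    obtain ⟨hp, hm, hm'⟩ := hp
    unfold PP Kd at hp
    rw [Finset.mem_filter, Finset.mem_product] at hp
    obtain ⟨⟨hp1, hp2⟩, a, b, h1, h2, h3, h4⟩ := hp
    rw [hm] at h3
    rw [hm'] at h4
    obtain ⟨g, hg, h5, h6⟩ := hin a b (lt_of_le_of_lt h1.1 h1.2) h3 h4
    rw [Finset.mem_biUnion]
    refine ⟨g, hg, ?_⟩
    rw [Finset.mem_product, mem_jobs, mem_jobs]
    exact ⟨⟨hp1, ⟨by omega, by omega⟩, hm⟩, ⟨hp2, ⟨by omega, by omega⟩, hm'⟩⟩
  have hcard : (((PP N I).filter fun p => lev N I p.1 = m ∧ lev N I p.2 = m').card : ℝ) ≤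
      ∑ g ∈ G, (cnt N I m g.1 g.2 : ℝ) * (cnt N I m' g.1 g.2 : ℝ) := by
    have h1 := (Finset.card_le_card hsub).trans Finset.card_biUnion_le
    have h2 : ∑ g ∈ G, (jobs N I m g.1 g.2 ×ˢ jobs N I m' g.1 g.2).card =
        ∑ g ∈ G, cnt N I m g.1 g.2 * cnt N I m' g.1 g.2 := by
      apply Finset.sum_congr rfl
      intro g _
      rw [Finset.card_product]
      rfl
    rw [h2] at h1
    exact_mod_cast h1
  have hamgm : ∑ g ∈ G, (cnt N I m g.1 g.2 : ℝ) * (cnt N I m' g.1 g.2 : ℝ) ≤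
      (1 / 2) * (∑ g ∈ G, (cnt N I m g.1 g.2 : ℝ) ^ 2 +
        ∑ g ∈ G, (cnt N I m' g.1 g.2 : ℝ) ^ 2) := by
    rw [← Finset.sum_add_distrib, Finset.mul_sum]
    apply Finset.sum_le_sum
    intro g _
    nlinarith [sq_nonneg ((cnt N I m g.1 g.2 : ℝ) - (cnt N I m' g.1 g.2 : ℝ))]
  linarith

end STR
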