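import Pool.Agent.STR.TargetsSim
import Pool.Agent.STR.TargetsOpt

/-!
# Project STR (MP_32d942_lc): targets of the analysis (Blueprint sections 5, 6, 7)

Every target has its complete proof in the docstring. The list after the word uses names the targets that may be taken as
hypotheses (all lemmas of `Basic.lean` may be used freely). A chain is a triple `x = (k, a, e)`: level `k`,
slots `[a, e)`; `bs x`, `gs x` are the ends of its busy interval, `sz x = (e-a)/lam k`, `mu x = (gs-bs)/lam k`.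
Constants: `kap = 64 Mc Ks`, so `Mc * (16 * 64) ≤ kap < 2 ^ kap` and `Mc * Ks ≤ 2 ^ kap`; `Mc = 3 M0`, `M0 = 16 FG N`.
-/

set_option autoImplicit false

namespace STR

/-! ## Chains -/

/-- STR-CHN (uses T_P1, T_BEM, T_GAM, T_CHB, T_WKM). PROOF. T_P1: `A k t` is nonempty for `t ∈ [a, v]`, and (T_WKM with `S = [a, v]`, `b = v + 1`; the main
jobs of slot `t'` have `R ≤ t'`) `(N-1)(v+1-a) ≤ Wp k a (v+1)`. T_BEM (6): `be k v = be k a`. T_BEM (1): `be k a ≤ a`. T_GAM for `x = a`: all `t`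
with `be k a ≤ t < gam k a` have nonempty `A k t`, `be k t = be k a`, `gam k t = gam k a`; apply it to `t = be k a` (`be k a ≤ a < gam k a`). `v < gam k a`
since `A k (gam k a) = ∅` and `A k` is nonempty on `[a, v]`. -/
def T_CHN : Prop := ∀ (N : ℕ) (I : DI), 1 ≤ N → Ok N I → ∀ (k v a : ℕ), uu N I k v = (a : ℕ∞) →
  (Ak N I k a).Nonempty ∧ be N I k v = be N I k a ∧ be N I k a ≤ a ∧ v < gam N I k a ∧
  (N - 1) * (v + 1 - a) ≤ Wp N I k a (v + 1) ∧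
  be N I k (be N I k a) = be N I k a ∧ (Ak N I k (be N I k a)).Nonempty ∧ gam N I k (be N I k a) = gam N I k a

/-- STR-ECB (uses T_CHN, T_MT, T_TH, T_GAM). PROOF. `x = (k, a, v+1)`, `uu k v = a`, `a ≤ v` (`uu_le`). T_CHN gives (1). (2) T_TH at `v`: `v - a < lam k`
is excluded, and `be k v = be k a = bs x`; the last claim: `e - a ≤ 2 (e-1-a)` since `e - 1 - a ≥ lam k ≥ 1`. (3) Let `x = (k,a,v+1)`, `y = (k,a',v'+1)`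
share `t`. If `v < v'` then T_MT (2): `v + 1 ≤ a' ≤ t < v + 1`. The same for `v' < v`. If `v = v'` then `a = a'` (`Nat.cast_inj`). -/
def T_ECB : Prop := ∀ (N : ℕ) (I : DI), 1 ≤ N → Ok N I → ∀ x : ℕ × ℕ × ℕ, EC N I x →
  (x.2.1 < x.2.2 ∧ bs N I x ≤ x.2.1 ∧ x.2.2 ≤ gs N I x ∧ (N - 1) * (x.2.2 - x.2.1) ≤ Wp N I x.1 x.2.1 x.2.2) ∧
  (lam N x.1 < x.2.2 - x.2.1 → bs N I x + Rc N * (x.2.2 - 1 - x.2.1) < x.2.1 ∧
    Rc N * (x.2.2 - x.2.1) ≤ 2 * (x.2.1 - bs N I x)) ∧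
  (∀ y, EC N I y → x.1 = y.1 → (∃ t, (x.2.1 ≤ t ∧ t < x.2.2) ∧ (y.2.1 ≤ t ∧ t < y.2.2)) → x = y)

/-- STR-CCB (uses T_CHN, T_TH, T_GAM). PROOF. `x = (k, a, s+1)`, `ClE k s`, `uu k s = a`, `a ≤ s`. (1) T_CHN; `s + 1 < gs x` is part of `CC`. (2) `ClE` contains
`Clo k s` with `(uu k s).toNat = a` and `be k (s+1) = bs x` (T_GAM, `s + 1 < gs`): `lam k ≤ s+1-a`, `a ≤ bs + Rc (s+1-a)`. (3) T_TH at `s`:
`s - a < lam k` gives `s + 1 - a = lam k`; the other case is `Nd`. (4) `Nd`: `e - a ≤ 2(e-1-a)` (`e - 1 - a ≥ lam k - 1 ≥ 7 ≥ 1`) so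
`Rc (e-a) ≤ 2 (a - bs) ≤ 2 (e - bs)`, and `e - bs = (e-a) + (a-bs) ≤ (Rc+1)(e-a)` by (2). (5) Let `t` be common. T_GAM: `bs x = be k t = bs y`,
`gs x = gam k t = gs y`. If `s < s'` the maximality of `s` is violated (`s' + 1 < gs y = gs x`, `ClE k s'`), the same for `s' < s`; so `s = s'` and
`a = a'`. -/
def T_CCB : Prop := ∀ (N : ℕ) (I : DI), 8 ≤ N → Ok N I → ∀ x : ℕ × ℕ × ℕ, CC N I x →
  (x.2.1 < x.2.2 ∧ bs N I x ≤ x.2.1 ∧ x.2.2 < gs N I x ∧ (N - 1) * (x.2.2 - x.2.1) ≤ Wp N I x.1 x.2.1 x.2.2) ∧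
  (lam N x.1 ≤ x.2.2 - x.2.1 ∧ x.2.1 ≤ bs N I x + Rc N * (x.2.2 - x.2.1)) ∧
  (x.2.2 - x.2.1 = lam N x.1 ∨ Nd N I x) ∧
  (Nd N I x → Rc N * (x.2.2 - x.2.1) ≤ 2 * (x.2.2 - bs N I x) ∧
    x.2.2 - bs N I x ≤ (Rc N + 1) * (x.2.2 - x.2.1)) ∧
  (∀ y, CC N I y → x.1 = y.1 → (∃ t, (bs N I x ≤ t ∧ t < gs N I x) ∧ (bs N I y ≤ t ∧ t < gs N I y)) → x = y)

/-- STR-UPC (uses T_BEM). PROOF. Let `R i ≤ R i'` (symmetric). `be j (R i') = be j (R i) ≤ R i`, so `A j` is nonempty on `[R i, R i')` (T_BEM (3)), hence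
`A k` (`Ak_level`), and T_BEM (6) from `R i` to `R i'`. -/
def T_UPC : Prop := ∀ (N : ℕ) (I : DI) (i i' j k : ℕ), j ≤ k →
  be N I j (I.R i) = be N I j (I.R i') → be N I k (I.R i) = be N I k (I.R i')

/-! ## End chains -/

/-- STR-ES (uses T_ECB, T_CHN, T_NE, T_BEM, T_GAM, T_F1, T_MASS, T_PIG). PROOF. `x = (k, a, e)`, `b = bs x`, `g = gs x`. Suppose `g - b < L (e - a)`.
X: T_MASS with `I = [a, e)`, `F = 1`, `K = 16`, `La = 1`, `κ = kap`, `h = clog 2 L`, `M = Mc`, `len = e - a`, outer intervals `[a, e)` and `[b, e)`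
(`e - b ≤ g - b ≤ L (e-a) ≤ 2^h (e-a)`), hypothesis from `(N-1)(e-a) ≤ Wp`. The first two alternatives are `Cert (clog 2 L) k a e` (`SC` with
`a' = a, b' = e`). Otherwise `X` = the set of the third one.
Z: T_PIG for `f j = pe j a` (`f 0 = a`, `f (j+1) = be j a`; antitone by T_BEM (1), (2)) on `[0, k+1]`: some `j ≤ k`:
`a - b ≤ 8 * (2^((k-j)/4) * (pe j a - be j a))`. Put `p0 = be j a`, `p1 = pe j a`, `h = (k-j)/4`; `p0 < p1` since `a - b > 0` (T_ECB (2)). A job is released at `a`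
(T_NE), so `A j a` is nonempty for all `j` (`self_mem`), and T_F1 applies to level `j`, `b := p0`, `ts := p1 ≤ a` (T_BEM (3); `be j p0 = p0` by T_GAM for
`x = a`). It gives `[a', b') ⊆ [p0, p1)`. T_MASS with `F = Fc`, `K = 16`, `La = 16`, `h`, `M = Mc`, `len = p1 - p0`, outer intervals `[p0, p1)` and `[b, e)`:
`e - b = (a-b) + (e-a) ≤ 2 (a-b) ≤ 16 * 2^h (p1-p0)` (T_ECB (2): `Rc (e-a) ≤ 2(a-b)`). `b ≤ p0` since `j ≤ k` (T_BEM (2) iterated). The first two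
alternatives give `Cert h j p0 p1` (the set for `[a', b')` is contained in the set for `[p0, p1)`). The third one: `Z` = its set. `X ×ˢ Z ⊆ PP`:
common interval `[b, e)`. -/
def T_ES : Prop := ∀ (N : ℕ) (I : DI), 8 ≤ N → Ok N I → ∀ (x : ℕ × ℕ × ℕ) (L : ℕ), EC N I x → 1 ≤ L →
  lam N x.1 < x.2.2 - x.2.1 →
  L * (x.2.2 - x.2.1) ≤ gs N I x - bs N I x ∨ Cert N I (Nat.clog 2 L) x.1 x.2.1 x.2.2 ∨
  ∃ j, j ≤ x.1 ∧
    x.2.1 - bs N I x ≤ 8 * (2 ^ ((x.1 - j) / 4) * (pe N I j x.2.1 - be N I j x.2.1)) ∧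
    (Cert N I ((x.1 - j) / 4) j (be N I j x.2.1) (pe N I j x.2.1) ∨
      ∃ X Z : Finset ℕ, X ⊆ I.J ∧ Z ⊆ I.J ∧ (∀ i ∈ X, x.2.1 ≤ I.R i ∧ I.R i < x.2.2) ∧
        (∀ i ∈ Z, be N I j x.2.1 ≤ I.R i ∧ I.R i < pe N I j x.2.1) ∧ X ×ˢ Z ⊆ PP N I ∧
        x.2.2 - x.2.1 ≤ Mc N * lam N x.1 * X.card ∧
        pe N I j x.2.1 - be N I j x.2.1 ≤ Mc N * lam N j * Z.card)

/-- STR-ES1 (uses T_ECB, T_BU, T_GAM, T_CHN, T_ON). PROOF. Fix a level `k` and let `W` be the set of the `bs x`, `x ∈ F`, `x.1 = k` (T_BU applies: T_CHN).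
For `b ∈ W` the `x` with `bs x = b` are disjoint subintervals (T_ECB (3)) of `[b, g)`, `g = gam k b = gs x`, with `L (e-a) ≤ g - b`, so
`∑ (e-a)² ≤ (g-b)/L ∑ (e-a) ≤ (g-b)²/L`. (`∑ (e-a) ≤ g - b`: the disjoint `Finset.Ico a e` are contained in `Finset.Ico b g`.) Sum over `b ∈ W`: `≤ (1/L) Cs L OO`.
Sum over the `L` levels `k ∈ [k0, k0+L)`: `≤ Cs L OO`. (`F` is empty if `L = 0`.) -/
def T_ES1 : Prop := ∀ (N : ℕ) (I : DI) (D : ℕ → ℝ), 8 ≤ N → Ok N I → Opt N I D → ∀ k0 L : ℕ, Lv N I k0 L →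
  ∀ F : Finset (ℕ × ℕ × ℕ), (∀ x ∈ F, EC N I x ∧ k0 ≤ x.1 ∧ x.1 < k0 + L ∧
    L * (x.2.2 - x.2.1) ≤ gs N I x - bs N I x) →
  ∑ x ∈ F, sz N x ^ 2 ≤ Cs N * L * OO N I D

/-- STR-ES3g (uses T_ECB, T_BEM, T_GAM, T_NE, T_CS, T_OM, T_CHN). PROOF. Every `x ∈ F` has level `j + g` for a unique `j = x.1 - g`. For `x ∈ F` let `p0 = be j a`,
`p1 = pe j a`, `h = g/4`. Group the `x` by `(j, p0)`; in a group let `m` be the largest `p1 - p0` and take for the family `F'` the triple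
`(j, p0, p0 + m)`, equal to `(j, be j a, pe j a)` for some `x` of the group, so `Cert h` holds. `F'` is a `Fam`: `[p0, p0+m) ⊆ [be j a, a)` is in a busy interval of
level `j` with start `p0` (T_BEM (3)), so a common `t` gives equal `p0` (T_GAM; `A j a` is nonempty: T_NE, `self_mem`). T_CS: `∑_{F'} sz² ≤ Cs (h+1)² OO`.
In a group (fixed `j, p0, k = j+g`) all `x` have the same `bs x = be k a = be k p0 =: b` (T_BEM (6), `Ak_level`). By T_ECB (2) and the hypothesis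
`Rc (e-a) ≤ 2(a-b) ≤ 16 * 2^h m` and `e - b ≤ 2(a-b) ≤ 16 * 2^h m`. The `[a, e)` are disjoint (T_ECB (3)) and contained in
`[b, b + 16 * 2^h m)`, so `∑ (e-a)² ≤ (16 * 2^h m / Rc)(16 * 2^h m) ≤ (2^h m)²` (`Rc ≥ 8000`). Divide by `lam k ^2 = (2^g lam j)²`:
`∑ sz x ^2 ≤ (om g * m / lam j)²` (T_OM (2): `2^h = om g 2^g`). Sum over the groups. -/
def T_ES3g : Prop := ∀ (N : ℕ) (I : DI) (D : ℕ → ℝ), 8 ≤ N → Ok N I → Opt N I D →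
  ∀ (g : ℕ) (F : Finset (ℕ × ℕ × ℕ)), (∀ x ∈ F, EC N I x ∧ lam N x.1 < x.2.2 - x.2.1 ∧
    ∃ j, x.1 = j + g ∧ x.2.1 - bs N I x ≤ 8 * (2 ^ (g / 4) * (pe N I j x.2.1 - be N I j x.2.1)) ∧
      Cert N I (g / 4) j (be N I j x.2.1) (pe N I j x.2.1)) →
  ∑ x ∈ F, sz N x ^ 2 ≤ om g ^ 2 * (Cs N * (((g / 4 : ℕ) : ℝ) + 1) ^ 2 * OO N I D)

/-- STR-ES3 (uses T_ES3g, T_OM, T_ON). PROOF. Choose `j x` for `x ∈ F`, split `F` according to `g = x.1 - j x` (finitely many values), T_ES3g for each of them, and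
T_OM (3): `om g ^2 (g/4+1)² ≤ 3 (1/2)^g`, `∑_g 3 (1/2)^g ≤ 6`. -/
def T_ES3 : Prop := ∀ (N : ℕ) (I : DI) (D : ℕ → ℝ), 8 ≤ N → Ok N I → Opt N I D →
  ∀ F : Finset (ℕ × ℕ × ℕ), (∀ x ∈ F, EC N I x ∧ lam N x.1 < x.2.2 - x.2.1 ∧
    ∃ j, j ≤ x.1 ∧ x.2.1 - bs N I x ≤ 8 * (2 ^ ((x.1 - j) / 4) * (pe N I j x.2.1 - be N I j x.2.1)) ∧
      Cert N I ((x.1 - j) / 4) j (be N I j x.2.1) (pe N I j x.2.1)) →
  ∑ x ∈ F, sz N x ^ 2 ≤ 6 * Cs N * OO N I D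

/-- STR-ES4 (uses T_ECB, T_BEM, T_GAM, T_UPC, T_CHG, T_GEO, T_OM, T_CHN). PROOF. Choose `j, X, Z` for each `x ∈ F`. `sz x ≤ Mc #X`, and by T_ECB (2)
`Rc (e-a) ≤ 2 (a - bs) ≤ 16 * 2^h (p1-p0) ≤ 16 * 2^h Mc lam j #Z`, `h = (k-j)/4`, so `sz x ≤ 2^h Mc lam j #Z / lam k = om (k-j) Mc #Z` (T_OM (2), `lam k = 2^(k-j) lam j`).
So `sz x ^2 ≤ Mc² om (k-j) #(X ×ˢ Z)`. T_CHG with `C = Mc²`, `w x = om (k - j x)`, `Q x = X ×ˢ Z`, `c0 = 5/2`: let `p = (i, i')` and `rho = mg i i'`. Two `x` of the same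
level which contain `p` share the slot `R i`, so they are equal (T_ECB (3)). `R i ∈ [a, e)` and `R i' ∈ [be j a, pe j a) ⊆ [bs x, a]` lie in
the busy interval of `x` (`bs x = be k a ≤ be j a`), so `be k (R i) = be k (R i')` (T_GAM) and `rho ≤ k` (`Nat.sInf_le`). `j ≤ rho`: if `rho < j` then by T_UPC
(`rho` is in the set, `Nat.sInf_mem`) `be (j-1) (R i) = be (j-1) (R i')`, but `be (j-1) (R i) ≥ be (j-1) a = pe j a > R i' ≥ be (j-1) (R i')` (`be` is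
monotone in time: `be_succ`, T_BEM (1)). So `w x ≤ (3/5)^(k-j) ≤ (3/5)^(k-rho)` (T_OM (1)), and T_GEO. -/
def T_ES4 : Prop := ∀ (N : ℕ) (I : DI), 8 ≤ N → Ok N I →
  ∀ F : Finset (ℕ × ℕ × ℕ), (∀ x ∈ F, EC N I x ∧ lam N x.1 < x.2.2 - x.2.1 ∧
    ∃ j, j ≤ x.1 ∧ x.2.1 - bs N I x ≤ 8 * (2 ^ ((x.1 - j) / 4) * (pe N I j x.2.1 - be N I j x.2.1)) ∧
      ∃ X Z : Finset ℕ, X ⊆ I.J ∧ Z ⊆ I.J ∧ (∀ i ∈ X, x.2.1 ≤ I.R i ∧ I.R i < x.2.2) ∧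
        (∀ i ∈ Z, be N I j x.2.1 ≤ I.R i ∧ I.R i < pe N I j x.2.1) ∧ X ×ˢ Z ⊆ PP N I ∧
        x.2.2 - x.2.1 ≤ Mc N * lam N x.1 * X.card ∧
        pe N I j x.2.1 - be N I j x.2.1 ≤ Mc N * lam N j * Z.card) →
  ∑ x ∈ F, sz N x ^ 2 ≤ (Mc N : ℝ) ^ 2 * (5 / 2 * (PP N I).card)

/-- STR-SH (uses T_ES, T_ES1, T_CS, T_ES3, T_ES4, T_PR, T_ECB, T_ON). Sum of the squares of the long end chains. PROOF. If `F` is nonempty, `L ≥ 1`. Split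
`F` by T_ES. (1) T_ES1: `Cs L OO`. (2) T_CS with `g = clog 2 L` (`Fam` by T_ECB (3)): `Cs (g+1)² OO ≤ 8 Cs L OO` (`(g+1)² ≤ 4 * 2^g` by induction and
`2^g ≤ 2 L`). (3) T_ES3: `6 Cs OO`. (4) T_ES4, T_PR: `40 Mc² L OO ≤ 2 Cs L OO`. Sum `≤ 17 Cs L OO ≤ C1 L OO`. -/
def T_SH : Prop := ∀ (N : ℕ) (I : DI) (D : ℕ → ℝ), 8 ≤ N → Ok N I → Opt N I D → ∀ k0 L : ℕ, Lv N I k0 L →
  ∀ F : Finset (ℕ × ℕ × ℕ), (∀ x ∈ F, EC N I x ∧ k0 ≤ x.1 ∧ x.1 < k0 + L ∧ lam N x.1 < x.2.2 - x.2.1) →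
  ∑ x ∈ F, sz N x ^ 2 ≤ C1 N * L * OO N I D

/-! ## Nodes -/

/-- STR-SEP (uses T_GAM, T_BEM, T_F1, T_MASS, T_CAP). PROOF. Let `k' = k - kap`, `b' = be k' x`, `g' = gam k' x`, `B' = [b', g')`, `B = [b, g)`, `g = gam k b`. `y ∈ B'`: `A k'` is
nonempty on `[be k' y, y] ∋ x` (T_BEM (3)). `B' ⊆ B`: on `B'` also `A k` is nonempty, `x ∈ B` (T_GAM). T_F1 for level `k'`, `b'`, `ts = g'`. T_MASS with `F = Fc`, `K = 16`,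
`La = 1`, `κ = kap`, `h = 0`, `M = M0`, level `k'`, `len = g' - b'`, outer intervals `B'`: (S): `M0 (Vv k I - (N-4)|I|) ≥ |B'| ≥ y - x ≥ 3|B|/8`
(`k' + kap = k`), multiply by `3`: `Mc (Vv k I - (N-4)|I|) ≥ 9|B|/8`, and `Vv k ≤ Vv (k + kap)`: `SC k b g`. (near) impossible. (far):
`|B'| ≤ M0 lam k' c`, `c` = number of the jobs released in `B` of level `> k`. T_CAP: `c ell k ≤ N |B|`, so `c lam k ≤ |B|`; `lam k = 2^kap lam k'`. So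
`2^kap |B'| ≤ M0 |B| ≤ 3 M0 |B'|` , a contradiction to `2^kap > 3 M0` (`|B'| > 0`). -/
def T_SEP : Prop := ∀ (N : ℕ) (I : DI), 8 ≤ N → Ok N I → ∀ (k b x y : ℕ), (Ak N I k b).Nonempty → be N I k b = b →
  kap N ≤ k → b ≤ x → x ≤ y → y < gam N I k b → (Ak N I (k - kap N) x).Nonempty → (Ak N I (k - kap N) y).Nonempty →
  be N I (k - kap N) x = be N I (k - kap N) y → 3 * (gam N I k b - b) ≤ 8 * (y - x) → SC N I k b (gam N I k b)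

/-- STR-N1 (uses T_CCB, T_CHN, T_GAM, T_GL, T_GAW, T_MASS, T_SEP). PROOF. `x = (k, a, e)`, `e = s + 1`, `b = bs x`, `g = gs x`, `tB = e`. T_GL for `k, b, s` (T_CHN: `A k b`
nonempty, `be k b = b`, `gam k b = g`). First case, `[a', b') ⊆ [b, e)`: T_MASS with `F = FG`, `K = 16`, `La = 2`, `κ = kap`, `h = 0`, `M = Mc`, `len = g - b`, outer intervals
`[a', b')` and `[b, b + 2(e-b))`: (S) gives `SC k b g`; (near) impossible; (far): the set is contained in `YY x`, so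
`g - b ≤ Mc lam k #YY`. T_MASS with `I = [a, e)`, `F = 1`, `K = Ks`, `La = 1`, `h = 0`, `len = e - a`, both outer intervals `[a, e)` (T_CCB (1)): (S) gives `SC k a e`,
(far) gives `e - a ≤ Mc lam k #XX`. So `XY x`. Second case: let `T = g - tB`; T_GAW for `[tB, tB + T/8)` and for `[g - T/8, g)`; T_MASS for both with `F = 32`,
`K = 16`, `La = 1`, `h = 0`, `M = Mc`, `len = g - b`, outer intervals: the interval itself, and `[tB, g)`: (S) gives `SC k b g`. Otherwise `Y1`, `Y2` are the (far) sets,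
`Y1 ×ˢ Y2 ⊆ PP` (common interval `[tB, g)`). If `kap ≤ k` and `be (k-kap) (R i) = be (k-kap) (R i')` for some `i ∈ Y1`, `i' ∈ Y2`: `R i' - R i ≥ T - 2 (T/8) ≥ 3T/4` and
`2T ≥ g - b`, so T_SEP (with `self_mem`) gives `SC k b g`. -/
def T_N1 : Prop := ∀ (N : ℕ) (I : DI), 8 ≤ N → Ok N I → ∀ x : ℕ × ℕ × ℕ, Nd N I x →
  SC N I x.1 (bs N I x) (gs N I x) ∨
  (∃ Y1 Y2 : Finset ℕ, Y1 ⊆ I.J ∧ Y2 ⊆ I.J ∧ (∀ i ∈ Y1, bs N I x ≤ I.R i ∧ I.R i < gs N I x) ∧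
    (∀ i ∈ Y2, bs N I x ≤ I.R i ∧ I.R i < gs N I x) ∧ Y1 ×ˢ Y2 ⊆ PP N I ∧
    (kap N ≤ x.1 → ∀ i ∈ Y1, ∀ i' ∈ Y2, be N I (x.1 - kap N) (I.R i) ≠ be N I (x.1 - kap N) (I.R i')) ∧
    gs N I x - bs N I x ≤ Mc N * lam N x.1 * Y1.card ∧ gs N I x - bs N I x ≤ Mc N * lam N x.1 * Y2.card) ∨
  SC N I x.1 x.2.1 x.2.2 ∨ XY N I x

/-- STR-CEL (uses T_CCB, T_CHN, T_GAM, T_BEM). Geometry of a cell. PROOF. `x = (k, a, e)`, `x1 = (k1, a1, e1)`, `n = e - a`, `n1 = e1 - a1`, `s` the common scale: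
`4^s ≤ n, n1 < 4^(s+1)` (`Nat.pow_log_le_self`, `Nat.lt_pow_succ_log_self`, `n, n1 > 0`), and `a / 4^(s+2) = a1 / 4^(s+2)`, so `|a - a1| < 4^(s+2) ≤ 16 n, 16 n1`, and `n < 4 n1`,
`n1 < 4 n`. `b = bs x`, `b1 = bs x1`, `H = e - b`. `Nd`: `b + Rc (n-1) < a`, `n ≥ lam ≥ 8`, so `a - b ≥ 500 N n ≥ 100 n`, the same for `x1`.
A common slot of the busy intervals: if `a1 ≤ a`: `a1 > a - 16 n ≥ b`, so `a1 ∈ [b, a]`; otherwise `a ∈ [b1, a1]`. So (T_GAM for both levels; `A k1 ⊆ A k`): the whole busy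
interval `[b1, g1)` of `x1` (level `k1`) is contained in the busy interval `[b, g)` of `x`: `A k` is nonempty on it and it contains a slot of `[b, g)`. This gives
`be k r = b` for `r ∈ [a1, e1) ⊆ [b1, g1)` and `b ≤ b1 ≤ a1`. If `k1 = k`: T_CCB (5). `r ≥ a1 > a - 16 n`, `r < e1 ≤ a + 16 n + 4 n`.
`H = (a-b) + n`, so `r - b ≥ H - 17 n ≥ H / 2` and `e1 ≤ a + 20 n ≤ b + 2 H`. The last two claims are T_CCB (4). -/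
def T_CEL : Prop := ∀ (N : ℕ) (I : DI), 8 ≤ N → Ok N I → ∀ x x1 : ℕ × ℕ × ℕ, Nd N I x → Nd N I x1 →
  cell x = cell x1 → x1.1 ≤ x.1 →
  (∀ r, x1.2.1 ≤ r → r < x1.2.2 → be N I x.1 r = bs N I x ∧ x.2.2 - bs N I x ≤ 2 * (r - bs N I x)) ∧
  bs N I x ≤ x1.2.1 ∧ x1.2.2 ≤ bs N I x + 2 * (x.2.2 - bs N I x) ∧
  (x1.1 = x.1 → x1 = x) ∧ x.2.2 - x.2.1 ≤ 4 * (x1.2.2 - x1.2.1) ∧
  Rc N * (x.2.2 - x.2.1) ≤ 2 * (x.2.2 - bs N I x) ∧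
  x.2.2 - bs N I x ≤ (Rc N + 1) * (x.2.2 - x.2.1)

/-- STR-XP (uses T_CEL). PROOF. `i ∈ XX x1`, `i' ∈ YY x`. Common interval `[b, b + 2H)`, `b = bs x`, `H = e - b`. It contains `[a1, e1)` and `R i'` (`R i' < e`). Dense for `lev i'` by
the definition of `YY`. For `m = lev i`: `Ks (e1-a1) ≤ cnt m a1 e1 lam m ≤ cnt m b (b+2H) lam m` (`cnt_mono`), and
`16 * 2 H ≤ 32 (Rc+1)(e-a) ≤ 128 (Rc+1)(e1-a1) = Ks (e1-a1)`. -/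
def T_XP : Prop := ∀ (N : ℕ) (I : DI), 8 ≤ N → Ok N I → ∀ x x1 : ℕ × ℕ × ℕ, Nd N I x → Nd N I x1 →
  cell x = cell x1 → x1.1 ≤ x.1 → XX N I x1 ×ˢ YY N I x ⊆ PP N I

/-- STR-N2 (uses T_CEL, T_CCB, T_CHN, T_GAM, T_BEM, T_UPC, T_F1, T_MASS, T_PIG, T_OM). PROOF. `x = (k, a, e)`, `b = bs x`, `g = gs x`, `H = e - b`, `n = e - a`. Suppose (b) fails. Then
the pairs of `XX x1 ×ˢ YY x` outside of `TB` are more than half, so for some `i ∈ XX x1` the set `Y'` of the `i' ∈ YY x` with `(i, i') ∉ TB` has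
`2 #Y' > #YY` (sum over `i`). Let `f j = be j (R i)`, `Dj = R i - f j`, `Dk = R i - f k`; `f k = b` and `H ≤ 2 Dk` (T_CEL, `R i ∈ [a1, e1)`). For `i' ∈ Y'`: `R i' ∈ [b, e)`, so
`be k (R i') = b = f k`, `mg i i' ≤ k`, and `Dk ≥ 2 D_(mg i i')`. Let `j1` be the maximum of the `mg i i'`, `i' ∈ Y'`; `Dk ≥ 2 D_j1`, so `j1 < k` (`Dk > 0`).
T_PIG for `f` on `[j1, k]` (antitone: T_BEM (2)): some `j' ∈ [j1, k)`: `Dk/2 ≤ f j1 - f k ≤ 8 * (2^((k-1-j')/4) * (f j' - f (j'+1)))`. Let `j = j'+1`, `gg = k - j`, `h = gg/4`,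
`p0 = f j`, `p1 = f j'`, `P = p1 - p0 > 0`: `Dk ≤ 16 * 2^h P`, `H ≤ 32 * 2^h P`. `sz x = n/lam k ≤ (2H/Rc)/lam k ≤ (64/Rc) 2^h P/lam k ≤ 2^h P / lam k = om gg P / lam j`.
`b ≤ p0`, `p1 ≤ R i < g` (`R i` in the busy interval of `x`: `R i ∈ [a1,e1)`; more precisely `p1 ≤ g` since `A k` is nonempty on `[b, R i]` and `b`'s busy interval is `[b, g)`).
T_F1 for level `j`, `b := p0`, `ts := p1 ≤ R i` (`A j` nonempty on `[p0, R i]`: T_BEM (3), `self_mem`; `be j p0 = p0`: T_GAM). T_MASS with `F = Fc`, `K = 16`, `La = 64`, `h`, `M = Mc`, `len = P`, outer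
intervals `[p0, p1)` and `[b, b + 2H)` (`2H ≤ 64 * 2^h P`; `p1 ≤ R i ≤ b + 2H`). The first two alternatives give (c). The third: `Z` = its set,
`P ≤ Mc lam j #Z`, so `sz x ≤ om gg Mc #Z`; `Z ×ˢ Y' ⊆ PP` (common interval `[b, b + 2H)`). `mg i'' i' = j` for `i'' ∈ Z`, `i' ∈ Y'`: `be j (R i'') = f j` (`R i'' ∈ [f j, R i]`, T_GAM),
`be j (R i') = f j` (T_UPC, `mg i i' ≤ j1 < j`), so `mg ≤ j`; and if `mg i'' i' ≤ j'` then `be j' (R i'') = be j' (R i')` (T_UPC), but `be j' (R i'') ≤ R i'' < p1 = f j' =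
be j' (R i')` (T_UPC, `mg i i' ≤ j1 ≤ j'`). -/
def T_N2 : Prop := ∀ (N : ℕ) (I : DI), 8 ≤ N → Ok N I → ∀ x x1 : ℕ × ℕ × ℕ, XY N I x → XY N I x1 →
  cell x = cell x1 → x1.1 ≤ x.1 →
  (XX N I x1).card * (YY N I x).card ≤ 2 * (TB N I x x1).card ∨
  (∃ j g p0 p1, x.1 = j + g ∧ bs N I x ≤ p0 ∧ p0 ≤ p1 ∧ p1 ≤ gs N I x ∧
    sz N x ≤ om g * (((p1 - p0 : ℕ) : ℝ) / lam N j) ∧ Cert N I (g / 4) j p0 p1) ∨
  (∃ (j g : ℕ) (Z Y : Finset ℕ), x.1 = j + g ∧ Z ×ˢ Y ⊆ PP N I ∧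
    (∀ i ∈ Y, be N I x.1 (I.R i) = bs N I x ∧ I.R i < gs N I x) ∧ (YY N I x).card ≤ 2 * Y.card ∧
    sz N x ≤ om g * (Mc N * (Z.card : ℝ)) ∧ ∀ i ∈ Z, ∀ i' ∈ Y, mg N I i i' = j)

/-- STR-NMU (uses T_BU, T_CCB, T_CHN). PROOF. For each level `k ∈ [k0, k0+L)` the map `x ↦ bs x` is injective on the `x ∈ F` with `x.1 = k` (T_CCB (5) with `t = bs x`), `gs x = gam k (bs x)`, so the sum
is one of T_BU: `≤ Cs L OO`. Sum over `L` levels. -/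
def T_NMU : Prop := ∀ (N : ℕ) (I : DI) (D : ℕ → ℝ), 8 ≤ N → Ok N I → Opt N I D → ∀ k0 L : ℕ, Lv N I k0 L →
  ∀ F : Finset (ℕ × ℕ × ℕ), (∀ x ∈ F, CC N I x ∧ k0 ≤ x.1 ∧ x.1 < k0 + L) →
  ∑ x ∈ F, mu N I x ^ 2 ≤ Cs N * L * L * OO N I D

/-- STR-NS1 (uses T_CCB, T_CSS, T_ON). PROOF. `sz x ≤ mu x` (`[a, e) ⊆ [bs, gs)`), so the sum is at most `∑ mu²`, which is the sum of `sz²` over the family of the triples
`(x.1, bs x, gs x)` (injective and `Fam` by T_CCB (5); `Finset.sum_image`). T_CSS: `≤ 6 X² OO ≤ Cs OO`. -/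
def T_NS1 : Prop := ∀ (N : ℕ) (I : DI) (D : ℕ → ℝ), 8 ≤ N → Ok N I → Opt N I D →
  ∀ F : Finset (ℕ × ℕ × ℕ), (∀ x ∈ F, Nd N I x ∧ SC N I x.1 (bs N I x) (gs N I x)) →
  ∑ x ∈ F, sz N x * mu N I x ≤ Cs N * OO N I D

/-- STR-NGA (uses T_CCB, T_GAM, T_UPC, T_CHG, T_CHN). PROOF. Choose `Y1, Y2` for each `x`. `sz x ≤ mu x ≤ Mc #Y1, Mc #Y2`, so `sz x * mu x ≤ Mc² #(Y1 ×ˢ Y2)`. T_CHG with `w = 1`, `C = Mc²`, `Q x = Y1 ×ˢ Y2`,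
`c0 = kap`: let `p = (i, i')`, `rho = mg i i'`. For `x` with `p ∈ Q x`: `be k (R i) = be k (R i') = bs x` (T_GAM, `k = x.1`), so `rho ≤ k`, and `k < rho + kap`: otherwise `kap ≤ k` and `rho ≤ k - kap`, so
(T_UPC, `Nat.sInf_mem`) `be (k-kap)` agree, excluded. Two such `x` of the same level have the common slot `R i`, so they are equal (T_CCB (5)). So the number of such `x` is at most `kap`. -/
def T_NGA : Prop := ∀ (N : ℕ) (I : DI), 8 ≤ N → Ok N I →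
  ∀ F : Finset (ℕ × ℕ × ℕ), (∀ x ∈ F, Nd N I x ∧
    ∃ Y1 Y2 : Finset ℕ, Y1 ⊆ I.J ∧ Y2 ⊆ I.J ∧ (∀ i ∈ Y1, bs N I x ≤ I.R i ∧ I.R i < gs N I x) ∧
    (∀ i ∈ Y2, bs N I x ≤ I.R i ∧ I.R i < gs N I x) ∧ Y1 ×ˢ Y2 ⊆ PP N I ∧
    (kap N ≤ x.1 → ∀ i ∈ Y1, ∀ i' ∈ Y2, be N I (x.1 - kap N) (I.R i) ≠ be N I (x.1 - kap N) (I.R i')) ∧
    gs N I x - bs N I x ≤ Mc N * lam N x.1 * Y1.card ∧ gs N I x - bs N I x ≤ Mc N * lam N x.1 * Y2.card) →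
  ∑ x ∈ F, sz N x * mu N I x ≤ (Mc N : ℝ) ^ 2 * (kap N * (PP N I).card)

/-- STR-NS2 (uses T_CCB, T_CSS, T_NMU, T_ON). PROOF. If `F` is nonempty `L ≥ 1`. `sz mu ≤ (L sz² + mu²/L)/2`. T_CSS for `F` itself (`Fam` by T_CCB (5): a common slot of the chains is a common
slot of the busy intervals): `∑ sz² ≤ 6 X² OO ≤ Cs OO`. T_NMU: `∑ mu² ≤ Cs L² OO`. -/
def T_NS2 : Prop := ∀ (N : ℕ) (I : DI) (D : ℕ → ℝ), 8 ≤ N → Ok N I → Opt N I D → ∀ k0 L : ℕ, Lv N I k0 L →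
  ∀ F : Finset (ℕ × ℕ × ℕ), (∀ x ∈ F, Nd N I x ∧ k0 ≤ x.1 ∧ x.1 < k0 + L ∧ SC N I x.1 x.2.1 x.2.2) →
  ∑ x ∈ F, sz N x * mu N I x ≤ Cs N * L * OO N I D

/-- STR-NB (uses T_CEL, T_XP, T_CCB, T_GAM, T_UPC, T_CHG, T_GEO, T_BEM, T_CHN). PROOF. `phi x` is the lowest node of the cell. For `x = (k,a,e) ∈ F`, `x1 = phi x = (k1, a1, e1)`:
`sz x ≤ 4 (e1-a1)/lam k = 4 (1/2)^(k-k1) sz x1 ≤ 4 (1/2)^(k-k1) Mc #XX x1` (T_CEL, `lam k = 2^(k-k1) lam k1`, `XY x1`), `mu x ≤ Mc #YY x`. So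
`sz x mu x ≤ 8 Mc² (1/2)^(k-k1) #TB x x1`. T_CHG with `C = 8 Mc²`, `w x = (1/2)^(k-k1)`, `Q x = TB x x1 ⊆ PP` (T_XP), `c0 = 16`. Let `p = (i, i')`, `rho = mg i i'`,
`Ds = R i - be rho (R i)`. For `x` with `p ∈ TB x x1`: `R i ∈ [a1, e1)`, `be k (R i) = b = bs x = be k (R i')`, `rho ≤ k` (`rho` is the least element of its set), so `Ds ≤ Dk = R i - b < 2 Ds`. With
`H = e - b`: `H ≤ 2 Dk < 4 Ds`, `Dk < 2 H` (`R i < e1 ≤ b + 2H`), so `Ds < 2H`. `n = e - a`: `Rc n ≤ 2H < 8 Ds` and `Ds < 2 (Rc+1) n`. `s = scl x`: `4^s ≤ n < 4^(s+1)`, so `Rc 4^s < 8 Ds < 64 (Rc+1) 4^s`.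
If `s0` is the least such scale, then `Rc 4^s < 64 (Rc+1) 4^s0`, so `s ≤ s0 + 3` (`Rc ≥ 8000`): at most `4` scales. For a given `s`: `a1 ≤ R i < a1 + 4^(s+1)` and
`cell x = cell x1 = (s, a1 / 4^(s+2))`, so the second component is `R i / 4^(s+2)` or that minus `1`: at most `2`. So at most `8` cells. In one cell all `x` have the same `phi x`, different levels
(T_CEL: two nodes of the same cell and level are equal), `k ≥ k1`: `∑ w ≤ 2` (T_GEO with `rho := k1`). Total `16`. -/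
def T_NB : Prop := ∀ (N : ℕ) (I : DI), 8 ≤ N → Ok N I →
  ∀ (F : Finset (ℕ × ℕ × ℕ)) (phi : ℕ × ℕ × ℕ → ℕ × ℕ × ℕ), (∀ x ∈ F, XY N I x ∧ XY N I (phi x) ∧
    cell x = cell (phi x) ∧ (phi x).1 ≤ x.1 ∧
    (XX N I (phi x)).card * (YY N I x).card ≤ 2 * (TB N I x (phi x)).card) →
  (∀ x ∈ F, ∀ y ∈ F, cell x = cell y → phi x = phi y) →
  ∑ x ∈ F, sz N x * mu N I x ≤ 8 * (Mc N : ℝ) ^ 2 * (16 * (PP N I).card)

/-- STR-NCg (uses T_CCB, T_CS, T_OM, T_ON). PROOF. Choose `j = x.1 - g`, `p0, p1` for each `x`. The family of the triples `(j, p0, p1)`: for `x ≠ y` with the same `j` (so the same level `k = j + g`)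
the busy intervals `[bs, gs)` have no common slot (T_CCB (5)), so `[p0, p1)` and `[p0', p1')` have none; if `p0 = p1` the term is `sz x ≤ 0`, drop these `x`. So the map `x ↦ (j, p0, p1)` is injective on
the others and the image is a `Fam`. T_CS with `g/4`: `∑ ((p1-p0)/lam j)² ≤ Cs (g/4+1)² OO`. -/
def T_NCg : Prop := ∀ (N : ℕ) (I : DI) (D : ℕ → ℝ), 8 ≤ N → Ok N I → Opt N I D →
  ∀ (g : ℕ) (F : Finset (ℕ × ℕ × ℕ)), (∀ x ∈ F, Nd N I x ∧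
    ∃ j p0 p1, x.1 = j + g ∧ bs N I x ≤ p0 ∧ p0 ≤ p1 ∧ p1 ≤ gs N I x ∧
    sz N x ≤ om g * (((p1 - p0 : ℕ) : ℝ) / lam N j) ∧ Cert N I (g / 4) j p0 p1) →
  ∑ x ∈ F, sz N x ^ 2 ≤ om g ^ 2 * (Cs N * (((g / 4 : ℕ) : ℝ) + 1) ^ 2 * OO N I D)

/-- STR-NC (uses T_NCg, T_NMU, T_OM, T_ON). PROOF. Choose `g x`, split `F` by its value, T_NCg and T_OM (3): `∑ sz² ≤ 6 Cs OO`. `sz mu ≤ (L sz² + mu²/L)/2` (`L ≥ 1` if `F` is nonempty) and T_NMU: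
`(6 Cs L OO + Cs L OO)/2`. -/
def T_NC : Prop := ∀ (N : ℕ) (I : DI) (D : ℕ → ℝ), 8 ≤ N → Ok N I → Opt N I D → ∀ k0 L : ℕ, Lv N I k0 L →
  ∀ F : Finset (ℕ × ℕ × ℕ), (∀ x ∈ F, Nd N I x ∧ k0 ≤ x.1 ∧ x.1 < k0 + L ∧
    ∃ j g p0 p1, x.1 = j + g ∧ bs N I x ≤ p0 ∧ p0 ≤ p1 ∧ p1 ≤ gs N I x ∧
    sz N x ≤ om g * (((p1 - p0 : ℕ) : ℝ) / lam N j) ∧ Cert N I (g / 4) j p0 p1) →
  ∑ x ∈ F, sz N x * mu N I x ≤ 4 * Cs N * L * OO N I D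

/-- STR-NDD (uses T_CCB, T_GAM, T_CHG, T_GEO, T_OM, T_CHN, T_BEM). PROOF. Choose `j, g, Z, Y` for each `x`. `mu x ≤ Mc #YY ≤ 2 Mc #Y`, so `sz x mu x ≤ 2 Mc² om g #(Z ×ˢ Y)`. T_CHG with `C = 2 Mc²`, `w x = om g`, `Q x = Z ×ˢ Y`,
`c0 = 5/2`: for a pair `p = (i, i')` and `x` with `p ∈ Q x`: `mg i i' = j x`, so `w x ≤ (3/5)^(x.1 - mg i i')` (T_OM (1)), `mg i i' ≤ x.1`. Two such `x, y` of the same level `k`: `bs x = be k (R i') = bs y`, and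
`t = bs x` is a common slot, so `x = y` (T_CCB (5)). T_GEO. -/
def T_NDD : Prop := ∀ (N : ℕ) (I : DI), 8 ≤ N → Ok N I →
  ∀ F : Finset (ℕ × ℕ × ℕ), (∀ x ∈ F, XY N I x ∧
    ∃ (j g : ℕ) (Z Y : Finset ℕ), x.1 = j + g ∧ Z ×ˢ Y ⊆ PP N I ∧
    (∀ i ∈ Y, be N I x.1 (I.R i) = bs N I x ∧ I.R i < gs N I x) ∧ (YY N I x).card ≤ 2 * Y.card ∧
    sz N x ≤ om g * (Mc N * (Z.card : ℝ)) ∧ ∀ i ∈ Z, ∀ i' ∈ Y, mg N I i i' = j) →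
  ∑ x ∈ F, sz N x * mu N I x ≤ 2 * (Mc N : ℝ) ^ 2 * (5 / 2 * (PP N I).card)

/-- STR-NOD (uses T_N1, T_N2, T_NS1, T_NGA, T_NS2, T_NB, T_NC, T_NDD, T_PR, T_ON). PROOF. Split `F` by T_N1 into `F1, F2, F3` and the rest `F4` (`XY`). For `x ∈ F4` let `phi x` be an element of `F4` in the cell of `x` with least
level, chosen as a function of the cell (for example `Classical.choose` for each value of `cell`). Split `F4` by T_N2 for `(x, phi x)`. Sum of the six bounds, with T_PR: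
`Cs OO + 16 Mc² kap L OO + Cs L OO + 2048 Mc² L OO + 4 Cs L OO + 80 Mc² L OO ≤ C1 L OO`: `Cs = 22 (Mc N 2^kap)²` is at least `22 * 64 * 4 * Mc²`. (`F` is empty if `L = 0`.) -/
def T_NOD : Prop := ∀ (N : ℕ) (I : DI) (D : ℕ → ℝ), 8 ≤ N → Ok N I → Opt N I D → ∀ k0 L : ℕ, Lv N I k0 L →
  ∀ F : Finset (ℕ × ℕ × ℕ), (∀ x ∈ F, Nd N I x ∧ k0 ≤ x.1 ∧ x.1 < k0 + L) →
  ∑ x ∈ F, sz N x * mu N I x ≤ C1 N * L * OO N I D

/-! ## Costs -/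

/-- STR-J1 (uses T_EV, T_FIN, T_GAM, T_BEM, T_CHN). The cost of a job. PROOF. `k = lev i`, `q i ≤ ell k ≤ 2 q i` (`q_le_ell`, `ell_lev_le`), so `N (t - R i)/q i ≤ 2 (t - R i)/lam k`. T_EV for `k`: `t, a`. If `EndE k t`: `x = (k, a, t+1)` is
`EC`; `i ∉ A k (t+1)`, so `q i ≤ e (t+1) i` (`mem_Ak`, `q i ≤ ell k`), `cmp i ≤ t+1` (`Nat.sInf_le`), `cmp i - R i ≤ t + 1 - a`. If `ClE k t`: let `b = be k (R i)`, `g = gam k (R i)`. `i ∈ A k (R i)`, and `t + 1 < g`: `A k` is nonempty on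
`[R i, t]` (T_CHN/T_P1 or `uu k t' = a`: T_CHN for `t'`) and at `t+1` (`Con`). Let `s` be the largest number with `s + 1 < g` and `ClE k s` (`t` is one: `Nat.findGreatest` or `Finset.max'`), `t ≤ s`, `uu k s = a'` (`≠ ⊤`),
`x = (k, a', s+1)`. T_CHN for `s`: `be k a' = be k s = b`, `gam k a' = g` (`s ∈ [b, g)`, T_GAM), so `CC x`, `bs x = b`, `gs x = g`; `b ≤ R i ≤ t < s + 1`. `cmp i ≤ g`: `A k g = ∅`, so `i ∉ A k g`,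
`R i ≤ g`, `q i ≤ e g i`. So `cmp i - R i ≤ g - b`. Completion: T_FIN. -/
def T_J1 : Prop := ∀ (N : ℕ) (I : DI), 8 ≤ N → Ok N I → ∀ i ∈ I.J,
  I.q i ≤ eu N I (cmp N I i) i ∧ I.R i ≤ cmp N I i ∧
  ((∃ x, EC N I x ∧ x.1 = lev N I i ∧ x.2.1 ≤ I.R i ∧ I.R i < x.2.2 ∧
      (N : ℝ) * ((cmp N I i : ℝ) - I.R i) / I.q i ≤ 2 * sz N x) ∨
   (∃ x, CC N I x ∧ x.1 = lev N I i ∧ bs N I x ≤ I.R i ∧ I.R i < x.2.2 ∧
      (N : ℝ) * ((cmp N I i : ℝ) - I.R i) / I.q i ≤ 2 * mu N I x))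

/-- STR-JE (uses T_ECB, T_LB2, T_SH, T_SWP, T_ON). PROOF. `c = cnt k a e`, `z = sz x`. If `e - a ≤ lam k`: `c z ≤ c`. Otherwise if `dens 16 k a e`: `16 z ≤ c`, `c z ≤ c²/16 ≤ ∑_{jobs k a e} Oj` (T_LB2). Otherwise `c ≤ 16 z`,
`c z ≤ 16 z²`, T_SH. `∑_x c ≤ #J ≤ OO` and `∑_x ∑_{jobs k a e} Oj ≤ OO`: the sets `jobs k a e`, `x = (k,a,e) ∈ F`, are pairwise disjoint (level; T_ECB (3)). Total
`≤ (2 + 16 C1 L) OO ≤ 18 C1 L OO` (`F` nonempty implies `L ≥ 1`; `C1 ≥ 1`). -/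
def T_JE : Prop := ∀ (N : ℕ) (I : DI) (D : ℕ → ℝ), 8 ≤ N → Ok N I → Opt N I D → ∀ k0 L : ℕ, Lv N I k0 L →
  ∀ F : Finset (ℕ × ℕ × ℕ), (∀ x ∈ F, EC N I x ∧ k0 ≤ x.1 ∧ x.1 < k0 + L) →
  ∑ x ∈ F, (cnt N I x.1 x.2.1 x.2.2 : ℝ) * sz N x ≤ 18 * C1 N * L * OO N I D

/-- STR-MU1 (uses T_CCB, T_GAM, T_WKB, T_FIN, T_ON, T_CHN). PROOF. The busy intervals `[bs x, gs x)`, `x ∈ F`, are disjoint (T_CCB (5)). Let `S` be the union of their slots; in each of them the background job is in `A k t` (`bj_low`), so T_WKB with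
`a = 0`, `b = max + 1`: `∑ (gs - bs) = #S ≤ Wp k 0 b ≤ #J (ell k + N) ≤ 2 #J N lam k`. Divide by `lam k`; `#J ≤ OO`. -/
def T_MU1 : Prop := ∀ (N : ℕ) (I : DI) (D : ℕ → ℝ), 8 ≤ N → Ok N I → Opt N I D → ∀ k : ℕ,
  ∀ F : Finset (ℕ × ℕ × ℕ), (∀ x ∈ F, CC N I x ∧ x.1 = k) →
  ∑ x ∈ F, mu N I x ≤ 2 * N * OO N I D

/-- STR-JC (uses T_CCB, T_LB2, T_NMU, T_NOD, T_MU1, T_ON). PROOF. `c = cnt k (bs x) e`, `m = mu x`. If `dens 16 k (bs x) e`: `c m ≤ (L c² + m²/L)/2`, `∑ c² ≤ 16 OO` (T_LB2; the sets `jobs k (bs x) e` are disjoint, T_CCB (5)), `∑ m² ≤ Cs L² OO`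
(T_NMU). Otherwise `c lam k < 16 (e - bs) ≤ 16 (Rc+1)(e-a)` (T_CCB (2): `a - bs ≤ Rc (e-a)`), `c ≤ 16 (Rc+1) sz x`. T_CCB (3): `sz x = 1`: T_MU1 for each of the `L` levels: `≤ 16 (Rc+1) 2 N L OO`; or `Nd x`: T_NOD: `≤ 16 (Rc+1) C1 L OO`.
Total `≤ (8 + Cs + 16 (Rc+1)(2N + C1)) L OO ≤ 40 (Rc+1) C1 L OO`. -/
def T_JC : Prop := ∀ (N : ℕ) (I : DI) (D : ℕ → ℝ), 8 ≤ N → Ok N I → Opt N I D → ∀ k0 L : ℕ, Lv N I k0 L →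
  ∀ F : Finset (ℕ × ℕ × ℕ), (∀ x ∈ F, CC N I x ∧ k0 ≤ x.1 ∧ x.1 < k0 + L) →
  ∑ x ∈ F, (cnt N I x.1 (bs N I x) x.2.2 : ℝ) * mu N I x ≤ 40 * ((Rc N : ℝ) + 1) * C1 N * L * OO N I D

/-- STR-DISC (uses T_J1, T_JE, T_JC, T_ON). The discrete theorem. PROOF. For each `i ∈ J` choose `x` by T_J1. Let `F` be the image of the jobs of the first kind. `∑ (cost) ≤ ∑_{x ∈ F} #{i : x i = x} 2 sz x ≤ 2 ∑_{x ∈ F} cnt k a e sz x` (the `i`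
with `x i = x` are in `jobs k a e`); the same for the second kind with `jobs k (bs x) e` and `mu x`. T_JE, T_JC: `≤ (36 + 80 (Rc+1)) C1 L OO ≤ CD L OO`. Levels: `x.1 = lev i ∈ [k0, k0+L)`. -/
def T_DISC : Prop := ∀ (N : ℕ) (I : DI) (D : ℕ → ℝ), 8 ≤ N → Ok N I → Opt N I D → ∀ k0 L : ℕ, Lv N I k0 L →
  ∑ i ∈ I.J, (N : ℝ) * ((cmp N I i : ℝ) - I.R i) / I.q i ≤ CD N * L * OO N I D

end STR
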