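import Pool.Agent.STR.DefsR
import Pool.Agent.STR.TargetsAna

/-!
# Project STR (MP_32d942_lc): targets on the real model (Blueprint section 8)

Every target has its complete proof in the docstring. The list after the word uses names the targets that may be taken as
hypotheses (all lemmas of `Basic.lean` may be used freely).
-/

set_option autoImplicit false

namespace STR

open Filter Topology

/-! ## Interpolation, feasibility -/

/-- STR-LIN. PROOF. With `y = max x 0`, `m = ⌊y⌋₊`, `m ≤ y < m + 1` (`Nat.floor_le`, `Nat.lt_floor_add_one`), `lin f x = f m + (y - m)(f (m+1) - f m)`. (1) `x = n`: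
`⌊n⌋₊ = n`. (2) if `x ≤ n` and `f l = 0` for `l ≤ n`: if `y < n` then `m + 1 ≤ n`, both values are `0`; if `y = n` then `m = n` and `y - m = 0` (`x ≤ n`
and `n ≥ 0` give `y ≤ n`). (3), (4): for `x ≤ x'` with values `y ≤ y'`: if `m = m'` then the difference is `(y'-y)(f (m+1) - f m)`; if `m < m'`:
`lin f x ≤ f (m+1) ≤ f m' ≤ lin f x'` and for (4) `lin f x' - lin f x = (y'-m')(f(m'+1)-f m') + (f m' - f(m+1)) + (m+1-y)(f(m+1)-f m) ≤ c (y'-m') + c (m'-m-1) + c (m+1-y)`,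
`y' - y ≤ x' - x`. (5) sum: linear. (6) if two sequences agree at `⌊y⌋₊` and (unless `y` is an integer) at `⌊y⌋₊ + 1` then `lin` agrees: stated with `n`:
`n < y ≤ n + 1` and agreement at `n` and `n + 1`: then `m = n`, or `m = n+1` and `y = n+1`, `y - m = 0`. -/
def T_LIN : Prop :=
  (∀ (f : ℕ → ℝ) (n : ℕ), lin f n = f n) ∧
  (∀ (f : ℕ → ℝ) (n : ℕ) (x : ℝ), (∀ l ≤ n, f l = 0) → x ≤ n → lin f x = 0) ∧
  (∀ f : ℕ → ℝ, Monotone f → Monotone (lin f)) ∧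
  (∀ (f : ℕ → ℝ) (c : ℝ), 0 ≤ c → (∀ n, f (n + 1) - f n ≤ c) → Monotone f →
    ∀ x x', x ≤ x' → lin f x' - lin f x ≤ c * (x' - x)) ∧
  (∀ (S : Finset ℕ) (f : ℕ → ℕ → ℝ) (x : ℝ), ∑ j ∈ S, lin (f j) x = lin (fun n => ∑ j ∈ S, f j n) x) ∧
  (∀ (f g : ℕ → ℝ) (n : ℕ) (x : ℝ), f n = g n → f (n + 1) = g (n + 1) → (n : ℝ) < x → x ≤ n + 1 → lin f x = lin g x)

/-- STR-FEA (uses T_LIN). PROOF. `δ = del = N w / s > 0`. mono: `eu` is monotone in time (`eu_mono`), T_LIN (3). before: `t ≤ r j` gives `t/δ ≤ r j/δ ≤ R j` (`Nat.le_ceil`) and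
`eu l j = 0` for `l ≤ R j` (`eu_before`), T_LIN (2). speed: the sum is `w (lin E (t'/δ) - lin E (t/δ))` with `E n = ∑_j eu n j` (T_LIN (5)), `E (n+1) - E n ≤ N` (`cap`), so by T_LIN (4) it is at
most `w N (t'-t)/δ = s (t'-t)`. -/
def T_FEA : Prop := ∀ (N : ℕ) (s w : ℝ), 1 ≤ N → 0 < s → 0 < w → ∀ I : Inst, Feasible I s (alg N s w I)

/-! ## Locality -/

/-- STR-LOC. Locality of the run. PROOF. First congruence lemmas: if `R j = R' j` for all `j ∈ al` then `contn`, `mid`, `updU`, `mainJ` are the same for `R` and `R'` (they evaluate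
`Rf` only at members of `al`: `lowJ ⊆ al`; `mid` by induction on `k`; `mainJ`: the filtered sets are equal). Then induction on `n`: `sim N I n = sim N I' n`. `n = 0`: `e`, `b` equal; `u`:
`alv I 0 _ = al N I 0 = al N I' 0`. Step: `serve` and `updB` depend on `al n` and `sim n`; `updU` on `al (n+1)` (`= alv I (n+1) (sim (n+1)).e`), where the `e`-component of `sim (n+1)` is already
known to be equal. The second part: `eu (n+1)` is `serve` of the data at `n`. -/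
def T_LOC : Prop := ∀ (N : ℕ) (I I' : DI) (n : ℕ), (∀ t ≤ n, al N I t = al N I' t) →
  (∀ t ≤ n, ∀ j ∈ al N I t, I.R j = I'.R j) →
  sim N I n = sim N I' n ∧ ∀ j, eu N I (n + 1) j = eu N I' (n + 1) j

/-- STR-NCL (uses T_LIN, T_FEA, T_LOC). PROOF. `feas`: T_FEA. `caus`: let `δ = del > 0`, `I`, `I'` with the same information before `t`. For every `n` with `n δ < t`: `al N (di I) n = al N (di I') n`:
`j ∈ al N (di I) n` iff `j ∈ jobs`, `⌈r j/δ⌉₊ ≤ n`, `eu n j < ⌈p j/w⌉₊`; the second condition is `r j ≤ n δ` (`Nat.ceil_le`; `< t`), the third one is `eu n j < p j/w` (`Nat.lt_ceil`), i.e.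
`¬ p j ≤ W j (n δ)` since `W j (n δ) = w eu n j` (T_LIN (1)). By `SameInfo` (with `τ = n δ < t`; the released jobs and their release times agree) the three conditions agree for `I` and `I'`.
Also `R j = R' j` for `j ∈ al` (`r j < t`). T_LOC: `eu` agrees at `n` and at `n + 1`, for all `n` with `n δ < t` (`sim` equal gives `eu n` equal). Let `τ ≤ t`. If `τ ≤ 0`: `lin = f 0 = 0` for both
(`max (τ/δ) 0 = 0`). Otherwise let `n = ⌈τ/δ⌉₊ - 1`: `n < τ/δ ≤ n + 1`, `n δ < τ ≤ t`, T_LIN (6). -/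
def T_NCL : Prop := ∀ (N : ℕ) (s w : ℝ), 1 ≤ N → 0 < s → 0 < w → NonClair s (alg N s w)

/-! ## The bound for fixed unit -/

/-- STR-DOK. PROOF. `q j = ⌈p j/w⌉₊ ≥ p j / w ≥ N²`. -/
def T_DOK : Prop := ∀ (N : ℕ) (s w : ℝ) (I : Inst), 0 < w → (∀ j ∈ I.jobs, (N : ℝ) * N * w ≤ I.p j) → Ok N (di N s w I)

/-- STR-DLV (uses T_DOK). PROOF. If `jobs` is empty take `k0 = L = 0`. Otherwise `k0` = least level, `k1` = largest level (attained by `i` and `j`), `L = k1 - k0 + 1`. If `k1 = k0`: `L = 1`. Otherwise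
`q j > ell (k1 - 1)` (`ell_lt_q`), `q i ≤ ell k0` (`q_le_ell`), so `2^(k1-1-k0) < q j / q i` (`ell (k0 + m) = 2^m ell k0`). `q j ≤ p j/w + 1 ≤ 2 p j/w`, `q i ≥ p i/w`, `p j ≤ P p i`: `q j/q i ≤ 2 P`.
So `2^(L-2) < 2P`, `L < 3 + log P / log 2 ≤ 3 (1 + log P)` (`Real.log_two_gt_d9`; `P ≥ 1` since `p i ≤ P p i`). -/
def T_DLV : Prop := ∀ (N : ℕ) (s w P : ℝ) (I : Inst), 8 ≤ N → 0 < s → 0 < w → (∀ j ∈ I.jobs, (N : ℝ) * N * w ≤ I.p j) →
  1 ≤ P → (∀ i ∈ I.jobs, ∀ j ∈ I.jobs, I.p j ≤ P * I.p i) →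
  ∃ k0 L : ℕ, Lv N (di N s w I) k0 L ∧ (L : ℝ) ≤ 3 * (1 + Real.log P)

/-- STR-OPD (uses T_DOK). PROOF. `δ = N w/s`, `D j = d j/δ + 1`, `R j = ⌈r j/δ⌉₊ < r j/δ + 1`. `d j > r j` (at least `≥`: `V j (d j) ≥ p j > 0 = V j (r j)` and monotonicity), more precisely
`p j ≤ V j (d j) - V j (r j) ≤ d j - r j` (`speed`, all terms `≥ 0` by `mono`). rel: `R j ≤ r j/δ + 1 ≤ D j`. work: let `S ⊆ jobs`, `a ≤ R j`, `D j ≤ T` for `j ∈ S`. Then
`r j ≥ (a-1) δ` (`a ≤ ⌈r j/δ⌉₊ < r j/δ + 1`), so `V j ((a-1)δ) = 0`, and `d j ≤ (T-1) δ`, so `V j ((T-1)δ) ≥ p j`. `speed` on `[(a-1)δ, (T-1)δ]`: `∑_S p j ≤ (T-a) δ` (the other terms are `≥ 0`).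
`q j ≤ p j/w + 1 ≤ (1 + 1/N²) p j/w` (`p j/w ≥ N²`). So `∑ q ≤ (1+1/N²)(T-a) N/s ≤ (N-4)(T-a)` by the hypothesis on `s`. Cost: `N (D j - R j)/q j ≤ N ((d j - r j)/δ + 1)/(p j/w)
= s (d j - r j)/p j + N w/p j ≤ (s+1)(d j - r j)/p j` (`D j - R j ≤ (d j - r j)/δ + 1`, `N w ≤ p j ≤ d j - r j`). -/
def T_OPD : Prop := ∀ (N : ℕ) (s w : ℝ) (I : Inst), 8 ≤ N → 0 < s → 0 < w → (∀ j ∈ I.jobs, (N : ℝ) * N * w ≤ I.p j) →
  (1 + 1 / ((N : ℝ) * N)) * N ≤ ((N : ℝ) - 4) * s →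
  ∀ (V : ℕ → ℝ → ℝ) (d : ℕ → ℝ), Feasible I 1 V → (∀ j ∈ I.jobs, I.p j ≤ V j (d j)) →
  Opt N (di N s w I) (fun j => d j / del N s w + 1) ∧
  OO N (di N s w I) (fun j => d j / del N s w + 1) ≤ (s + 1) * str I d

/-- STR-RB (uses T_DISC, T_DOK, T_DLV, T_OPD, T_LIN, T_ON; T_J1 for the completion). PROOF. `I' = di N s w I`, `δ = N w/s`, `c j = cmp j * δ` (`cmp` for `I'`). `alg j (c j) = w eu (cmp j) j ≥ w q j ≥ p j` (T_LIN (1), T_J1:
`q j ≤ eu (cmp j) j`). `r j ≤ R j δ ≤ c j` (`Nat.le_ceil`, T_J1). Given `V, d`: T_DLV, T_OPD, T_DISC: `∑ N (cmp j - R j)/q j ≤ CD L OO ≤ CD * 3 (1 + log P)(s+1) str I d`. And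
`(c j - r j)/p j ≤ ((cmp j - R j) δ + δ)/p j` (`R j δ < r j + δ`), `δ/p j = N w/(s p j)`, `p j ≥ w (q j - 1) ≥ w q j/2`, so `(cmp j - R j) δ/p j ≤ (2/s) N (cmp j - R j)/q j ≤ 2 N (cmp j - R j)/q j` (`s ≥ 1`), and
`δ/p j ≤ N w/p j ≤ 1/N ≤ 1`. Sum: `str I c ≤ 2 ∑ + #jobs ≤ (6 CD (1+log P)(s+1)) str I d + OO`, (T_ON: `#jobs ≤ OO ≤ (s+1) str I d`), and `(s+1) ≤ (s+1)(1+log P)`. (`CD ≥ 0`, `str I d ≥ 0`.) -/
def T_RB : Prop := ∀ (N : ℕ) (s w P : ℝ) (I : Inst), 8 ≤ N → 1 ≤ s → 0 < w → (∀ j ∈ I.jobs, (N : ℝ) * N * w ≤ I.p j) →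
  (1 + 1 / ((N : ℝ) * N)) * N ≤ ((N : ℝ) - 4) * s → 1 ≤ P → (∀ i ∈ I.jobs, ∀ j ∈ I.jobs, I.p j ≤ P * I.p i) →
  ∃ c : ℕ → ℝ, (∀ j ∈ I.jobs, I.r j ≤ c j ∧ I.p j ≤ alg N s w I j (c j)) ∧
    ∀ (V : ℕ → ℝ → ℝ) (d : ℕ → ℝ), Feasible I 1 V → (∀ j ∈ I.jobs, I.p j ≤ V j (d j)) →
      str I c ≤ (6 * CD N + 1) * (s + 1) * (1 + Real.log P) * str I d

/-! ## Limits -/

/-- STR-ULM. Ultrafilter limits. PROOF. (1) `f` has values in the compact set `[a, b]`, so the ultrafilter `map f` of `hyperfilter ℕ` converges (`IsCompact.ultrafilter_le_nhds`), and `limUnder` is the limit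
(`Tendsto.limUnder_eq`, `tendsto_nhds_limUnder`). (2) follows. (3) `ge_of_tendsto`/`le_of_tendsto` and `hyperfilter ≤ cofinite` (`hyperfilter_le_cofinite`, `Nat.cofinite_eq_atTop`; an eventual property
`∀ m ≥ m0` holds on the hyperfilter: `Nat.hyperfilter_le_atTop`). -/
def T_ULM : Prop :=
  (∀ (f : ℕ → ℝ) (a b : ℝ), (∀ m, a ≤ f m ∧ f m ≤ b) →
    Tendsto f ((hyperfilter ℕ : Ultrafilter ℕ) : Filter ℕ) (𝓝 (ulim f))) ∧
  (∀ (f : ℕ → ℝ) (a b : ℝ), (∀ m, a ≤ f m ∧ f m ≤ b) → a ≤ ulim f ∧ ulim f ≤ b) ∧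
  (∀ p : ℕ → Prop, (∃ m0, ∀ m, m0 ≤ m → p m) → ∀ᶠ m in ((hyperfilter ℕ : Ultrafilter ℕ) : Filter ℕ), p m)

/-- STR-LF (uses T_ULM). PROOF. For a feasible `W` of speed `s`: `0 ≤ W j t' - W j t ≤ s (t'-t)` for `t ≤ t'` (the other terms of the sum are `≥ 0`), and `0 ≤ W j t ≤ s (max t (r j) - r j)` (compare with the time
`r j`, or `W j t = 0`). So `m ↦ A m I j t` is bounded and converges along the hyperfilter (T_ULM (1)) to `B I j t`. All conditions of `Feasible` pass to the limit (`le_of_tendsto_of_tendsto`, `tendsto_finset_sum`). (3): if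
`τ m → τ` then `|A m I j (τ m) - A m I j τ| ≤ s |τ m - τ| → 0`. -/
def T_LF : Prop := ∀ (s : ℝ), 0 < s → ∀ A : ℕ → Inst → ℕ → ℝ → ℝ, (∀ m, NonClair s (A m)) →
  (∀ I, Feasible I s (fun j t => ulim fun m => A m I j t)) ∧
  (∀ I, ∀ j ∈ I.jobs, ∀ (τ : ℕ → ℝ) (τ0 : ℝ), Tendsto τ ((hyperfilter ℕ : Ultrafilter ℕ) : Filter ℕ) (𝓝 τ0) →
    Tendsto (fun m => A m I j (τ m)) ((hyperfilter ℕ : Ultrafilter ℕ) : Filter ℕ) (𝓝 (ulim fun m => A m I j τ0)))

/-- STR-LC (uses T_ULM, T_LF). Causality of the limit. PROOF. Let `B I j t = ulim (A m I j t)`, `SameInfo I I' (B I) (B I') t`, `j0 ∈ jobs`, `r j0 < t`. It suffices to show `B I j0 τ = B I' j0 τ` for `τ < t` (for `τ = t` both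
are continuous: limit of Lipschitz functions, or use T_LF (2) with constant sequences and `|B I j0 t - B I j0 τ| ≤ s (t-τ)`); also `τ` may be assumed `≥` all the `r j < t` (otherwise take a larger `τ' < t`: we show that the works
agree on all of `(-∞, τ']`). Let `S` = the jobs with `r j < t`, the same for `I` and `I'`. For each `m` let `D m` be the set of the `τ' ≤ τ` for which some `j ∈ S` has `¬ (p j ≤ A m I j τ' ↔ p' j ≤ A m I' j τ')`.
If `D m = ∅` for `U`-many `m`: for these `SameInfo I I' (A m I) (A m I') τ1` with `τ1 = τ` (restricted to the jobs with `r < τ`), so by `caus` `A m I j0 τ = A m I' j0 τ`, and the limits agree. Otherwise (ultrafilter) `D m ≠ ∅` for `U`-many `m`;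
`D m` is bounded below by `0` (for `τ' < 0` no job is completed since `W = 0 < p`); let `σ m = sInf (D m) ∈ [0, τ]`. By `caus` for the time `σ m` (the statuses agree at all times `< σ m`): `A m I j = A m I' j` on `(-∞, σ m]` for `j ∈ S` (for `j` with
`r j ≥ σ m` both are `0` there). There are `τ' ∈ D m` arbitrarily close to `σ m` (`≥ σ m`), so some `j ∈ S` and one of the instances, say `I` (case 1), has: `p j ≤ A m I j τ'`, `A m I' j τ' < p' j` for `τ'` arbitrarily close to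
`σ m`; (finitely many `j`, two cases: choose one for each `m`, and then, `U` being an ultrafilter and the choices finite, the same `j` and case for `U`-many `m`). By continuity `p j ≤ A m I j (σ m) = A m I' j (σ m) ≤ p' j`.
`p j ≠ p' j`: otherwise `A m I' j (σ m) ≥ p' j` and monotonicity contradicts `A m I' j τ' < p' j`. So `p j < p' j`. Also `A m I j (σ m) ≤ p j`: for `τ'' < σ m` not completed in `I` (otherwise completed in `I'` at `τ''`, hence at `τ'`), continuity.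
So `A m I j (σ m) = p j`. Let `σ = ulim σ` (bounded), `σ ≤ τ < t`. T_LF (2): `B I j σ = p j = B I' j σ`. So `j` is completed in `B I` at time `σ < t` but not in `B I'` (`p j < p' j`), against `SameInfo`. Case 2 is symmetric. -/
def T_LC : Prop := ∀ (s : ℝ), 0 < s → ∀ A : ℕ → Inst → ℕ → ℝ → ℝ, (∀ m, NonClair s (A m)) →
  NonClair s (fun I j t => ulim fun m => A m I j t)

/-- STR-LB (uses T_ULM, T_LF). The bound for the limit. PROOF. Fix `I`, take `b0 ∈ Bd`. For `m ≥ m0` let `c m` be the completion times (`Classical.choose`; `c m = r` for smaller `m`): `str I (c m) ≤ b0`, all terms are `≥ 0`, so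
`r j ≤ c m j ≤ r j + b0 p j`. Let `c' j = ulim (c m j)`. T_LF (2): `B j (c' j) = lim A m I j (c m j) ≥ p j`. `str I c' = lim str I (c m) ≤ b` for all `b ∈ Bd`. The set `{t | p j ≤ B j t}` is closed (continuity), contains `c' j`, bounded below by
`r j` (`B j t = 0 < p j` for `t ≤ r j`), so it has a least element `c j` (`IsClosed.csInf_mem`), `c j ≤ c' j`, `str I c ≤ str I c'`. For `j ∉ jobs` let `c j = 0`. -/
def T_LB : Prop := ∀ (s : ℝ), 0 < s → ∀ A : ℕ → Inst → ℕ → ℝ → ℝ, (∀ m, NonClair s (A m)) →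
  ∀ (I : Inst) (Bd : Set ℝ), Bd.Nonempty →
  (∃ m0, ∀ m, m0 ≤ m → ∃ c : ℕ → ℝ, (∀ j ∈ I.jobs, I.r j ≤ c j ∧ I.p j ≤ A m I j (c j)) ∧ ∀ b ∈ Bd, str I c ≤ b) →
  ∃ c : ℕ → ℝ, (∀ j ∈ I.jobs, IsLeast {t | I.p j ≤ ulim fun m => A m I j t} (c j)) ∧ ∀ b ∈ Bd, str I c ≤ b

/-- STR-EX. Every instance has a feasible schedule of speed `1` which completes all jobs. PROOF. `n = #jobs + 1`, `V j t = max (t - r j) 0 / n`, `d j = r j + n p j`. -/
def T_EX : Prop := ∀ I : Inst, ∃ (V : ℕ → ℝ → ℝ) (d : ℕ → ℝ), Feasible I 1 V ∧ ∀ j ∈ I.jobs, I.p j ≤ V j (d j)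

/-- STR-MAIN (uses T_NCL, T_RB, T_LC, T_LB, T_EX). PROOF. Let `s = 1 + ε`, choose `N ≥ 8` with `N ≥ 4 + 5/ε`: `(1 + 1/N²) N = N + 1/N ≤ N + 1 ≤ (N-4)(1+ε)` (`ε (N-4) ≥ 5`). `w m = 1/(m+1)`, `A m = alg N s (w m)`, `C = (6 CD + 1)(s+1)`. T_NCL, T_LC give the algorithm. For
an instance `I` and `P` with `p j ≤ P p i`: if `jobs` is empty take `c = 0`, both sums are `0`. Otherwise `P ≥ 1`. `Bd` = the set of the numbers `C (1 + log P) str I d`, `(V, d)` as in the statement; nonempty by T_EX. For large `m`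
`N² w m ≤ p j` for all `j` (finitely many). T_RB, T_LB. -/
def T_MAIN : Prop := ∀ ε : ℝ, 0 < ε → ∃ (C : ℝ) (A : Inst → ℕ → ℝ → ℝ), NonClair (1 + ε) A ∧
  ∀ (I : Inst) (P : ℝ), (∀ i ∈ I.jobs, ∀ j ∈ I.jobs, I.p j ≤ P * I.p i) →
    ∃ c : ℕ → ℝ, (∀ j ∈ I.jobs, IsLeast {t | I.p j ≤ A I j t} (c j)) ∧
      ∀ (V : ℕ → ℝ → ℝ) (d : ℕ → ℝ), Feasible I 1 V → (∀ j ∈ I.jobs, I.p j ≤ V j (d j)) →
        ∑ j ∈ I.jobs, (c j - I.r j) / I.p j ≤ C * (1 + Real.log P) * ∑ j ∈ I.jobs, (d j - I.r j) / I.p j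

end STR
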