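import Pool.Agent.STR.TargetsAna
import Pool.Agent.STR.TargetsOpt
import Pool.Agent.STR.TargetsReal

set_option autoImplicit false

/-!
# STR-RB: the bound for a fixed unit
-/

namespace STR

namespace RB_

theorem CD_nonneg (N : ℕ) : 0 ≤ CD N := by
  unfold CD C1 Cs
  positivity

theorem del_pos {N : ℕ} {s w : ℝ} (hN : 8 ≤ N) (hs : 1 ≤ s) (hw : 0 < w) : 0 < del N s w := by
  unfold del
  have h1 : (0 : ℝ) < N := by
    have : 0 < N := by omega
    exact_mod_cast this
  have h2 : 0 < s := by linarith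
  positivity

/-- cost of one job -/
theorem one {N : ℕ} {s w : ℝ} (hN : 8 ≤ N) (hs : 1 ≤ s) (hw : 0 < w) {p r : ℝ} {q R c : ℕ}
    (hp : (N : ℝ) * N * w ≤ p) (hq0 : (q : ℝ) < p / w + 1) (hqpos : 0 < q)
    (hR : (R : ℝ) < r / del N s w + 1) (hRc : R ≤ c) :
    (c * del N s w - r) / p ≤ 2 * ((N : ℝ) * ((c : ℝ) - R) / q) + 1 := by
  have hδ := del_pos hN hs hw
  have hN' : (8 : ℝ) ≤ N := by exact_mod_cast hN
  have hs' : 0 < s := by linarith
  have hp0 : 0 < p := by
    have h1 : 0 < (N : ℝ) * N * w := by positivity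
    linarith
  have hδle : del N s w ≤ (N : ℝ) * w := by
    unfold del
    rw [div_le_iff₀ hs']
    have : 0 ≤ (N : ℝ) * w := by positivity
    nlinarith
  have hδp : del N s w ≤ p := by
    have h1 : (N : ℝ) * w ≤ (N : ℝ) * N * w := by
      have h2 : 0 ≤ (N : ℝ) * w := by positivity
      nlinarith
    linarith
  have hq' : (0 : ℝ) < q := by exact_mod_cast hqpos
  have hcR : (0 : ℝ) ≤ (c : ℝ) - R := by
    have : (R : ℝ) ≤ c := by exact_mod_cast hRc
    linarith
  -- `R δ < r + δ`
  have h3 : (R : ℝ) * del N s w < r + del N s w := by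
    have h4 := mul_lt_mul_of_pos_right hR hδ
    have h5 : (r / del N s w + 1) * del N s w = r + del N s w := by field_simp
    linarith
  have h6 : c * del N s w - r ≤ ((c : ℝ) - R) * del N s w + del N s w := by
    have h7 : ((c : ℝ) - R) * del N s w = c * del N s w - R * del N s w := by ring
    linarith
  -- `δ q ≤ 2 N p`
  have h8 : del N s w * q ≤ 2 * N * p := by
    have h9 : p / w + 1 ≤ 2 * (p / w) := by
      have h10 : 1 ≤ p / w := by
        rw [le_div_iff₀ hw, one_mul]
        have h11 : w ≤ (N : ℝ) * N * w := by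
          have h12 : (1 : ℝ) ≤ (N : ℝ) * N := by nlinarith
          nlinarith
        linarith
      linarith
    have h13 : (q : ℝ) ≤ 2 * (p / w) := by linarith
    calc del N s w * q ≤ (N : ℝ) * w * (2 * (p / w)) :=
          mul_le_mul hδle h13 hq'.le (by positivity)
      _ = 2 * N * p := by field_simp
  have h14 : ((c : ℝ) - R) * del N s w / p ≤ 2 * ((N : ℝ) * ((c : ℝ) - R) / q) := by
    have h15 : 2 * ((N : ℝ) * ((c : ℝ) - R) / q) = ((c : ℝ) - R) * (2 * N) / q := by ring
    rw [h15, div_le_div_iff₀ hp0 hq']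
    calc ((c : ℝ) - R) * del N s w * q = ((c : ℝ) - R) * (del N s w * q) := by ring
      _ ≤ ((c : ℝ) - R) * (2 * N * p) := mul_le_mul_of_nonneg_left h8 hcR
      _ = ((c : ℝ) - R) * (2 * N) * p := by ring
  have h16 : del N s w / p ≤ 1 := by
    rw [div_le_one hp0]
    exact hδp
  calc (c * del N s w - r) / p ≤ (((c : ℝ) - R) * del N s w + del N s w) / p :=
        div_le_div_of_nonneg_right h6 hp0.le
    _ = ((c : ℝ) - R) * del N s w / p + del N s w / p := add_div _ _ _
    _ ≤ 2 * ((N : ℝ) * ((c : ℝ) - R) / q) + 1 := add_le_add h14 h16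

end RB_

open RB_

theorem p_RB (hDISC : T_DISC) (hDOK : T_DOK) (hDLV : T_DLV) (hOPD : T_OPD) (hLIN : T_LIN)
    (hON : T_ON) (hJ1 : T_J1) : T_RB := by
  intro N s w P I hN hs hw hp hNs hP hPp
  have hOk : Ok N (di N s w I) := hDOK N s w I hw hp
  have hδ : 0 < del N s w := del_pos hN hs hw
  have hs0 : 0 < s := by linarith
  have hr : ∀ j ∈ I.jobs, I.r j / del N s w ≤ ((di N s w I).R j : ℝ) := fun j _ => Nat.le_ceil _
  have hr2 : ∀ j ∈ I.jobs, ((di N s w I).R j : ℝ) < I.r j / del N s w + 1 := fun j hj =>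
    Nat.ceil_lt_add_one (div_nonneg (I.r_nonneg j hj) hδ.le)
  have hq : ∀ j, I.p j / w ≤ ((di N s w I).q j : ℝ) := fun j => Nat.le_ceil _
  have hq2 : ∀ j ∈ I.jobs, ((di N s w I).q j : ℝ) < I.p j / w + 1 := fun j hj =>
    Nat.ceil_lt_add_one (div_nonneg (I.p_pos j hj).le hw.le)
  have hqpos : ∀ j ∈ I.jobs, 0 < (di N s w I).q j := by
    intro j hj
    have h1 := hOk j hj
    have h2 : 0 < N * N := Nat.mul_pos (by omega) (by omega)
    omega
  refine ⟨fun j => (cmp N (di N s w I) j : ℝ) * del N s w, ?_, ?_⟩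
  · intro j hj
    obtain ⟨h1, h2, _⟩ := hJ1 N (di N s w I) hN hOk j hj
    constructor
    · have h3 := hr j hj
      rw [div_le_iff₀ hδ] at h3
      refine h3.trans (mul_le_mul_of_nonneg_right ?_ hδ.le)
      exact_mod_cast h2
    · unfold alg
      have h3 : (cmp N (di N s w I) j : ℝ) * del N s w / del N s w =
          (cmp N (di N s w I) j : ℝ) := by field_simp
      show I.p j ≤ w * lin (fun n => (eu N (di N s w I) n j : ℝ))
        ((cmp N (di N s w I) j : ℝ) * del N s w / del N s w)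
      rw [h3, hLIN.1]
      have h4 : ((di N s w I).q j : ℝ) ≤ (eu N (di N s w I) (cmp N (di N s w I) j) j : ℝ) := by
        exact_mod_cast h1
      have h5 := (hq j).trans h4
      rw [div_le_iff₀ hw] at h5
      linarith
  · intro V d hV hd
    obtain ⟨hOpt, hOO⟩ := hOPD N s w I hN hs0 hw hp hNs V d hV hd
    obtain ⟨k0, L, hLv, hL⟩ := hDLV N s w P I hN hs0 hw hp hP hPp
    have hD := hDISC N (di N s w I) _ hN hOk hOpt k0 L hLv
    obtain ⟨_, hcard⟩ := hON N (di N s w I) _ hN hOk hOpt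
    set OOv := OO N (di N s w I) (fun j => d j / del N s w + 1) with hOOv
    have hOO0 : 0 ≤ OOv := le_trans (Nat.cast_nonneg _) hcard
    have hlog : 0 ≤ Real.log P := Real.log_nonneg hP
    have hCD := CD_nonneg N
    have h1 : str I (fun j => (cmp N (di N s w I) j : ℝ) * del N s w) ≤
        2 * (∑ i ∈ (di N s w I).J, (N : ℝ) * ((cmp N (di N s w I) i : ℝ) -
          (di N s w I).R i) / (di N s w I).q i) + ((di N s w I).J.card : ℝ) := by
      unfold str
      have hJ : (di N s w I).J = I.jobs := rfl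
      rw [hJ, Finset.mul_sum]
      have hc : (I.jobs.card : ℝ) = ∑ j ∈ I.jobs, (1 : ℝ) := by simp
      rw [hc, ← Finset.sum_add_distrib]
      apply Finset.sum_le_sum
      intro j hj
      obtain ⟨_, h2, _⟩ := hJ1 N (di N s w I) hN hOk j hj
      exact one hN hs hw (hp j hj) (hq2 j hj) (hqpos j hj) (hr2 j hj) h2
    have h2 : str I (fun j => (cmp N (di N s w I) j : ℝ) * del N s w) ≤
        (2 * (CD N * L) + 1) * OOv := by
      have h3 : 2 * (CD N * L * OOv) + OOv = (2 * (CD N * L) + 1) * OOv := by ring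
      linarith
    have h4 : (2 * (CD N * L) + 1) * OOv ≤ ((6 * CD N + 1) * (1 + Real.log P)) * OOv := by
      apply mul_le_mul_of_nonneg_right _ hOO0
      have h5 : CD N * L ≤ CD N * (3 * (1 + Real.log P)) := mul_le_mul_of_nonneg_left hL hCD
      nlinarith
    have h6 : ((6 * CD N + 1) * (1 + Real.log P)) * OOv ≤
        ((6 * CD N + 1) * (1 + Real.log P)) * ((s + 1) * str I d) := by
      apply mul_le_mul_of_nonneg_left hOO
      have : 0 ≤ 1 + Real.log P := by linarith
      positivity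
    calc str I (fun j => (cmp N (di N s w I) j : ℝ) * del N s w)
        ≤ ((6 * CD N + 1) * (1 + Real.log P)) * ((s + 1) * str I d) := h2.trans (h4.trans h6)
      _ = (6 * CD N + 1) * (s + 1) * (1 + Real.log P) * str I d := by ring

end STR
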