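import Pool.Agent.STR.TargetsOpt

set_option autoImplicit false

namespace STR

namespace RUN_

theorem lt_X (S : Finset ℕ) (t : ℕ) (ht : t ∈ S) : t < S.sup id + 1 :=
  Nat.lt_succ_of_le (Finset.le_sup (f := id) ht)

theorem X_notMem (S : Finset ℕ) : S.sup id + 1 ∉ S := fun h =>
  absurd (lt_X S _ h) (lt_irrefl _)

end RUN_

open RUN_

open Classical in
theorem p_RUN : T_RUN := by
  intro S
  refine ⟨((Finset.range (S.sup id + 2)) ×ˢ (Finset.range (S.sup id + 2))).filter
    (fun g => (∀ t, g.1 ≤ t → t < g.2 → t ∈ S) ∧ g.2 ∉ S ∧ (g.1 = 0 ∨ g.1 - 1 ∉ S)), ?_, ?_, ?_⟩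
  · intro g hg
    exact (Finset.mem_filter.mp hg).2.1
  · intro g hg g' hg' hsh
    obtain ⟨t, ⟨h1, h2⟩, h3, h4⟩ := hsh
    obtain ⟨-, ha, hb, hc⟩ := Finset.mem_filter.mp hg
    obtain ⟨-, ha', hb', hc'⟩ := Finset.mem_filter.mp hg'
    have e1 : g.1 = g'.1 := by
      rcases lt_trichotomy g.1 g'.1 with h | h | h
      · exfalso
        rcases hc' with h0 | h0
        · omega
        · exact h0 (ha _ (by omega) (by omega))
      · exact h
      · exfalso
        rcases hc with h0 | h0
        · omega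
        · exact h0 (ha' _ (by omega) (by omega))
    have e2 : g.2 = g'.2 := by
      rcases lt_trichotomy g.2 g'.2 with h | h | h
      · exact absurd (ha' _ (by omega) h) hb
      · exact h
      · exact absurd (ha _ (by omega) h) hb'
    exact Prod.ext e1 e2
  · intro l r hlr hS
    have hc : ∃ c, c ≤ l ∧ ∀ t, c ≤ t → t ≤ l → t ∈ S :=
      ⟨l, le_refl _, fun t h1 h2 => hS t h1 (lt_of_le_of_lt h2 hlr)⟩
    have hrX : r ≤ S.sup id + 1 := by
      have := lt_X S (r - 1) (hS _ (by omega) (by omega))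
      omega
    have hd : ∃ d, r ≤ d ∧ d ∉ S := ⟨S.sup id + 1, hrX, X_notMem S⟩
    have c1 := Nat.find_spec hc
    have d1 := Nat.find_spec hd
    have d2 : Nat.find hd ≤ S.sup id + 1 := Nat.find_min' hd ⟨hrX, X_notMem S⟩
    have hlX := lt_X S l (hS l (le_refl _) hlr)
    refine ⟨(Nat.find hc, Nat.find hd), ?_, c1.1, d1.1⟩
    refine Finset.mem_filter.mpr ⟨?_, ?_, d1.2, ?_⟩
    · refine Finset.mem_product.mpr ⟨Finset.mem_range.mpr ?_, Finset.mem_range.mpr ?_⟩
      · have := c1.1
        show Nat.find hc < S.sup id + 2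
        omega
      · show Nat.find hd < S.sup id + 2
        omega
    · intro t h1 h2
      rcases le_or_gt t l with h | h
      · exact c1.2 t h1 h
      · rcases lt_or_ge t r with h' | h'
        · exact hS t h.le h'
        · by_contra hn
          exact Nat.find_min hd h2 ⟨h', hn⟩
    · show Nat.find hc = 0 ∨ Nat.find hc - 1 ∉ S
      by_contra hn
      push Not at hn
      obtain ⟨h0, h1⟩ := hn
      refine Nat.find_min hc (m := Nat.find hc - 1) (by omega) ⟨?_, ?_⟩
      · have := c1.1
        omega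
      · intro t ht1 ht2
        rcases Nat.lt_or_ge t (Nat.find hc) with h | h
        · have : t = Nat.find hc - 1 := by omega
          rw [this]
          exact h1
        · exact c1.2 t h ht2

end STR
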