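import Pool.Agent.STR.TargetsAna
import Pool.Agent.STR.TargetsOpt
import Pool.Agent.STR.TargetsSim

/-!
# Project STR: T_SEP
-/

set_option autoImplicit false

namespace STR

namespace SEP_

theorem Vv_mono {N : ℕ} {I : DI} {k l a b : ℕ} (h : k ≤ l) : Vv N I k a b ≤ Vv N I l a b := by
  classical
  unfold Vv
  apply Finset.sum_le_sum_of_subset
  intro j hj
  rw [Finset.mem_filter] at hj ⊢
  exact ⟨hj.1, hj.2.1, hj.2.2.trans h⟩

theorem Ks_pos (N : ℕ) : 1 ≤ Ks N := by
  unfold Ks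
  omega

theorem M0_le {N : ℕ} (hN : 8 ≤ N) : 16 * Fc N * N ≤ M0 N := by
  unfold M0
  have h1 : Fc N ≤ FG N := by
    unfold FG
    have h2 : 1 ≤ 400 * (N * N) := by nlinarith
    exact Nat.le_mul_of_pos_left _ h2
  gcongr

theorem lt_pow (N : ℕ) : 64 * (3 * M0 N) < 2 ^ kap N := by
  have h1 : kap N < 2 ^ kap N := Nat.lt_two_pow_self
  have h2 : 64 * (3 * M0 N) ≤ kap N := by
    have h3 : kap N = 64 * (3 * M0 N) * Ks N := rfl
    rw [h3]
    exact Nat.le_mul_of_pos_right _ (Ks_pos N)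
  omega

end SEP_

theorem p_SEP (hGAM : T_GAM) (hBEM : T_BEM) (hF1 : T_F1) (hMASS : T_MASS) (hCAP : T_CAP) :
    T_SEP := by
  classical
  intro N I hN hOk k b x y hAb hbb hk hbx hxy hyg hAx hAy hbe hlen
  have hN1 : 1 ≤ N := by omega
  obtain ⟨k', hk'⟩ : ∃ k', k = k' + kap N := ⟨k - kap N, by omega⟩
  have hkk : k - kap N = k' := by omega
  rw [hkk] at hAx hAy hbe
  -- busy interval of level `k`
  obtain ⟨-, hg2, hg3⟩ := hGAM N I hN1 k b hAb
  rw [hbb] at hg3
  -- busy interval of level `k'`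
  obtain ⟨hx1, hx2, hx3⟩ := hGAM N I hN1 k' x hAx
  obtain ⟨g', hg'⟩ : ∃ g', g' = gam N I k' x := ⟨_, rfl⟩
  obtain ⟨b', hb'⟩ : ∃ b', b' = be N I k' x := ⟨_, rfl⟩
  obtain ⟨g, hg⟩ : ∃ g, g = gam N I k b := ⟨_, rfl⟩
  rw [← hg'] at hx1 hx2 hx3
  rw [← hb'] at hx3 hbe
  rw [← hg] at hg2 hg3 hyg hlen ⊢
  have hb'x : b' ≤ x := by
    rw [hb']
    exact (hBEM N I k' x).1
  have hsub : ∀ t, (Ak N I k' t).Nonempty → (Ak N I k t).Nonempty := fun t ht =>
    ht.mono (Ak_level N I (by omega))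
  have hyg' : y < g' := by
    by_contra hcon
    have hcon' : g' ≤ y := not_lt.1 hcon
    have h1 : (Ak N I k' g').Nonempty := by
      rcases Nat.eq_or_lt_of_le hcon' with h | h
      · rw [h]
        exact hAy
      · exact (hBEM N I k' y).2.2.1 g' (by rw [← hbe]; omega) h
    rw [hx2] at h1
    exact Finset.not_nonempty_empty h1
  have hgg : g' ≤ g := by
    by_contra hcon
    have h1 := hsub g (hx3 g (by omega) (by omega)).1
    rw [hg2] at h1
    exact Finset.not_nonempty_empty h1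
  have hbb' : b ≤ b' := by
    by_contra hcon
    have h1 := hsub (b - 1) (hx3 (b - 1) (by omega) (by omega)).1
    rcases (hBEM N I k b).2.2.2.1 with h2 | h2
    · omega
    · rw [hbb] at h2
      rw [h2] at h1
      exact Finset.not_nonempty_empty h1
  -- T_F1
  obtain ⟨p, q, hp1, hpq, hq1, hW⟩ := hF1 N I hN hOk k' b' g' (by omega)
    (hx3 b' le_rfl (by omega)).2.1 (fun t h1 h2 => (hx3 t h1 h2).1)
  have hM0 := SEP_.lt_pow N
  have hmass := hMASS N I hN hOk (Fc N) 16 1 (kap N) 0 (M0 N) k' p q b' g' b' g' (g' - b') hpq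
    (by omega) le_rfl (SEP_.M0_le hN) (by omega) hW hp1 hq1 le_rfl hp1 hq1 (by simp)
  have hg3l : g - b ≤ 3 * (g' - b') := by omega
  have hMc : Mc N = 3 * M0 N := rfl
  rcases hmass with h1 | h1 | h1
  · refine ⟨p, q, by omega, hpq, by omega, ?_⟩
    rw [← hk'] at h1
    have h2 : Vv N I k p q ≤ Vv N I (k + kap N) p q := SEP_.Vv_mono (by omega)
    rw [hMc]
    calc 3 * M0 N * ((N - 4) * (q - p)) + (g - b)
        ≤ 3 * M0 N * ((N - 4) * (q - p)) + 3 * (g' - b') := by omega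
      _ = 3 * (M0 N * ((N - 4) * (q - p)) + (g' - b')) := by ring
      _ ≤ 3 * (M0 N * Vv N I k p q) := Nat.mul_le_mul_left _ h1
      _ = 3 * M0 N * Vv N I k p q := by ring
      _ ≤ 3 * M0 N * Vv N I (k + kap N) p q := Nat.mul_le_mul_left _ h2
  · exfalso
    have h2 : (I.J.filter fun i => (p ≤ I.R i ∧ I.R i < q) ∧
        (k' + kap N < lev N I i ∧ lev N I i ≤ k' + kap N + 0) ∧
          dens N I 16 (lev N I i) b' g') = ∅ := by
      apply Finset.filter_false_of_mem
      intro i _ h3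
      omega
    rw [h2, Finset.card_empty, mul_zero] at h1
    omega
  · exfalso
    obtain ⟨c, hc⟩ : ∃ c, c = (I.J.filter fun j => (b ≤ I.R j ∧ I.R j < g) ∧
      k < lev N I j).card := ⟨_, rfl⟩
    have h2 : (I.J.filter fun i => (p ≤ I.R i ∧ I.R i < q) ∧ k' + kap N + 0 < lev N I i ∧
        dens N I 16 (lev N I i) b' g').card ≤ c := by
      rw [hc]
      apply Finset.card_le_card
      intro i hi
      rw [Finset.mem_filter] at hi ⊢
      refine ⟨hi.1, ⟨by omega, by omega⟩, by omega⟩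
    have h3 : g' - b' ≤ M0 N * lam N k' * c := h1.trans (Nat.mul_le_mul_left _ h2)
    have h4 := hCAP N I hN1 k b g (by omega) hg2
    rw [← hc] at h4
    have h5 : c * lam N k ≤ g - b := by
      have h6 : N * (c * lam N k) ≤ N * (g - b) := by
        have h7 : c * ell N k = N * (c * lam N k) := by
          unfold ell
          ring
        rw [← h7]
        exact h4
      exact Nat.le_of_mul_le_mul_left h6 (by omega)
    have h6 : lam N k = 2 ^ kap N * lam N k' := by
      rw [hk', lam_add]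
    rw [h6] at h5
    have h7 : 2 ^ kap N * (lam N k' * c) ≤ 3 * M0 N * (lam N k' * c) := by
      calc 2 ^ kap N * (lam N k' * c) = c * (2 ^ kap N * lam N k') := by ring
        _ ≤ g - b := h5
        _ ≤ 3 * (g' - b') := hg3l
        _ ≤ 3 * (M0 N * lam N k' * c) := Nat.mul_le_mul_left _ h3
        _ = 3 * M0 N * (lam N k' * c) := by ring
    have h8 : 0 < lam N k' * c := by
      by_contra hcon
      have h9 : lam N k' * c = 0 := by omega
      rw [mul_assoc, h9, mul_zero] at h3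
      omega
    have h9 : 2 ^ kap N ≤ 3 * M0 N := Nat.le_of_mul_le_mul_right h7 h8
    omega

end STR
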