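import Pool.Agent.STR.TargetsAna
import Pool.Agent.STR.TargetsOpt

/-!
# STR-SH: sum of the squares of the long end chains
-/

set_option autoImplicit false

namespace STR

namespace SH_

theorem sq_pow (g : ℕ) : (g + 1) ^ 2 ≤ 4 * 2 ^ g := by
  induction g with
  | zero => norm_num
  | succ g ih =>
    rcases Nat.lt_or_ge g 2 with h | h
    · interval_cases g <;> norm_num
    · have h1 : (g + 1 + 1) ^ 2 ≤ 2 * (g + 1) ^ 2 := by nlinarith
      calc (g + 1 + 1) ^ 2 ≤ 2 * (g + 1) ^ 2 := h1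
        _ ≤ 2 * (4 * 2 ^ g) := by gcongr
        _ = 4 * 2 ^ (g + 1) := by ring

theorem pow_clog {L : ℕ} (hL : 1 ≤ L) : 2 ^ Nat.clog 2 L ≤ 2 * L := by
  rcases Nat.lt_or_ge 1 L with h | h
  · have h1 : 2 ^ (Nat.clog 2 L).pred < L := Nat.pow_pred_clog_lt_self (by norm_num) h
    have h2 : 0 < Nat.clog 2 L := Nat.clog_pos (by norm_num) h
    obtain ⟨m, hm⟩ : ∃ m, Nat.clog 2 L = m + 1 := ⟨Nat.clog 2 L - 1, by omega⟩
    rw [hm] at h1 ⊢
    rw [Nat.pred_succ] at h1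
    rw [pow_succ]
    omega
  · have h1 : L = 1 := by omega
    rw [h1]
    simp

theorem split4 {α : Type} (F : Finset α) (f : α → ℝ) (hf : ∀ x, 0 ≤ f x) (P1 P2 P3 P4 : α → Prop)
    [DecidablePred P1] [DecidablePred P2] [DecidablePred P3] [DecidablePred P4]
    (h : ∀ x ∈ F, P1 x ∨ P2 x ∨ P3 x ∨ P4 x) :
    ∑ x ∈ F, f x ≤ ∑ x ∈ F.filter P1, f x + ∑ x ∈ F.filter P2, f x + ∑ x ∈ F.filter P3, f x +
      ∑ x ∈ F.filter P4, f x := by
  rw [Finset.sum_filter, Finset.sum_filter, Finset.sum_filter, Finset.sum_filter,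
    ← Finset.sum_add_distrib, ← Finset.sum_add_distrib, ← Finset.sum_add_distrib]
  refine Finset.sum_le_sum fun x hx => ?_
  have h0 := hf x
  have h1 : ∀ (p : Prop) [Decidable p], 0 ≤ (if p then f x else 0) := by
    intro p _
    split_ifs
    · exact h0
    · exact le_rfl
  have a1 := h1 (P1 x)
  have a2 := h1 (P2 x)
  have a3 := h1 (P3 x)
  have a4 := h1 (P4 x)
  rcases h x hx with h2 | h2 | h2 | h2
  · rw [if_pos h2] at a1 ⊢; linarith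
  · rw [if_pos h2] at a2 ⊢; linarith
  · rw [if_pos h2] at a3 ⊢; linarith
  · rw [if_pos h2] at a4 ⊢; linarith

theorem kap_pos {N : ℕ} (hN : 1 ≤ N) : 1 ≤ kap N := by
  unfold kap Mc M0 FG Fc Ks
  have h1 : 0 < N := hN
  have h2 : 0 < Rc N + 1 := Nat.succ_pos _
  have : 0 < 64 * (3 * (16 * (400 * (N * N) * (N * N * (Rc N + 1))) * N)) *
    (128 * (Rc N + 1)) := by positivity
  exact this

theorem Cs_ge {N : ℕ} (hN : 8 ≤ N) : 20 * (Mc N : ℝ) ^ 2 ≤ Cs N := by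
  unfold Cs
  have h1 : (8 : ℝ) ≤ N := by exact_mod_cast hN
  have h2 : (1 : ℝ) ≤ 2 ^ kap N := one_le_pow₀ (by norm_num)
  have h3 : (0 : ℝ) ≤ Mc N := Nat.cast_nonneg _
  have h4 : (Mc N : ℝ) ≤ (Mc N : ℝ) * N * 2 ^ kap N := by
    have h5 : (1 : ℝ) ≤ N * 2 ^ kap N := by nlinarith
    calc (Mc N : ℝ) = (Mc N : ℝ) * 1 := by ring
      _ ≤ (Mc N : ℝ) * (N * 2 ^ kap N) := by gcongr
      _ = _ := by ring
  have h6 : (Mc N : ℝ) ^ 2 ≤ ((Mc N : ℝ) * N * 2 ^ kap N) ^ 2 := by gcongr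
  have h7 : 0 ≤ (Mc N : ℝ) ^ 2 := by positivity
  linarith

end SH_

open SH_ in
theorem p_SH (hES : T_ES) (hES1 : T_ES1) (hCS : T_CS) (hES3 : T_ES3) (hES4 : T_ES4)
    (hPR : T_PR) (hECB : T_ECB) (hON : T_ON) : T_SH := by
  classical
  intro N I D hN hOk hOpt k0 L hLv F hF
  have hOO : 0 ≤ OO N I D := by
    have := (hON N I D hN hOk hOpt).2
    exact le_trans (Nat.cast_nonneg _) this
  have hCs0 : 0 ≤ Cs N := by unfold Cs; positivity
  have hk1 : (1 : ℝ) ≤ kap N := by exact_mod_cast kap_pos (show 1 ≤ N by omega)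
  rcases F.eq_empty_or_nonempty with hE | ⟨y, hy⟩
  · rw [hE, Finset.sum_empty]
    have h1 : 0 ≤ C1 N := by unfold C1; positivity
    positivity
  have hL : 1 ≤ L := by
    have := hF y hy
    omega
  set P1 : ℕ × ℕ × ℕ → Prop := fun x => L * (x.2.2 - x.2.1) ≤ gs N I x - bs N I x with hP1
  set P2 : ℕ × ℕ × ℕ → Prop := fun x => Cert N I (Nat.clog 2 L) x.1 x.2.1 x.2.2 with hP2
  set P3 : ℕ × ℕ × ℕ → Prop := fun x => ∃ j, j ≤ x.1 ∧
    x.2.1 - bs N I x ≤ 8 * (2 ^ ((x.1 - j) / 4) * (pe N I j x.2.1 - be N I j x.2.1)) ∧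
      Cert N I ((x.1 - j) / 4) j (be N I j x.2.1) (pe N I j x.2.1) with hP3
  set P4 : ℕ × ℕ × ℕ → Prop := fun x => ∃ j, j ≤ x.1 ∧
    x.2.1 - bs N I x ≤ 8 * (2 ^ ((x.1 - j) / 4) * (pe N I j x.2.1 - be N I j x.2.1)) ∧
      ∃ X Z : Finset ℕ, X ⊆ I.J ∧ Z ⊆ I.J ∧ (∀ i ∈ X, x.2.1 ≤ I.R i ∧ I.R i < x.2.2) ∧
        (∀ i ∈ Z, be N I j x.2.1 ≤ I.R i ∧ I.R i < pe N I j x.2.1) ∧ X ×ˢ Z ⊆ PP N I ∧
        x.2.2 - x.2.1 ≤ Mc N * lam N x.1 * X.card ∧
        pe N I j x.2.1 - be N I j x.2.1 ≤ Mc N * lam N j * Z.card with hP4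
  have hcase : ∀ x ∈ F, P1 x ∨ P2 x ∨ P3 x ∨ P4 x := by
    intro x hx
    obtain ⟨hx1, hx2, hx3, hx4⟩ := hF x hx
    rcases hES N I hN hOk x L hx1 hL hx4 with h | h | ⟨j, hj, h1, h | h⟩
    · exact Or.inl h
    · exact Or.inr (Or.inl h)
    · exact Or.inr (Or.inr (Or.inl ⟨j, hj, h1, h⟩))
    · exact Or.inr (Or.inr (Or.inr ⟨j, hj, h1, h⟩))
  have hsum := split4 F (fun x => sz N x ^ 2) (fun x => sq_nonneg _) P1 P2 P3 P4 hcase
  -- first part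
  have b1 : ∑ x ∈ F.filter P1, sz N x ^ 2 ≤ Cs N * L * OO N I D := by
    refine hES1 N I D hN hOk hOpt k0 L hLv _ ?_
    intro x hx
    rw [Finset.mem_filter] at hx
    obtain ⟨hx1, hx2, hx3, hx4⟩ := hF x hx.1
    exact ⟨hx1, hx2, hx3, hx.2⟩
  -- second part
  have hLr : (1 : ℝ) ≤ L := by exact_mod_cast hL
  have b2 : ∑ x ∈ F.filter P2, sz N x ^ 2 ≤ 8 * (Cs N * L * OO N I D) := by
    have hFam : Fam (F.filter P2) := by
      intro x hx y hy hxy ht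
      rw [Finset.mem_filter] at hx hy
      exact (hECB N I (by omega) hOk x (hF x hx.1).1).2.2 y (hF y hy.1).1 hxy ht
    have h1 := hCS N I D hN hOk hOpt (F.filter P2) (Nat.clog 2 L) hFam (by
      intro x hx
      rw [Finset.mem_filter] at hx
      exact hx.2)
    have h2 : (((Nat.clog 2 L : ℕ) : ℝ) + 1) ^ 2 ≤ 8 * L := by
      have h3 : (Nat.clog 2 L + 1) ^ 2 ≤ 8 * L := by
        calc (Nat.clog 2 L + 1) ^ 2 ≤ 4 * 2 ^ Nat.clog 2 L := sq_pow _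
          _ ≤ 4 * (2 * L) := Nat.mul_le_mul_left _ (pow_clog hL)
          _ = 8 * L := by ring
      exact_mod_cast h3
    calc ∑ x ∈ F.filter P2, sz N x ^ 2
        ≤ Cs N * (((Nat.clog 2 L : ℕ) : ℝ) + 1) ^ 2 * OO N I D := h1
      _ ≤ Cs N * (8 * L) * OO N I D := by gcongr
      _ = 8 * (Cs N * L * OO N I D) := by ring
  -- third part
  have b3 : ∑ x ∈ F.filter P3, sz N x ^ 2 ≤ 6 * (Cs N * L * OO N I D) := by
    have h1 := hES3 N I D hN hOk hOpt (F.filter P3) (by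
      intro x hx
      rw [Finset.mem_filter] at hx
      exact ⟨(hF x hx.1).1, (hF x hx.1).2.2.2, hx.2⟩)
    have h2 : Cs N * 1 * OO N I D ≤ Cs N * L * OO N I D := by gcongr
    linarith
  -- fourth part
  have b4 : ∑ x ∈ F.filter P4, sz N x ^ 2 ≤ 2 * (Cs N * L * OO N I D) := by
    have h1 := hES4 N I hN hOk (F.filter P4) (by
      intro x hx
      rw [Finset.mem_filter] at hx
      exact ⟨(hF x hx.1).1, (hF x hx.1).2.2.2, hx.2⟩)
    have h2 := hPR N I D hN hOk hOpt k0 L hLv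
    have h3 : (Mc N : ℝ) ^ 2 * (5 / 2 * (PP N I).card) ≤
        (Mc N : ℝ) ^ 2 * (5 / 2 * (16 * L * OO N I D)) := by gcongr
    have h4 := Cs_ge hN
    have h5 : 0 ≤ (L : ℝ) * OO N I D := by positivity
    have h6 : 20 * (Mc N : ℝ) ^ 2 * (L * OO N I D) ≤ Cs N * (L * OO N I D) := by gcongr
    calc ∑ x ∈ F.filter P4, sz N x ^ 2 ≤ (Mc N : ℝ) ^ 2 * (5 / 2 * (PP N I).card) := h1
      _ ≤ (Mc N : ℝ) ^ 2 * (5 / 2 * (16 * L * OO N I D)) := h3
      _ = 2 * (20 * (Mc N : ℝ) ^ 2 * (L * OO N I D)) := by ring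
      _ ≤ 2 * (Cs N * (L * OO N I D)) := by linarith
      _ = 2 * (Cs N * L * OO N I D) := by ring
  have hX : 0 ≤ Cs N * L * OO N I D := by positivity
  have hfin : 17 * (Cs N * L * OO N I D) ≤ C1 N * L * OO N I D := by
    unfold C1
    have h1 : 100 * Cs N * (kap N : ℝ) * L * OO N I D = 100 * (kap N * (Cs N * L * OO N I D)) := by
      ring
    rw [h1]
    have h2 : 1 * (Cs N * L * OO N I D) ≤ kap N * (Cs N * L * OO N I D) := by gcongr
    linarith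
  linarith

end STR
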