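import Pool.Agent.STR.TargetsOpt

/-!
# Project STR: T_SWP, T_CHG, T_GEO (double counting and geometric sums)
-/

set_option autoImplicit false

namespace STR

open Classical in
theorem p_SWP : T_SWP := by
  intro I F f hF hf
  have h1 : ∀ x ∈ F, ∑ i ∈ I.J.filter (fun i => x.2.1 ≤ I.R i ∧ I.R i < x.2.2), f i x.1 =
      ∑ i ∈ I.J, if x.2.1 ≤ I.R i ∧ I.R i < x.2.2 then f i x.1 else 0 := by
    intro x _
    rw [Finset.sum_filter]
  rw [Finset.sum_congr rfl h1, Finset.sum_comm]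
  refine Finset.sum_le_sum fun i _ => ?_
  rw [← Finset.sum_filter]
  have hinj : Set.InjOn (Prod.fst : ℕ × ℕ × ℕ → ℕ)
      (F.filter fun x => x.2.1 ≤ I.R i ∧ I.R i < x.2.2 : Finset (ℕ × ℕ × ℕ)) := by
    intro x hx y hy hxy
    simp only [Finset.coe_filter, Set.mem_ofPred_eq] at hx hy
    exact hF x hx.1 y hy.1 hxy ⟨I.R i, hx.2, hy.2⟩
  have h2 : ∑ x ∈ F.filter (fun x => x.2.1 ≤ I.R i ∧ I.R i < x.2.2), f i x.1 =
      ∑ j ∈ (F.filter fun x => x.2.1 ≤ I.R i ∧ I.R i < x.2.2).image Prod.fst, f i j := by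
    rw [Finset.sum_image hinj]
  rw [h2]
  refine Finset.sum_le_sum_of_subset_of_nonneg ?_ fun j _ _ => hf i j
  exact Finset.image_subset_image (Finset.filter_subset _ _)

theorem p_CHG : T_CHG := by
  intro F P Q w c C c0 hC hw hQ hc hp
  calc ∑ x ∈ F, c x ≤ ∑ x ∈ F, C * (w x * (Q x).card) := Finset.sum_le_sum hc
    _ = C * ∑ x ∈ F, ∑ p ∈ P, (if p ∈ Q x then w x else 0) := by
        rw [Finset.mul_sum]
        refine Finset.sum_congr rfl fun x hx => ?_
        congr 1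
        rw [← Finset.sum_filter, Finset.sum_const, nsmul_eq_mul, mul_comm]
        congr 2
        have : P.filter (fun p => p ∈ Q x) = Q x := by
          ext p
          rw [Finset.mem_filter]
          exact ⟨fun h => h.2, fun h => ⟨hQ x hx h, h⟩⟩
        rw [this]
    _ = C * ∑ p ∈ P, ∑ x ∈ F.filter (fun x => p ∈ Q x), w x := by
        rw [Finset.sum_comm]
        congr 1
        refine Finset.sum_congr rfl fun p _ => ?_
        rw [Finset.sum_filter]
    _ ≤ C * ∑ _p ∈ P, c0 := mul_le_mul_of_nonneg_left (Finset.sum_le_sum hp) hC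
    _ = C * (c0 * P.card) := by
        rw [Finset.sum_const, nsmul_eq_mul, mul_comm (P.card : ℝ)]

namespace SWP_

theorem geo (F : Finset (ℕ × ℕ × ℕ)) (rho : ℕ) (h : ∀ x ∈ F, rho ≤ x.1)
    (h' : ∀ x ∈ F, ∀ y ∈ F, x.1 = y.1 → x = y) {r : ℝ} (h0 : 0 ≤ r) (h1 : r < 1) :
    ∑ x ∈ F, r ^ (x.1 - rho) ≤ (1 - r)⁻¹ := by
  classical
  have hinj : Set.InjOn (fun x : ℕ × ℕ × ℕ => x.1 - rho) F := by
    intro x hx y hy hxy
    have := h x hx
    have := h y hy
    exact h' x hx y hy (by simp only at hxy; omega)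
  have h2 : ∑ x ∈ F, r ^ (x.1 - rho) = ∑ n ∈ F.image (fun x => x.1 - rho), r ^ n := by
    rw [Finset.sum_image hinj]
  rw [h2, ← tsum_geometric_of_lt_one h0 h1]
  exact (summable_geometric_of_lt_one h0 h1).sum_le_tsum _ fun n _ => pow_nonneg h0 n

end SWP_

theorem p_GEO : T_GEO := by
  intro F rho h h'
  refine ⟨?_, ?_⟩
  · refine (SWP_.geo F rho h h' (by norm_num) (by norm_num)).trans (le_of_eq (by norm_num))
  · refine (SWP_.geo F rho h h' (by norm_num) (by norm_num)).trans (le_of_eq (by norm_num))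

end STR
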