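import Pool.Agent.STR.TargetsReal

/-!
# Project STR: T_ULM (ultrafilter limits), T_EX (existence of an offline schedule)
-/

set_option autoImplicit false

namespace STR

open Filter Topology

theorem p_ULM : T_ULM := by
  have h1 : ∀ (f : ℕ → ℝ) (a b : ℝ), (∀ m, a ≤ f m ∧ f m ≤ b) →
      Tendsto f ((hyperfilter ℕ : Ultrafilter ℕ) : Filter ℕ) (𝓝 (ulim f)) := by
    intro f a b h
    obtain ⟨x, -, hx⟩ := (isCompact_Icc (a := a) (b := b)).ultrafilter_le_nhds
      ((hyperfilter ℕ).map f) (by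
        rw [le_principal_iff, Ultrafilter.mem_coe, Ultrafilter.mem_map]
        have : f ⁻¹' Set.Icc a b = Set.univ := Set.eq_univ_of_forall h
        rw [this]
        exact univ_mem)
    exact tendsto_nhds_limUnder ⟨x, hx⟩
  refine ⟨h1, ?_, ?_⟩
  · intro f a b h
    exact ⟨ge_of_tendsto' (h1 f a b h) fun m => (h m).1,
      le_of_tendsto' (h1 f a b h) fun m => (h m).2⟩
  · rintro p ⟨m0, hm⟩
    exact Nat.hyperfilter_le_atTop (eventually_atTop.2 ⟨m0, hm⟩)

theorem p_EX : T_EX := by
  intro I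
  have hn : (0 : ℝ) < (I.jobs.card : ℝ) + 1 := by positivity
  refine ⟨fun j t => max (t - I.r j) 0 / ((I.jobs.card : ℝ) + 1),
    fun j => I.r j + ((I.jobs.card : ℝ) + 1) * I.p j, ⟨?_, ?_, ?_⟩, ?_⟩
  · intro j _ t t' h
    exact div_le_div_of_nonneg_right (max_le_max_right _ (by linarith)) hn.le
  · intro j _ t ht
    show max (t - I.r j) 0 / ((I.jobs.card : ℝ) + 1) = 0
    rw [max_eq_right (by linarith), zero_div]
  · intro t t' h
    have h1 : ∀ j ∈ I.jobs, max (t' - I.r j) 0 / ((I.jobs.card : ℝ) + 1) -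
        max (t - I.r j) 0 / ((I.jobs.card : ℝ) + 1) ≤ (t' - t) / ((I.jobs.card : ℝ) + 1) := by
      intro j _
      rw [← sub_div]
      refine div_le_div_of_nonneg_right ?_ hn.le
      rcases le_total (t' - I.r j) 0 with h2 | h2
      · rw [max_eq_right h2, max_eq_right (by linarith)]
        linarith
      · rw [max_eq_left h2]
        have := le_max_left (t - I.r j) 0
        linarith
    refine (Finset.sum_le_sum h1).trans ?_
    rw [Finset.sum_const, nsmul_eq_mul, one_mul, ← mul_div_assoc, div_le_iff₀ hn]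
    nlinarith
  · intro j hj
    have hp := I.p_pos j hj
    show I.p j ≤ max (I.r j + ((I.jobs.card : ℝ) + 1) * I.p j - I.r j) 0 /
      ((I.jobs.card : ℝ) + 1)
    rw [le_div_iff₀ hn, add_sub_cancel_left, mul_comm]
    exact le_max_left _ _

end STR
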