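import Pool.Agent.STR.TargetsSim

/-!
# Project STR: work served to the jobs of a level (T_WKM, T_WKB)
-/

set_option autoImplicit false

namespace STR

open Classical in
/-- the slots of `S` before `t` which are counted for `j` -/
noncomputable def WKM_.cs (N : ℕ) (I : DI) (g : ℕ → Option ℕ) (S : Finset ℕ) (k j t : ℕ) :
    Finset ℕ :=
  S.filter fun t' => t' < t ∧ g t' = some j ∧ j ∈ Ak N I k t'

theorem WKM_.claim (N : ℕ) (I : DI) (g : ℕ → Option ℕ) (w : ℕ) (hw : w ≤ N)
    (hg : ∀ t j, g t = some j → eu N I t j + w ≤ eu N I (t + 1) j) (S : Finset ℕ) (k j t : ℕ) :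
    w * (WKM_.cs N I g S k j t).card ≤ eu N I t j ∧
      w * (WKM_.cs N I g S k j t).card ≤ min (I.q j) (ell N k) + N := by
  classical
  induction t with
  | zero =>
    have : WKM_.cs N I g S k j 0 = ∅ := by
      unfold WKM_.cs
      rw [Finset.filter_eq_empty_iff]
      intro x _ h
      omega
    rw [this, Finset.card_empty, mul_zero]
    exact ⟨Nat.zero_le _, Nat.zero_le _⟩
  | succ t ih =>
    by_cases hc : t ∈ S ∧ g t = some j ∧ j ∈ Ak N I k t
    · have h1 : WKM_.cs N I g S k j (t + 1) = insert t (WKM_.cs N I g S k j t) := by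
        ext x
        unfold WKM_.cs
        rw [Finset.mem_insert, Finset.mem_filter, Finset.mem_filter]
        constructor
        · rintro ⟨h2, h3, h4⟩
          rcases Nat.lt_succ_iff_lt_or_eq.1 h3 with h5 | h5
          · right; exact ⟨h2, h5, h4⟩
          · left; exact h5
        · rintro (h2 | ⟨h2, h3, h4⟩)
          · rw [h2]; exact ⟨hc.1, Nat.lt_succ_self t, hc.2⟩
          · exact ⟨h2, Nat.lt_succ_of_lt h3, h4⟩
      have h2 : t ∉ WKM_.cs N I g S k j t := by
        unfold WKM_.cs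
        rw [Finset.mem_filter]
        rintro ⟨-, h, -⟩
        exact lt_irrefl _ h
      rw [h1, Finset.card_insert_of_notMem h2, mul_add, mul_one]
      have h3 := hg t j hc.2.1
      have h4 := (mem_Ak N I).1 hc.2.2
      have h5 : eu N I t j < min (I.q j) (ell N k) := lt_min h4.2.2.1 h4.2.2.2
      omega
    · have h1 : WKM_.cs N I g S k j (t + 1) = WKM_.cs N I g S k j t := by
        ext x
        unfold WKM_.cs
        rw [Finset.mem_filter, Finset.mem_filter]
        constructor
        · rintro ⟨h2, h3, h4⟩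
          rcases Nat.lt_succ_iff_lt_or_eq.1 h3 with h5 | h5
          · exact ⟨h2, h5, h4⟩
          · rw [h5] at h2 h4
            exact absurd ⟨h2, h4⟩ hc
        · rintro ⟨h2, h3, h4⟩
          exact ⟨h2, Nat.lt_succ_of_lt h3, h4⟩
      rw [h1]
      have h2 := eu_mono_succ N I t j
      omega

theorem WKM_.gen (N : ℕ) (I : DI) (g : ℕ → Option ℕ) (w : ℕ) (hw : w ≤ N)
    (hg : ∀ t j, g t = some j → eu N I t j + w ≤ eu N I (t + 1) j) (S : Finset ℕ) (k a b : ℕ)
    (hS : ∀ t ∈ S, ∃ j, g t = some j ∧ j ∈ Ak N I k t ∧ a ≤ I.R j ∧ I.R j < b) :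
    w * S.card ≤ Wp N I k a b := by
  classical
  set T := S.sup id + 1 with hT
  have h1 : S ⊆ (I.J.filter fun j => a ≤ I.R j ∧ I.R j < b).biUnion
      fun j => WKM_.cs N I g S k j T := by
    intro t ht
    obtain ⟨j, h2, h3, h4, h5⟩ := hS t ht
    rw [Finset.mem_biUnion]
    refine ⟨j, ?_, ?_⟩
    · rw [Finset.mem_filter]
      exact ⟨((mem_Ak N I).1 h3).1, h4, h5⟩
    · unfold WKM_.cs
      rw [Finset.mem_filter]
      refine ⟨ht, ?_, h2, h3⟩
      have : t ≤ S.sup id := Finset.le_sup (f := id) ht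
      omega
  have h2 := (Finset.card_le_card h1).trans Finset.card_biUnion_le
  calc w * S.card ≤ w * ∑ j ∈ I.J.filter (fun j => a ≤ I.R j ∧ I.R j < b),
        (WKM_.cs N I g S k j T).card := Nat.mul_le_mul_left _ h2
    _ = ∑ j ∈ I.J.filter (fun j => a ≤ I.R j ∧ I.R j < b),
        w * (WKM_.cs N I g S k j T).card := by rw [Finset.mul_sum]
    _ ≤ ∑ j ∈ I.J.filter (fun j => a ≤ I.R j ∧ I.R j < b), (min (I.q j) (ell N k) + N) :=
        Finset.sum_le_sum fun j _ => (WKM_.claim N I g w hw hg S k j T).2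
    _ = Wp N I k a b := rfl

theorem p_WKM : T_WKM := by
  intro N I _ S k a b hS
  refine WKM_.gen N I (mj N I) (N - 1) (by omega) ?_ S k a b hS
  intro t j h
  rw [eu_succ, if_pos h]
  omega

theorem p_WKB : T_WKB := by
  intro N I hN S k a b hS
  have h := WKM_.gen N I (bj N I) 1 hN ?_ S k a b hS
  · rw [one_mul] at h
    exact h
  · intro t j h
    rw [eu_succ, if_pos h]
    omega

end STR
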