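import Pool.Agent.STR.P_BEM
import Pool.Agent.STR.P_BU
import Pool.Agent.STR.P_CAP
import Pool.Agent.STR.P_CCB
import Pool.Agent.STR.P_CEL
import Pool.Agent.STR.P_COV
import Pool.Agent.STR.P_CS
import Pool.Agent.STR.P_CSN
import Pool.Agent.STR.P_CSS
import Pool.Agent.STR.P_DISC
import Pool.Agent.STR.P_DOK
import Pool.Agent.STR.P_ECB
import Pool.Agent.STR.P_ES
import Pool.Agent.STR.P_ES1
import Pool.Agent.STR.P_ES3
import Pool.Agent.STR.P_ES3g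
import Pool.Agent.STR.P_ES4
import Pool.Agent.STR.P_EV
import Pool.Agent.STR.P_F1
import Pool.Agent.STR.P_FEA
import Pool.Agent.STR.P_FIN
import Pool.Agent.STR.P_GAM
import Pool.Agent.STR.P_GAW
import Pool.Agent.STR.P_GL
import Pool.Agent.STR.P_J1
import Pool.Agent.STR.P_JC
import Pool.Agent.STR.P_JE
import Pool.Agent.STR.P_LB
import Pool.Agent.STR.P_LB3
import Pool.Agent.STR.P_LC
import Pool.Agent.STR.P_LF
import Pool.Agent.STR.P_LIN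
import Pool.Agent.STR.P_LOC
import Pool.Agent.STR.P_MAIN
import Pool.Agent.STR.P_MASS
import Pool.Agent.STR.P_MON
import Pool.Agent.STR.P_MT
import Pool.Agent.STR.P_MU1
import Pool.Agent.STR.P_N1
import Pool.Agent.STR.P_N2
import Pool.Agent.STR.P_NB
import Pool.Agent.STR.P_NCL
import Pool.Agent.STR.P_NCg
import Pool.Agent.STR.P_NDD
import Pool.Agent.STR.P_NDS
import Pool.Agent.STR.P_NE
import Pool.Agent.STR.P_NGA
import Pool.Agent.STR.P_NMU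
import Pool.Agent.STR.P_NOD
import Pool.Agent.STR.P_OM
import Pool.Agent.STR.P_ON
import Pool.Agent.STR.P_OPD
import Pool.Agent.STR.P_P1
import Pool.Agent.STR.P_PRM
import Pool.Agent.STR.P_RB
import Pool.Agent.STR.P_RUN
import Pool.Agent.STR.P_SEP
import Pool.Agent.STR.P_SH
import Pool.Agent.STR.P_SWP
import Pool.Agent.STR.P_ULM
import Pool.Agent.STR.P_WKM

/-!
# Project STR: assembly
-/

set_option autoImplicit false

namespace STR

namespace Fin_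

theorem f_MON : T_MON := p_MON

theorem f_BEM : T_BEM := p_BEM

theorem f_NE : T_NE := p_NE

theorem f_TH : T_TH := p_TH f_BEM

theorem f_P1 : T_P1 := p_P1 f_MON f_NE

theorem f_CHB : T_CHB := p_CHB f_BEM f_P1

theorem f_FIN : T_FIN := p_FIN

theorem f_WKM : T_WKM := p_WKM

theorem f_WKB : T_WKB := p_WKB

theorem f_CAP : T_CAP := p_CAP

theorem f_MT : T_MT := p_MT f_MON

theorem f_EV : T_EV := p_EV f_P1 f_FIN

theorem f_OLD : T_OLD := p_OLD f_EV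

theorem f_GAM : T_GAM := p_GAM f_BEM f_FIN

theorem f_F1 : T_F1 := p_F1 f_BEM f_P1 f_OLD f_WKM f_WKB

theorem f_GL : T_GL := p_GL f_F1 f_OLD f_WKB f_BEM f_GAM

theorem f_GAW : T_GAW := p_GAW f_TH f_P1 f_WKM f_GAM

theorem f_NDS : T_NDS := p_NDS

theorem f_MASS : T_MASS := p_MASS f_NDS

theorem f_ON : T_ON := p_ON

theorem f_LB2 : T_LB2 := p_LB2 f_ON

theorem f_LB3 : T_LB3 := p_LB3

theorem f_SWP : T_SWP := p_SWP

theorem f_CSS : T_CSS := p_CSS f_LB3 f_SWP f_ON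

theorem f_CSN : T_CSN := p_CSN f_LB2 f_SWP f_ON

theorem f_CS : T_CS := p_CS f_CSS f_CSN f_ON

theorem f_COV : T_COV := p_COV

theorem f_RUN : T_RUN := p_RUN

theorem f_PRM : T_PRM := p_PRM f_COV f_RUN f_LB2 f_ON

theorem f_PR : T_PR := p_PR f_PRM f_ON

theorem f_BU : T_BU := p_BU f_F1 f_MASS f_CSS f_PR f_GAM f_ON

theorem f_OM : T_OM := p_OM

theorem f_PIG : T_PIG := p_PIG f_OM

theorem f_CHG : T_CHG := p_CHG

theorem f_GEO : T_GEO := p_GEO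

theorem f_CHN : T_CHN := p_CHN f_P1 f_BEM f_GAM f_WKM

theorem f_ECB : T_ECB := p_ECB f_CHN f_MT f_TH

theorem f_CCB : T_CCB := p_CCB f_CHN f_TH f_GAM

theorem f_UPC : T_UPC := p_UPC f_BEM

theorem f_ES : T_ES := p_ES f_ECB f_NE f_BEM f_GAM f_F1 f_MASS f_PIG

theorem f_ES1 : T_ES1 := p_ES1 f_ECB f_BU f_GAM f_CHN f_ON

theorem f_ES3g : T_ES3g := p_ES3g f_ECB f_BEM f_GAM f_NE f_CS f_OM

theorem f_ES3 : T_ES3 := p_ES3 f_ES3g f_OM f_ON

theorem f_ES4 : T_ES4 := p_ES4 f_ECB f_BEM f_GAM f_UPC f_CHG f_GEO f_OM f_CHN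

theorem f_SH : T_SH := p_SH f_ES f_ES1 f_CS f_ES3 f_ES4 f_PR f_ECB f_ON

theorem f_SEP : T_SEP := p_SEP f_GAM f_BEM f_F1 f_MASS f_CAP

theorem f_N1 : T_N1 := p_N1 f_CHN f_GL f_GAW f_MASS f_SEP

theorem f_CEL : T_CEL := p_CEL f_CCB f_CHN f_GAM f_BEM

theorem f_XP : T_XP := p_XP f_CEL

theorem f_N2 : T_N2 := p_N2 f_CEL f_CCB f_CHN f_GAM f_BEM f_UPC f_F1 f_MASS f_PIG f_OM

theorem f_NMU : T_NMU := p_NMU f_BU f_CCB f_CHN

theorem f_NS1 : T_NS1 := p_NS1 f_CCB f_CSS f_ON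

theorem f_NGA : T_NGA := p_NGA f_CCB f_GAM f_UPC f_CHG f_CHN

theorem f_NS2 : T_NS2 := p_NS2 f_CCB f_CSS f_NMU f_ON

theorem f_NB : T_NB := p_NB f_CEL f_XP f_CCB f_GAM f_CHG f_GEO f_BEM f_CHN

theorem f_NCg : T_NCg := p_NCg f_CCB f_CS

theorem f_NC : T_NC := p_NC f_NCg f_NMU f_OM f_ON

theorem f_NDD : T_NDD := p_NDD f_CCB f_CHG f_GEO f_OM

theorem f_NOD : T_NOD := p_NOD f_N1 f_N2 f_NS1 f_NGA f_NS2 f_NB f_NC f_NDD f_PR f_ON

theorem f_J1 : T_J1 := p_J1 f_EV f_FIN f_GAM f_BEM f_CHN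

theorem f_JE : T_JE := p_JE f_ECB f_LB2 f_SH f_ON

theorem f_MU1 : T_MU1 := p_MU1 f_CCB f_GAM f_WKB f_ON f_CHN

theorem f_JC : T_JC := p_JC f_CCB f_LB2 f_NMU f_NOD f_MU1 f_ON

theorem f_DISC : T_DISC := p_DISC f_J1 f_JE f_JC f_ON

theorem f_LIN : T_LIN := p_LIN

theorem f_FEA : T_FEA := p_FEA f_LIN

theorem f_LOC : T_LOC := p_LOC

theorem f_NCL : T_NCL := p_NCL f_LIN f_FEA f_LOC

theorem f_DOK : T_DOK := p_DOK

theorem f_DLV : T_DLV := p_DLV f_DOK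

theorem f_OPD : T_OPD := p_OPD

theorem f_RB : T_RB := p_RB f_DISC f_DOK f_DLV f_OPD f_LIN f_ON f_J1

theorem f_ULM : T_ULM := p_ULM

theorem f_LF : T_LF := p_LF f_ULM

theorem f_LC : T_LC := p_LC f_ULM f_LF

theorem f_LB : T_LB := p_LB f_ULM f_LF

theorem f_EX : T_EX := p_EX

theorem f_MAIN : T_MAIN := p_MAIN f_NCL f_RB f_LC f_LB f_EX

end Fin_

theorem final : T_MAIN := Fin_.f_MAIN

end STR
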