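import Pool.Agent.STR.TargetsSim

/-!
# Project STR (MP_32d942_lc): proof of `T_BEM` (starts of the busy intervals)
-/

set_option autoImplicit false

namespace STR

namespace BEM_

theorem be_pos {N : ℕ} {I : DI} {k t : ℕ} (h : (Ak N I k t).Nonempty) :
    be N I k (t + 1) = be N I k t := by
  rw [be_succ]; exact if_pos h

theorem be_neg {N : ℕ} {I : DI} {k t : ℕ} (h : ¬ (Ak N I k t).Nonempty) :
    be N I k (t + 1) = t + 1 := by
  rw [be_succ]; exact if_neg h

theorem be_le (N : ℕ) (I : DI) (k t : ℕ) : be N I k t ≤ t := by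
  induction t with
  | zero => exact le_of_eq (be_zero N I k)
  | succ t ih =>
    by_cases h : (Ak N I k t).Nonempty
    · rw [be_pos h]; omega
    · rw [be_neg h]

theorem be_anti (N : ℕ) (I : DI) (k t : ℕ) : be N I (k + 1) t ≤ be N I k t := by
  induction t with
  | zero => rw [be_zero, be_zero]
  | succ t ih =>
    by_cases h : (Ak N I k t).Nonempty
    · have h' : (Ak N I (k + 1) t).Nonempty := h.mono (Ak_level N I (Nat.le_succ k))
      rw [be_pos h, be_pos h']; exact ih
    · rw [be_neg h]; exact be_le N I (k + 1) (t + 1)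

theorem be_busy (N : ℕ) (I : DI) (k t : ℕ) :
    ∀ t', be N I k t ≤ t' → t' < t → (Ak N I k t').Nonempty := by
  induction t with
  | zero => intro t' _ h; omega
  | succ t ih =>
    intro t' h1 h2
    by_cases h : (Ak N I k t).Nonempty
    · rw [be_pos h] at h1
      rcases Nat.lt_succ_iff_lt_or_eq.1 h2 with h3 | h3
      · exact ih t' h1 h3
      · rw [h3]; exact h
    · rw [be_neg h] at h1; omega

theorem be_before (N : ℕ) (I : DI) (k t : ℕ) :
    be N I k t = 0 ∨ Ak N I k (be N I k t - 1) = ∅ := by
  induction t with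
  | zero => exact Or.inl (be_zero N I k)
  | succ t ih =>
    by_cases h : (Ak N I k t).Nonempty
    · rw [be_pos h]; exact ih
    · rw [be_neg h]
      right
      rw [Nat.add_sub_cancel]
      exact Finset.not_nonempty_iff_eq_empty.1 h

theorem be_rel (N : ℕ) (I : DI) (k t : ℕ) : ∀ j ∈ Ak N I k t, be N I k t ≤ I.R j := by
  intro j hj
  by_contra hlt
  rw [not_le] at hlt
  have hle := be_le N I k t
  rcases be_before N I k t with h | h
  · omega
  · have h2 : j ∈ Ak N I k (be N I k t - 1) :=
      Ak_back N I hj (by omega) (by omega)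
    rw [h] at h2
    exact absurd h2 (Finset.notMem_empty j)

theorem be_const (N : ℕ) (I : DI) (k t : ℕ) : ∀ y, t ≤ y →
    (∀ t', t ≤ t' → t' < y → (Ak N I k t').Nonempty) → be N I k y = be N I k t := by
  intro y hy
  induction y, hy using Nat.le_induction with
  | base => intro _; rfl
  | succ y hy ih =>
    intro h
    rw [be_pos (h y hy (Nat.lt_succ_self y))]
    exact ih (fun t' h1 h2 => h t' h1 (by omega))

end BEM_

theorem p_BEM : T_BEM := by
  intro N I k t
  exact ⟨BEM_.be_le N I k t, BEM_.be_anti N I k t, BEM_.be_busy N I k t,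
    BEM_.be_before N I k t, BEM_.be_rel N I k t, BEM_.be_const N I k t⟩

end STR
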