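import Pool.Agent.STR.TargetsAna
import Pool.Agent.STR.TargetsOpt
import Pool.Agent.STR.TargetsSim

/-!
# Project STR: T_ES3g
-/

set_option autoImplicit false

namespace STR

namespace ES3g_

/-- facts on one end chain of the family -/
theorem facts (hECB : T_ECB) (hBEM : T_BEM) (hNE : T_NE) {N : ℕ} {I : DI} (hN : 8 ≤ N)
    (hOk : Ok N I) {g j : ℕ} {x : ℕ × ℕ × ℕ} (hE : EC N I x) (hl : lam N x.1 < x.2.2 - x.2.1)
    (hj : x.1 = j + g)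
    (h8 : x.2.1 - bs N I x ≤ 8 * (2 ^ (g / 4) * (pe N I j x.2.1 - be N I j x.2.1))) :
    (Ak N I j x.2.1).Nonempty ∧ pe N I j x.2.1 ≤ x.2.1 ∧
    be N I x.1 x.2.1 = be N I x.1 (be N I j x.2.1) ∧ x.2.1 < x.2.2 ∧ bs N I x ≤ x.2.1 ∧
    Rc N * (x.2.2 - x.2.1) ≤ 16 * (2 ^ (g / 4) * (pe N I j x.2.1 - be N I j x.2.1)) ∧
    x.2.2 - bs N I x ≤ 16 * (2 ^ (g / 4) * (pe N I j x.2.1 - be N I j x.2.1)) := by
  obtain ⟨h1, h2, -⟩ := hECB N I (by omega) hOk x hE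
  obtain ⟨-, h3⟩ := h2 hl
  obtain ⟨v, hv, -, hu⟩ := hE
  obtain ⟨-, i, hi, hR⟩ := hNE N I (by omega) hOk x.1 v x.2.1 hu
  have hne : (Ak N I j x.2.1).Nonempty := by
    refine ⟨i, ?_⟩
    rw [← hR]
    exact self_mem N I (by omega) hOk hi j
  obtain ⟨b1, -, b3, -, -, -⟩ := hBEM N I j x.2.1
  refine ⟨hne, ?_, ?_, h1.1, h1.2.1, ?_, ?_⟩
  · cases j with
    | zero => exact le_rfl
    | succ j => exact (hBEM N I j x.2.1).1
  · refine (hBEM N I x.1 (be N I j x.2.1)).2.2.2.2.2 x.2.1 b1 fun t' h4 h5 => ?_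
    exact (b3 t' h4 h5).mono (Ak_level N I (by omega))
  · calc Rc N * (x.2.2 - x.2.1) ≤ 2 * (x.2.1 - bs N I x) := h3
      _ ≤ 2 * (8 * (2 ^ (g / 4) * (pe N I j x.2.1 - be N I j x.2.1))) := by omega
      _ = 16 * (2 ^ (g / 4) * (pe N I j x.2.1 - be N I j x.2.1)) := by ring
  · have h4 : x.2.2 - x.2.1 ≤ x.2.1 - bs N I x := by
      have : 2 * (x.2.2 - x.2.1) ≤ Rc N * (x.2.2 - x.2.1) :=
        Nat.mul_le_mul_right _ (by unfold Rc; omega)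
      omega
    have h5 := h1.1
    have h6 := h1.2.1
    omega

/-- natural number form of the bound in a group -/
theorem group_nat (hECB : T_ECB) (hBEM : T_BEM) (hNE : T_NE) {N : ℕ} {I : DI} (hN : 8 ≤ N)
    (hOk : Ok N I) {g j p0 m : ℕ} (G : Finset (ℕ × ℕ × ℕ))
    (hG : ∀ x ∈ G, EC N I x ∧ lam N x.1 < x.2.2 - x.2.1 ∧ x.1 = j + g ∧
      x.2.1 - bs N I x ≤ 8 * (2 ^ (g / 4) * (pe N I j x.2.1 - be N I j x.2.1)) ∧
      be N I j x.2.1 = p0 ∧ pe N I j x.2.1 - be N I j x.2.1 ≤ m) :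
    ∑ x ∈ G, (x.2.2 - x.2.1) ^ 2 ≤ (2 ^ (g / 4) * m) ^ 2 := by
  classical
  set M := 16 * (2 ^ (g / 4) * m) with hM
  have hf : ∀ x ∈ G, x.2.1 < x.2.2 ∧ be N I (j + g) p0 ≤ x.2.1 ∧ Rc N * (x.2.2 - x.2.1) ≤ M ∧
      x.2.2 ≤ be N I (j + g) p0 + M := by
    intro x hx
    obtain ⟨h1, h2, h3, h4, h5, h6⟩ := hG x hx
    obtain ⟨-, -, f3, f4, f5, f6, f7⟩ := facts hECB hBEM hNE hN hOk h1 h2 h3 h4
    have hb : bs N I x = be N I (j + g) p0 := by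
      show be N I x.1 x.2.1 = _
      rw [f3, h3, h5]
    have hle : 16 * (2 ^ (g / 4) * (pe N I j x.2.1 - be N I j x.2.1)) ≤ M := by
      rw [hM]; gcongr
    rw [hb] at f5 f7
    exact ⟨f4, f5, f6.trans hle, by omega⟩
  have hsum : ∑ x ∈ G, (x.2.2 - x.2.1) ≤ M := by
    have hd : (G : Set (ℕ × ℕ × ℕ)).PairwiseDisjoint fun x => Finset.Ico x.2.1 x.2.2 := by
      intro x hx y hy hxy
      refine Finset.disjoint_left.2 fun t ht ht' => hxy ?_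
      rw [Finset.mem_Ico] at ht ht'
      refine (hECB N I (by omega) hOk x (hG x hx).1).2.2 y (hG y hy).1 ?_ ⟨t, ht, ht'⟩
      rw [(hG x hx).2.2.1, (hG y hy).2.2.1]
    have h1 : ∑ x ∈ G, (x.2.2 - x.2.1) = (G.biUnion fun x => Finset.Ico x.2.1 x.2.2).card := by
      rw [Finset.card_biUnion hd]
      simp
    rw [h1]
    calc (G.biUnion fun x => Finset.Ico x.2.1 x.2.2).card
        ≤ (Finset.Ico (be N I (j + g) p0) (be N I (j + g) p0 + M)).card := by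
          refine Finset.card_le_card fun t ht => ?_
          rw [Finset.mem_biUnion] at ht
          obtain ⟨x, hx, ht⟩ := ht
          rw [Finset.mem_Ico] at ht ⊢
          obtain ⟨h1, h2, h3, h4⟩ := hf x hx
          omega
      _ = M := by simp
  have h1 : Rc N * ∑ x ∈ G, (x.2.2 - x.2.1) ^ 2 ≤ M * M := by
    calc Rc N * ∑ x ∈ G, (x.2.2 - x.2.1) ^ 2
        = ∑ x ∈ G, (Rc N * (x.2.2 - x.2.1)) * (x.2.2 - x.2.1) := by
          rw [Finset.mul_sum]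
          exact Finset.sum_congr rfl fun x _ => by ring
      _ ≤ ∑ x ∈ G, M * (x.2.2 - x.2.1) :=
          Finset.sum_le_sum fun x hx => Nat.mul_le_mul_right _ (hf x hx).2.2.1
      _ = M * ∑ x ∈ G, (x.2.2 - x.2.1) := by rw [Finset.mul_sum]
      _ ≤ M * M := Nat.mul_le_mul_left _ hsum
  have h2 : M * M = 256 * (2 ^ (g / 4) * m) ^ 2 := by rw [hM]; ring
  have h3 : 256 * ∑ x ∈ G, (x.2.2 - x.2.1) ^ 2 ≤ Rc N * ∑ x ∈ G, (x.2.2 - x.2.1) ^ 2 :=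
    Nat.mul_le_mul_right _ (by unfold Rc; omega)
  omega

theorem group (hECB : T_ECB) (hBEM : T_BEM) (hNE : T_NE) (hOM : T_OM) {N : ℕ} {I : DI}
    (hN : 8 ≤ N) (hOk : Ok N I) {g j p0 m : ℕ} (G : Finset (ℕ × ℕ × ℕ))
    (hG : ∀ x ∈ G, EC N I x ∧ lam N x.1 < x.2.2 - x.2.1 ∧ x.1 = j + g ∧
      x.2.1 - bs N I x ≤ 8 * (2 ^ (g / 4) * (pe N I j x.2.1 - be N I j x.2.1)) ∧
      be N I j x.2.1 = p0 ∧ pe N I j x.2.1 - be N I j x.2.1 ≤ m) :
    ∑ x ∈ G, sz N x ^ 2 ≤ om g ^ 2 * ((m : ℝ) / lam N j) ^ 2 := by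
  have h1 := group_nat hECB hBEM hNE hN hOk G hG
  have h2 : (∑ x ∈ G, (((x.2.2 - x.2.1 : ℕ) : ℝ)) ^ 2) ≤ (2 ^ (g / 4) * (m : ℝ)) ^ 2 := by
    exact_mod_cast h1
  have hl : (0 : ℝ) < lam N j := by exact_mod_cast lam_pos (by omega : 1 ≤ N) j
  have h3 : ∀ x ∈ G, sz N x ^ 2 =
      (((x.2.2 - x.2.1 : ℕ) : ℝ)) ^ 2 * (1 / ((2 : ℝ) ^ g * lam N j)) ^ 2 := by
    intro x hx
    unfold sz
    rw [(hG x hx).2.2.1, lam_add]
    push_cast
    rw [← mul_pow, mul_one_div]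
  rw [Finset.sum_congr rfl h3, ← Finset.sum_mul]
  calc (∑ x ∈ G, (((x.2.2 - x.2.1 : ℕ) : ℝ)) ^ 2) * (1 / ((2 : ℝ) ^ g * lam N j)) ^ 2
      ≤ (2 ^ (g / 4) * (m : ℝ)) ^ 2 * (1 / ((2 : ℝ) ^ g * lam N j)) ^ 2 :=
        mul_le_mul_of_nonneg_right h2 (sq_nonneg _)
    _ = om g ^ 2 * ((m : ℝ) / lam N j) ^ 2 := by
        rw [← hOM.2.1 g]
        have : (2 : ℝ) ^ g ≠ 0 := by positivity
        field_simp

end ES3g_

open ES3g_ in
theorem p_ES3g (hECB : T_ECB) (hBEM : T_BEM) (hGAM : T_GAM) (hNE : T_NE) (hCS : T_CS)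
    (hOM : T_OM) : T_ES3g := by
  classical
  intro N I D hN hOk hOpt g F hF
  -- the level and the start of the piece
  let key : ℕ × ℕ × ℕ → ℕ × ℕ := fun x => (x.1 - g, be N I (x.1 - g) x.2.1)
  let ln : ℕ × ℕ × ℕ → ℕ := fun x => pe N I (x.1 - g) x.2.1 - be N I (x.1 - g) x.2.1
  have hF' : ∀ x ∈ F, EC N I x ∧ lam N x.1 < x.2.2 - x.2.1 ∧ x.1 = (x.1 - g) + g ∧
      x.2.1 - bs N I x ≤
        8 * (2 ^ (g / 4) * (pe N I (x.1 - g) x.2.1 - be N I (x.1 - g) x.2.1)) ∧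
      Cert N I (g / 4) (x.1 - g) (be N I (x.1 - g) x.2.1) (pe N I (x.1 - g) x.2.1) := by
    intro x hx
    obtain ⟨h1, h2, j, h3, h4, h5⟩ := hF x hx
    have h6 : x.1 - g = j := by omega
    rw [h6]
    exact ⟨h1, h2, h3, h4, h5⟩
  -- representatives of the groups
  have hrep : ∀ c ∈ F.image key, ∃ x ∈ F, key x = c ∧ ∀ y ∈ F, key y = c → ln y ≤ ln x := by
    intro c hc
    obtain ⟨x0, hx0, hc0⟩ := Finset.mem_image.1 hc
    obtain ⟨x, hx, hmax⟩ := Finset.exists_max_image (F.filter fun x => key x = c) ln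
      ⟨x0, Finset.mem_filter.2 ⟨hx0, hc0⟩⟩
    rw [Finset.mem_filter] at hx
    exact ⟨x, hx.1, hx.2, fun y hy hyc => hmax y (Finset.mem_filter.2 ⟨hy, hyc⟩)⟩
  choose! rep hrF hrk hrm using hrep
  let tr : ℕ × ℕ → ℕ × ℕ × ℕ := fun c => (c.1, c.2, c.2 + ln (rep c))
  have htr : Function.Injective tr := by
    intro c c' h
    have h1 : c.1 = c'.1 := congrArg (fun z : ℕ × ℕ × ℕ => z.1) h
    have h2 : c.2 = c'.2 := congrArg (fun z : ℕ × ℕ × ℕ => z.2.1) h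
    exact Prod.ext h1 h2
  -- geometry of the representative
  have hgeo : ∀ c ∈ F.image key, be N I c.1 (rep c).2.1 = c.2 ∧ (rep c).1 - g = c.1 ∧
      c.2 + ln (rep c) = pe N I c.1 (rep c).2.1 ∧ pe N I c.1 (rep c).2.1 ≤ (rep c).2.1 ∧
      (Ak N I c.1 (rep c).2.1).Nonempty := by
    intro c hc
    obtain ⟨h1, h2, h3, h4, h5⟩ := hF' (rep c) (hrF c hc)
    obtain ⟨f1, f2, -, f4, f5, f6, -⟩ := facts hECB hBEM hNE hN hOk h1 h2 h3 h4
    have hk := hrk c hc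
    have hk1 : (rep c).1 - g = c.1 := congrArg Prod.fst hk
    have hk2 : be N I ((rep c).1 - g) (rep c).2.1 = c.2 := congrArg Prod.snd hk
    have hln : ln (rep c) = pe N I c.1 (rep c).2.1 - c.2 := by
      show pe N I ((rep c).1 - g) (rep c).2.1 - be N I ((rep c).1 - g) (rep c).2.1 = _
      rw [hk2, hk1]
    rw [hk1] at f1 f2 f6 hk2
    have hpos : 0 < 16 * (2 ^ (g / 4) * (pe N I c.1 (rep c).2.1 - be N I c.1 (rep c).2.1)) :=
      lt_of_lt_of_le (Nat.mul_pos (by unfold Rc; omega) (by omega)) f6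
    have hpos' : 0 < pe N I c.1 (rep c).2.1 - be N I c.1 (rep c).2.1 := by
      rcases Nat.eq_zero_or_pos (pe N I c.1 (rep c).2.1 - be N I c.1 (rep c).2.1) with h0 | h0
      · rw [h0] at hpos; simp at hpos
      · exact h0
    refine ⟨hk2, hk1, ?_, f2, f1⟩
    rw [hln]
    omega
  have hFam : Fam ((F.image key).image tr) := by
    intro y hy y' hy' hyy ht
    obtain ⟨c, hc, rfl⟩ := Finset.mem_image.1 hy
    obtain ⟨c', hc', rfl⟩ := Finset.mem_image.1 hy'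
    obtain ⟨t, ht1, ht2⟩ := ht
    change c.1 = c'.1 at hyy
    change c.2 ≤ t ∧ t < c.2 + ln (rep c) at ht1
    change c'.2 ≤ t ∧ t < c'.2 + ln (rep c') at ht2
    have key1 : ∀ c ∈ F.image key, ∀ t, c.2 ≤ t → t < c.2 + ln (rep c) →
        be N I c.1 t = c.2 := by
      intro c hc t h1 h2
      obtain ⟨g1, g2, g3, g4, g5⟩ := hgeo c hc
      obtain ⟨g6, -, g7⟩ := hGAM N I (by omega) c.1 (rep c).2.1 g5
      rw [g3] at h2
      rw [← g1] at h1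
      rw [(g7 t h1 (by omega)).2.1, g1]
    have e1 := key1 c hc t ht1.1 ht1.2
    have e2 := key1 c' hc' t ht2.1 ht2.2
    rw [← hyy] at e2
    have : c = c' := Prod.ext hyy (e1.symm.trans e2)
    rw [this]
  have hCert : ∀ y ∈ (F.image key).image tr, Cert N I (g / 4) y.1 y.2.1 y.2.2 := by
    intro y hy
    obtain ⟨c, hc, rfl⟩ := Finset.mem_image.1 hy
    obtain ⟨g1, g2, g3, -, -⟩ := hgeo c hc
    have h5 := (hF' (rep c) (hrF c hc)).2.2.2.2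
    rw [g2, g1] at h5
    show Cert N I (g / 4) c.1 c.2 (c.2 + ln (rep c))
    rw [g3]
    exact h5
  have hmain := hCS N I D hN hOk hOpt _ (g / 4) hFam hCert
  have hgrp : ∀ c ∈ F.image key, ∑ x ∈ F with key x = c, sz N x ^ 2 ≤
      om g ^ 2 * sz N (tr c) ^ 2 := by
    intro c hc
    have h1 : sz N (tr c) = (ln (rep c) : ℝ) / lam N c.1 := by
      show ((c.2 + ln (rep c) - c.2 : ℕ) : ℝ) / (lam N c.1 : ℝ) = _
      rw [Nat.add_sub_cancel_left]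
    rw [h1]
    refine group hECB hBEM hNE hOM hN hOk (p0 := c.2) _ fun x hx => ?_
    rw [Finset.mem_filter] at hx
    obtain ⟨h2, h3, h4, h5, -⟩ := hF' x hx.1
    have hk1 : x.1 - g = c.1 := congrArg Prod.fst hx.2
    have hk2 : be N I (x.1 - g) x.2.1 = c.2 := congrArg Prod.snd hx.2
    have h6 : ln x ≤ ln (rep c) := hrm c hc x hx.1 hx.2
    change pe N I (x.1 - g) x.2.1 - be N I (x.1 - g) x.2.1 ≤ ln (rep c) at h6
    rw [hk1] at h4 h5 h6 hk2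
    exact ⟨h2, h3, h4, h5, hk2, h6⟩
  calc ∑ x ∈ F, sz N x ^ 2
      = ∑ c ∈ F.image key, ∑ x ∈ F with key x = c, sz N x ^ 2 :=
        (Finset.sum_fiberwise_of_maps_to (fun x hx => Finset.mem_image_of_mem key hx) _).symm
    _ ≤ ∑ c ∈ F.image key, om g ^ 2 * sz N (tr c) ^ 2 := Finset.sum_le_sum hgrp
    _ = om g ^ 2 * ∑ y ∈ (F.image key).image tr, sz N y ^ 2 := by
        rw [Finset.mul_sum, Finset.sum_image fun a _ b _ h => htr h]
    _ ≤ om g ^ 2 * (Cs N * (((g / 4 : ℕ) : ℝ) + 1) ^ 2 * OO N I D) :=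
        mul_le_mul_of_nonneg_left hmain (sq_nonneg _)

end STR
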