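import Pool.Agent.STR.TargetsReal

/-!
# Project STR: proof of `T_LIN`
-/

set_option autoImplicit false

namespace STR

namespace LIN_

/-- `lin` with explicit floor -/
theorem lin_of {f : ℕ → ℝ} {x : ℝ} {m : ℕ} (h1 : (m : ℝ) ≤ max x 0) (h2 : max x 0 < m + 1) :
    lin f x = f m + (max x 0 - m) * (f (m + 1) - f m) := by
  have hf : ⌊max x 0⌋₊ = m := by
    rw [Nat.floor_eq_iff (le_max_right _ _)]
    exact ⟨h1, h2⟩
  unfold lin
  rw [hf]

theorem floor_spec (x : ℝ) : ∃ m : ℕ, (m : ℝ) ≤ max x 0 ∧ max x 0 < m + 1 :=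
  ⟨⌊max x 0⌋₊, Nat.floor_le (le_max_right _ _), Nat.lt_floor_add_one _⟩

theorem nat_eq (f : ℕ → ℝ) (n : ℕ) : lin f n = f n := by
  have h0 : max (n : ℝ) 0 = n := max_eq_left (Nat.cast_nonneg n)
  rw [lin_of (m := n) (by rw [h0]) (by rw [h0]; linarith), h0]
  ring

theorem zero (f : ℕ → ℝ) (n : ℕ) (x : ℝ) (hf : ∀ l ≤ n, f l = 0) (hx : x ≤ n) : lin f x = 0 := by
  obtain ⟨m, h1, h2⟩ := floor_spec x
  have hy : max x 0 ≤ n := max_le hx (Nat.cast_nonneg n)
  have hmn : m ≤ n := by exact_mod_cast h1.trans hy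
  rw [lin_of h1 h2, hf m hmn]
  rcases Nat.lt_or_ge m n with h | h
  · rw [hf (m + 1) h]; ring
  · have hm : m = n := le_antisymm hmn h
    subst hm
    have : max x 0 = m := le_antisymm hy h1
    rw [this]; ring

theorem tele {f : ℕ → ℝ} {c : ℝ} (hc : ∀ n, f (n + 1) - f n ≤ c) (a k : ℕ) :
    f (a + k) - f a ≤ c * k := by
  induction k with
  | zero => simp
  | succ k ih =>
    have := hc (a + k)
    rw [← add_assoc]
    push_cast
    linarith

theorem step {f : ℕ → ℝ} {c : ℝ} (hc : ∀ n, f (n + 1) - f n ≤ c)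
    (hm : Monotone f) {x x' : ℝ} (hx : x ≤ x') :
    0 ≤ lin f x' - lin f x ∧ lin f x' - lin f x ≤ c * (max x' 0 - max x 0) := by
  obtain ⟨m, h1, h2⟩ := floor_spec x
  obtain ⟨m', h1', h2'⟩ := floor_spec x'
  have hy : max x 0 ≤ max x' 0 := max_le_max hx le_rfl
  rw [lin_of h1 h2, lin_of h1' h2']
  generalize max x 0 = y at *
  generalize max x' 0 = y' at *
  have hmm : m ≤ m' := by
    have : (m : ℝ) < m' + 1 := by linarith
    have h3 : m < m' + 1 := by exact_mod_cast this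
    omega
  have d1 : 0 ≤ f (m + 1) - f m := sub_nonneg.2 (hm (Nat.le_succ m))
  have d1' : 0 ≤ f (m' + 1) - f m' := sub_nonneg.2 (hm (Nat.le_succ m'))
  have e1 := hc m
  have e1' := hc m'
  rcases Nat.eq_or_lt_of_le hmm with h | h
  · subst h
    constructor
    · nlinarith
    · nlinarith
  · obtain ⟨k, rfl⟩ : ∃ k, m' = m + 1 + k := ⟨m' - (m + 1), by omega⟩
    have t1 := tele hc (m + 1) k
    have t2 : f (m + 1) ≤ f (m + 1 + k) := hm (Nat.le_add_right _ _)
    push_cast at h1' h2' ⊢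
    constructor
    · nlinarith [mul_nonneg (sub_nonneg.2 h1') d1', mul_nonneg (sub_nonneg.2 h2.le) d1]
    · nlinarith [mul_le_mul_of_nonneg_left e1' (sub_nonneg.2 h1'),
        mul_le_mul_of_nonneg_left e1 (sub_nonneg.2 h2.le)]

theorem step0 {f : ℕ → ℝ} (hm : Monotone f) {x x' : ℝ} (hx : x ≤ x') :
    lin f x ≤ lin f x' := by
  obtain ⟨m, h1, h2⟩ := floor_spec x
  obtain ⟨m', h1', h2'⟩ := floor_spec x'
  have hy : max x 0 ≤ max x' 0 := max_le_max hx le_rfl
  rw [lin_of h1 h2, lin_of h1' h2']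
  generalize max x 0 = y at *
  generalize max x' 0 = y' at *
  have hmm : m ≤ m' := by
    have : (m : ℝ) < m' + 1 := by linarith
    have h3 : m < m' + 1 := by exact_mod_cast this
    omega
  have d1 : 0 ≤ f (m + 1) - f m := sub_nonneg.2 (hm (Nat.le_succ m))
  have d1' : 0 ≤ f (m' + 1) - f m' := sub_nonneg.2 (hm (Nat.le_succ m'))
  rcases Nat.eq_or_lt_of_le hmm with h | h
  · subst h
    nlinarith
  · have t2 : f (m + 1) ≤ f m' := hm h
    nlinarith [mul_nonneg (sub_nonneg.2 h1') d1', mul_nonneg (sub_nonneg.2 h2.le) d1]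

theorem lip {f : ℕ → ℝ} {c : ℝ} (hc0 : 0 ≤ c) (hc : ∀ n, f (n + 1) - f n ≤ c)
    (hm : Monotone f) {x x' : ℝ} (hx : x ≤ x') : lin f x' - lin f x ≤ c * (x' - x) := by
  have h1 := (step hc hm hx).2
  have h2 : max x' 0 - max x 0 ≤ x' - x := by
    rcases le_total x 0 with h | h
    · rcases le_total x' 0 with h' | h'
      · rw [max_eq_right h, max_eq_right h']; linarith
      · rw [max_eq_right h, max_eq_left h']; linarith
    · rw [max_eq_left h, max_eq_left (h.trans hx)]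
  exact h1.trans (mul_le_mul_of_nonneg_left h2 hc0)

theorem sum (S : Finset ℕ) (f : ℕ → ℕ → ℝ) (x : ℝ) :
    ∑ j ∈ S, lin (f j) x = lin (fun n => ∑ j ∈ S, f j n) x := by
  unfold lin
  rw [Finset.sum_add_distrib, ← Finset.mul_sum, Finset.sum_sub_distrib]

theorem loc (f g : ℕ → ℝ) (n : ℕ) (x : ℝ) (h1 : f n = g n) (h2 : f (n + 1) = g (n + 1))
    (h3 : (n : ℝ) < x) (h4 : x ≤ n + 1) : lin f x = lin g x := by
  have hx0 : 0 ≤ x := (Nat.cast_nonneg n).trans h3.le
  have hm : max x 0 = x := max_eq_left hx0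
  rcases lt_or_eq_of_le h4 with h | h
  · rw [lin_of (f := f) (m := n) (by rw [hm]; exact h3.le) (by rw [hm]; exact h),
      lin_of (f := g) (m := n) (by rw [hm]; exact h3.le) (by rw [hm]; exact h), h1, h2]
  · have h5 : x = ((n + 1 : ℕ) : ℝ) := by push_cast; exact h
    rw [h5, nat_eq, nat_eq, h2]

end LIN_

theorem p_LIN : T_LIN :=
  ⟨LIN_.nat_eq, LIN_.zero, fun _ hf _ _ hx => LIN_.step0 hf hx,
    fun _ _ hc0 hc hm _ _ hx => LIN_.lip hc0 hc hm hx, LIN_.sum, LIN_.loc⟩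

end STR
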