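import Pool.Agent.STR.TargetsAna
import Pool.Agent.STR.TargetsOpt

/-!
# Project STR: T_NMU, T_NS1, T_NS2
-/

set_option autoImplicit false

namespace STR

namespace NMU_

theorem ends {N : ℕ} {I : DI} (hCCB : T_CCB) (hN : 8 ≤ N) (hOk : Ok N I) {x : ℕ × ℕ × ℕ}
    (hx : CC N I x) : bs N I x ≤ x.2.1 ∧ x.2.1 < x.2.2 ∧ x.2.2 < gs N I x := by
  have h := (hCCB N I hN hOk x hx).1
  exact ⟨h.2.1, h.1, h.2.2.1⟩

theorem eq_of {N : ℕ} {I : DI} (hCCB : T_CCB) (hN : 8 ≤ N) (hOk : Ok N I) {x y : ℕ × ℕ × ℕ}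
    (hx : CC N I x) (hy : CC N I y) (h : x.1 = y.1) (hb : bs N I x = bs N I y) : x = y := by
  have h1 := ends hCCB hN hOk hx
  have h2 := ends hCCB hN hOk hy
  refine (hCCB N I hN hOk x hx).2.2.2.2 y hy h ⟨bs N I x, ⟨le_rfl, by omega⟩, ?_, ?_⟩
  · rw [hb]
  · rw [hb]; omega

theorem sz_le_mu {N : ℕ} {I : DI} (hCCB : T_CCB) (hN : 8 ≤ N) (hOk : Ok N I) {x : ℕ × ℕ × ℕ}
    (hx : CC N I x) : sz N x ≤ mu N I x := by
  have h1 := ends hCCB hN hOk hx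
  unfold sz mu
  refine div_le_div_of_nonneg_right ?_ (Nat.cast_nonneg _)
  exact_mod_cast (show x.2.2 - x.2.1 ≤ gs N I x - bs N I x by omega)

theorem sz_nn (N : ℕ) (x : ℕ × ℕ × ℕ) : 0 ≤ sz N x := by
  unfold sz; positivity

theorem mu_nn (N : ℕ) (I : DI) (x : ℕ × ℕ × ℕ) : 0 ≤ mu N I x := by
  unfold mu; positivity

theorem OO_nn {N : ℕ} {I : DI} {D : ℕ → ℝ} (hON : T_ON) (hN : 8 ≤ N) (hOk : Ok N I)
    (hD : Opt N I D) : 0 ≤ OO N I D :=
  le_trans (Nat.cast_nonneg _) (hON N I D hN hOk hD).2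

theorem Cs_nn (N : ℕ) : 0 ≤ Cs N := by
  unfold Cs; positivity

theorem css {N : ℕ} {I : DI} {D : ℕ → ℝ} (hCSS : T_CSS) (hON : T_ON) (hN : 8 ≤ N) (hOk : Ok N I)
    (hD : Opt N I D) (F : Finset (ℕ × ℕ × ℕ)) (hF : Fam F)
    (h : ∀ x ∈ F, SC N I x.1 x.2.1 x.2.2) : ∑ x ∈ F, sz N x ^ 2 ≤ Cs N * OO N I D := by
  refine (hCSS N I D hN hOk hD F hF h).trans ?_
  refine mul_le_mul_of_nonneg_right ?_ (OO_nn hON hN hOk hD)
  unfold Cs
  have : 0 ≤ ((Mc N : ℝ) * N * 2 ^ kap N) ^ 2 := sq_nonneg _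
  linarith

end NMU_

open NMU_

open Classical in
theorem p_NMU (hBU : T_BU) (hCCB : T_CCB) (hCHN : T_CHN) : T_NMU := by
  intro N I D hN hOk hD k0 L hLv F hF
  have hmaps : ∀ x ∈ F, x.1 ∈ Finset.Ico k0 (k0 + L) := fun x hx =>
    Finset.mem_Ico.mpr ⟨(hF x hx).2.1, (hF x hx).2.2⟩
  rw [← Finset.sum_fiberwise_of_maps_to hmaps]
  have hk : ∀ k ∈ Finset.Ico k0 (k0 + L),
      ∑ x ∈ F.filter (fun x => x.1 = k), mu N I x ^ 2 ≤ Cs N * L * OO N I D := by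
    intro k _
    have hinj : Set.InjOn (bs N I) (F.filter (fun x => x.1 = k) : Finset (ℕ × ℕ × ℕ)) := by
      intro x hx y hy hxy
      simp only [Finset.coe_filter, Set.mem_ofPred_eq] at hx hy
      exact eq_of hCCB hN hOk (hF x hx.1).1 (hF y hy.1).1 (hx.2.trans hy.2.symm) hxy
    have hchn : ∀ x ∈ F, gam N I x.1 (bs N I x) = gs N I x ∧ be N I x.1 (bs N I x) = bs N I x ∧
        (Ak N I x.1 (bs N I x)).Nonempty := by
      intro x hx
      obtain ⟨s, _, _, hs, _⟩ := (hF x hx).1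
      have h := hCHN N I (by omega) hOk x.1 s x.2.1 hs
      exact ⟨h.2.2.2.2.2.2.2, h.2.2.2.2.2.1, h.2.2.2.2.2.2.1⟩
    have hsum : ∑ x ∈ F.filter (fun x => x.1 = k), mu N I x ^ 2 =
        ∑ b ∈ (F.filter (fun x => x.1 = k)).image (bs N I),
          (((gam N I k b - b : ℕ) : ℝ) / (lam N k : ℝ)) ^ 2 := by
      rw [Finset.sum_image hinj]
      refine Finset.sum_congr rfl fun x hx => ?_
      rw [Finset.mem_filter] at hx
      have h := (hchn x hx.1).1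
      rw [hx.2] at h
      unfold mu
      rw [h, hx.2]
    rw [hsum]
    refine hBU N I D hN hOk hD k0 L hLv k _ ?_
    intro b hb
    rw [Finset.mem_image] at hb
    obtain ⟨x, hx, rfl⟩ := hb
    rw [Finset.mem_filter] at hx
    have h := (hchn x hx.1).2
    rw [hx.2] at h
    exact ⟨h.2, h.1⟩
  refine (Finset.sum_le_sum hk).trans (le_of_eq ?_)
  rw [Finset.sum_const, Nat.card_Ico, Nat.add_sub_cancel_left, nsmul_eq_mul]
  ring

open Classical in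
theorem p_NS1 (hCCB : T_CCB) (hCSS : T_CSS) (hON : T_ON) : T_NS1 := by
  intro N I D hN hOk hD F hF
  have hcc : ∀ x ∈ F, CC N I x := fun x hx => (hF x hx).1.1
  have h1 : ∑ x ∈ F, sz N x * mu N I x ≤ ∑ x ∈ F, mu N I x ^ 2 := by
    refine Finset.sum_le_sum fun x hx => ?_
    rw [sq]
    exact mul_le_mul_of_nonneg_right (sz_le_mu hCCB hN hOk (hcc x hx)) (mu_nn N I x)
  have hinj : Set.InjOn (fun x : ℕ × ℕ × ℕ => (x.1, bs N I x, gs N I x)) F := by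
    intro x hx y hy hxy
    simp only [Prod.mk.injEq] at hxy
    exact eq_of hCCB hN hOk (hcc x hx) (hcc y hy) hxy.1 hxy.2.1
  have h2 : ∑ x ∈ F, mu N I x ^ 2 =
      ∑ y ∈ F.image (fun x : ℕ × ℕ × ℕ => (x.1, bs N I x, gs N I x)), sz N y ^ 2 := by
    rw [Finset.sum_image hinj]
    rfl
  refine h1.trans ?_
  rw [h2]
  refine css hCSS hON hN hOk hD _ ?_ ?_
  · intro y hy y' hy' hyy ht
    rw [Finset.mem_image] at hy hy'
    obtain ⟨x, hx, rfl⟩ := hy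
    obtain ⟨x', hx', rfl⟩ := hy'
    have := (hCCB N I hN hOk x (hcc x hx)).2.2.2.2 x' (hcc x' hx') hyy ht
    rw [this]
  · intro y hy
    rw [Finset.mem_image] at hy
    obtain ⟨x, hx, rfl⟩ := hy
    exact (hF x hx).2

theorem p_NS2 (hCCB : T_CCB) (hCSS : T_CSS) (hNMU : T_NMU) (hON : T_ON) : T_NS2 := by
  intro N I D hN hOk hD k0 L hLv F hF
  have hcc : ∀ x ∈ F, CC N I x := fun x hx => (hF x hx).1.1
  have hO := OO_nn hON hN hOk hD
  have hC := Cs_nn N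
  rcases F.eq_empty_or_nonempty with rfl | ⟨x0, hx0⟩
  · rw [Finset.sum_empty]
    positivity
  have hL : (1 : ℝ) ≤ L := by
    have h := (hF x0 hx0).2
    have : 1 ≤ L := by omega
    exact_mod_cast this
  have hLp : (0 : ℝ) < L := by linarith
  have hsz : ∑ x ∈ F, sz N x ^ 2 ≤ Cs N * OO N I D := by
    refine css hCSS hON hN hOk hD F ?_ fun x hx => (hF x hx).2.2.2
    intro x hx y hy hxy ⟨t, ht, ht'⟩
    have e1 := ends hCCB hN hOk (hcc x hx)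
    have e2 := ends hCCB hN hOk (hcc y hy)
    exact (hCCB N I hN hOk x (hcc x hx)).2.2.2.2 y (hcc y hy) hxy
      ⟨t, ⟨by omega, by omega⟩, by omega, by omega⟩
  have hmu : ∑ x ∈ F, mu N I x ^ 2 ≤ Cs N * L * L * OO N I D :=
    hNMU N I D hN hOk hD k0 L hLv F fun x hx => ⟨hcc x hx, (hF x hx).2.1, (hF x hx).2.2.1⟩
  have hpt : ∀ x ∈ F, sz N x * mu N I x ≤ (L / 2) * sz N x ^ 2 + (1 / (2 * L)) * mu N I x ^ 2 := by
    intro x _
    have e : (L / 2) * sz N x ^ 2 + (1 / (2 * L)) * mu N I x ^ 2 - sz N x * mu N I x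
        = (1 / (2 * L)) * (L * sz N x - mu N I x) ^ 2 := by
      field_simp
      ring
    have : 0 ≤ (1 / (2 * (L : ℝ))) * (L * sz N x - mu N I x) ^ 2 := by positivity
    linarith
  calc ∑ x ∈ F, sz N x * mu N I x
      ≤ ∑ x ∈ F, ((L / 2) * sz N x ^ 2 + (1 / (2 * L)) * mu N I x ^ 2) := Finset.sum_le_sum hpt
    _ = (L / 2) * ∑ x ∈ F, sz N x ^ 2 + (1 / (2 * L)) * ∑ x ∈ F, mu N I x ^ 2 := by
        rw [Finset.sum_add_distrib, Finset.mul_sum, Finset.mul_sum]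
    _ ≤ (L / 2) * (Cs N * OO N I D) + (1 / (2 * L)) * (Cs N * L * L * OO N I D) := by
        have h1 : (0 : ℝ) ≤ L / 2 := by positivity
        have h2 : (0 : ℝ) ≤ 1 / (2 * L) := by positivity
        exact add_le_add (mul_le_mul_of_nonneg_left hsz h1) (mul_le_mul_of_nonneg_left hmu h2)
    _ = Cs N * L * OO N I D := by
        field_simp
        ring

end STR
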